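import Pool.Agent.H82.LM.Clos

/-!
# Row Big: big-step semantics of oracle programs, frame property

PROOFS.
* `Big.exec`: induction on `Big`, as in the theorems `Exec.seq`, `exec_cond_cons`, ... of
  Pool/Agent/H9/Run.lean.
* `big_of_run`: strong induction on the number of steps `t`, for lists of programs: if
  `(step A)^[t] (l, s) = ([], s')` then `BigL A l s s' m` for some `m ≤ t` (`BigL` is the relation for
  lists of programs: `nil`, `cons`; decompose according to the first program of the list: `seq p q :: k`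
  goes in one step to `p :: q :: k`, and `BigL (p :: q :: k)` gives `Big p`, `Big q`, `BigL k`; a
  loop with nonempty stack goes to `p :: loop i p :: k`; etc.).
* `big_of_exec`: apply the step equation of `Exec` with `k = []`, then `big_of_run` for `l = [p]`.
  (This gives some `m ≤ N`, which is all that is claimed.)
* `Big.length`: induction.
* `Big.frame`: induction; all stacks used have numbers `< W`, `Function.update` commutes with `mix`.
* `exists_below`: induction on `p`, maximum of the bounds (`Below.mono`).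
-/

set_option autoImplicit false

namespace Pool.Agent.H82.LM

open Pool.Agent.H9 Pool.Agent.H83

/-- Big-step semantics: `p` started in memory `s` ends in memory `s'` after exactly `n` steps. -/
inductive Big (A : Oracle) : Prog → (ℕ → List Bool) → (ℕ → List Bool) → ℕ → Prop
  | skip (s : ℕ → List Bool) : Big A .skip s s 1
  | push (i : ℕ) (b : Bool) (s : ℕ → List Bool) :
      Big A (.push i b) s (Function.update s i (b :: s i)) 1
  | pop (i : ℕ) (s : ℕ → List Bool) : Big A (.pop i) s (Function.update s i (s i).tail) 1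
  | seq {p q : Prog} {s s' s'' : ℕ → List Bool} {n m : ℕ} :
      Big A p s s' n → Big A q s' s'' m → Big A (.seq p q) s s'' (n + m + 1)
  | condN {i : ℕ} {p q r : Prog} {s s' : ℕ → List Bool} {n : ℕ} (h : s i = []) :
      Big A p s s' n → Big A (.cond i p q r) s s' (n + 1)
  | condF {i : ℕ} {p q r : Prog} {s s' : ℕ → List Bool} {n : ℕ} {l : List Bool}
      (h : s i = false :: l) : Big A q s s' n → Big A (.cond i p q r) s s' (n + 1)
  | condT {i : ℕ} {p q r : Prog} {s s' : ℕ → List Bool} {n : ℕ} {l : List Bool}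
      (h : s i = true :: l) : Big A r s s' n → Big A (.cond i p q r) s s' (n + 1)
  | loopN {i : ℕ} {p : Prog} {s : ℕ → List Bool} (h : s i = []) : Big A (.loop i p) s s 1
  | loopC {i : ℕ} {p : Prog} {s s' s'' : ℕ → List Bool} {n m : ℕ} {b : Bool} {l : List Bool}
      (h : s i = b :: l) : Big A p s s' n → Big A (.loop i p) s' s'' m →
      Big A (.loop i p) s s'' (n + m + 1)
  | askT {i : ℕ} {p q : Prog} {s s' : ℕ → List Bool} {n : ℕ} (h : A (s i) = true) :
      Big A p s s' n → Big A (.ask i p q) s s' (n + 1)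
  | askF {i : ℕ} {p q : Prog} {s s' : ℕ → List Bool} {n : ℕ} (h : A (s i) = false) :
      Big A q s s' n → Big A (.ask i p q) s s' (n + 1)

theorem Big.exec {A : Oracle} {p : Prog} {s s' : ℕ → List Bool} {n : ℕ} (h : Big A p s s' n) :
    Exec A p s s' n := by
  induction h with
  | skip s => exact exec_skip A s
  | push i b s => exact exec_push A s i b
  | pop i s => exact exec_pop A s i
  | seq _ _ ih1 ih2 => exact ih1.seq ih2
  | condN h _ ih => exact exec_cond_nil h ih
  | condF h _ ih => exact exec_cond_cons (b := false) h ih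
  | condT h _ ih => exact exec_cond_cons (b := true) h ih
  | loopN h => exact exec_loop_nil h
  | loopC h _ _ ih1 ih2 => exact exec_loop_cons h ih1 ih2
  | askT h _ ih =>
    refine exec_ask ?_
    rw [if_pos h]
    exact ih
  | askF h _ ih =>
    refine exec_ask ?_
    rw [if_neg (by rw [h]; exact Bool.false_ne_true)]
    exact ih

/-- Big-step semantics for lists of programs. -/
private inductive Big_L (A : Oracle) : List Prog → (ℕ → List Bool) → (ℕ → List Bool) → ℕ → Prop
  | nil (s : ℕ → List Bool) : Big_L A [] s s 0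
  | cons {p : Prog} {k : List Prog} {s s' s'' : ℕ → List Bool} {n m : ℕ} :
      Big A p s s' n → Big_L A k s' s'' m → Big_L A (p :: k) s s'' (n + m)

private theorem Big_inv {A : Oracle} {p : Prog} {k : List Prog} {s s'' : ℕ → List Bool} {n : ℕ}
    (h : Big_L A (p :: k) s s'' n) :
    ∃ s' a b, Big A p s s' a ∧ Big_L A k s' s'' b ∧ n = a + b := by
  cases h with
  | cons h1 h2 => exact ⟨_, _, _, h1, h2, rfl⟩

private theorem Big_one {A : Oracle} {p : Prog} {k : List Prog} {s s1 s' : ℕ → List Bool}
    {t m n : ℕ} (h : Big A p s s1 n) (h' : Big_L A k s1 s' m) (hn : n + m ≤ t) :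
    ∃ m ≤ t, Big_L A (p :: k) s s' m := ⟨n + m, hn, Big_L.cons h h'⟩

private theorem Big_run {A : Oracle} : ∀ (t : ℕ) (l : List Prog) (s s' : ℕ → List Bool),
    (step A)^[t] (l, s) = ([], s') → ∃ m ≤ t, Big_L A l s s' m := by
  intro t
  induction t with
  | zero =>
    intro l s s' h
    have h' : (l, s) = (([] : List Prog), s') := h
    rw [Prod.mk.injEq] at h'
    obtain ⟨rfl, rfl⟩ := h'
    exact ⟨0, le_rfl, Big_L.nil s⟩
  | succ t ih =>
    intro l s s' h
    rw [Function.iterate_succ_apply] at h
    match l with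
    | [] =>
      rw [step_halted] at h
      obtain ⟨m, hm, h1⟩ := ih _ _ _ h
      exact ⟨m, by omega, h1⟩
    | Prog.skip :: k =>
      obtain ⟨m, hm, h1⟩ := ih k s s' h
      exact Big_one (Big.skip s) h1 (by omega)
    | Prog.push i b :: k =>
      obtain ⟨m, hm, h1⟩ := ih k _ s' h
      exact Big_one (Big.push i b s) h1 (by omega)
    | Prog.pop i :: k =>
      obtain ⟨m, hm, h1⟩ := ih k _ s' h
      exact Big_one (Big.pop i s) h1 (by omega)
    | Prog.seq p q :: k =>
      obtain ⟨m, hm, h1⟩ := ih (p :: q :: k) s s' h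
      obtain ⟨s1, a, b, h2, h3, hab⟩ := Big_inv h1
      obtain ⟨s2, c, d, h4, h5, hcd⟩ := Big_inv h3
      exact Big_one (Big.seq h2 h4) h5 (by omega)
    | Prog.cond i p q r :: k =>
      match hsi : s i with
      | [] =>
        have h0 : step A (Prog.cond i p q r :: k, s) = (p :: k, s) := by simp [step, hsi]
        rw [h0] at h
        obtain ⟨m, hm, h1⟩ := ih _ _ _ h
        obtain ⟨s1, a, b, h2, h3, hab⟩ := Big_inv h1
        exact Big_one (Big.condN hsi h2) h3 (by omega)
      | false :: l =>
        have h0 : step A (Prog.cond i p q r :: k, s) = (q :: k, s) := by simp [step, hsi]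
        rw [h0] at h
        obtain ⟨m, hm, h1⟩ := ih _ _ _ h
        obtain ⟨s1, a, b, h2, h3, hab⟩ := Big_inv h1
        exact Big_one (Big.condF hsi h2) h3 (by omega)
      | true :: l =>
        have h0 : step A (Prog.cond i p q r :: k, s) = (r :: k, s) := by simp [step, hsi]
        rw [h0] at h
        obtain ⟨m, hm, h1⟩ := ih _ _ _ h
        obtain ⟨s1, a, b, h2, h3, hab⟩ := Big_inv h1
        exact Big_one (Big.condT hsi h2) h3 (by omega)
    | Prog.loop i p :: k =>
      match hsi : s i with
      | [] =>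
        have h0 : step A (Prog.loop i p :: k, s) = (k, s) := by simp [step, hsi]
        rw [h0] at h
        obtain ⟨m, hm, h1⟩ := ih _ _ _ h
        exact Big_one (Big.loopN hsi) h1 (by omega)
      | b :: l =>
        have h0 : step A (Prog.loop i p :: k, s) = (p :: Prog.loop i p :: k, s) := by
          simp [step, hsi]
        rw [h0] at h
        obtain ⟨m, hm, h1⟩ := ih _ _ _ h
        obtain ⟨s1, a, b', h2, h3, hab⟩ := Big_inv h1
        obtain ⟨s2, c, d, h4, h5, hcd⟩ := Big_inv h3
        exact Big_one (Big.loopC hsi h2 h4) h5 (by omega)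
    | Prog.ask i p q :: k =>
      by_cases hA : A (s i) = true
      · have h0 : step A (Prog.ask i p q :: k, s) = (p :: k, s) := by simp [step, hA]
        rw [h0] at h
        obtain ⟨m, hm, h1⟩ := ih _ _ _ h
        obtain ⟨s1, a, b, h2, h3, hab⟩ := Big_inv h1
        exact Big_one (Big.askT hA h2) h3 (by omega)
      · have hA' : A (s i) = false := Bool.eq_false_of_not_eq_true hA
        have h0 : step A (Prog.ask i p q :: k, s) = (q :: k, s) := by simp [step, hA']
        rw [h0] at h
        obtain ⟨m, hm, h1⟩ := ih _ _ _ h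
        obtain ⟨s1, a, b, h2, h3, hab⟩ := Big_inv h1
        exact Big_one (Big.askF hA' h2) h3 (by omega)

theorem big_of_run {A : Oracle} {p : Prog} {s s' : ℕ → List Bool} {t : ℕ}
    (h : (step A)^[t] ([p], s) = ([], s')) : ∃ n ≤ t, Big A p s s' n := by
  obtain ⟨m, hm, h1⟩ := Big_run t _ _ _ h
  obtain ⟨s1, a, b, h2, h3, hab⟩ := Big_inv h1
  cases h3
  exact ⟨a, by omega, h2⟩

theorem big_of_exec {A : Oracle} {p : Prog} {s s' : ℕ → List Bool} {N : ℕ}
    (h : Exec A p s s' N) : ∃ n ≤ N, Big A p s s' n := by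
  obtain ⟨n, hn, h1⟩ := h
  obtain ⟨m, hm, h2⟩ := big_of_run (h1 [])
  exact ⟨m, hm.trans hn, h2⟩

theorem Big.length {A : Oracle} {p : Prog} {s s' : ℕ → List Bool} {n : ℕ} (h : Big A p s s' n)
    (i : ℕ) : (s' i).length ≤ (s i).length + n := by
  induction h with
  | skip s => omega
  | push j b s =>
    by_cases hj : i = j
    · subst hj
      rw [Function.update_self, List.length_cons]
    · rw [Function.update_of_ne hj]
      omega
  | pop j s =>
    by_cases hj : i = j
    · subst hj
      rw [Function.update_self, List.length_tail]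
      omega
    · rw [Function.update_of_ne hj]
      omega
  | seq _ _ ih1 ih2 => omega
  | condN h _ ih => omega
  | condF h _ ih => omega
  | condT h _ ih => omega
  | loopN h => omega
  | loopC h _ _ ih1 ih2 => omega
  | askT h _ ih => omega
  | askF h _ ih => omega

/-- All stacks used by the program have numbers `< W`. -/
def Below (W : ℕ) : Prog → Prop
  | .skip => True
  | .push i _ => i < W
  | .pop i => i < W
  | .seq p q => Below W p ∧ Below W q
  | .cond i p q r => i < W ∧ Below W p ∧ Below W q ∧ Below W r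
  | .loop i p => i < W ∧ Below W p
  | .ask i p q => i < W ∧ Below W p ∧ Below W q

theorem Below.mono {W W' : ℕ} (h : W ≤ W') : ∀ {p : Prog}, Below W p → Below W' p := by
  intro p
  induction p with
  | skip => exact fun _ => trivial
  | push i b => exact fun hp => lt_of_lt_of_le hp h
  | pop i => exact fun hp => lt_of_lt_of_le hp h
  | seq p q ih1 ih2 => exact fun hp => ⟨ih1 hp.1, ih2 hp.2⟩
  | cond i p q r ih1 ih2 ih3 =>
    exact fun hp => ⟨lt_of_lt_of_le hp.1 h, ih1 hp.2.1, ih2 hp.2.2.1, ih3 hp.2.2.2⟩
  | loop i p ih => exact fun hp => ⟨lt_of_lt_of_le hp.1 h, ih hp.2⟩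
  | ask i p q ih1 ih2 => exact fun hp => ⟨lt_of_lt_of_le hp.1 h, ih1 hp.2.1, ih2 hp.2.2⟩

theorem exists_below (p : Prog) : ∃ W, Below W p := by
  induction p with
  | skip => exact ⟨0, trivial⟩
  | push i b => exact ⟨i + 1, Nat.lt_succ_self i⟩
  | pop i => exact ⟨i + 1, Nat.lt_succ_self i⟩
  | seq p q ih1 ih2 =>
    obtain ⟨W1, h1⟩ := ih1
    obtain ⟨W2, h2⟩ := ih2
    exact ⟨W1 + W2, h1.mono (by omega), h2.mono (by omega)⟩
  | cond i p q r ih1 ih2 ih3 =>
    obtain ⟨W1, h1⟩ := ih1
    obtain ⟨W2, h2⟩ := ih2
    obtain ⟨W3, h3⟩ := ih3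
    exact ⟨i + 1 + W1 + W2 + W3, (by omega : i < i + 1 + W1 + W2 + W3), h1.mono (by omega),
      h2.mono (by omega), h3.mono (by omega)⟩
  | loop i p ih =>
    obtain ⟨W1, h1⟩ := ih
    exact ⟨i + 1 + W1, (by omega : i < i + 1 + W1), h1.mono (by omega)⟩
  | ask i p q ih1 ih2 =>
    obtain ⟨W1, h1⟩ := ih1
    obtain ⟨W2, h2⟩ := ih2
    exact ⟨i + 1 + W1 + W2, (by omega : i < i + 1 + W1 + W2), h1.mono (by omega),
      h2.mono (by omega)⟩

/-- The memory which agrees with `s` below `W` and with `t` from `W` on. -/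
def mix (W : ℕ) (s t : ℕ → List Bool) : ℕ → List Bool := fun i => if i < W then s i else t i

private theorem Big_mix {W i : ℕ} (hi : i < W) (s t : ℕ → List Bool) : mix W s t i = s i :=
  if_pos hi

private theorem Big_upd {W i : ℕ} (hi : i < W) (s t : ℕ → List Bool) (v : List Bool) :
    Function.update (mix W s t) i v = mix W (Function.update s i v) t := by
  funext j
  by_cases hj : j = i
  · subst hj
    rw [Function.update_self, Big_mix hi, Function.update_self]
  · rw [Function.update_of_ne hj]
    unfold mix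
    rw [Function.update_of_ne hj]

theorem Big.frame {A : Oracle} {W : ℕ} {p : Prog} {s s' : ℕ → List Bool} {n : ℕ}
    (h : Big A p s s' n) (hp : Below W p) (t : ℕ → List Bool) :
    Big A p (mix W s t) (mix W s' t) n := by
  induction h with
  | skip s => exact Big.skip _
  | push i b s =>
    have hi : i < W := hp
    have h1 := Big.push (A := A) i b (mix W s t)
    rwa [Big_mix hi, Big_upd hi] at h1
  | pop i s =>
    have hi : i < W := hp
    have h1 := Big.pop (A := A) i (mix W s t)
    rwa [Big_mix hi, Big_upd hi] at h1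
  | seq _ _ ih1 ih2 => exact Big.seq (ih1 hp.1) (ih2 hp.2)
  | condN h _ ih => exact Big.condN (by rw [Big_mix hp.1]; exact h) (ih hp.2.1)
  | condF h _ ih => exact Big.condF (by rw [Big_mix hp.1]; exact h) (ih hp.2.2.1)
  | condT h _ ih => exact Big.condT (by rw [Big_mix hp.1]; exact h) (ih hp.2.2.2)
  | loopN h => exact Big.loopN (by rw [Big_mix hp.1]; exact h)
  | loopC h _ _ ih1 ih2 =>
    exact Big.loopC (by rw [Big_mix hp.1]; exact h) (ih1 hp.2) (ih2 hp)
  | askT h _ ih => exact Big.askT (by rw [Big_mix hp.1]; exact h) (ih hp.2.1)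
  | askF h _ ih => exact Big.askF (by rw [Big_mix hp.1]; exact h) (ih hp.2.2)

/-- Frame property of executions. -/
theorem Exec.frame {A : Oracle} {W : ℕ} {p : Prog} {s s' : ℕ → List Bool} {N : ℕ}
    (h : Exec A p s s' N) (hp : Below W p) (t : ℕ → List Bool) :
    Exec A p (mix W s t) (mix W s' t) N := by
  obtain ⟨n, hn, h'⟩ := big_of_exec h
  exact (h'.frame hp t).exec.mono hn

/-- A program leaves the stacks that it does not use unchanged. -/
theorem Big.above {A : Oracle} {W : ℕ} {p : Prog} {s s' : ℕ → List Bool} {n : ℕ}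
    (h : Big A p s s' n) (hp : Below W p) {i : ℕ} (hi : W ≤ i) : s' i = s i := by
  induction h with
  | skip s => rfl
  | push j b s =>
    have hj : j < W := hp
    exact Function.update_of_ne (by omega) _ _
  | pop j s =>
    have hj : j < W := hp
    exact Function.update_of_ne (by omega) _ _
  | seq _ _ ih1 ih2 => exact (ih2 hp.2).trans (ih1 hp.1)
  | condN h _ ih => exact ih hp.2.1
  | condF h _ ih => exact ih hp.2.2.1
  | condT h _ ih => exact ih hp.2.2.2
  | loopN h => rfl
  | loopC h _ _ ih1 ih2 => exact (ih2 hp).trans (ih1 hp.2)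
  | askT h _ ih => exact ih hp.2.1
  | askF h _ ih => exact ih hp.2.2

end Pool.Agent.H82.LM
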