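import Pool.Agent.H82.LM.PolyStr

/-!
# Row Bval: binary values of words, the enumeration `z`

PROOFS. `bval_lt`, `bval_append_single`: induction. `bval_inj`: by induction on the length, using
`bval_lt`. `bval_surj`: induction on `m`, first bit `decide (2 ^ m ≤ N)`. `z_spec`: strong induction
with `z (n + 1) = z (n / 2) ++ [decide (n % 2 = 1)]` (equation of `z`) and
`bval (l ++ [b]) = 2 * bval l + b.toNat`. `z_inj`: from `z_spec`. `bval_cons_inj`: `bval (true :: w)`
is in `[2 ^ |w|, 2 ^ (|w| + 1))`, so it determines `|w|`, then `bval_inj`. `z_surj`: `w` is
`z (bval (true :: w) - 1)`. `z_pow_sub`, `z_pow`: `bval_cons_inj`.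
-/

set_option autoImplicit false

namespace Pool.Agent.H82.LM

open Pool.Agent.H9 Pool.Agent.H83

/-- The binary value of a word, most significant bit first. -/
def bval : List Bool → ℕ
  | [] => 0
  | b :: l => b.toNat * 2 ^ l.length + bval l

theorem bval_lt (l : List Bool) : bval l < 2 ^ l.length := by
  induction l with
  | nil => simp [bval]
  | cons b l ih =>
    rw [bval, List.length_cons, pow_succ]
    have h1 : b.toNat ≤ 1 := Bool.toNat_le b
    have h2 : b.toNat * 2 ^ l.length ≤ 1 * 2 ^ l.length := Nat.mul_le_mul_right _ h1
    omega

theorem bval_append_single (l : List Bool) (b : Bool) : bval (l ++ [b]) = 2 * bval l + b.toNat := by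
  induction l with
  | nil => simp [bval]
  | cons c l ih =>
    rw [List.cons_append, bval, ih, bval, List.length_append, List.length_singleton, pow_succ]
    ring

theorem bval_inj {l l' : List Bool} (h : l.length = l'.length) (h' : bval l = bval l') : l = l' := by
  induction l generalizing l' with
  | nil =>
    cases l' with
    | nil => rfl
    | cons b l' => simp at h
  | cons a l ih =>
    cases l' with
    | nil => simp at h
    | cons b l' =>
      have hl : l.length = l'.length := by simpa using h
      have h1 := bval_lt l
      have h2 := bval_lt l'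
      rw [bval, bval, ← hl] at h'
      rw [← hl] at h2
      cases a <;> cases b
      · simp only [Bool.toNat_false, zero_mul, zero_add] at h'
        rw [ih hl h']
      · simp only [Bool.toNat_false, Bool.toNat_true, zero_mul, zero_add, one_mul] at h'
        omega
      · simp only [Bool.toNat_false, Bool.toNat_true, zero_mul, zero_add, one_mul] at h'
        omega
      · simp only [Bool.toNat_true, one_mul] at h'
        rw [ih hl (by omega)]

theorem bval_surj {m N : ℕ} (h : N < 2 ^ m) : ∃ l : List Bool, l.length = m ∧ bval l = N := by
  induction m generalizing N with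
  | zero =>
    refine ⟨[], rfl, ?_⟩
    rw [bval]
    rw [pow_zero] at h
    omega
  | succ m ih =>
    rw [pow_succ] at h
    by_cases h1 : N < 2 ^ m
    · obtain ⟨l, hl, hN⟩ := ih h1
      exact ⟨false :: l, by simp [hl], by simp [bval, hN]⟩
    · obtain ⟨l, hl, hN⟩ := ih (N := N - 2 ^ m) (by omega)
      refine ⟨true :: l, by simp [hl], ?_⟩
      rw [bval, hN, hl, Bool.toNat_true]
      omega

theorem bval_cons_inj {w w' : List Bool} (h : bval (true :: w) = bval (true :: w')) : w = w' := by
  have key : ∀ {v v' : List Bool}, bval (true :: v) = bval (true :: v') → ¬ v.length < v'.length := by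
    intro v v' h hlt
    have h1 := bval_lt v
    have h2 : 2 ^ (v.length + 1) ≤ 2 ^ v'.length := Nat.pow_le_pow_right (by norm_num) hlt
    rw [bval, bval, Bool.toNat_true, one_mul, one_mul] at h
    rw [pow_succ] at h2
    omega
  have hl : w.length = w'.length := by
    have h1 := key h
    have h2 := key h.symm
    omega
  apply bval_inj hl
  rw [bval, bval, hl] at h
  omega

theorem bval_zero_iff (l : List Bool) : bval l = 0 ↔ l.all (fun b => !b) = true := by
  induction l with
  | nil => simp [bval]
  | cons b l ih =>
    rw [bval, List.all_cons]
    cases b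
    · simpa using ih
    · simp

theorem z_spec (n : ℕ) : bval (true :: z n) = n + 1 := by
  induction n using Nat.strong_induction_on with
  | _ n ih =>
    cases n with
    | zero => simp [z, bval]
    | succ n =>
      rw [z, ← List.cons_append, bval_append_single, ih (n / 2) (by omega)]
      rcases Nat.mod_two_eq_zero_or_one n with h | h
      · rw [h]
        simp
        omega
      · rw [h]
        simp
        omega

theorem z_inj : Function.Injective z := by
  intro a b h
  have h1 := z_spec a
  rw [h, z_spec b] at h1
  omega

theorem z_surj (w : List Bool) : ∃ n, z n = w := by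
  have h0 : 0 < bval (true :: w) := by
    rw [bval, Bool.toNat_true, one_mul]
    have := Nat.two_pow_pos w.length
    omega
  refine ⟨bval (true :: w) - 1, bval_cons_inj ?_⟩
  rw [z_spec]
  omega

theorem Bval_rep (M : ℕ) : bval (List.replicate M false) = 0 := by
  rw [bval_zero_iff]
  simp

theorem z_pow_sub (M : ℕ) : z (2 ^ M - 1) = List.replicate M false := by
  apply bval_cons_inj
  rw [z_spec, bval, Bval_rep, List.length_replicate, Bool.toNat_true]
  have := Nat.two_pow_pos M
  omega

theorem z_pow (M : ℕ) : z (2 ^ (M + 1)) = List.replicate M false ++ [true] := by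
  apply bval_cons_inj
  rw [z_spec, ← List.cons_append, bval_append_single, bval, Bval_rep, List.length_replicate,
    Bool.toNat_true, pow_succ]
  omega

end Pool.Agent.H82.LM
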