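import Pool.Agent.H82.LM.StripB

/-!
# Row CardI: counting words

PROOFS. `bval` is injective on words of length `c` with image `[0, 2 ^ c)` (`bval_inj`,
`bval_surj`, `bval_lt`, `mem_strings` of Pool/Agent/H9/Hier.lean), and `bval (true :: z K) = K + 1`
(`z_spec`). `card_inn`: the words counted have the values `1, ..., K`. `card_inn_sdiff`: the values
`n + 1, ..., K`. `card_rank`: `w ↦ bval (true :: w)` is a bijection from all words to the positive
integers (`z_spec`, `z_surj`, `bval_cons_inj`), so `R` is the image of `range r` under `z`.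
-/

set_option autoImplicit false

namespace Pool.Agent.H82.LM

open Pool.Agent.H9 Pool.Agent.H83

/-- The index `i` is among the first `K` positive indices, where `w = z K`. -/
def Inn (i w : List Bool) : Prop := 0 < bval i ∧ bval i < bval (true :: w)

theorem CardI_aux {c K a : ℕ} (h : K < 2 ^ c) (P : List Bool → Prop) [DecidablePred P]
    (hP : ∀ i, P i ↔ a ≤ bval i ∧ bval i ≤ K) :
    ((strings c).filter P).card = K + 1 - a := by
  have h1 : ((strings c).filter P).image bval = Finset.Icc a K := by
    ext x
    rw [Finset.mem_image, Finset.mem_Icc]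
    constructor
    · rintro ⟨i, hi, rfl⟩
      exact (hP i).1 (Finset.mem_filter.1 hi).2
    · intro hx
      obtain ⟨l, hl, hlx⟩ := bval_surj (lt_of_le_of_lt hx.2 h)
      refine ⟨l, Finset.mem_filter.2 ⟨mem_strings.2 hl, (hP l).2 ?_⟩, hlx⟩
      rw [hlx]
      exact hx
  rw [← Nat.card_Icc, ← h1, Finset.card_image_of_injOn]
  intro i hi j hj hij
  have hi' := mem_strings.1 (Finset.mem_filter.1 hi).1
  have hj' := mem_strings.1 (Finset.mem_filter.1 hj).1
  exact bval_inj (hi'.trans hj'.symm) hij

open Classical in
theorem card_inn {c K : ℕ} (h : K < 2 ^ c) :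
    ((strings c).filter (fun i => Inn i (z K))).card = K := by
  rw [CardI_aux (a := 1) h (fun i => Inn i (z K)) (fun i => by
    unfold Inn
    rw [z_spec]
    omega)]
  omega

open Classical in
theorem card_inn_sdiff {c K n : ℕ} (h : K < 2 ^ c) :
    ((strings c).filter (fun i => Inn i (z K) ∧ ¬ Inn i (z n))).card = K - n := by
  rw [CardI_aux (a := n + 1) h (fun i => Inn i (z K) ∧ ¬ Inn i (z n)) (fun i => by
    unfold Inn
    rw [z_spec, z_spec]
    omega)]
  omega

/-- The words of rank at most `r`. -/
theorem card_rank (r : ℕ) : ∃ R : Finset (List Bool), R.card = r ∧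
    ∀ w : List Bool, w ∈ R ↔ bval (true :: w) ≤ r := by
  classical
  refine ⟨(Finset.range r).image z, ?_, fun w => ?_⟩
  · rw [Finset.card_image_of_injective _ z_inj, Finset.card_range]
  · rw [Finset.mem_image]
    constructor
    · rintro ⟨n, hn, rfl⟩
      rw [z_spec]
      exact Finset.mem_range.1 hn
    · intro hw
      obtain ⟨n, rfl⟩ := z_surj w
      rw [z_spec] at hw
      exact ⟨n, Finset.mem_range.2 hw, rfl⟩

end Pool.Agent.H82.LM
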