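import Pool.Agent.H82.LM.Trans

/-!
# Row Clos: closure properties of `OP`

PROOFS (compare Pool/Agent/H83/Poly.lean, theorems size_le, exists_prog, comp, pair, cond).
* `length_exec`: one step lengthens a stack by at most one symbol; induction on the number of steps.
* `OP.size_le` (uniform in `A ∈ S`): `Exec` from `st (str a)` to `st (str (f A a))` in `N (sz a)`
  steps, so `sz (f A a) ≤ sz a + N (sz a)`, `(str a).length = sz a` is `length_str`; use
  `PB.exists_mono`.
* `OP.exists_prog`: replace `N` by a monotone bound (`PB.exists_mono`).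
* `OP.comp`: `seq P Q`, time `N n + M (b n) + 1`.
* `OP.pair`: let `D1` be a program for `a ↦ (a, a)` (`OP.of_poly (Poly.id.pair Poly.id)`) followed by
  `pop 0`; by `str (a, b) = true :: (str a ++ str b)` (`Poly.str_pair`) it turns `str a ++ rest` into
  `str a ++ (str a ++ rest)`. Let `E` be a program for the exchange `(a, b) ↦ (b, a)` on the product
  types needed (`OP.of_poly (Poly.snd.pair Poly.fst)`). The program is: `D1; P; push 0 true; E1;
  pop 0; Q; push 0 true; E2` : after `P` the stack is `str (f a) ++ (str a ++ rest)`, with `true` on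
  top it is `str (f a, a) ++ rest`, `E1` gives `str (a, f a) ++ rest`, `pop 0`, `Q` gives
  `str (g a) ++ (str (f a) ++ rest)`, `push 0 true` gives `str (g a, f a) ++ rest`, and `E2` gives
  `str (f a, g a) ++ rest`.
* the rest: compose a `Poly` function with `pair`.
-/

set_option autoImplicit false

namespace Pool.Agent.H82.LM

open Pool.Agent.H9 Pool.Agent.H83

variable {α β γ σ τ : Type} [Enc α] [Enc β] [Enc γ] [Enc σ] [Enc τ] {S : Set Oracle}

theorem length_step (A : Oracle) (c : Cfg) (i : ℕ) :
    ((step A c).2 i).length ≤ (c.2 i).length + 1 := by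
  obtain ⟨_ | ⟨p, k⟩, s⟩ := c
  · exact Nat.le_succ _
  · cases p with
    | skip => exact Nat.le_succ _
    | push j b =>
      change (Function.update s j (b :: s j) i).length ≤ (s i).length + 1
      by_cases h : i = j
      · subst h
        simp
      · rw [Function.update_of_ne h]
        exact Nat.le_succ _
    | pop j =>
      change (Function.update s j (s j).tail i).length ≤ (s i).length + 1
      by_cases h : i = j
      · subst h
        simp
        omega
      · rw [Function.update_of_ne h]
        exact Nat.le_succ _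
    | seq p q => exact Nat.le_succ _
    | cond j p q r =>
      change ((step A (Prog.cond j p q r :: k, s)).2 i).length ≤ (s i).length + 1
      rcases h : s j with _ | ⟨_ | _, _⟩ <;> simp [step, h]
    | loop j p =>
      change ((step A (Prog.loop j p :: k, s)).2 i).length ≤ (s i).length + 1
      rcases h : s j with _ | ⟨_, _⟩ <;> simp [step, h]
    | ask j p q =>
      change ((step A (Prog.ask j p q :: k, s)).2 i).length ≤ (s i).length + 1
      by_cases h : A (s j) = true <;> simp [step, h]

theorem Clos_iter (A : Oracle) (i : ℕ) (n : ℕ) : ∀ c : Cfg,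
    (((step A)^[n] c).2 i).length ≤ (c.2 i).length + n := by
  induction n with
  | zero => intro c; exact le_rfl
  | succ n ih =>
    intro c
    rw [Function.iterate_succ_apply]
    have h1 := ih (step A c)
    have h2 := length_step A c i
    omega

theorem length_exec {A : Oracle} {p : Prog} {s s' : ℕ → List Bool} {N : ℕ}
    (h : Exec A p s s' N) (i : ℕ) : (s' i).length ≤ (s i).length + N := by
  obtain ⟨n, hn, h⟩ := h
  have h1 := Clos_iter A i n ([p], s)
  rw [h []] at h1
  simp only at h1
  omega

theorem OP.size_le {f : Oracle → α → β} (hf : OP S f) :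
    ∃ g : ℕ → ℕ, PB g ∧ Monotone g ∧ ∀ A ∈ S, ∀ a, sz (f A a) ≤ g (sz a) := by
  obtain ⟨P, N, hN, h⟩ := hf
  obtain ⟨g, hg, hgm, hNg⟩ := hN.exists_mono
  refine ⟨fun n => n + g n, PB.id.add hg, fun a b hab => Nat.add_le_add hab (hgm hab),
    fun A hA t => ?_⟩
  have h1 := length_exec (h A hA t []) 0
  have h2 := hNg (sz t)
  change (str (f A t) ++ []).length ≤ (str t ++ []).length + N (sz t) at h1
  simp only [List.append_nil, length_str] at h1
  show sz (f A t) ≤ sz t + g (sz t)
  omega

theorem OP.exists_prog {f : Oracle → α → β} (hf : OP S f) :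
    ∃ (P : Prog) (N : ℕ → ℕ), PB N ∧ Monotone N ∧ ∀ A ∈ S, ∀ (a : α) (rest : List Bool),
      Exec A P (st (str a ++ rest)) (st (str (f A a) ++ rest)) (N (sz a)) := by
  obtain ⟨P, N, hN, h⟩ := hf
  obtain ⟨g, hg, hgm, hNg⟩ := hN.exists_mono
  exact ⟨P, g, hg, hgm, fun A hA a rest => (h A hA a rest).mono (hNg _)⟩

theorem OP.congr {f g : Oracle → α → β} (hf : OP S f) (h : ∀ A ∈ S, ∀ a, f A a = g A a) :
    OP S g := by
  obtain ⟨P, N, hN, h'⟩ := hf
  refine ⟨P, N, hN, fun A hA a rest => ?_⟩
  rw [← h A hA a]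
  exact h' A hA a rest

theorem OP.mono {R : Set Oracle} {f : Oracle → α → β} (hf : OP S f) (h : R ⊆ S) : OP R f := by
  obtain ⟨P, N, hN, h'⟩ := hf
  exact ⟨P, N, hN, fun A hA a rest => h' A (h hA) a rest⟩

theorem OP.comp {f : Oracle → α → β} {g : Oracle → β → γ} (hg : OP S g) (hf : OP S f) :
    OP S (fun A a => g A (f A a)) := by
  obtain ⟨P, N, hN, hNm, hP⟩ := hf.exists_prog
  obtain ⟨Q, M, hM, hMm, hQ⟩ := hg.exists_prog
  obtain ⟨b, hb, hbm, hfb⟩ := hf.size_le
  refine ⟨.seq P Q, fun n => N n + M (b n) + 1, (hN.add (hM.comp hb)).add (PB.const 1),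
    fun A hA a rest => ?_⟩
  exact ((hP A hA a rest).seq (hQ A hA (f A a) rest)).mono
    (Nat.add_le_add_right (Nat.add_le_add_left (hMm (hfb A hA a)) _) _)

theorem Clos_st (l l' : List Bool) : Function.update (st l) 0 l' = st l' := by
  funext i
  by_cases h : i = 0
  · subst h
    simp [st]
  · rw [Function.update_of_ne h]
    simp [st, h]

theorem Clos_push (A : Oracle) (b : Bool) (l : List Bool) :
    Exec A (Prog.push 0 b) (st l) (st (b :: l)) 1 := by
  have h := exec_push A (st l) 0 b
  rw [Clos_st] at h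
  exact h

theorem Clos_pop (A : Oracle) (b : Bool) (l : List Bool) :
    Exec A (Prog.pop 0) (st (b :: l)) (st l) 1 := by
  have h := exec_pop A (st (b :: l)) 0
  rw [Clos_st] at h
  exact h

theorem Clos_pair {α β : Type} [Enc α] [Enc β] (a : α) (b : β) (rest : List Bool) :
    str (a, b) ++ rest = true :: (str a ++ (str b ++ rest)) := by
  simp [Poly.str_pair]

theorem OP.pair {f : Oracle → α → β} {g : Oracle → α → γ} (hf : OP S f) (hg : OP S g) :
    OP S (fun A a => (f A a, g A a)) := by
  obtain ⟨D, ND, hND, hNDm, hD⟩ := (OP.of_poly (Poly.id.pair Poly.id (α := α)) S).exists_prog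
  obtain ⟨P, N, hN, hNm, hP⟩ := hf.exists_prog
  obtain ⟨Q, M, hM, hMm, hQ⟩ := hg.exists_prog
  obtain ⟨E1, N1, hN1, hN1m, hE1⟩ := (OP.of_poly (Poly.snd.pair Poly.fst (α := β × α)) S).exists_prog
  obtain ⟨E2, N2, hN2, hN2m, hE2⟩ := (OP.of_poly (Poly.snd.pair Poly.fst (α := γ × β)) S).exists_prog
  obtain ⟨b, hb, hbm, hfb⟩ := hf.size_le
  obtain ⟨c, hc, hcm, hgc⟩ := hg.size_le
  refine ⟨.seq D (.seq (.pop 0) (.seq P (.seq (.push 0 true) (.seq E1 (.seq (.pop 0)
    (.seq Q (.seq (.push 0 true) E2))))))),
    fun n => ND n + (1 + (N n + (1 + (N1 (b n + n + 1) + (1 + (M n + (1 + N2 (c n + b n + 1)))))))) + 8,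
    ?_, fun A hA t rest => ?_⟩
  · exact (hND.add ((PB.const 1).add (hN.add ((PB.const 1).add
      ((hN1.comp ((hb.add PB.id).add (PB.const 1))).add ((PB.const 1).add
      (hM.add ((PB.const 1).add (hN2.comp ((hc.add hb).add (PB.const 1))))))))))).add (PB.const 8)
  · have h1 := hD A hA t rest
    rw [Clos_pair] at h1
    have h2 := Clos_pop A true (str t ++ (str t ++ rest))
    have h3 := hP A hA t (str t ++ rest)
    have h4 := Clos_push A true (str (f A t) ++ (str t ++ rest))
    rw [← Clos_pair (f A t) t rest] at h4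
    have h5 := hE1 A hA (f A t, t) rest
    rw [Clos_pair t (f A t)] at h5
    have h6 := Clos_pop A true (str t ++ (str (f A t) ++ rest))
    have h7 := hQ A hA t (str (f A t) ++ rest)
    have h8 := Clos_push A true (str (g A t) ++ (str (f A t) ++ rest))
    rw [← Clos_pair (g A t) (f A t) rest] at h8
    have h9 := hE2 A hA (g A t, f A t) rest
    have h := h1.seq (h2.seq (h3.seq (h4.seq (h5.seq (h6.seq (h7.seq (h8.seq h9)))))))
    refine h.mono ?_
    have e1 : N1 (sz (f A t, t)) ≤ N1 (b (sz t) + sz t + 1) := hN1m (by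
      rw [Poly.sz_pair]
      have := hfb A hA t
      omega)
    have e2 : N2 (sz (g A t, f A t)) ≤ N2 (c (sz t) + b (sz t) + 1) := hN2m (by
      rw [Poly.sz_pair]
      have := hfb A hA t
      have := hgc A hA t
      omega)
    beta_reduce
    omega

/-- Apply a polynomial time function. -/
theorem OP.map {f : Oracle → α → β} {g : β → γ} (hg : Poly g) (hf : OP S f) :
    OP S (fun A a => g (f A a)) :=
  OP.comp (OP.of_poly hg S) hf

theorem OP.fst' {f : Oracle → α → β × γ} (hf : OP S f) : OP S (fun A a => (f A a).1) :=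
  OP.comp (OP.of_poly Poly.fst S) hf

theorem OP.snd' {f : Oracle → α → β × γ} (hf : OP S f) : OP S (fun A a => (f A a).2) :=
  OP.comp (OP.of_poly Poly.snd S) hf

theorem OP.const (b : β) : OP S (fun (_ : Oracle) (_ : α) => b) :=
  OP.of_poly (Pool.Agent.H83.Poly.const b) S

theorem OP.cond {c : Oracle → α → Bool} {f g : Oracle → α → β} (hc : OP S c) (hf : OP S f)
    (hg : OP S g) : OP S (fun A a => bif c A a then f A a else g A a) :=
  OP.map (Poly.cond (c := fun p : Bool × (β × β) => p.1) (f := fun p => p.2.1)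
    (g := fun p => p.2.2) Poly.fst (Poly.fst.comp Poly.snd) (Poly.snd.comp Poly.snd))
    (hc.pair (hf.pair hg))

theorem OP.and {f g : Oracle → α → Bool} (hf : OP S f) (hg : OP S g) :
    OP S (fun A a => f A a && g A a) :=
  (OP.cond hf hg (OP.const false)).congr fun A _ a => by cases f A a <;> rfl

theorem OP.or {f g : Oracle → α → Bool} (hf : OP S f) (hg : OP S g) :
    OP S (fun A a => f A a || g A a) :=
  (OP.cond hf (OP.const true) hg).congr fun A _ a => by cases f A a <;> rfl

theorem OP.not {f : Oracle → α → Bool} (hf : OP S f) : OP S (fun A a => !(f A a)) :=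
  (OP.cond hf (OP.const false) (OP.const true)).congr fun A _ a => by cases f A a <;> rfl

theorem OP.cons {x : Oracle → α → β} {l : Oracle → α → List β} (hx : OP S x) (hl : OP S l) :
    OP S (fun A a => x A a :: l A a) :=
  OP.map (g := fun p : β × List β => p.1 :: p.2) (Poly.of_enc_eq fun _ => rfl) (hx.pair hl)

/-- A function with values in a subtype. -/
theorem OP.subtype_mk {D : β → Prop} {f : Oracle → α → β} (hf : OP S f) (h : ∀ A a, D (f A a)) :
    OP S (fun A a => (⟨f A a, h A a⟩ : {b : β // D b})) := by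
  obtain ⟨P, N, hN, h'⟩ := hf
  exact ⟨P, N, hN, h'⟩

end Pool.Agent.H82.LM
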