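import Pool.Agent.H82.LM.Clos

/-!
# Row PolyStr: more polynomial time functions on lists

PROOFS (in the style of Pool/Agent/H83/PolyLib.lean). `drop`: iterate `tail` (`Poly.iterate`, the
sizes do not increase). `take n l = (l.reverse.drop (l.length - n)).reverse`. `replicateB`: `Poly.map`
of a constant over `List.range n`, or iterate `cons`. `allFalse`: `Poly.all`. `fitL j`, `ops m e`,
`chunks m`: induction on the constant `j`, `m` (for `ops` the length `q` is an argument in unary).
`stripL`: `l ↦ bif l.headD true then l else l.tail` iterated `l.length` times removes the leading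
`false`s (also from a list of `false`s, giving `[]`), then `tail`.
-/

set_option autoImplicit false

namespace Pool.Agent.H82.LM

open Pool.Agent.H9 Pool.Agent.H83

variable {α β : Type} [Enc α] [Enc β]

theorem PolyStr_tail_iterate {β : Type} (i : ℕ) : ∀ l : List β, List.tail^[i] l = l.drop i := by
  induction i with
  | zero => intro l; rfl
  | succ i ih =>
    intro l
    rw [Function.iterate_succ_apply, ih]
    cases l <;> simp

theorem poly_drop {l : α → List β} {n : α → ℕ} (hl : Poly l) (hn : Poly n) :
    Poly (fun a => (l a).drop (n a)) := by
  obtain ⟨b, hb, _, hlb⟩ := hl.size_le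
  refine (Poly.iterate (n := n) (s := l) (f := fun l : List β => l.tail) hn hl
    (Poly.tail Poly.id) b hb ?_).congr fun a => PolyStr_tail_iterate _ _
  intro a i _
  have h1 : (fun l : List β => l.tail)^[i] (l a) = (l a).drop i := PolyStr_tail_iterate _ _
  rw [h1]
  exact (Poly.sz_drop_le (l a) i).trans (hlb a)

theorem poly_take {l : α → List β} {n : α → ℕ} (hl : Poly l) (hn : Poly n) :
    Poly (fun a => (l a).take (n a)) := by
  refine (Poly.reverse (poly_drop (Poly.reverse hl)
    (Poly.sub (Poly.length hl) hn))).congr fun a => ?_
  rw [List.drop_reverse, List.reverse_reverse]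
  rcases Nat.le_total (n a) (l a).length with h | h
  · rw [Nat.sub_sub_self h]
  · rw [Nat.sub_eq_zero_of_le h, Nat.sub_zero, List.take_length, List.take_of_length_le h]

theorem poly_replicateB (b : Bool) {n : α → ℕ} (hn : Poly n) :
    Poly (fun a => List.replicate (n a) b) := by
  refine (Pool.Agent.H83.Poly.map (f := fun (_ : α) (_ : ℕ) => b) (Poly.range hn)
    (Pool.Agent.H83.Poly.const b)).congr fun a => ?_
  simp

theorem poly_allFalse {l : α → List Bool} (hl : Poly l) : Poly (fun a => (l a).all (fun b => !b)) := by
  exact Poly.all (f := fun (_ : α) (b : Bool) => !b) hl (Poly.not (Poly.snd' Poly.id))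

/-- The list made to have length `j`. -/
def fitL : ℕ → List (List Bool) → List (List Bool)
  | 0, _ => []
  | j + 1, xs => xs.headD [] :: fitL j xs.tail

theorem fitL_length (j : ℕ) (xs : List (List Bool)) : (fitL j xs).length = j := by
  induction j generalizing xs with
  | zero => rfl
  | succ j ih => simp [fitL, ih]

theorem fitL_of_length {j : ℕ} {xs : List (List Bool)} (h : xs.length = j) : fitL j xs = xs := by
  induction j generalizing xs with
  | zero =>
    cases xs with
    | nil => rfl
    | cons x xs => simp at h
  | succ j ih =>
    cases xs with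
    | nil => simp at h
    | cons x xs =>
      have h' : xs.length = j := by simpa using h
      simp [fitL, ih h']

theorem fitL_poly (j : ℕ) : Poly (fitL j) := by
  induction j with
  | zero => exact (Pool.Agent.H83.Poly.const []).congr fun _ => rfl
  | succ j ih =>
    exact (Poly.cons (Poly.headD [] Poly.id) (ih.comp (Poly.tail Poly.id))).congr fun _ => rfl

/-- The list of the bitwise quantifiers (`true` is existential) of an alternating prefix with `m`
blocks of length `q`, the first block of type `e`. -/
def ops : ℕ → Bool → ℕ → List Bool
  | 0, _, _ => []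
  | m + 1, e, q => List.replicate q e ++ ops m (!e) q

theorem ops_length (m : ℕ) (e : Bool) (q : ℕ) : (ops m e q).length = m * q := by
  induction m generalizing e with
  | zero => simp [ops]
  | succ m ih => simp [ops, ih, Nat.add_mul, Nat.add_comm]

theorem ops_poly (m : ℕ) (e : Bool) {q : α → ℕ} (hq : Poly q) : Poly (fun a => ops m e (q a)) := by
  induction m generalizing e with
  | zero => exact (Pool.Agent.H83.Poly.const []).congr fun _ => rfl
  | succ m ih => exact (Poly.append (poly_replicateB e hq) (ih (!e))).congr fun _ => rfl

/-- A word cut in `m` words of length `q`. -/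
def chunks : ℕ → ℕ → List Bool → List (List Bool)
  | 0, _, _ => []
  | m + 1, q, b => b.take q :: chunks m q (b.drop q)

theorem chunks_length (m q : ℕ) (b : List Bool) : (chunks m q b).length = m := by
  induction m generalizing b with
  | zero => rfl
  | succ m ih => simp [chunks, ih]

theorem chunks_poly (m : ℕ) {q : α → ℕ} {b : α → List Bool} (hq : Poly q) (hb : Poly b) :
    Poly (fun a => chunks m (q a) (b a)) := by
  induction m generalizing b with
  | zero => exact (Pool.Agent.H83.Poly.const []).congr fun _ => rfl
  | succ m ih =>
    exact (Poly.cons (poly_take hb hq) (ih (poly_drop hb hq))).congr fun _ => rfl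

/-- Remove the leading `false`s and the first `true`. -/
def strip : List Bool → List Bool
  | [] => []
  | false :: l => strip l
  | true :: l => l

/-- Remove the first symbol if it is `false`. -/
def PolyStr_step (l : List Bool) : List Bool := bif l.headD true then l else l.tail

theorem PolyStr_step_sz (l : List Bool) : sz (PolyStr_step l) ≤ sz l := by
  rcases l with _ | ⟨_ | _, l⟩
  · exact le_rfl
  · change sz l ≤ sz (false :: l)
    rw [Poly.sz_cons]
    omega
  · exact le_rfl

theorem PolyStr_step_iterate_sz (i : ℕ) : ∀ l : List Bool, sz (PolyStr_step^[i] l) ≤ sz l := by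
  induction i with
  | zero => intro l; exact le_rfl
  | succ i ih =>
    intro l
    rw [Function.iterate_succ_apply]
    exact (ih _).trans (PolyStr_step_sz l)

theorem PolyStr_step_fix {l : List Bool} (h : PolyStr_step l = l) (i : ℕ) :
    PolyStr_step^[i] l = l := by
  induction i with
  | zero => rfl
  | succ i ih => rw [Function.iterate_succ_apply, h, ih]

theorem PolyStr_strip (l : List Bool) : ∀ n, l.length ≤ n → (PolyStr_step^[n] l).tail = strip l := by
  induction l with
  | nil => intro n _; rw [PolyStr_step_fix rfl]; rfl
  | cons b l ih =>
    intro n hn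
    cases b with
    | true => rw [PolyStr_step_fix rfl]; rfl
    | false =>
      obtain ⟨n, rfl⟩ : ∃ k, n = k + 1 := ⟨n - 1, by simp at hn; omega⟩
      rw [Function.iterate_succ_apply]
      exact ih n (by simpa using hn)

theorem PolyStr_step_poly : Poly PolyStr_step :=
  (Poly.cond (Poly.headD true Poly.id) Poly.id (Poly.tail Poly.id)).congr fun _ => rfl

theorem strip_poly {l : α → List Bool} (hl : Poly l) : Poly (fun a => strip (l a)) := by
  obtain ⟨b, hb, _, hlb⟩ := hl.size_le
  refine (Poly.tail (Poly.iterate (n := fun a => (l a).length) (s := l) (f := PolyStr_step)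
    (Poly.length hl) hl PolyStr_step_poly b hb ?_)).congr fun a => PolyStr_strip _ _ le_rfl
  intro a i _
  exact (PolyStr_step_iterate_sz i (l a)).trans (hlb a)

end Pool.Agent.H82.LM
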