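import Pool.Agent.H82.LM.Clos

/-!
# Row Query: one oracle query

PROOF. The program is `decode 1 2 3` (row Raw; it moves the word `w` from its code on stack `0` to
stack `1`), then
`ask 1 (seq clear (seq (push 0 false) (seq (push 0 false) (push 0 true)))) (seq clear (push 0 false))`
with `clear = loop 1 (pop 1)` (`Pool.Agent.H9.exec_clear`). `(w).length ≤ sz w`
(`Poly.length_le_sz`).
-/

set_option autoImplicit false

namespace Pool.Agent.H82.LM

open Pool.Agent.H9 Pool.Agent.H83

variable {α : Type} [Enc α] {S : Set Oracle}

theorem Query_st0 (l : List Bool) : st l 0 = l := rfl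

theorem Query_st_ne (l : List Bool) {i : ℕ} (hi : i ≠ 0) : st l i = [] := by
  unfold st
  rw [if_neg hi]

theorem Query_upd (l l' : List Bool) : Function.update (st l) 0 l' = st l' := by
  funext i
  by_cases hi : i = 0
  · rw [hi, Function.update_self]
    rfl
  · rw [Function.update_of_ne hi, Query_st_ne l hi, Query_st_ne l' hi]

theorem Query_push (A : Oracle) (l : List Bool) (b : Bool) :
    Exec A (.push 0 b) (st l) (st (b :: l)) 1 := by
  have h := exec_push A (st l) 0 b
  rw [Query_st0, Query_upd] at h
  exact h

theorem Query_clear (A : Oracle) (l w : List Bool) :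
    Exec A (Prog.loop 1 (Prog.pop 1)) (Function.update (st l) 1 w) (st l) (w.length * 2 + 1) := by
  have h := exec_clear A 1 w (Function.update (st l) 1 w) (Function.update_self _ _ _)
  have h2 : Function.update (Function.update (st l) 1 w) 1 [] = st l := by
    rw [Function.update_idem]
    have h3 : st l 1 = [] := Query_st_ne l one_ne_zero
    have h4 := Function.update_eq_self 1 (st l)
    rw [h3] at h4
    exact h4
  rw [h2] at h
  exact h

theorem OP.query (S : Set Oracle) : OP S (fun (A : Oracle) (w : List Bool) => A w) := by
  refine ⟨.seq (decode 1 2 3) (.ask 1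
    (.seq (.loop 1 (.pop 1)) (.seq (.push 0 false) (.seq (.push 0 false) (.push 0 true))))
    (.seq (.loop 1 (.pop 1)) (.push 0 false))), fun n => 32 * n + 50,
    ((PB.const 32).mul PB.id).add (PB.const 50), fun A _ w rest => ?_⟩
  have h1 := exec_decode A (i := 1) (c := 2) (f := 3) (by norm_num) (by norm_num) (by norm_num)
    (by norm_num) (by norm_num) (by norm_num) (st (str w ++ rest)) w rest rfl
    (Query_st_ne _ (by norm_num)) (Query_st_ne _ (by norm_num)) (Query_st_ne _ (by norm_num))
  rw [Query_upd] at h1
  have hw : w.length ≤ sz w := Poly.length_le_sz w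
  have hs : Function.update (st rest) 1 w 1 = w := Function.update_self _ _ _
  have h2 : Exec A (.ask 1
      (.seq (.loop 1 (.pop 1)) (.seq (.push 0 false) (.seq (.push 0 false) (.push 0 true))))
      (.seq (.loop 1 (.pop 1)) (.push 0 false))) (Function.update (st rest) 1 w)
      (st (str (A w) ++ rest)) (2 * w.length + 10) := by
    cases hA : A w with
    | true =>
      have h3 := (Query_clear A rest w).seq ((Query_push A rest false).seq
        ((Query_push A (false :: rest) false).seq (Query_push A (false :: false :: rest) true)))
      refine (exec_ask (N := 2 * w.length + 9) ?_).mono (by omega)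
      rw [hs, if_pos hA, str_true]
      exact h3.mono (by omega)
    | false =>
      have h3 := (Query_clear A rest w).seq (Query_push A rest false)
      refine (exec_ask (N := 2 * w.length + 9) ?_).mono (by omega)
      rw [hs, if_neg (by rw [hA]; exact Bool.false_ne_true), str_false]
      exact h3.mono (by omega)
  refine (h1.seq h2).mono ?_
  show 30 * w.length + 30 + (2 * w.length + 10) + 1 ≤ 32 * sz w + 50
  omega

theorem OP.ask {f : Oracle → α → List Bool} (hf : OP S f) : OP S (fun A a => A (f A a)) :=
  (OP.query S).comp hf

end Pool.Agent.H82.LM
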