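import Pool.Agent.H82.LM.Sim
import Pool.Agent.H82.LM.Query
import Pool.Agent.H82.LM.PolyStr

/-!
# Row SimL: simulation for lists of inputs

PROOF of `OP.simL`: `OP.sim` with `π = Unit`, `F A (w, ()) = G A w` (`hG.comp (OP.fst' id)`, `OP` of
the identity is `OP.of_poly Poly.id`), the function `fitL j xs` with values in the subtype
(`OP.subtype_mk` with `fitL_length`), paired with the constant `()`.
`OP.phi`: `Phi A w = (!w.isEmpty) && A (g w)` with `g w = w` if the first symbol is `true` and
`g w = false :: w` otherwise (for `w = false :: w'` this is `false :: false :: w'`); `OP.ask`,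
`Poly.cond`, `Poly.headD`, `Poly.cons`, `Poly.isEmpty`.
-/

set_option autoImplicit false

namespace Pool.Agent.H82.LM

open Pool.Agent.H9 Pool.Agent.H83

variable {S : Set Oracle}

theorem OP.simL (j : ℕ) (p : Prog) (T : Polynomial ℕ) {G : Oracle → List Bool → Bool}
    (hG : OP S G) (hp : ∀ A ∈ S, Clocked (G A) j p T) {f : Oracle → List (List Bool) → Bool}
    (hf : ∀ A ∈ S, ∀ xs : List (List Bool), xs.length = j → (f A xs = true ↔ Accepts (G A) p xs)) :
    OP S (fun A xs => f A (fitL j xs)) := by
  have hmem : ∀ (A : Oracle) (xs : List (List Bool)), (fitL j xs).length = j := fun _ xs => fitL_length j xs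
  have h1 : OP S (fun (_ : Oracle) (xs : List (List Bool)) =>
      ((⟨fitL j xs, fitL_length j xs⟩ : {xs : List (List Bool) // xs.length = j}), ())) :=
    (OP.subtype_mk (D := fun xs : List (List Bool) => xs.length = j)
      (OP.of_poly (fitL_poly j) S) hmem).pair (OP.const ())
  have h2 : OP S (fun (A : Oracle) (w : List Bool × Unit) => G A w.1) :=
    hG.comp (OP.of_poly (Poly.fst (α := List Bool) (β := Unit)) S)
  have h3 : OP S (fun (A : Oracle) (a : {xs : List (List Bool) // xs.length = j} × Unit) => f A a.1.1) :=
    OP.sim j p T (F := fun A w => G A w.1) h2 (fun A hA _ => hp A hA)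
      (fun A hA a => hf A hA a.1.1 a.1.2)
  exact h3.comp h1

end Pool.Agent.H82.LM
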