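import Pool.Agent.H82.LM.Wrap
import Pool.Agent.H82.LM.SimL

/-!
# Row ClsA: the classes of oracle dependent languages

PROOFS. `sigF_of_OP`: `OP.toProg (k + 1)` with `S = Set.univ`; in `Alt` the lists `us` have length
`k` (`Alt_eq`, `AltL_congr` of Pool/Agent/H9/Hier.lean: `us.map length = replicate k m`).
`sigF_sub_delF`: the machine `ask 0 (push 0 true) (push 0 false)` with oracle `chi (B A)` accepts `x`
iff `x ∈ B A`, within 3 steps; the oracle family is `C = B`.
`sigF_mono`: as `Pool.Agent.H9.sigmaP_mono` (Pool/Agent/H9/Classes.lean; the proof there uses for the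
time only the bound `T`, which is here uniform in the oracle: repeat it with `Clocked`).
`delF_mono`: `sigF_mono` for the oracle family (`k - 1 ≤ k`; for `k = 0` the two classes are equal).
-/

set_option autoImplicit false

namespace Pool.Agent.H82.LM

open Pool.Agent.H9 Pool.Agent.H83

theorem sigF_of_OP (k : ℕ) (q : Polynomial ℕ) {F : Oracle → List (List Bool) → Bool}
    (hF : OP Set.univ F) :
    (fun A => {x : List Bool | Alt true k (q.eval x.length) (fun us => F A (x :: us) = true)}) ∈
      SigF k := by
  obtain ⟨p, T, hp⟩ := OP.toProg (k + 1) hF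
  refine ⟨q, T, p, fun A => (hp A (Set.mem_univ _)).1, fun A x => ?_⟩
  show Alt true k (q.eval x.length) (fun us => F A (x :: us) = true) ↔ _
  rw [Alt_eq, Alt_eq]
  apply AltL_congr
  intro us hus
  have hlen : us.length = k := by
    have := congrArg List.length hus
    simpa using this
  exact ((hp A (Set.mem_univ _)).2 (x :: us) (by simp [hlen])).symm

theorem sigF_sub_delF (k : ℕ) : SigF k ⊆ DelF (k + 1) := by
  intro B hB
  refine ⟨B, by simpa using hB, 3, Prog.ask 0 (Prog.push 0 true) (Prog.push 0 false), ?_⟩
  have key : ∀ (A : Oracle) (x : List Bool) (n : ℕ), 3 ≤ n →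
      run A (Prog.ask 0 (Prog.push 0 true) (Prog.push 0 false)) [x] n =
        ([], Function.update (fun i => [x].getD i []) 0 (A x :: x)) := by
    intro A x n hn
    apply run_of_exec
    have h1 : Exec A (if A x = true then Prog.push 0 true else Prog.push 0 false)
        (fun i => [x].getD i []) (Function.update (fun i => [x].getD i []) 0 (A x :: x)) 1 := by
      cases hA : A x
      · exact exec_push A (fun i => [x].getD i []) 0 false
      · exact exec_push A (fun i => [x].getD i []) 0 true
    exact (exec_ask (A := A) (i := 0) (s := fun i => [x].getD i []) h1).mono (by omega)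
  have hT : ∀ n : ℕ, (3 : Polynomial ℕ).eval n = 3 := by
    intro n
    simp
  refine ⟨fun A xs hxs => ?_, fun A x => ?_⟩
  · obtain ⟨x, rfl⟩ := List.length_eq_one_iff.1 hxs
    rw [key A x _ (by rw [hT])]
  · have h := key (chi (B A)) x 3 le_rfl
    rw [accepts_iff_of_halted (t := 3) (by rw [h])]
    unfold AcceptsIn
    rw [h]
    simp [chi]

theorem sigF_mono (k : ℕ) : SigF k ⊆ SigF (k + 1) := by
  rintro B ⟨q, T, p, hT, hL⟩
  have hclear : ∀ (A : Oracle) (ys : List (List Bool)) (z : List Bool), ys.length = k + 1 →
      Exec A (Prog.loop (k + 1) (Prog.pop (k + 1))) (fun i => (ys ++ [z]).getD i [])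
        (fun i => ys.getD i []) (z.length * 2 + 1) := by
    intro A ys z hys
    have h := exec_clear A (k + 1) z (fun i => (ys ++ [z]).getD i []) (by
      simp [← hys])
    rw [← hys, getD_append_singleton] at h
    rw [← hys]
    exact h
  refine ⟨q, T + Polynomial.X * 2 + 2, Prog.seq (Prog.loop (k + 1) (Prog.pop (k + 1))) p, ?_, ?_⟩
  · intro A xs hxs
    obtain ⟨ys, z, rfl⟩ : ∃ ys z, xs = ys ++ [z] := by
      have : xs ≠ [] := by
        intro h; rw [h] at hxs; simp at hxs
      exact ⟨xs.dropLast, xs.getLast this, (List.dropLast_append_getLast this).symm⟩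
    have hys : ys.length = k + 1 := by simpa using hxs
    have h1 := halts_seq (hclear A ys z hys) (hT A ys hys)
    have h2 : T.eval (totalLength ys) ≤ T.eval (totalLength (ys ++ [z])) :=
      poly_mono T (by rw [totalLength_append]; omega)
    have h3 : T.eval (totalLength ys) + (z.length * 2 + 1) + 1 ≤
        (T + Polynomial.X * 2 + 2).eval (totalLength (ys ++ [z])) := by
      have h5 : z.length ≤ totalLength (ys ++ [z]) := by rw [totalLength_append]; omega
      simp only [Polynomial.eval_add, Polynomial.eval_mul, Polynomial.eval_X,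
        Polynomial.eval_ofNat]
      omega
    rw [run_of_halted h1 h3]
    exact h1
  · intro A x
    rw [hL A x, Alt_eq, Alt_eq]
    rw [List.replicate_succ', AltL_snoc]
    apply AltL_congr
    intro us hus
    have hlen : us.length = k := by
      have := congrArg List.length hus
      simpa using this
    have hkey : ∀ u : List Bool, (Accepts A (Prog.seq (Prog.loop (k + 1) (Prog.pop (k + 1))) p)
        (x :: (us ++ [u])) ↔ Accepts A p (x :: us)) := by
      intro u
      exact accepts_seq (hclear A (x :: us) u (by simp [hlen]))
    generalize (true ^^ (List.replicate k (Polynomial.eval x.length q)).length.bodd) = e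
    cases e with
    | true =>
      simp only [qt]
      constructor
      · intro h
        exact ⟨List.replicate (q.eval x.length) true, by simp, (hkey _).2 h⟩
      · rintro ⟨u, _, h⟩
        exact (hkey u).1 h
    | false =>
      simp only [qt]
      constructor
      · intro h u _
        exact (hkey u).2 h
      · intro h
        exact (hkey (List.replicate (q.eval x.length) true)).1 (h _ (by simp))

theorem delF_mono (k : ℕ) : DelF k ⊆ DelF (k + 1) := by
  rintro B ⟨C, hC, T, p, hp⟩
  refine ⟨C, ?_, T, p, hp⟩
  cases k with
  | zero => exact hC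
  | succ k =>
    rw [Nat.add_sub_cancel] at hC ⊢
    exact sigF_mono k hC

theorem sigF_mono' {k l : ℕ} (h : k ≤ l) : SigF k ⊆ SigF l := by
  induction h with
  | refl => exact le_rfl
  | step _ ih => exact ih.trans (sigF_mono _)

theorem delF_mono' {k l : ℕ} (h : k ≤ l) : DelF k ⊆ DelF l := by
  induction h with
  | refl => exact le_rfl
  | step _ ih => exact ih.trans (delF_mono _)

end Pool.Agent.H82.LM
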