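import Pool.Agent.H82.LM.ClsA

/-!
# Row ClsB: substitution in the oracle, locality
-/

set_option autoImplicit false

namespace Pool.Agent.H82.LM

open Pool.Agent.H9 Pool.Agent.H83

private lemma ClsB_len {us : List (List Bool)} {k m : ℕ}
    (h : us.map List.length = List.replicate k m) : us.length = k := by
  have h1 := congrArg List.length h
  simpa using h1

private lemma ClsB_tot {x : List Bool} {us : List (List Bool)} {k m : ℕ}
    (h : us.map List.length = List.replicate k m) : totalLength (x :: us) = x.length + k * m := by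
  simp only [totalLength, List.map_cons, List.sum_cons, h, List.sum_replicate, smul_eq_mul]

theorem sigF_comp {k : ℕ} {B : Fam} (hB : B ∈ SigF k) {Φ : Oracle → Oracle}
    (hΦ : OP Set.univ (fun A w => Φ A w)) : (fun A => B (Φ A)) ∈ SigF k := by
  classical
  obtain ⟨q, T, p, hp, hB⟩ := hB
  have hF := OP.simL (S := Set.univ) (k + 1) p T (G := fun A w => Φ A w) hΦ (fun A _ => hp (Φ A))
      (f := fun (A : Oracle) (xs : List (List Bool)) => decide (Accepts (Φ A) p xs))
      (fun A _ xs _ => decide_eq_true_iff)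
  have h1 := sigF_of_OP k q hF
  have h2 : (fun A => B (Φ A)) = (fun A => {x : List Bool | Alt true k (q.eval x.length)
      (fun us => (fun (A : Oracle) (xs : List (List Bool)) =>
      decide (Accepts (Φ A) p xs)) A (fitL (k + 1) (x :: us)) = true)}) := by
    funext A
    ext x
    rw [hB (Φ A) x, Set.mem_ofPred_eq, Alt_eq, Alt_eq]
    apply AltL_congr
    intro us hus
    have h3 : fitL (k + 1) (x :: us) = x :: us :=
      fitL_of_length (by rw [List.length_cons, ClsB_len hus])
    simp only [h3, decide_eq_true_eq]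
  rw [h2]
  exact h1

theorem delF_comp {k : ℕ} {B : Fam} (hB : B ∈ DelF k) {Φ : Oracle → Oracle}
    (hΦ : OP Set.univ (fun A w => Φ A w)) : (fun A => B (Φ A)) ∈ DelF k := by
  obtain ⟨C, hC, T, p, hp, hB⟩ := hB
  exact ⟨fun A => C (Φ A), sigF_comp hC hΦ, T, p, fun A => hp A, fun A x => hB (Φ A) x⟩

theorem sigF_local {k : ℕ} {B : Fam} (hB : B ∈ SigF k) (n : ℕ) :
    ∃ M : ℕ, ∀ A A' : Oracle, (∀ w : List Bool, w.length ≤ M → A w = A' w) →
      ∀ x : List Bool, x.length ≤ n → (x ∈ B A ↔ x ∈ B A') := by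
  obtain ⟨q, T, p, hp, hB⟩ := hB
  refine ⟨(n + k * q.eval n) + T.eval (n + k * q.eval n), ?_⟩
  intro A A' hA x hx
  rw [hB, hB, Alt_eq, Alt_eq]
  apply AltL_congr
  intro us hus
  have h1 : (x :: us).length = k + 1 := by rw [List.length_cons, ClsB_len hus]
  have h2 : totalLength (x :: us) ≤ n + k * q.eval n := by
    rw [ClsB_tot hus]
    exact add_le_add hx (Nat.mul_le_mul_left _ (poly_mono q hx))
  rw [accepts_iff_of_halted (hp A _ h1), accepts_iff_of_halted (hp A' _ h1)]
  apply DTP.depends (dtp_acceptsIn p (x :: us) _ _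
    (add_le_add h2 (poly_mono T h2)))
  intro w hw
  exact hA w hw

theorem delF_local {k : ℕ} {B : Fam} (hB : B ∈ DelF k) (n : ℕ) :
    ∃ M : ℕ, ∀ A A' : Oracle, (∀ w : List Bool, w.length ≤ M → A w = A' w) →
      ∀ x : List Bool, x.length ≤ n → (x ∈ B A ↔ x ∈ B A') := by
  classical
  obtain ⟨C, hC, T, p, hp, hB⟩ := hB
  obtain ⟨M, hM⟩ := sigF_local hC (n + T.eval n)
  refine ⟨M, ?_⟩
  intro A A' hA x hx
  rw [hB, hB]
  have h1 : ([x] : List (List Bool)).length = 1 := rfl
  have h2 : totalLength [x] ≤ n := by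
    simpa [totalLength] using hx
  rw [accepts_iff_of_halted (hp (chi (C A)) _ h1), accepts_iff_of_halted (hp (chi (C A')) _ h1)]
  apply DTP.depends (dtp_acceptsIn p [x] _ _ (add_le_add h2 (poly_mono T h2)))
  intro w hw
  have h3 := hM A A' hA w hw
  unfold chi
  simp only [h3]

end Pool.Agent.H82.LM
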