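import Pool.Agent.H82.LM.ClsA

/-!
# Row ClsC: the unrelativised classes

PROOFS. `const_fam`: let `L` be given by `q`, `T`, `p` relative to the empty oracle. Let `deaf p` be
`p` with every `ask i a b` replaced by `cond i b b b` (recursively `deaf b`). One step of `deaf p`
with any oracle corresponds exactly to one step of `p` with the empty oracle:
`step A (k.map deaf, s) = ((step ∅ (k, s)).1.map deaf, (step ∅ (k, s)).2)` (cases on the first
program of `k`). Hence `run A (deaf p) xs t = ((run ∅ p xs t).1.map deaf, (run ∅ p xs t).2)`,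
`Clocked` and `Accepts` agree, and `A ↦ L` is in `SigF k`.
`sigP_of_sigF`, `delP_of_delF`: specialise the oracle to the empty one.
`collapse`: induction on `k`. `k = 0, 1`: `sigmaP_mono` and `sigP_sub_delP` (the machine
`ask 0 (push 0 true) (push 0 false)`). Step to `k + 1 ≥ 2`: let `L ∈ SigP (k + 1) ⊆ DelP (k + 1)`,
`L = {x | Accepts (chi C) p [x]}`, `C ∈ SigP k`. By induction `C ∈ DelP 2`,
`C = {x | Accepts (chi C') p' [x]}`, `C' ∈ SigP 1`. With `S = {chi C'}`: `G A w := decide (w ∈ C)` is
`OP S` by `OP.simL 1 p' T'` (with the oracle function `A ↦ A`, `OP.query`; compose with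
`w ↦ [w]`), then `f A xs := decide (Accepts (chi C) p xs)` (on lists of length one) is `OP S` by
`OP.simL 1 p T`, and `OP.toProg 1` gives a machine, with the oracle `chi C'`, for `L`; so
`L ∈ DelP 2`.
-/

set_option autoImplicit false

namespace Pool.Agent.H82.LM

open Pool.Agent.H9 Pool.Agent.H83

/-- A program with all its queries answered by `false`. -/
def ClsC_deaf : Prog → Prog
  | .skip => .skip
  | .push i b => .push i b
  | .pop i => .pop i
  | .seq p q => .seq (ClsC_deaf p) (ClsC_deaf q)
  | .cond i p q r => .cond i (ClsC_deaf p) (ClsC_deaf q) (ClsC_deaf r)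
  | .loop i p => .loop i (ClsC_deaf p)
  | .ask i _ q => .cond i (ClsC_deaf q) (ClsC_deaf q) (ClsC_deaf q)

theorem ClsC_step (A : Oracle) (k : List Prog) (s : ℕ → List Bool) :
    step A (k.map ClsC_deaf, s) =
      ((step (fun _ => false) (k, s)).1.map ClsC_deaf, (step (fun _ => false) (k, s)).2) := by
  match k with
  | [] => rfl
  | .skip :: k => rfl
  | .push i b :: k => rfl
  | .pop i :: k => rfl
  | .seq p q :: k => rfl
  | .cond i p q r :: k =>
    match hsi : s i with
    | [] => simp [step, hsi, ClsC_deaf]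
    | false :: _ => simp [step, hsi, ClsC_deaf]
    | true :: _ => simp [step, hsi, ClsC_deaf]
  | .loop i p :: k =>
    match hsi : s i with
    | [] => simp [step, hsi, ClsC_deaf]
    | _ :: _ => simp [step, hsi, ClsC_deaf]
  | .ask i p q :: k =>
    match hsi : s i with
    | [] => simp [step, hsi, ClsC_deaf]
    | false :: _ => simp [step, hsi, ClsC_deaf]
    | true :: _ => simp [step, hsi, ClsC_deaf]

theorem ClsC_iter (A : Oracle) (n : ℕ) (c : Cfg) :
    (step A)^[n] (c.1.map ClsC_deaf, c.2) =
      (((step (fun _ => false))^[n] c).1.map ClsC_deaf,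
        ((step (fun _ => false))^[n] c).2) := by
  induction n generalizing c with
  | zero => rfl
  | succ n ih =>
    rw [Function.iterate_succ_apply, Function.iterate_succ_apply, ClsC_step A c.1 c.2]
    exact ih (step (fun _ => false) c)

theorem ClsC_run (A : Oracle) (p : Prog) (xs : List (List Bool)) (t : ℕ) :
    run A (ClsC_deaf p) xs t =
      ((run (fun _ => false) p xs t).1.map ClsC_deaf, (run (fun _ => false) p xs t).2) :=
  ClsC_iter A t (start p xs)

theorem ClsC_accepts (A : Oracle) (p : Prog) (xs : List (List Bool)) :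
    Accepts A (ClsC_deaf p) xs ↔ Accepts (fun _ => false) p xs := by
  unfold Accepts AcceptsIn
  refine exists_congr fun t => ?_
  rw [ClsC_run]
  simp

theorem const_fam {k : ℕ} {L : Set (List Bool)} (hL : L ∈ SigP k) :
    (fun _ : Oracle => L) ∈ SigF k := by
  obtain ⟨q, p, ⟨T, hT⟩, hL⟩ := hL
  refine ⟨q, T, ClsC_deaf p, fun A xs hxs => ?_, fun A x => ?_⟩
  · rw [ClsC_run]
    simpa using hT xs hxs
  · have h : (fun us : List (List Bool) => Accepts A (ClsC_deaf p) (x :: us)) =
        fun us => Accepts (fun _ => false) p (x :: us) := by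
      funext us
      exact propext (ClsC_accepts A p (x :: us))
    rw [h]
    exact hL x

theorem sigP_of_sigF {k : ℕ} {B : Fam} (hB : B ∈ SigF k) : B (fun _ => false) ∈ SigP k := by
  obtain ⟨q, T, p, h1, h2⟩ := hB
  exact ⟨q, p, ⟨T, h1 _⟩, fun x => h2 _ x⟩

theorem delP_of_delF {k : ℕ} {B : Fam} (hB : B ∈ DelF k) : B (fun _ => false) ∈ DelP k := by
  obtain ⟨C, hC, T, p, h1, h2⟩ := hB
  exact ⟨C (fun _ => false), sigP_of_sigF hC, p, ⟨T, h1 _⟩, fun x => h2 _ x⟩

theorem ClsC_ask (L : Set (List Bool)) (x : List Bool) :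
    run (chi L) (.ask 0 (.push 0 true) (.push 0 false)) [x] 2 =
      ([], Function.update (fun i => [x].getD i []) 0 (chi L x :: x)) := by
  classical
  by_cases hx : x ∈ L
  · simp [run, start, step, chi, hx]
  · simp [run, start, step, chi, hx]

theorem sigP_sub_delP (k : ℕ) : SigP k ⊆ DelP (k + 1) := by
  intro L hL
  refine ⟨L, hL, .ask 0 (.push 0 true) (.push 0 false), ⟨2, fun xs hxs => ?_⟩, fun x => ?_⟩
  · obtain ⟨x, rfl⟩ := List.length_eq_one_iff.1 hxs
    have h2 : (2 : Polynomial ℕ).eval (totalLength [x]) = 2 := by simp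
    rw [h2, ClsC_ask]
  · have h := ClsC_ask L x
    have h1 : (run (chi L) (.ask 0 (.push 0 true) (.push 0 false)) [x] 2).1 = [] := by rw [h]
    rw [accepts_iff_of_halted h1]
    unfold AcceptsIn
    rw [h]
    simp [chi]

theorem collapse (h : ∀ k, 2 ≤ k → SigP k ⊆ DelP k) (k : ℕ) : SigP k ⊆ DelP 2 := by
  induction k with
  | zero => exact (sigmaP_mono _ 0).trans (sigP_sub_delP 1)
  | succ k ih =>
    rcases Nat.eq_zero_or_pos k with rfl | hk
    · exact sigP_sub_delP 1
    intro L hL
    obtain ⟨C, hC, p, ⟨T, hT⟩, hL⟩ := h (k + 1) (by omega) hL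
    have hC2 : C ∈ DelP 2 := ih hC
    obtain ⟨C', hC', p', ⟨T', hT'⟩, hCx⟩ := hC2
    classical
    have h1 := OP.simL (S := {chi C'}) 1 p' T' (OP.query {chi C'})
      (fun A hA => by
        rw [Set.mem_singleton_iff] at hA
        subst hA
        exact hT')
      (f := fun A xs => decide (Accepts A p' xs))
      (fun A _ xs _ => decide_eq_true_iff)
    have h2 : OP {chi C'} (fun (_ : Oracle) (w : List Bool) => [w]) :=
      OP.of_poly (Pool.Agent.H83.Poly.cons Pool.Agent.H83.Poly.id
        (Pool.Agent.H83.Poly.const ([] : List (List Bool)))) _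
    have h3 := h1.comp h2
    have h4 : OP {chi C'} (fun (_ : Oracle) (w : List Bool) => chi C w) := by
      refine h3.congr fun A hA w => ?_
      rw [Set.mem_singleton_iff] at hA
      subst hA
      show decide (Accepts (chi C') p' (fitL 1 [w])) = chi C w
      rw [fitL_of_length (show [w].length = 1 from rfl)]
      unfold chi
      exact decide_eq_decide.2 (hCx w).symm
    have h5 := OP.simL (S := {chi C'}) 1 p T h4 (fun A _ => hT)
      (f := fun _ xs => decide (Accepts (chi C) p xs))
      (fun A _ xs _ => decide_eq_true_iff)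
    obtain ⟨r, R, hr⟩ := OP.toProg 1 h5
    obtain ⟨hr1, hr2⟩ := hr (chi C') rfl
    refine ⟨C', hC', r, ⟨R, hr1⟩, fun x => ?_⟩
    rw [hL x, hr2 [x] rfl, fitL_of_length (show [x].length = 1 from rfl)]
    exact decide_eq_true_iff.symm

end Pool.Agent.H82.LM
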