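import Pool.Agent.H82.LM.Meas1

/-!
# Row Meas2: bits outside the support of an event are independent fair coins

PROOFS. `mu_fix_one`: the flip at `w0` (`mu_flip`) maps `{Z | Z w0 = F Z} ∩ G` bijectively onto
`{Z | Z w0 ≠ F Z} ∩ G`, because `F` and `G` do not depend on `w0 ∉ R`; both have the same measure
and their disjoint union is `G`. (All events depend on `R ∪ {w0}`, so they are measurable,
`Dep.measurableSet`.) `mu_fix`: induction on the finset `S`, applying `mu_fix_one` with
`w0`, the function `F · w0` and the event `{Z | (∀ w ∈ S, Z w = F Z w)} ∩ G`, which depends on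
`R ∪ S`, and `w0 ∉ R ∪ S`.
`mu_index`: `{Z | Z ∈ G (rd e Z N)}` is the disjoint union over `ι ∈ strings N` of
`{Z | rd e Z N = ι} ∩ G ι`, and `rd e Z N = ι` means `Z w = F w` for all `w` in
`S = image e (range N)` with a fixed function `F` (depending on `ι`; `e` is injective), `|S| = N`;
apply `mu_fix` and `measureReal_biUnion_finset`.
-/

set_option autoImplicit false

namespace Pool.Agent.H82.LM

open Pool.Agent.H9 MeasureTheory

private lemma Meas2_feq {R : Set (List Bool)} {F : Oracle → Bool} (hF : Dep R {Z | F Z = true})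
    {Z Z' : Oracle} (h : ∀ w ∈ R, Z w = Z' w) : F Z = F Z' := by
  have h1 := hF Z Z' h
  simp only [Set.mem_ofPred_eq] at h1
  cases h2 : F Z <;> cases h3 : F Z' <;> simp_all

private lemma Meas2_dep {R : Finset (List Bool)} {w0 : List Bool} {F : Oracle → Bool}
    {G : Set Oracle} (hF : Dep (R : Set (List Bool)) {Z | F Z = true})
    (hG : Dep (R : Set (List Bool)) G) :
    Dep ((insert w0 R : Finset (List Bool)) : Set (List Bool)) {Z | Z w0 ≠ F Z ∧ Z ∈ G} := by
  intro Z Z' h
  have h0 : Z w0 = Z' w0 := h w0 (by simp)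
  have h1 : ∀ w ∈ (R : Set (List Bool)), Z w = Z' w := fun w hw =>
    h w (by
      rw [Finset.coe_insert]
      exact Set.mem_insert_of_mem _ hw)
  simp only [Set.mem_ofPred_eq]
  rw [h0, Meas2_feq hF h1, hG Z Z' h1]

theorem mu_fix_one {R : Finset (List Bool)} {w0 : List Bool} (hw : w0 ∉ R) {F : Oracle → Bool}
    {G : Set Oracle} (hF : Dep (R : Set (List Bool)) {Z | F Z = true})
    (hG : Dep (R : Set (List Bool)) G) :
    mu.real {Z | Z w0 = F Z ∧ Z ∈ G} = 1 / 2 * mu.real G := by
  have hd := Meas2_dep (w0 := w0) hF hG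
  have hm := hd.measurableSet
  have hne : ∀ w ∈ (R : Set (List Bool)), w ≠ w0 := by
    rintro w hw' rfl
    exact hw (Finset.mem_coe.mp hw')
  have hagree : ∀ Z : Oracle, ∀ w ∈ (R : Set (List Bool)),
      (Function.update Z w0 (!(Z w0))) w = Z w := by
    intro Z w hw'
    rw [Function.update_of_ne (hne w hw')]
  have hpre : (fun Z : Oracle => Function.update Z w0 (!(Z w0))) ⁻¹' {Z | Z w0 ≠ F Z ∧ Z ∈ G} =
      {Z | Z w0 = F Z ∧ Z ∈ G} := by
    ext Z
    simp only [Set.mem_preimage, Set.mem_ofPred_eq]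
    rw [Meas2_feq hF (hagree Z), hG _ _ (hagree Z), Function.update_self]
    cases Z w0 <;> cases F Z <;> simp
  have h1 : mu.real {Z | Z w0 = F Z ∧ Z ∈ G} = mu.real {Z | Z w0 ≠ F Z ∧ Z ∈ G} := by
    unfold Measure.real
    rw [← hpre, (mu_flip w0).measure_preimage hm.nullMeasurableSet]
  have hun : G = {Z | Z w0 = F Z ∧ Z ∈ G} ∪ {Z | Z w0 ≠ F Z ∧ Z ∈ G} := by
    ext Z
    simp only [Set.mem_union, Set.mem_ofPred_eq]
    tauto
  have hdis : Disjoint {Z | Z w0 = F Z ∧ Z ∈ G} {Z | Z w0 ≠ F Z ∧ Z ∈ G} := by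
    rw [Set.disjoint_left]
    intro Z h2 h3
    exact h3.1 h2.1
  have h2 : mu.real G = mu.real {Z | Z w0 = F Z ∧ Z ∈ G} + mu.real {Z | Z w0 ≠ F Z ∧ Z ∈ G} := by
    conv_lhs => rw [hun]
    exact measureReal_union hdis hm
  rw [h2, h1]
  ring

theorem mu_fix {R S : Finset (List Bool)} (hRS : Disjoint R S) {F : Oracle → List Bool → Bool}
    {G : Set Oracle} (hF : ∀ w ∈ S, Dep (R : Set (List Bool)) {Z | F Z w = true})
    (hG : Dep (R : Set (List Bool)) G) :
    mu.real {Z | (∀ w ∈ S, Z w = F Z w) ∧ Z ∈ G} = (1 / 2) ^ S.card * mu.real G := by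
  classical
  induction S using Finset.induction_on with
  | empty => simp
  | insert w0 S hw0 ih =>
    have hRS' : Disjoint R S := Finset.disjoint_of_subset_right (Finset.subset_insert _ _) hRS
    have hw0R : w0 ∉ R := fun h => (Finset.disjoint_left.mp hRS h) (Finset.mem_insert_self _ _)
    have ih' := ih hRS' (fun w hw => hF w (Finset.mem_insert_of_mem hw))
    have hsub : ∀ {Z Z' : Oracle}, (∀ w ∈ ((R ∪ S : Finset (List Bool)) : Set (List Bool)), Z w = Z' w) →
        ∀ w ∈ (R : Set (List Bool)), Z w = Z' w := by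
      intro Z Z' h w hw
      exact h w (by
        rw [Finset.coe_union]
        exact Or.inl hw)
    have h1 := mu_fix_one (R := R ∪ S) (w0 := w0) (F := fun Z => F Z w0)
      (G := {Z | (∀ w ∈ S, Z w = F Z w) ∧ Z ∈ G}) (by
        rw [Finset.mem_union]
        exact fun h => h.elim hw0R hw0) (by
        intro Z Z' h
        exact hF w0 (Finset.mem_insert_self _ _) Z Z' (hsub h)) (by
        intro Z Z' h
        have h2 := hsub h
        simp only [Set.mem_ofPred_eq]
        rw [hG Z Z' h2]
        apply and_congr_left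
        intro _
        apply forall₂_congr
        intro w hw
        have h3 : Z w = Z' w := h w (by
          rw [Finset.coe_union]
          exact Or.inr (Finset.mem_coe.mpr hw))
        have h4 : F Z w = F Z' w :=
          Meas2_feq (F := fun Z => F Z w) (hF w (Finset.mem_insert_of_mem hw)) h2
        rw [h3, h4])
    rw [ih'] at h1
    have h5 : {Z | (∀ w ∈ insert w0 S, Z w = F Z w) ∧ Z ∈ G} =
        {Z | Z w0 = F Z w0 ∧ Z ∈ {Z | (∀ w ∈ S, Z w = F Z w) ∧ Z ∈ G}} := by
      ext Z
      simp only [Set.mem_ofPred_eq, Finset.forall_mem_insert, and_assoc]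
    rw [h5, h1, Finset.card_insert_of_notMem hw0, pow_succ]
    ring

/-- The bits `e 0, ..., e (N - 1)` (last bit first). -/
def rd (e : ℕ → List Bool) (Z : Oracle) : ℕ → List Bool
  | 0 => []
  | n + 1 => Z (e n) :: rd e Z n

private lemma Meas2_rd {e : ℕ → List Bool} {Z Z' : Oracle} : ∀ N : ℕ,
    (∀ j < N, Z (e j) = Z' (e j)) → rd e Z N = rd e Z' N
  | 0, _ => rfl
  | N + 1, h => by
    change Z (e N) :: rd e Z N = Z' (e N) :: rd e Z' N
    rw [h N (by omega), Meas2_rd N (fun j hj => h j (by omega))]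

private lemma Meas2_sum (N : ℕ) (f : List Bool → ℝ) :
    ∑ ι ∈ strings (N + 1), f ι =
      ∑ ι ∈ strings N, f (true :: ι) + ∑ ι ∈ strings N, f (false :: ι) := by
  classical
  have h1 : strings (N + 1) = (strings N).image (fun ι => true :: ι) ∪
      (strings N).image (fun ι => false :: ι) := by
    ext ι
    simp only [Finset.mem_union, Finset.mem_image, mem_strings]
    constructor
    · intro h
      cases ι with
      | nil => simp at h
      | cons b ι =>
        cases b
        · exact Or.inr ⟨ι, by simpa using h, rfl⟩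
        · exact Or.inl ⟨ι, by simpa using h, rfl⟩
    · rintro (⟨κ, h, rfl⟩ | ⟨κ, h, rfl⟩) <;> simp [h]
  have h2 : Disjoint ((strings N).image (fun ι => true :: ι))
      ((strings N).image (fun ι => false :: ι)) := by
    rw [Finset.disjoint_left]
    intro x hx hx'
    rw [Finset.mem_image] at hx hx'
    obtain ⟨a, _, rfl⟩ := hx
    obtain ⟨b, _, hb⟩ := hx'
    simp at hb
  rw [h1, Finset.sum_union h2, Finset.sum_image, Finset.sum_image]
  · intro a _ b _ hab
    simpa using hab
  · intro a _ b _ hab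
    simpa using hab

theorem mu_index {R : Finset (List Bool)} {e : ℕ → List Bool} (he : Function.Injective e)
    (hR : ∀ j, e j ∉ R) (N : ℕ) {G : List Bool → Set Oracle}
    (hG : ∀ ι, Dep (R : Set (List Bool)) (G ι)) :
    mu.real {Z | Z ∈ G (rd e Z N)} = ∑ ι ∈ strings N, (1 / 2 : ℝ) ^ N * mu.real (G ι) := by
  classical
  induction N generalizing G with
  | zero =>
    have h1 : strings 0 = {[]} := by
      ext ι
      simp [mem_strings]
    rw [h1, Finset.sum_singleton, pow_zero, one_mul]
    rfl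
  | succ N ih =>
    obtain ⟨R', hR'⟩ : ∃ R' : Finset (List Bool), R' = R ∪ (Finset.range N).image e := ⟨_, rfl⟩
    have heN : e N ∉ R' := by
      rw [hR', Finset.mem_union, Finset.mem_image]
      rintro (h | ⟨j, hj, hje⟩)
      · exact hR N h
      · have := he hje
        rw [Finset.mem_range] at hj
        omega
    have hdep : ∀ b : Bool, Dep (R' : Set (List Bool)) {Z | Z ∈ G (b :: rd e Z N)} := by
      intro b Z Z' h
      have h1 : rd e Z N = rd e Z' N := by
        apply Meas2_rd
        intro j hj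
        apply h
        rw [hR', Finset.coe_union]
        exact Or.inr (Finset.mem_coe.mpr (Finset.mem_image_of_mem e (Finset.mem_range.mpr hj)))
      simp only [Set.mem_ofPred_eq]
      rw [h1]
      apply hG
      intro w hw
      apply h
      rw [hR', Finset.coe_union]
      exact Or.inl hw
    have hb : ∀ b : Bool, mu.real {Z | Z (e N) = b ∧ Z ∈ {Z | Z ∈ G (b :: rd e Z N)}} =
        1 / 2 * ∑ ι ∈ strings N, (1 / 2 : ℝ) ^ N * mu.real (G (b :: ι)) := by
      intro b
      have h1 := mu_fix_one (R := R') (w0 := e N) heN (F := fun _ => b)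
        (G := {Z | Z ∈ G (b :: rd e Z N)}) (fun _ _ _ => Iff.rfl) (hdep b)
      rw [ih (G := fun ι => G (b :: ι)) (fun ι => hG _)] at h1
      exact h1
    have hun : {Z | Z ∈ G (rd e Z (N + 1))} =
        {Z | Z (e N) = true ∧ Z ∈ {Z | Z ∈ G (true :: rd e Z N)}} ∪
          {Z | Z (e N) = false ∧ Z ∈ {Z | Z ∈ G (false :: rd e Z N)}} := by
      ext Z
      simp only [Set.mem_union, Set.mem_ofPred_eq]
      change Z ∈ G (Z (e N) :: rd e Z N) ↔ _
      cases Z (e N) <;> simp
    have hdis : Disjoint {Z : Oracle | Z (e N) = true ∧ Z ∈ {Z | Z ∈ G (true :: rd e Z N)}}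
        {Z | Z (e N) = false ∧ Z ∈ {Z | Z ∈ G (false :: rd e Z N)}} := by
      rw [Set.disjoint_left]
      intro Z h1 h2
      have h3 := h1.1
      rw [h2.1] at h3
      exact absurd h3 (by simp)
    have hm : MeasurableSet {Z : Oracle | Z (e N) = false ∧ Z ∈ {Z | Z ∈ G (false :: rd e Z N)}} := by
      apply Dep.measurableSet (R := insert (e N) R')
      intro Z Z' h
      have h1 : Z (e N) = Z' (e N) := h (e N) (by simp)
      have h2 := hdep false Z Z' (fun w hw => h w (by
        rw [Finset.coe_insert]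
        exact Set.mem_insert_of_mem _ hw))
      simp only [Set.mem_ofPred_eq] at h2 ⊢
      rw [h1, h2]
    rw [hun, measureReal_union hdis hm, hb true, hb false, Meas2_sum, pow_succ]
    rw [Finset.mul_sum, Finset.mul_sum]
    congr 1 <;>
    · apply Finset.sum_congr rfl
      intro ι _
      ring

end Pool.Agent.H82.LM
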