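import Pool.Agent.H82.LM.Cons
import Pool.Agent.H82.LM.Meas2
import Pool.Agent.H82.LM.ClsB

/-!
# Row CntA: probability that all claims are correct

PROOFS. `phi_join`: `funext`, cases on the word.
`mu_zeros`: `mu_fix` with `R = ∅`, `G = univ`, `F = false`, `S` the image of the finset of
`card_rank r` under `w ↦ true :: true :: w` (injective).
`V_local`: as `sigF_local` (row ClsB): `D.V A w b` is a quantifier prefix (`QB_congr`) over
`Accepts A D.r (w :: chunks ..)`, and this depends only on the words of length at most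
`t + D.Tr.eval t`, `t = totalLength (w :: chunks ..) ≤ n + D.m * D.q.eval n` (the chunks have length
at most `q(|w|)` each; `D.hr`, `accepts_iff_of_halted`, `dtp_acceptsIn`, `DTP.depends`, `poly_mono`).
`mu_claims`: by `D.consistent_iff` and `D.accepts_claims` the event is
`{Z | (∀ w ∈ S, Z w = F Z w) ∧ Z ∈ G}` with `S` the image of the finset of all words of length
`≤ D.L n` (`(Finset.range (L + 1)).biUnion strings`, `2 ^ (L + 1) - 1` elements; or `card_rank` with
`r = 2 ^ (L + 1) - 1`, as `bval (true :: w) ≤ 2 ^ (L + 1) - 1` iff `|w| ≤ L`) under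
`a ↦ true :: true :: a`, `F Z (true :: true :: a) = decide (D.solP (join Z Y) (D.lam n) a)`,
`G = {Z | x ∉ D.B (Phi (join Z Y))}`. By `phi_join`, `V_local` and `delF_local` (`D.B_mem`),
`F` and `G` depend only on the words of a finset `R` of words beginning with `false`. `mu_fix` gives
`(1/2)^|S| * mu.real G`; `mu.real G = 1 - mu.real Gᶜ` (`probReal_compl_eq_one_sub`), and `mu.real Gᶜ = β`
by `mu_comp` for `g w = false :: w` and `phi_join` (`MeasurePreserving.measureReal_preimage`).
-/

set_option autoImplicit false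

namespace Pool.Agent.H82.LM

open Pool.Agent.H9 Pool.Agent.H83 MeasureTheory

theorem phi_join (Z Y : Oracle) : Phi (join Z Y) = join (fun w => Z (false :: w)) Y := by
  funext w
  rcases w with _ | ⟨_ | _, w⟩ <;> rfl

theorem CntA_dep_const (R : Set (List Bool)) (P : Prop) : Dep R {_Z : Oracle | P} :=
  fun _ _ _ => Iff.rfl

theorem mu_zeros (r : ℕ) :
    mu.real {Z | ∀ w : List Bool, bval (true :: w) ≤ r → Z (true :: true :: w) = false} =
      (1 / 2) ^ r := by
  classical
  obtain ⟨R, hR, hR'⟩ := card_rank r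
  have hinj : Function.Injective (fun w : List Bool => true :: true :: w) := by
    intro a b h
    simpa using h
  have h := mu_fix (R := ∅) (S := R.image (fun w : List Bool => true :: true :: w))
    (Finset.disjoint_empty_left _) (F := fun _ _ => false) (G := Set.univ)
    (fun w _ => CntA_dep_const _ _) (fun _ _ _ => Iff.rfl)
  rw [Finset.card_image_of_injective _ hinj, hR, probReal_univ, mul_one] at h
  rw [← h]
  congr 1
  ext Z
  simp only [Set.mem_ofPred_eq, Set.mem_univ, and_true]
  constructor
  · intro h1 w hw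
    obtain ⟨a, ha, rfl⟩ := Finset.mem_image.1 hw
    exact h1 a ((hR' a).1 ha)
  · intro h1 w hw
    exact h1 _ (Finset.mem_image.2 ⟨w, (hR' w).2 hw, rfl⟩)

theorem Dat.B_mem (D : Dat) : D.B ∈ DelF (D.m + 1) :=
  ⟨D.C, ⟨D.q, D.Tr, D.r, D.hr, fun _ _ => Iff.rfl⟩, D.Tp, D.p, D.hp, fun _ _ => Iff.rfl⟩

theorem CntA_chunks (m q : ℕ) (b : List Bool) : totalLength (chunks m q b) ≤ m * q := by
  induction m generalizing b with
  | zero => simp [chunks, totalLength]
  | succ m ih =>
    have h1 : totalLength (chunks (m + 1) q b) =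
        (b.take q).length + totalLength (chunks m q (b.drop q)) := by
      simp [chunks, totalLength]
    have h2 := ih (b.drop q)
    have h3 : (b.take q).length ≤ q := List.length_take_le q b
    rw [h1, Nat.add_mul, one_mul]
    omega

theorem V_local (D : Dat) (n : ℕ) : ∃ M : ℕ, ∀ A A' : Oracle,
    (∀ w : List Bool, w.length ≤ M → A w = A' w) → ∀ w b : List Bool, w.length ≤ n →
      b.length ≤ D.m * D.q.eval w.length → (D.V A w b ↔ D.V A' w b) := by
  refine ⟨(n + D.m * D.q.eval n) + D.Tr.eval (n + D.m * D.q.eval n), ?_⟩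
  intro A A' hA w b hw _
  unfold Dat.V
  apply QB_congr
  intro v _
  have h1 : (w :: chunks D.m (D.q.eval w.length) (b ++ v)).length = D.m + 1 := by
    rw [List.length_cons, chunks_length]
  have h2 : totalLength (w :: chunks D.m (D.q.eval w.length) (b ++ v)) ≤ n + D.m * D.q.eval n := by
    have h3 : totalLength (w :: chunks D.m (D.q.eval w.length) (b ++ v)) =
        w.length + totalLength (chunks D.m (D.q.eval w.length) (b ++ v)) := by
      simp [totalLength]
    rw [h3]
    exact add_le_add hw ((CntA_chunks _ _ _).trans (Nat.mul_le_mul_left _ (poly_mono D.q hw)))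
  rw [accepts_iff_of_halted (D.hr A _ h1), accepts_iff_of_halted (D.hr A' _ h1)]
  apply DTP.depends (dtp_acceptsIn D.r _ _ _ (add_le_add h2 (poly_mono D.Tr h2)))
  intro w hw
  exact hA w hw

/-- the words of length at most `M` -/
noncomputable def CntA_W (M : ℕ) : Finset (List Bool) := (Finset.range (M + 1)).biUnion strings

theorem CntA_mem_W {M : ℕ} {w : List Bool} : w ∈ CntA_W M ↔ w.length ≤ M := by
  unfold CntA_W
  rw [Finset.mem_biUnion]
  constructor
  · rintro ⟨k, hk, hw⟩
    rw [mem_strings] at hw
    have := Finset.mem_range.1 hk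
    omega
  · intro h
    exact ⟨w.length, Finset.mem_range.2 (Nat.lt_succ_of_le h), mem_strings.2 rfl⟩

theorem CntA_join {M : ℕ} {Z Z' Y : Oracle} (h : ∀ w : List Bool, w.length ≤ M → Z w = Z' w) :
    ∀ w : List Bool, w.length ≤ M → join Z Y w = join Z' Y w := by
  intro w hw
  rcases w with _ | ⟨_ | _, w⟩
  · rfl
  · exact h w (by simp at hw; omega)
  · rfl

theorem CntA_phi {M : ℕ} {Z Z' Y : Oracle}
    (h : ∀ w ∈ (((CntA_W M).image (fun w => false :: w) : Finset (List Bool)) : Set (List Bool)),
      Z w = Z' w) : ∀ w : List Bool, w.length ≤ M → Phi (join Z Y) w = Phi (join Z' Y) w := by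
  rw [phi_join, phi_join]
  apply CntA_join
  intro w hw
  apply h
  rw [Finset.mem_coe, Finset.mem_image]
  exact ⟨w, CntA_mem_W.2 hw, rfl⟩

theorem CntA_rank (L : ℕ) (a : List Bool) : bval (true :: a) ≤ 2 ^ (L + 1) - 1 ↔ a.length ≤ L := by
  have h0 := Nat.two_pow_pos (L + 1)
  constructor
  · intro h
    by_contra hcon
    have h1 : 2 ^ (L + 1) ≤ 2 ^ a.length := Nat.pow_le_pow_right (by norm_num) (by omega)
    rw [bval, Bool.toNat_true, one_mul] at h
    omega
  · intro h
    have h1 := bval_lt (true :: a)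
    rw [List.length_cons] at h1
    have h2 : 2 ^ (a.length + 1) ≤ 2 ^ (L + 1) := Nat.pow_le_pow_right (by norm_num) (by omega)
    omega

theorem mu_claims (D : Dat) (Y : Oracle) (n : ℕ) {x : List Bool} (hx : x.length ≤ n) :
    mu.real {Z | (∀ a : List Bool, a.length ≤ D.L n →
        (join Z Y (cl a) = true ↔ D.ruleP (join Z Y) (D.lam n) a)) ∧
        ¬ Accepts (fun w => join Z Y (cl (false :: w))) D.p [x]} =
      (1 / 2) ^ (2 ^ (D.L n + 1) - 1) * (1 - mu.real {Z | x ∈ D.B (join Z Y)}) := by
  classical
  obtain ⟨R0, hR0, hR0'⟩ := card_rank (2 ^ (D.L n + 1) - 1)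
  have hinj : Function.Injective (fun w : List Bool => true :: true :: w) := by
    intro a b h
    simpa using h
  have hinj' : Function.Injective (fun w : List Bool => false :: w) := by
    intro a b h
    simpa using h
  obtain ⟨M1, hM1⟩ := V_local D (D.lam n)
  obtain ⟨M2, hM2⟩ := delF_local D.B_mem n
  obtain ⟨M, h1M, h2M⟩ : ∃ M, M1 ≤ M ∧ M2 ≤ M := ⟨max M1 M2, le_max_left _ _, le_max_right _ _⟩
  have hRS : Disjoint ((CntA_W M).image (fun w => false :: w))
      (R0.image (fun w : List Bool => true :: true :: w)) := by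
    rw [Finset.disjoint_left]
    intro w h1 h2
    obtain ⟨a, -, rfl⟩ := Finset.mem_image.1 h1
    obtain ⟨b, -, hb⟩ := Finset.mem_image.1 h2
    simp at hb
  have hG : Dep (((CntA_W M).image (fun w => false :: w) : Finset (List Bool)) : Set (List Bool))
      {Z | x ∉ D.B (Phi (join Z Y))} := by
    intro Z Z' hZ
    exact not_congr (hM2 _ _ (fun w hw => CntA_phi hZ w (hw.trans h2M)) x hx)
  have hF : ∀ w ∈ R0.image (fun w : List Bool => true :: true :: w),
      Dep (((CntA_W M).image (fun w => false :: w) : Finset (List Bool)) : Set (List Bool))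
        {Z : Oracle | (fun (Z : Oracle) (w : List Bool) =>
          decide (D.solP (join Z Y) (D.lam n) (w.drop 2))) Z w = true} := by
    intro w _ Z Z' hZ
    simp only [Set.mem_ofPred_eq, decide_eq_true_eq]
    unfold Dat.solP
    refine and_congr_right fun _ => and_congr_right fun h2 => and_congr_right fun h3 => ?_
    exact hM1 _ _ (fun w hw => CntA_phi hZ w (hw.trans h1M)) _ _ h2 h3
  have key := mu_fix hRS hF hG
  rw [Finset.card_image_of_injective _ hinj, hR0] at key
  have hset : {Z : Oracle | (∀ a : List Bool, a.length ≤ D.L n →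
        (join Z Y (cl a) = true ↔ D.ruleP (join Z Y) (D.lam n) a)) ∧
        ¬ Accepts (fun w => join Z Y (cl (false :: w))) D.p [x]} =
      {Z : Oracle | (∀ w ∈ R0.image (fun w : List Bool => true :: true :: w),
        Z w = (fun (Z : Oracle) (w : List Bool) =>
          decide (D.solP (join Z Y) (D.lam n) (w.drop 2))) Z w) ∧
        Z ∈ {Z : Oracle | x ∉ D.B (Phi (join Z Y))}} := by
    ext Z
    simp only [Set.mem_ofPred_eq]
    rw [D.consistent_iff (join Z Y) n]
    have e1 : (∀ a : List Bool, a.length ≤ D.L n →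
        (join Z Y (cl a) = true ↔ D.solP (join Z Y) (D.lam n) a)) ↔
        (∀ w ∈ R0.image (fun w : List Bool => true :: true :: w),
          Z w = decide (D.solP (join Z Y) (D.lam n) (w.drop 2))) := by
      constructor
      · intro h w hw
        obtain ⟨a, ha, rfl⟩ := Finset.mem_image.1 hw
        have h1 : (Z (true :: true :: a) = true ↔ D.solP (join Z Y) (D.lam n) a) :=
          h a ((CntA_rank _ _).1 ((hR0' a).1 ha))
        rw [Bool.eq_iff_iff, decide_eq_true_eq]
        exact h1
      · intro h a ha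
        have h1 := h _ (Finset.mem_image.2 ⟨a, (hR0' a).2 ((CntA_rank _ _).2 ha), rfl⟩)
        rw [Bool.eq_iff_iff, decide_eq_true_eq] at h1
        exact h1
    rw [← e1]
    refine and_congr_right fun h => not_congr ?_
    exact D.accepts_claims (join Z Y) n h hx
  rw [hset, key]
  congr 1
  have hH : MeasurableSet {Z : Oracle | x ∈ D.B (join Z Y)} := by
    refine Dep.measurableSet (R := CntA_W M2) ?_
    intro Z Z' hZ
    exact hM2 _ _ (CntA_join fun w hw => hZ w (Finset.mem_coe.2 (CntA_mem_W.2 hw))) x hx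
  have hpre : {Z : Oracle | x ∉ D.B (Phi (join Z Y))} =
      (fun Z : Oracle => Z ∘ (fun w : List Bool => false :: w)) ⁻¹'
        {Z : Oracle | x ∈ D.B (join Z Y)}ᶜ := by
    ext Z
    simp only [Set.mem_ofPred_eq, Set.mem_preimage, Set.mem_compl_iff]
    rw [phi_join]
    rfl
  rw [hpre, (mu_comp hinj').measureReal_preimage hH.compl.nullMeasurableSet,
    probReal_compl_eq_one_sub hH]

end Pool.Agent.H82.LM
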