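import Pool.Agent.H82.LM.CntA

/-!
# Row CntB: the rejection events for fixed index bits
-/

set_option autoImplicit false

namespace Pool.Agent.H82.LM

open Pool.Agent.H9 Pool.Agent.H83 MeasureTheory

/-- Position of the index bit `j` in the first half of the join. -/
def ej (j : ℕ) : List Bool := true :: false :: List.replicate j true

/-- The event that all guesses are rejected, for fixed index bits `f`, `i`, `a`. -/
def rej (D : Dat) (Y : Oracle) (n : ℕ) (wK wn x : List Bool) (f : Bool) (i a : List Bool) :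
    Set Oracle :=
  {Z | ∀ u : List Bool, u.length = D.L n + 1 → ¬ D.core (join Z Y) n wK wn x f i a u}

theorem ej_inj : Function.Injective ej := by
  intro a b h
  have h1 := congrArg List.length h
  simpa [ej] using h1

theorem rb_eq_rd (Z Y : Oracle) (N : ℕ) : rb (join Z Y) N = rd ej Z N := by
  induction N with
  | zero => rfl
  | succ n ih =>
    rw [rb, rd, ih]
    rfl

theorem rd_length (e : ℕ → List Bool) (Z : Oracle) (N : ℕ) : (rd e Z N).length = N := by
  induction N with
  | zero => rfl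
  | succ n ih => rw [rd, List.length_cons, ih]

private lemma CntB_empty (D : Dat) (Y : Oracle) (n : ℕ) (wK wn x : List Bool) (f : Bool)
    (i a : List Bool)
    (h : ∀ Z : Oracle, ∀ u : List Bool, D.core (join Z Y) n wK wn x f i a u) :
    mu.real (rej D Y n wK wn x f i a) = 0 := by
  have h1 : rej D Y n wK wn x f i a = ∅ := by
    rw [Set.eq_empty_iff_forall_notMem]
    intro Z hZ
    exact hZ (List.replicate (D.L n + 1) false) (List.length_replicate) (h Z _)
  rw [h1, measureReal_empty]

theorem rej_1 (D : Dat) (Y : Oracle) (n : ℕ) (wK wn x : List Bool) {i a : List Bool}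
    (h1 : Inn i wK) (h2 : ¬ Inn i wn) (ha : a.length = D.L n + 1) (h0 : bval a ≠ 0) :
    mu.real (rej D Y n wK wn x true i a) = (1 / 2) ^ bval a := by
  rw [← mu_zeros (bval a)]
  congr 1
  ext Z
  constructor
  · intro hZ w hw
    have h3 : w.length ≤ D.L n := by
      by_contra hlt
      push Not at hlt
      have h4 := bval_lt a
      rw [ha] at h4
      have h5 : 2 ^ (D.L n + 1) ≤ 2 ^ w.length := Nat.pow_le_pow_right (by norm_num) hlt
      rw [bval, Bool.toNat_true, one_mul] at hw
      omega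
    obtain ⟨u, hu1, hu2, hu3⟩ := exists_strip h3
    have h4 := hZ u hu1
    by_contra h5
    apply h4
    refine Or.inl ⟨rfl, h1, h2, Or.inr ⟨by rw [hu3]; exact hw, ?_⟩⟩
    rw [hu2]
    exact Bool.eq_true_of_not_eq_false h5
  · intro hZ u hu hc
    have hZ' : ∀ w : List Bool, bval (true :: w) ≤ bval a → Z (true :: true :: w) = false := hZ
    rcases hc with ⟨_, _, _, hc⟩ | ⟨_, hc, _⟩ | ⟨hc, _⟩ | ⟨hc, _⟩
    · rcases hc with hc | ⟨hc1, hc2⟩
      · exact h0 hc
      · have h3 : bval (true :: strip u) ≤ bval a := by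
          by_cases h4 : bval u = 0
          · rw [strip_of_zero h4]
            simp only [bval, List.length_nil, pow_zero, Bool.toNat_true]
            omega
          · rw [bval_strip h4]
            exact hc1
        have h5 := hZ' _ h3
        have h6 : join Z Y (cl (strip u)) = Z (true :: true :: strip u) := rfl
        rw [h6, h5] at hc2
        exact Bool.false_ne_true hc2
    · exact hc ⟨h1, h2⟩
    · exact Bool.false_ne_true hc.symm
    · exact Bool.false_ne_true hc.symm

theorem rej_2 (D : Dat) (Y : Oracle) (n : ℕ) (wK wn x : List Bool) {i a : List Bool}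
    (h1 : Inn i wK) (h2 : ¬ Inn i wn) (h0 : bval a = 0) :
    mu.real (rej D Y n wK wn x true i a) = 0 := by
  exact CntB_empty D Y n wK wn x true i a fun _ _ => Or.inl ⟨rfl, h1, h2, Or.inl h0⟩

theorem rej_3 (D : Dat) (Y : Oracle) (n : ℕ) (wK wn x : List Bool) {i a : List Bool}
    (h1 : ¬ (Inn i wK ∧ ¬ Inn i wn)) (h0 : bval a ≠ 0) :
    mu.real (rej D Y n wK wn x true i a) = 0 := by
  exact CntB_empty D Y n wK wn x true i a fun _ _ => Or.inr (Or.inl ⟨rfl, h1, h0⟩)

theorem rej_4 (D : Dat) (Y : Oracle) (n : ℕ) (wK wn x : List Bool) {i a : List Bool}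
    (h1 : ¬ (Inn i wK ∧ ¬ Inn i wn)) (h0 : bval a = 0) :
    mu.real (rej D Y n wK wn x true i a) = 1 := by
  have h3 : rej D Y n wK wn x true i a = Set.univ := by
    rw [Set.eq_univ_iff_forall]
    intro Z u hu hc
    rcases hc with ⟨_, hc1, hc2, _⟩ | ⟨_, _, hc⟩ | ⟨hc, _⟩ | ⟨hc, _⟩
    · exact h1 ⟨hc1, hc2⟩
    · exact hc h0
    · exact Bool.false_ne_true hc.symm
    · exact Bool.false_ne_true hc.symm
  rw [h3, probReal_univ]

theorem rej_5 (D : Dat) (Y : Oracle) (n : ℕ) (wK wn x : List Bool) {i a : List Bool}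
    (h1 : Inn i wK) (h0 : bval a ≠ 0) : mu.real (rej D Y n wK wn x false i a) = 0 := by
  exact CntB_empty D Y n wK wn x false i a fun _ _ => Or.inr (Or.inr (Or.inl ⟨rfl, h1, Or.inl h0⟩))

theorem rej_6 (D : Dat) (Y : Oracle) (n : ℕ) (wK wn : List Bool) {x : List Bool}
    (hx : x.length ≤ n) {i a : List Bool} (h1 : Inn i wK) (h0 : bval a = 0) :
    mu.real (rej D Y n wK wn x false i a) =
      (1 / 2) ^ (2 ^ (D.L n + 1) - 1) * (1 - mu.real {Z | x ∈ D.B (join Z Y)}) := by
  rw [← mu_claims D Y n hx]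
  congr 1
  ext Z
  constructor
  · intro hZ
    refine ⟨?_, ?_⟩
    · intro b hb
      obtain ⟨u, hu1, hu2, _⟩ := exists_strip hb
      have h4 := hZ u hu1
      by_contra h5
      apply h4
      refine Or.inr (Or.inr (Or.inl ⟨rfl, h1, Or.inr (Or.inl ?_)⟩))
      rw [hu2]
      exact h5
    · intro hacc
      exact hZ (List.replicate (D.L n + 1) false) (List.length_replicate)
        (Or.inr (Or.inr (Or.inl ⟨rfl, h1, Or.inr (Or.inr hacc)⟩)))
  · rintro ⟨hZ1, hZ2⟩ u hu hc
    rcases hc with ⟨hc, _⟩ | ⟨hc, _⟩ | ⟨_, _, hc⟩ | ⟨_, hc⟩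
    · exact Bool.false_ne_true hc
    · exact Bool.false_ne_true hc
    · rcases hc with hc | hc | hc
      · exact hc h0
      · exact hc (hZ1 _ (strip_length hu))
      · exact hZ2 hc
    · exact hc h1

theorem rej_7 (D : Dat) (Y : Oracle) (n : ℕ) (wK wn x : List Bool) {i a : List Bool}
    (h1 : ¬ Inn i wK) : mu.real (rej D Y n wK wn x false i a) = 0 := by
  exact CntB_empty D Y n wK wn x false i a fun _ _ => Or.inr (Or.inr (Or.inr ⟨rfl, h1⟩))

end Pool.Agent.H82.LM
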