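import Pool.Agent.H82.LM.CntB

/-!
# Row CntB2: the rejection events depend on finitely many bits, none of them an index bit

PROOF. `rej_dep`: all parts of `core` depend on `Z` only through: `Z (true :: true :: strip u)`;
`D.ruleP (join Z Y) (D.lam n) (strip u)`, which reads the claims at `adr (b ++ [..]) w` of length
`≤ D.L n` (`D.L_bound`) and `Accepts (Phi (join Z Y)) D.r (w :: chunks ..)` (`phi_join`; depends on
`Z` at words `false :: w'`, `|w'| ≤ M`: it is `D.V .. w b` for `|b| = D.m * q`, use `V_local`,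
`QB_leaf`); `Accepts (fun w => join Z Y (cl (false :: w))) D.p [x]`, which depends on the claims at
`false :: w`, `|w| ≤ |x| + D.Tp.eval |x|`. Take `R` = all words of length `≤ M'` (large) which do not
begin with `true :: false`.
-/

set_option autoImplicit false

namespace Pool.Agent.H82.LM

open Pool.Agent.H9 Pool.Agent.H83 MeasureTheory

/-- The two oracles agree on the words of length at most `M` which do not begin with
`true :: false`. -/
def CntB2_agree (M : ℕ) (Z Z' : Oracle) : Prop :=
  ∀ w : List Bool, w.length ≤ M → w.take 2 ≠ [true, false] → Z w = Z' w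

theorem CntB2_cl {M : ℕ} {Z Z' : Oracle} (h : CntB2_agree M Z Z') (Y : Oracle) (a : List Bool)
    (ha : a.length + 2 ≤ M) : join Z Y (cl a) = join Z' Y (cl a) := by
  show Z (true :: true :: a) = Z' (true :: true :: a)
  refine h _ (by rw [List.length_cons, List.length_cons]; exact ha) ?_
  simp

theorem CntB2_phi {M : ℕ} {Z Z' : Oracle} (h : CntB2_agree M Z Z') (Y : Oracle) (w : List Bool)
    (hw : w.length ≤ M) : Phi (join Z Y) w = Phi (join Z' Y) w := by
  rw [phi_join, phi_join]
  match w with
  | [] => rfl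
  | false :: w =>
    show Z (false :: w) = Z' (false :: w)
    refine h _ (by simpa using hw) ?_
    cases w <;> simp
  | true :: w => rfl

theorem CntB2_rule (D : Dat) (Y : Oracle) (n : ℕ) : ∃ M : ℕ, ∀ Z Z' : Oracle,
    CntB2_agree M Z Z' → ∀ a : List Bool, a.length ≤ D.L n →
      (D.ruleP (join Z Y) (D.lam n) a ↔ D.ruleP (join Z' Y) (D.lam n) a) := by
  obtain ⟨M, hM⟩ := V_local D (D.lam n)
  refine ⟨M + D.L n + 10, fun Z Z' h a ha => ?_⟩
  by_cases h1 : (unadr a).1 = true
  · obtain ⟨b, hb⟩ : ∃ b, b = (unadr a).2.1 := ⟨_, rfl⟩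
    obtain ⟨w, hw⟩ : ∃ w, w = (unadr a).2.2 := ⟨_, rfl⟩
    have hab : a = adr b w := by rw [hb, hw]; exact adr_of_unadr h1
    rw [hab] at ha ⊢
    rw [D.Cons_rule, D.Cons_rule]
    rw [length_adr] at ha
    refine and_congr_right fun hwl => ?_
    refine or_congr (and_congr_right fun hlt => ?_) (and_congr_right fun heq => ?_)
    · refine opP_congr ?_ ?_
      · rw [CntB2_cl h Y _ (by rw [length_adr, Dat.Cons_snoc]; omega)]
      · rw [CntB2_cl h Y _ (by rw [length_adr, Dat.Cons_snoc]; omega)]
    · rw [← D.Cons_leaf _ _ _ heq, ← D.Cons_leaf _ _ _ heq]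
      refine hM _ _ (fun v hv => ?_) w b hwl heq.le
      exact CntB2_phi h Y v (by omega)
  · unfold Dat.ruleP
    exact ⟨fun h2 => absurd h2.1 h1, fun h2 => absurd h2.1 h1⟩

theorem CntB2_acc (D : Dat) (Y : Oracle) (n : ℕ) {x : List Bool} (hx : x.length ≤ n)
    {Z Z' : Oracle} (h : CntB2_agree (D.lam n + 3) Z Z') :
    Accepts (fun w => join Z Y (cl (false :: w))) D.p [x] ↔
      Accepts (fun w => join Z' Y (cl (false :: w))) D.p [x] := by
  rw [accepts_iff_of_halted (D.hp _ [x] rfl), accepts_iff_of_halted (D.hp _ [x] rfl)]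
  refine (dtp_acceptsIn D.p [x] (D.Tp.eval (totalLength [x])) (D.lam n) ?_).depends ?_
  · have e : totalLength [x] = x.length := by
      simp [totalLength]
    have h1 : D.Tp.eval (totalLength [x]) ≤ D.Tp.eval n := poly_mono D.Tp (by rw [e]; exact hx)
    have h2 : D.lam n = n + D.Tp.eval n := by
      unfold Dat.lam Dat.lamP
      rw [Polynomial.eval_add, Polynomial.eval_X]
    omega
  · intro w hw
    have hw' : w.length ≤ D.lam n := hw
    exact CntB2_cl h Y _ (by rw [List.length_cons]; omega)

theorem CntB2_agree.mono {M M' : ℕ} {Z Z' : Oracle} (h : CntB2_agree M' Z Z') (hM : M ≤ M') :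
    CntB2_agree M Z Z' := fun w hw => h w (hw.trans hM)

theorem CntB2_agree.symm {M : ℕ} {Z Z' : Oracle} (h : CntB2_agree M Z Z') :
    CntB2_agree M Z' Z := fun w hw ht => (h w hw ht).symm

theorem rej_dep (D : Dat) (Y : Oracle) (n : ℕ) (wK wn x : List Bool) (hx : x.length ≤ n) :
    ∃ R : Finset (List Bool), (∀ j, ej j ∉ R) ∧ ∀ (f : Bool) (i a : List Bool),
      a.length = D.L n + 1 → Dep (R : Set (List Bool)) (rej D Y n wK wn x f i a) := by
  classical
  obtain ⟨M, hM⟩ := CntB2_rule D Y n
  obtain ⟨M', hM'⟩ : ∃ M', M' = M + D.L n + D.lam n + 10 := ⟨_, rfl⟩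
  refine ⟨(List.finite_length_le Bool M').toFinset.filter (fun w => w.take 2 ≠ [true, false]),
    fun j => ?_, fun f i a _ Z Z' hZ => ?_⟩
  · rw [Finset.mem_filter]
    rintro ⟨-, h2⟩
    exact h2 (by simp [ej])
  · have hag : CntB2_agree M' Z Z' := by
      intro w hw ht
      refine hZ w ?_
      rw [Finset.mem_coe, Finset.mem_filter, Set.Finite.mem_toFinset]
      exact ⟨hw, ht⟩
    have hcore : ∀ u : List Bool, u.length = D.L n + 1 →
        (D.core (join Z Y) n wK wn x f i a u ↔ D.core (join Z' Y) n wK wn x f i a u) := by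
      intro u hu
      have hs : (strip u).length ≤ D.L n := strip_length hu
      have e1 := CntB2_cl hag Y (strip u) (by omega)
      have e2 := hM Z Z' (hag.mono (by omega)) (strip u) hs
      have e3 := CntB2_acc D Y n hx (hag.mono (M := D.lam n + 3) (by omega))
      unfold Dat.core
      rw [e1, e2, e3]
    constructor
    · intro h u hu hc
      exact h u hu ((hcore u hu).2 hc)
    · intro h u hu hc
      exact h u hu ((hcore u hu).1 hc)

end Pool.Agent.H82.LM
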