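import Pool.Agent.H82.LM.CardI

/-!
# Row CntC: the sum over the index bits

PROOFS. `sum_strings`: `ι ↦ (ι.headD false, ι.tail.take c, ι.drop (1 + c))` is a bijection from the
words of length `1 + c + v` to `Bool × strings c × strings v` with inverse
`(f, i, a) ↦ f :: (i ++ a)` (`Finset.sum_bij'` or `sum_nbij'`).
`sum_half`: `bval` is a bijection from `strings v` to `range (2 ^ v)` (`bval_inj`, `bval_surj`,
`bval_lt`), so the sum is `∑ r in [1, 2 ^ v - 1], (1/2)^r = 1 - (1/2)^(2^v - 1)` (geometric sum,
`Finset.sum_range_succ'`, induction on the upper bound).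
`sum_total`: by `sum_strings` the sum is the sum over `f`, `i`, `a`. For `f = false`: the sum over the
`i` with `Inn i (z K)` (`K` of them, `card_inn`) and the single `a` with `bval a = 0` of `t`: `K * t`.
For `f = true`: for the `K - n` indices (`card_inn_sdiff`) the sum over `a` is
`∑_{bval a ≠ 0} (1/2)^(bval a) = 1 - (1/2)^(2^v - 1)`; for the other `2 ^ c - (K - n)` indices it is
`1`.
-/

set_option autoImplicit false

namespace Pool.Agent.H82.LM

open Pool.Agent.H9 Pool.Agent.H83

private theorem CntC_card (c : ℕ) : (strings c).card = 2 ^ c := by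
  unfold strings
  rw [Finset.card_image_of_injective _ List.ofFn_injective, Finset.card_univ]
  simp

private theorem CntC_icc (N : ℕ) : ∑ r ∈ Finset.Icc 1 N, (1 / 2 : ℝ) ^ r = 1 - (1 / 2) ^ N := by
  induction N with
  | zero => simp
  | succ N ih =>
    rw [Finset.sum_Icc_succ_top (by omega), ih, pow_succ]
    ring

private theorem CntC_zero (v : ℕ) : (strings v).filter (fun a => bval a = 0) =
    {List.replicate v false} := by
  ext a
  rw [Finset.mem_filter, Finset.mem_singleton, mem_strings]
  constructor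
  · rintro ⟨h1, h2⟩
    apply bval_inj (by rw [h1, List.length_replicate])
    rw [h2, Bval_rep]
  · rintro rfl
    exact ⟨List.length_replicate, Bval_rep v⟩

theorem sum_strings (c v : ℕ) (g : Bool → List Bool → List Bool → ℝ) :
    ∑ ι ∈ strings (1 + c + v), g (ι.headD false) (ι.tail.take c) (ι.drop (1 + c)) =
      ∑ i ∈ strings c, ∑ a ∈ strings v, (g false i a + g true i a) := by
  have e1 : ∑ i ∈ strings c, ∑ a ∈ strings v, (g false i a + g true i a) =
      ∑ x ∈ strings c ×ˢ (strings v ×ˢ (Finset.univ : Finset Bool)), g x.2.2 x.1 x.2.1 := by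
    rw [Finset.sum_product]
    refine Finset.sum_congr rfl fun i _ => ?_
    rw [Finset.sum_product]
    refine Finset.sum_congr rfl fun a _ => ?_
    rw [Fintype.sum_bool, add_comm]
  rw [e1]
  refine Finset.sum_nbij' (fun ι => (ι.tail.take c, (ι.drop (1 + c), ι.headD false)))
    (fun x => x.2.2 :: (x.1 ++ x.2.1)) ?_ ?_ ?_ ?_ ?_
  · intro ι hι
    rw [mem_strings] at hι
    rw [Finset.mem_product, Finset.mem_product, mem_strings, mem_strings]
    refine ⟨?_, ?_, Finset.mem_univ _⟩
    · rw [List.length_take, List.length_tail, hι]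
      omega
    · change (ι.drop (1 + c)).length = v
      rw [List.length_drop, hι]
      omega
  · intro x hx
    rw [Finset.mem_product, Finset.mem_product, mem_strings, mem_strings] at hx
    rw [mem_strings, List.length_cons, List.length_append, hx.1, hx.2.1]
    omega
  · intro ι hι
    rw [mem_strings] at hι
    cases ι with
    | nil =>
      rw [List.length_nil] at hι
      omega
    | cons b l =>
      change b :: (l.take c ++ (b :: l).drop (1 + c)) = b :: l
      rw [add_comm 1 c, List.drop_succ_cons, List.take_append_drop]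
  · intro x hx
    rw [Finset.mem_product, Finset.mem_product, mem_strings, mem_strings] at hx
    obtain ⟨i, a, b⟩ := x
    obtain ⟨h1, -, -⟩ := hx
    change ((i ++ a).take c, ((b :: (i ++ a)).drop (1 + c), b)) = (i, (a, b))
    change i.length = c at h1
    rw [add_comm 1 c, List.drop_succ_cons, List.take_left' h1, List.drop_left' h1]
  · intro ι _
    rfl

theorem sum_half (v : ℕ) : ∑ a ∈ (strings v).filter (fun a => bval a ≠ 0), (1 / 2 : ℝ) ^ bval a =
    1 - (1 / 2) ^ (2 ^ v - 1) := by
  rw [← CntC_icc]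
  have h1 : ((strings v).filter (fun a => bval a ≠ 0)).image bval = Finset.Icc 1 (2 ^ v - 1) := by
    ext x
    rw [Finset.mem_image, Finset.mem_Icc]
    constructor
    · rintro ⟨a, ha, rfl⟩
      rw [Finset.mem_filter, mem_strings] at ha
      have := bval_lt a
      rw [ha.1] at this
      have h2 := ha.2
      omega
    · intro hx
      have h0 := Nat.two_pow_pos v
      obtain ⟨l, hl, hlx⟩ := bval_surj (m := v) (N := x) (by omega)
      exact ⟨l, Finset.mem_filter.2 ⟨mem_strings.2 hl, by rw [hlx]; omega⟩, hlx⟩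
  rw [← h1, Finset.sum_image]
  intro a ha b hb hab
  have ha' := mem_strings.1 (Finset.mem_filter.1 ha).1
  have hb' := mem_strings.1 (Finset.mem_filter.1 hb).1
  exact bval_inj (ha'.trans hb'.symm) hab

theorem sum_total {c v K n : ℕ} (hK : K < 2 ^ c) (t : ℝ)
    (g : Bool → List Bool → List Bool → ℝ)
    (h1 : ∀ i ∈ strings c, ∀ a ∈ strings v, Inn i (z K) → ¬ Inn i (z n) → bval a ≠ 0 →
      g true i a = (1 / 2) ^ bval a)
    (h2 : ∀ i ∈ strings c, ∀ a ∈ strings v, Inn i (z K) → ¬ Inn i (z n) → bval a = 0 →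
      g true i a = 0)
    (h3 : ∀ i ∈ strings c, ∀ a ∈ strings v, ¬ (Inn i (z K) ∧ ¬ Inn i (z n)) → bval a ≠ 0 →
      g true i a = 0)
    (h4 : ∀ i ∈ strings c, ∀ a ∈ strings v, ¬ (Inn i (z K) ∧ ¬ Inn i (z n)) → bval a = 0 →
      g true i a = 1)
    (h5 : ∀ i ∈ strings c, ∀ a ∈ strings v, Inn i (z K) → bval a ≠ 0 → g false i a = 0)
    (h6 : ∀ i ∈ strings c, ∀ a ∈ strings v, Inn i (z K) → bval a = 0 → g false i a = t)
    (h7 : ∀ i ∈ strings c, ∀ a ∈ strings v, ¬ Inn i (z K) → g false i a = 0) :
    ∑ ι ∈ strings (1 + c + v), g (ι.headD false) (ι.tail.take c) (ι.drop (1 + c)) =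
      K * t + ((K - n : ℕ) : ℝ) * (1 - (1 / 2) ^ (2 ^ v - 1)) + (2 ^ c - ((K - n : ℕ) : ℝ)) := by
  classical
  rw [sum_strings]
  simp only [Finset.sum_add_distrib]
  -- the sum over the words with value zero
  have hz : ∀ (f : List Bool → ℝ) (u w : ℝ),
      (∀ a ∈ strings v, bval a = 0 → f a = u) →
      (∑ a ∈ (strings v).filter (fun a => bval a ≠ 0), f a = w) →
      ∑ a ∈ strings v, f a = w + u := by
    intro f u w hu hw
    rw [← Finset.sum_filter_add_sum_filter_not (strings v) (fun a => bval a ≠ 0), hw]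
    congr 1
    have e : (strings v).filter (fun a => ¬ bval a ≠ 0) = {List.replicate v false} := by
      rw [← CntC_zero v]
      ext a
      simp
    rw [e, Finset.sum_singleton]
    exact hu _ (mem_strings.2 List.length_replicate) (Bval_rep v)
  have hF : ∀ i ∈ strings c, ∑ a ∈ strings v, g false i a = if Inn i (z K) then t else 0 := by
    intro i hi
    by_cases hI : Inn i (z K)
    · rw [if_pos hI, hz (g false i) t 0 (fun a ha hb => h6 i hi a ha hI hb), zero_add]
      refine Finset.sum_eq_zero fun a ha => ?_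
      rw [Finset.mem_filter] at ha
      exact h5 i hi a ha.1 hI ha.2
    · rw [if_neg hI]
      exact Finset.sum_eq_zero fun a ha => h7 i hi a ha hI
  have hT : ∀ i ∈ strings c, ∑ a ∈ strings v, g true i a =
      if (Inn i (z K) ∧ ¬ Inn i (z n)) then 1 - (1 / 2 : ℝ) ^ (2 ^ v - 1) else 1 := by
    intro i hi
    by_cases hI : Inn i (z K) ∧ ¬ Inn i (z n)
    · rw [if_pos hI, hz (g true i) 0 (1 - (1 / 2 : ℝ) ^ (2 ^ v - 1))
        (fun a ha hb => h2 i hi a ha hI.1 hI.2 hb), add_zero]
      rw [← sum_half v]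
      refine Finset.sum_congr rfl fun a ha => ?_
      rw [Finset.mem_filter] at ha
      exact h1 i hi a ha.1 hI.1 hI.2 ha.2
    · rw [if_neg hI, hz (g true i) 1 0 (fun a ha hb => h4 i hi a ha hI hb), zero_add]
      refine Finset.sum_eq_zero fun a ha => ?_
      rw [Finset.mem_filter] at ha
      exact h3 i hi a ha.1 hI ha.2
  rw [Finset.sum_congr rfl hF, Finset.sum_congr rfl hT, ← Finset.sum_filter, Finset.sum_const,
    nsmul_eq_mul]
  have c1 : ((strings c).filter (fun i => Inn i (z K))).card = K := by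
    convert card_inn hK
  have c2 : ((strings c).filter (fun i => Inn i (z K) ∧ ¬ Inn i (z n))).card = K - n := by
    convert card_inn_sdiff (n := n) hK
  rw [c1, Finset.sum_ite, Finset.sum_const, Finset.sum_const, nsmul_eq_mul, nsmul_eq_mul, c2]
  have c3 : ((((strings c).filter (fun i => ¬ (Inn i (z K) ∧ ¬ Inn i (z n)))).card : ℕ) : ℝ) =
      2 ^ c - ((K - n : ℕ) : ℝ) := by
    have h := Finset.card_filter_add_card_filter_not (s := strings c)
      (fun i => Inn i (z K) ∧ ¬ Inn i (z n))
    rw [c2, CntC_card] at h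
    have h' : (((K - n : ℕ) : ℝ)) +
        ((((strings c).filter (fun i => ¬ (Inn i (z K) ∧ ¬ Inn i (z n)))).card : ℕ) : ℝ) = 2 ^ c := by
      exact_mod_cast h
    linarith
  rw [c3]
  ring

end Pool.Agent.H82.LM
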