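import Pool.Agent.H82.LM.EvA
import Pool.Agent.H82.LM.ClsA

/-!
# Row EvB: the family `D.E` is an NP family

PROOF of `ev_OP`. The input is the list `l = [s, u]`; `s = l.headD []`, `u = l.tail.headD []`. All
parts are compositions: `n = s.length`; `U1 = unadr s`, `wK = U1.2.1`, `U2 = unadr U1.2.2`,
`wn = U2.2.1`, `x = U2.2.2`; `ι = rb A (D.N n)` (`OP.rb`; `D.N n = 1 + (n + 1) + (D.LP.eval n + 1)`,
`Poly.polyEval`), `f = ι.headD false`, `i = ι.tail.take (n + 1)`, `a = ι.drop (1 + (n + 1))`
(`poly_take`, `poly_drop`). With `ltb` from `exists_ltb`: `innK = !(i.all (!·)) && ltb (i, true :: wK)`,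
`innn = !(i.all (!·)) && ltb (i, true :: wn)`, `a0 = a.all (!·)` (`bval_zero_iff`),
`h = A (cl (strip u))` (`OP.ask`), `r = R A (D.lamP.eval n, strip u)` (`rule_OP`),
`acc = g A (fitL 1 [x])` with `g A xs = decide (Accepts (fun w => A (cl (false :: w))) D.p xs)`
(`OP.simL` with `j = 1`, `D.hp`). The function is
`F = U1.1 && U2.1 && ((f && innK && !innn && (a0 || (!(ltb (a, u)) && h))) ||
(f && !(innK && !innn) && !a0) || (!f && innK && (!a0 || (h != r) || acc)) || (!f && !innK))`.
Correctness: if `U1.1` and `U2.1` are true, then `s = adr wK (adr wn x)` (`adr_of_unadr`), so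
`|true :: wK| ≤ n + 1` and `|true :: wn| ≤ n + 1 = |i|` (`length_adr`, `rb_length`), so `ltb` is
correct; `|u| = D.L n + 1 = |a|`, so `ltb (a, u)` is correct; `0 < bval i` is `bval_zero_iff`.
`E_mem`: `sigF_of_OP 1 (D.LP + 1)` with `F`; `Alt true 1 m φ` unfolds to
`∃ u, u.length = m ∧ φ [u]`.
-/

set_option autoImplicit false

namespace Pool.Agent.H82.LM

open Pool.Agent.H9 Pool.Agent.H83

private lemma EvB_bool : ∀ f k n a0 lt h r acc : Bool,
    (((f && k && !n && (a0 || (!lt && h))) || (f && !(k && !n) && !a0) ||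
      (!f && k && (!a0 || (bif h then !r else r) || acc)) || (!f && !k)) = true ↔
    ((f = true ∧ k = true ∧ ¬ n = true ∧ (a0 = true ∨ (¬ lt = true ∧ h = true))) ∨
      (f = true ∧ ¬ (k = true ∧ ¬ n = true) ∧ ¬ a0 = true) ∨
      (f = false ∧ k = true ∧ (¬ a0 = true ∨ ¬ (h = true ↔ r = true) ∨ acc = true)) ∨
      (f = false ∧ ¬ k = true))) := by
  intro f k n a0 lt h r acc
  cases f <;> cases k <;> cases n <;> cases a0 <;> simp <;> cases lt <;> cases h <;> cases r <;>
    cases acc <;> simp

private lemma EvB_inn {ltb : List Bool × List Bool → Bool}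
    (h : ∀ i w : List Bool, w.length ≤ i.length → (ltb (i, w) = true ↔ bval i < bval w))
    {i w : List Bool} (hl : w.length + 1 ≤ i.length) :
    ((!(i.all (fun b => !b))) && ltb (i, true :: w)) = true ↔ Inn i w := by
  unfold Inn
  rw [Bool.and_eq_true, h i (true :: w) (by simpa using hl), Bool.not_eq_true', ← Bool.not_eq_true,
    ← bval_zero_iff]
  omega

theorem ev_OP (D : Dat) : ∃ F : Oracle → List (List Bool) → Bool, OP Set.univ F ∧
    ∀ (A : Oracle) (s u : List Bool), u.length = (D.LP + 1).eval s.length →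
      (F A [s, u] = true ↔ D.ev A s u) := by
  classical
  obtain ⟨ltb, hltb, hlt⟩ := exists_ltb
  obtain ⟨R, hR, hRule⟩ := rule_OP D
  have hs : Poly (fun l : List (List Bool) => l.headD []) := Poly.headD [] Poly.id
  have hu : Poly (fun l : List (List Bool) => l.tail.headD []) :=
    Poly.headD [] (Poly.tail Poly.id)
  have hU1 : Poly (fun l : List (List Bool) => unadr (l.headD [])) := unadr_poly.comp hs
  have hU2 : Poly (fun l : List (List Bool) => unadr (unadr (l.headD [])).2.2) :=
    unadr_poly.comp (Poly.snd' (Poly.snd' hU1))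
  have hn : Poly (fun l : List (List Bool) => (l.headD []).length) := Poly.length hs
  have hN : Poly (fun l : List (List Bool) => D.N (l.headD []).length) := by
    unfold Dat.N Dat.L
    exact Poly.add (Poly.add (Pool.Agent.H83.Poly.const 1) (Poly.succ hn))
      (Poly.succ (Poly.polyEval D.LP hn))
  have hι : OP Set.univ (fun (A : Oracle) (l : List (List Bool)) => rb A (D.N (l.headD []).length)) :=
    (OP.rb Set.univ).comp (OP.of_poly hN Set.univ)
  have hnO : OP Set.univ (fun (_ : Oracle) (l : List (List Bool)) => (l.headD []).length) :=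
    OP.of_poly hn Set.univ
  have hf : OP Set.univ (fun (A : Oracle) (l : List (List Bool)) =>
      (rb A (D.N (l.headD []).length)).headD false) := OP.map (Poly.headD false Poly.id) hι
  have hi : OP Set.univ (fun (A : Oracle) (l : List (List Bool)) =>
      (rb A (D.N (l.headD []).length)).tail.take ((l.headD []).length + 1)) :=
    OP.map (g := fun p : List Bool × ℕ => p.1.tail.take (p.2 + 1))
      (poly_take (Poly.tail (Poly.fst' Poly.id)) (Poly.succ (Poly.snd' Poly.id))) (hι.pair hnO)
  have ha : OP Set.univ (fun (A : Oracle) (l : List (List Bool)) =>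
      (rb A (D.N (l.headD []).length)).drop (1 + ((l.headD []).length + 1))) :=
    OP.map (g := fun p : List Bool × ℕ => p.1.drop (1 + (p.2 + 1)))
      (poly_drop (Poly.fst' Poly.id) (Poly.add (Pool.Agent.H83.Poly.const 1)
        (Poly.succ (Poly.snd' Poly.id)))) (hι.pair hnO)
  have hk : OP Set.univ (fun (A : Oracle) (l : List (List Bool)) =>
      ((!(((rb A (D.N (l.headD []).length)).tail.take ((l.headD []).length + 1)).all
        (fun b => !b))) && ltb ((rb A (D.N (l.headD []).length)).tail.take
          ((l.headD []).length + 1), true :: (unadr (l.headD [])).2.1))) :=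
    OP.and (OP.not (OP.map (poly_allFalse Poly.id) hi)) (OP.map hltb (hi.pair (OP.of_poly
      (Poly.cons (Pool.Agent.H83.Poly.const true) (Poly.fst' (Poly.snd' hU1))) Set.univ)))
  have hkn : OP Set.univ (fun (A : Oracle) (l : List (List Bool)) =>
      ((!(((rb A (D.N (l.headD []).length)).tail.take ((l.headD []).length + 1)).all
        (fun b => !b))) && ltb ((rb A (D.N (l.headD []).length)).tail.take
          ((l.headD []).length + 1), true :: (unadr (unadr (l.headD [])).2.2).2.1))) :=
    OP.and (OP.not (OP.map (poly_allFalse Poly.id) hi)) (OP.map hltb (hi.pair (OP.of_poly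
      (Poly.cons (Pool.Agent.H83.Poly.const true) (Poly.fst' (Poly.snd' hU2))) Set.univ)))
  have ha0 : OP Set.univ (fun (A : Oracle) (l : List (List Bool)) =>
      ((rb A (D.N (l.headD []).length)).drop (1 + ((l.headD []).length + 1))).all (fun b => !b)) :=
    OP.map (poly_allFalse Poly.id) ha
  have hau : OP Set.univ (fun (A : Oracle) (l : List (List Bool)) =>
      ltb ((rb A (D.N (l.headD []).length)).drop (1 + ((l.headD []).length + 1)),
        l.tail.headD [])) := OP.map hltb (ha.pair (OP.of_poly hu Set.univ))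
  have hstrip : Poly (fun l : List (List Bool) => strip (l.tail.headD [])) := strip_poly hu
  have hh : OP Set.univ (fun (A : Oracle) (l : List (List Bool)) =>
      A (cl (strip (l.tail.headD [])))) :=
    OP.ask (OP.of_poly (Poly.cons (Pool.Agent.H83.Poly.const false)
      (Poly.cons (Pool.Agent.H83.Poly.const true) (Poly.cons (Pool.Agent.H83.Poly.const true) hstrip)))
      Set.univ)
  have hr : OP Set.univ (fun (A : Oracle) (l : List (List Bool)) =>
      R A (D.lamP.eval (l.headD []).length, strip (l.tail.headD []))) :=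
    hR.comp ((OP.of_poly (Poly.polyEval D.lamP hn) Set.univ).pair (OP.of_poly hstrip Set.univ))
  have hG : OP Set.univ (fun (A : Oracle) (w : List Bool) => A (cl (false :: w))) :=
    OP.ask (OP.of_poly (Poly.cons (Pool.Agent.H83.Poly.const false)
      (Poly.cons (Pool.Agent.H83.Poly.const true) (Poly.cons (Pool.Agent.H83.Poly.const true)
        (Poly.cons (Pool.Agent.H83.Poly.const false) Poly.id)))) Set.univ)
  have hacc0 := OP.simL 1 D.p D.Tp hG (fun A _ => D.hp _)
    (f := fun A xs => decide (Accepts (fun w => A (cl (false :: w))) D.p xs))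
    (fun A _ xs _ => decide_eq_true_iff)
  have hacc : OP Set.univ (fun (A : Oracle) (l : List (List Bool)) =>
      decide (Accepts (fun w => A (cl (false :: w))) D.p
        (fitL 1 [(unadr (unadr (l.headD [])).2.2).2.2]))) :=
    hacc0.comp (OP.of_poly (Poly.cons (Poly.snd' (Poly.snd' hU2)) (Pool.Agent.H83.Poly.const [])) Set.univ)
  refine ⟨_, OP.and (OP.and (OP.of_poly (Poly.fst' hU1) Set.univ) (OP.of_poly (Poly.fst' hU2) Set.univ))
    (OP.or (OP.or (OP.or (OP.and (OP.and (OP.and hf hk) (OP.not hkn)) (OP.or ha0 (OP.and (OP.not hau) hh)))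
      (OP.and (OP.and hf (OP.not (OP.and hk (OP.not hkn)))) (OP.not ha0)))
      (OP.and (OP.and (OP.not hf) hk) (OP.or (OP.or (OP.not ha0) (OP.cond hh (OP.not hr) hr)) hacc)))
      (OP.and (OP.not hf) (OP.not hk))), ?_⟩
  intro A s u hu1
  have e1 : ([s, u] : List (List Bool)).headD [] = s := rfl
  have e2 : ([s, u] : List (List Bool)).tail.headD [] = u := rfl
  simp only [e1, e2]
  rw [Bool.and_eq_true, Bool.and_eq_true, EvB_bool]
  unfold Dat.ev
  rw [and_assoc]
  refine and_congr_right fun h1 => and_congr_right fun h2 => ?_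
  have l1 := length_adr (unadr s).2.1 (unadr s).2.2
  rw [← adr_of_unadr h1] at l1
  have l2 := length_adr (unadr (unadr s).2.2).2.1 (unadr (unadr s).2.2).2.2
  rw [← adr_of_unadr h2] at l2
  have lN : (rb A (D.N s.length)).length = 1 + (s.length + 1) + (D.L s.length + 1) := by
    rw [rb_length]
    rfl
  have li : ((rb A (D.N s.length)).tail.take (s.length + 1)).length = s.length + 1 := by
    rw [List.length_take, List.length_tail, lN]
    omega
  have la : ((rb A (D.N s.length)).drop (1 + (s.length + 1))).length = D.L s.length + 1 := by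
    rw [List.length_drop, lN]
    omega
  have lu : u.length = D.L s.length + 1 := by
    rw [hu1, Polynomial.eval_add, Polynomial.eval_one]
    rfl
  have k1 := EvB_inn hlt (i := (rb A (D.N s.length)).tail.take (s.length + 1))
    (w := (unadr s).2.1) (by rw [li]; omega)
  have k2 := EvB_inn hlt (i := (rb A (D.N s.length)).tail.take (s.length + 1))
    (w := (unadr (unadr s).2.2).2.1) (by rw [li]; omega)
  have k3 := hlt ((rb A (D.N s.length)).drop (1 + (s.length + 1))) u (by rw [la, lu])
  have k4 : fitL 1 [(unadr (unadr s).2.2).2.2] = [(unadr (unadr s).2.2).2.2] := rfl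
  have k5 := hRule A (D.lamP.eval s.length) (strip u)
  rw [k1, k2, k3, k4, k5, decide_eq_true_iff, ← bval_zero_iff, not_lt]
  rfl

theorem E_mem (D : Dat) : D.E ∈ SigF 1 := by
  obtain ⟨F, hF, h⟩ := ev_OP D
  have h1 := sigF_of_OP 1 (D.LP + 1) hF
  convert h1 using 1
  funext A
  ext s
  change (∃ u : List Bool, u.length = (D.LP + 1).eval s.length ∧ D.ev A s u) ↔
    (∃ u : List Bool, u.length = (D.LP + 1).eval s.length ∧ F A [s, u] = true)
  exact exists_congr fun u => and_congr_right fun hu => (h A s u hu).symm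

end Pool.Agent.H82.LM
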