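import Pool.Agent.H82.LM.CntB2
import Pool.Agent.H82.LM.CntC
import Pool.Agent.H82.LM.EvB

/-!
# Row CntD: the measure of the NP event

PROOFS. `mu_E`: let `s = tup x (z K) (z n)`, `l = s.length` (so `|x| ≤ l` and
`K + 1 = bval (true :: z K) < 2 ^ (|z K| + 1) ≤ 2 ^ (l + 1)`: `z_spec`, `bval_lt`, `length_adr`).
`unadr` of `s` is known (`unadr_adr` twice, `tup x u v = adr u (adr v x)`), so `s ∉ D.E (join Z Y)` iff
`Z ∈ rej D Y l (z K) (z n) x f i a` with `f, i, a` read off `rb (join Z Y) (D.N l) = rd ej Z (D.N l)`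
(`rb_eq_rd`). `mu_index` (with `G ι = {Z | ι.length = D.N l ∧ Z ∈ rej ..}`, `rd_length`, `rej_dep`,
`ej_inj`) and `sum_total` (`c = l + 1`, `v = D.L l + 1`, `D.N l = 1 + c + v`, with `rej_1`, ...,
`rej_7`, `t = (1/2)^T (1 - β)`, `T = 2 ^ v - 1`) give the measure of the complement:
`(1/2)^N (K t + κ (1 - (1/2)^T) + 2^c - κ) = (1/2)^N (2^c + (1/2)^T (K (1 - β) - κ))`,
`κ = K - n`. The event is measurable (`Dep.measurableSet`; `sigF_local` for `D.E`, `E_mem`), so
`probReal_compl_eq_one_sub`.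
-/

set_option autoImplicit false

namespace Pool.Agent.H82.LM

open Pool.Agent.H9 Pool.Agent.H83 MeasureTheory

theorem CntD_len (x : List Bool) (K n : ℕ) :
    (tup x (z K) (z n)).length = 2 * (z K).length + 1 + (2 * (z n).length + 1 + x.length) := by
  unfold tup
  rw [length_adr, length_adr]

theorem CntD_K (x : List Bool) (K n : ℕ) : K < 2 ^ ((tup x (z K) (z n)).length + 1) := by
  have h1 := bval_lt (true :: z K)
  rw [z_spec, List.length_cons] at h1
  have h2 : 2 ^ ((z K).length + 1) ≤ 2 ^ ((tup x (z K) (z n)).length + 1) := by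
    apply Nat.pow_le_pow_right (by norm_num)
    rw [CntD_len]
    omega
  omega

theorem CntD_eval (D : Dat) (l : ℕ) : (D.LP + 1).eval l = D.L l + 1 := by
  rw [Polynomial.eval_add, Polynomial.eval_one]
  rfl

theorem CntD_not (D : Dat) (Y Z : Oracle) (x : List Bool) (K n : ℕ) :
    tup x (z K) (z n) ∉ D.E (join Z Y) ↔
      Z ∈ rej D Y (tup x (z K) (z n)).length (z K) (z n) x
        ((rd ej Z (D.N (tup x (z K) (z n)).length)).headD false)
        ((rd ej Z (D.N (tup x (z K) (z n)).length)).tail.take ((tup x (z K) (z n)).length + 1))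
        ((rd ej Z (D.N (tup x (z K) (z n)).length)).drop
          (1 + ((tup x (z K) (z n)).length + 1))) := by
  have h1 : unadr (tup x (z K) (z n)) = (true, z K, adr (z n) x) := unadr_adr _ _
  have h2 : unadr (adr (z n) x) = (true, z n, x) := unadr_adr _ _
  have h3 : ∀ u, D.ev (join Z Y) (tup x (z K) (z n)) u ↔
      D.core (join Z Y) (tup x (z K) (z n)).length (z K) (z n) x
        ((rd ej Z (D.N (tup x (z K) (z n)).length)).headD false)
        ((rd ej Z (D.N (tup x (z K) (z n)).length)).tail.take ((tup x (z K) (z n)).length + 1))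
        ((rd ej Z (D.N (tup x (z K) (z n)).length)).drop
          (1 + ((tup x (z K) (z n)).length + 1))) u := by
    intro u
    unfold Dat.ev
    rw [h1]
    simp only
    rw [h2, rb_eq_rd]
    simp only [true_and]
  constructor
  · intro h u hu hc
    refine h ⟨u, ?_, (h3 u).2 hc⟩
    rw [CntD_eval]
    exact hu
  · rintro h ⟨u, hu, hev⟩
    rw [CntD_eval] at hu
    exact h u hu ((h3 u).1 hev)

theorem CntD_dep (D : Dat) (Y : Oracle) (s : List Bool) :
    ∃ R : Finset (List Bool), Dep (R : Set (List Bool)) {Z | s ∈ D.E (join Z Y)} := by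
  obtain ⟨M, hM⟩ := sigF_local (E_mem D) s.length
  refine ⟨(Finset.range (M + 1)).biUnion strings, fun Z Z' hZ => ?_⟩
  refine hM (join Z Y) (join Z' Y) (fun w hw => ?_) s le_rfl
  match w with
  | [] => rfl
  | true :: w => rfl
  | false :: w =>
    show Z w = Z' w
    refine hZ w ?_
    rw [Finset.mem_coe, Finset.mem_biUnion]
    refine ⟨w.length, ?_, mem_strings.2 rfl⟩
    rw [List.length_cons] at hw
    rw [Finset.mem_range]
    omega

theorem mu_E (D : Dat) (Y : Oracle) (x : List Bool) (K n : ℕ) :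
    mu.real {Z | tup x (z K) (z n) ∈ D.E (join Z Y)} =
      1 - (1 / 2) ^ (D.N (tup x (z K) (z n)).length) *
        (2 ^ ((tup x (z K) (z n)).length + 1) +
          (1 / 2) ^ (2 ^ (D.L (tup x (z K) (z n)).length + 1) - 1) *
            (K * (1 - mu.real {Z | x ∈ D.B (join Z Y)}) - ((K - n : ℕ) : ℝ))) := by
  obtain ⟨l, hl⟩ : ∃ l, l = (tup x (z K) (z n)).length := ⟨_, rfl⟩
  have hx : x.length ≤ l := by
    rw [hl, CntD_len]
    omega
  have hK : K < 2 ^ (l + 1) := by
    rw [hl]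
    exact CntD_K x K n
  obtain ⟨R', hR'⟩ := CntD_dep D Y (tup x (z K) (z n))
  have hcompl := probReal_compl_eq_one_sub (μ := mu) hR'.measurableSet
  obtain ⟨R, hRej, hR⟩ := rej_dep D Y l (z K) (z n) x hx
  obtain ⟨g, hg⟩ : ∃ g : Bool → List Bool → List Bool → ℝ, g = fun f i a =>
      mu.real (rej D Y l (z K) (z n) x f i a) := ⟨_, rfl⟩
  obtain ⟨G, hG⟩ : ∃ G : List Bool → Set Oracle, G = fun ι => {Z | ι.length = D.N l ∧
      Z ∈ rej D Y l (z K) (z n) x (ι.headD false) (ι.tail.take (l + 1))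
        (ι.drop (1 + (l + 1)))} := ⟨_, rfl⟩
  have hN : D.N l = 1 + (l + 1) + (D.L l + 1) := rfl
  have hGdep : ∀ ι, Dep (R : Set (List Bool)) (G ι) := by
    intro ι Z Z' hZ
    rw [hG]
    show (ι.length = D.N l ∧ _) ↔ (ι.length = D.N l ∧ _)
    refine and_congr_right fun hι => ?_
    refine hR _ _ _ ?_ Z Z' hZ
    rw [List.length_drop, hι, hN]
    omega
  have e1 : {Z | tup x (z K) (z n) ∈ D.E (join Z Y)}ᶜ = {Z | Z ∈ G (rd ej Z (D.N l))} := by
    ext Z
    rw [Set.mem_compl_iff, Set.mem_setOf_eq, Set.mem_setOf_eq, CntD_not, ← hl, hG]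
    show _ ↔ ((rd ej Z (D.N l)).length = D.N l ∧ _)
    rw [rd_length]
    exact ⟨fun h => ⟨rfl, h⟩, fun h => h.2⟩
  have e2 : ∑ ι ∈ strings (D.N l), (1 / 2 : ℝ) ^ (D.N l) * mu.real (G ι) =
      (1 / 2 : ℝ) ^ (D.N l) * ∑ ι ∈ strings (1 + (l + 1) + (D.L l + 1)),
        g (ι.headD false) (ι.tail.take (l + 1)) (ι.drop (1 + (l + 1))) := by
    rw [Finset.mul_sum, ← hN]
    refine Finset.sum_congr rfl fun ι hι => ?_
    have hι' := mem_strings.1 hι
    have e3 : G ι = rej D Y l (z K) (z n) x (ι.headD false) (ι.tail.take (l + 1))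
        (ι.drop (1 + (l + 1))) := by
      rw [hG]
      ext Z
      exact ⟨fun h => h.2, fun h => ⟨hι', h⟩⟩
    rw [e3, hg]
  have hv : ∀ a ∈ strings (D.L l + 1), a.length = D.L l + 1 := fun a ha => mem_strings.1 ha
  have e4 := sum_total (c := l + 1) (v := D.L l + 1) (K := K) (n := n) hK
    ((1 / 2) ^ (2 ^ (D.L l + 1) - 1) * (1 - mu.real {Z | x ∈ D.B (join Z Y)})) g
    (fun i _ a ha h1 h2 h0 => by
      rw [hg]
      exact rej_1 D Y l (z K) (z n) x h1 h2 (hv a ha) h0)
    (fun i _ a _ h1 h2 h0 => by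
      rw [hg]
      exact rej_2 D Y l (z K) (z n) x h1 h2 h0)
    (fun i _ a _ h1 h0 => by
      rw [hg]
      exact rej_3 D Y l (z K) (z n) x h1 h0)
    (fun i _ a _ h1 h0 => by
      rw [hg]
      exact rej_4 D Y l (z K) (z n) x h1 h0)
    (fun i _ a _ h1 h0 => by
      rw [hg]
      exact rej_5 D Y l (z K) (z n) x h1 h0)
    (fun i _ a _ h1 h0 => by
      rw [hg]
      exact rej_6 D Y l (z K) (z n) hx h1 h0)
    (fun i _ a _ h1 => by
      rw [hg]
      exact rej_7 D Y l (z K) (z n) x h1)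
  have e5 := mu_index ej_inj hRej (D.N l) hGdep
  rw [← e1, hcompl, e2, e4] at e5
  rw [← hl]
  have e6 : mu.real {Z | tup x (z K) (z n) ∈ D.E (join Z Y)} =
      1 - (1 - mu.real {Z | tup x (z K) (z n) ∈ D.E (join Z Y)}) := by ring
  rw [e6, e5]
  ring

end Pool.Agent.H82.LM
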