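import Pool.Agent.H82.LM.CntD

/-!
# Row CntE: the reduction

PROOFS. `E_empty`: if `s` is not a tuple then `ev` is false for all `u`: otherwise
`s = adr wK (adr wn x)` (`adr_of_unadr` twice), and `wK = z K`, `wn = z n` by `z_surj`.
`redf_poly`: `z (2 ^ (v + 1)) = replicate v false ++ [true]`, `z (2 ^ (v + 1) - 1) =
replicate (v + 1) false` (`z_pow`, `z_pow_sub`), `adr_poly`, `poly_replicateB`, `Poly.polyEval`,
`Poly.append`.
`redf_iff`: let `v = D.L l + 1`. `redf D s = tup s (z (2^(v+1))) (z (2^(v+1) - 1))` is in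
`LmR Y D.E` iff `(2^(v+1) - 1) / 2^(v+1) < mu.real {Z | s ∈ D.E (join Z Y)}` (`tup` and `z` are
injective: `adr_inj`, `z_inj`). If `s` is not a tuple both sides are false (`E_empty`: measure `0`).
If `s = tup x (z K) (z n)`, then by `mu_E` and `(1/2)^N 2^c = (1/2)^(v+1)` it is
`K (1 - β) < κ`; if `n ≤ K` this is `n < K β`; if `n > K` it is false, and `n < K β ≤ K` is false
too; and `n < K β` is equivalent to `0 < K ∧ n / K < β`, that is, `s ∈ LmR Y D.B`.
-/

set_option autoImplicit false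

namespace Pool.Agent.H82.LM

open Pool.Agent.H9 Pool.Agent.H83 MeasureTheory

theorem E_empty (D : Dat) (A : Oracle) {s : List Bool}
    (hs : ¬ ∃ (x : List Bool) (K n : ℕ), s = tup x (z K) (z n)) : s ∉ D.E A := by
  rintro ⟨u, -, h1, h2, -⟩
  apply hs
  obtain ⟨K, hK⟩ := z_surj (unadr s).2.1
  obtain ⟨n, hn⟩ := z_surj (unadr (unadr s).2.2).2.1
  refine ⟨(unadr (unadr s).2.2).2.2, K, n, ?_⟩
  rw [hK, hn]
  unfold tup
  rw [← adr_of_unadr h2, ← adr_of_unadr h1]

/-- The reduction. -/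
noncomputable def redf (D : Dat) (s : List Bool) : List Bool :=
  tup s (z (2 ^ (D.L s.length + 2))) (z (2 ^ (D.L s.length + 2) - 1))

theorem redf_poly (D : Dat) : Poly (redf D) := by
  have hL : Poly (fun s : List Bool => D.LP.eval s.length) :=
    Pool.Agent.H83.Poly.polyEval D.LP (Poly.length Poly.id)
  refine (adr_poly (Poly.append (poly_replicateB false (Poly.succ hL))
    (Pool.Agent.H83.Poly.const [true]))
    (adr_poly (poly_replicateB false (Poly.succ (Poly.succ hL))) Poly.id)).congr ?_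
  intro s
  have h1 : z (2 ^ (D.LP.eval s.length + 2)) =
      List.replicate (D.LP.eval s.length + 1) false ++ [true] := z_pow _
  have h2 : z (2 ^ (D.LP.eval s.length + 2) - 1) =
      List.replicate (D.LP.eval s.length + 1 + 1) false := z_pow_sub _
  unfold redf tup Dat.L
  rw [h1, h2]

theorem CntE_tup_iff {x x' : List Bool} {K K' n n' : ℕ} :
    tup x (z K) (z n) = tup x' (z K') (z n') ↔ x = x' ∧ K = K' ∧ n = n' := by
  constructor
  · intro h
    obtain ⟨h1, h2⟩ := adr_inj h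
    obtain ⟨h3, h4⟩ := adr_inj h2
    exact ⟨h4, z_inj h1, z_inj h3⟩
  · rintro ⟨rfl, rfl, rfl⟩
    rfl

theorem CntE_mem (Y : Oracle) (B : Fam) (x : List Bool) (K n : ℕ) :
    tup x (z K) (z n) ∈ LmR Y B ↔ 0 < K ∧ (n : ℝ) / K < mu.real {Z | x ∈ B (join Z Y)} := by
  constructor
  · rintro ⟨x', K', n', h, h1, h2⟩
    obtain ⟨rfl, rfl, rfl⟩ := CntE_tup_iff.1 h
    exact ⟨h1, h2⟩
  · rintro ⟨h1, h2⟩
    exact ⟨x, K, n, rfl, h1, h2⟩

theorem redf_iff (D : Dat) (Y : Oracle) (s : List Bool) :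
    s ∈ LmR Y D.B ↔ redf D s ∈ LmR Y D.E := by
  have hr : redf D s ∈ LmR Y D.E ↔
      0 < 2 ^ (D.L s.length + 2) ∧
        ((2 ^ (D.L s.length + 2) - 1 : ℕ) : ℝ) / ((2 ^ (D.L s.length + 2) : ℕ) : ℝ) <
        mu.real {Z | s ∈ D.E (join Z Y)} := CntE_mem Y D.E s _ _
  rw [hr]
  have hpos : (0 : ℝ) < 2 ^ (D.L s.length + 2) := by positivity
  have hcast : ((2 ^ (D.L s.length + 2) - 1 : ℕ) : ℝ) / ((2 ^ (D.L s.length + 2) : ℕ) : ℝ) =
      1 - (1 / 2) ^ (D.L s.length + 2) := by
    rw [Nat.cast_sub Nat.one_le_two_pow]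
    push_cast
    rw [sub_div, div_self hpos.ne', one_div_pow]
  rw [hcast]
  by_cases hs : ∃ (x : List Bool) (K n : ℕ), s = tup x (z K) (z n)
  · obtain ⟨x, K, n, rfl⟩ := hs
    rw [CntE_mem, mu_E]
    set l := (tup x (z K) (z n)).length with hl
    set β := mu.real {Z | x ∈ D.B (join Z Y)} with hβ
    have hβ1 : β ≤ 1 := measureReal_le_one
    have hβ0 : 0 ≤ β := measureReal_nonneg
    have hN : ((1 : ℝ) / 2) ^ (D.N l) * 2 ^ (l + 1) = (1 / 2) ^ (D.L l + 2) := by
      have h1 : D.N l = (D.L l + 2) + (l + 1) := by unfold Dat.N; omega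
      rw [h1, pow_add, mul_assoc, ← mul_pow]
      norm_num
    have hNp : (0 : ℝ) < (1 / 2) ^ (D.N l) := by positivity
    have hTp : (0 : ℝ) < (1 / 2) ^ (2 ^ (D.L l + 1) - 1) := by positivity
    rw [mul_add, hN]
    have key : (1 - (1 / 2 : ℝ) ^ (D.L l + 2) < 1 - ((1 / 2) ^ (D.L l + 2) +
        (1 / 2) ^ D.N l * ((1 / 2) ^ (2 ^ (D.L l + 1) - 1) *
          (K * (1 - β) - ((K - n : ℕ) : ℝ))))) ↔ K * (1 - β) - ((K - n : ℕ) : ℝ) < 0 := by
      constructor
      · intro h
        by_contra hcon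
        rw [not_lt] at hcon
        have := mul_nonneg hNp.le (mul_nonneg hTp.le hcon)
        linarith
      · intro h
        have := mul_neg_of_pos_of_neg hNp (mul_neg_of_pos_of_neg hTp h)
        linarith
    have h2p : 0 < 2 ^ (D.L l + 2) := by positivity
    rw [key]
    simp only [h2p, true_and]
    have hK0 : (0 : ℝ) ≤ K := Nat.cast_nonneg K
    have hn0 : (0 : ℝ) ≤ n := Nat.cast_nonneg n
    rcases Nat.lt_or_ge K n with hKn | hKn
    · rw [Nat.sub_eq_zero_of_le hKn.le, Nat.cast_zero, sub_zero]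
      constructor
      · rintro ⟨h1, h2⟩
        exfalso
        have hK1 : (0 : ℝ) < K := by exact_mod_cast h1
        rw [div_lt_iff₀ hK1] at h2
        have h3 : (K : ℝ) < n := by exact_mod_cast hKn
        have h4 : β * K ≤ 1 * K := mul_le_mul_of_nonneg_right hβ1 hK0
        linarith
      · intro h
        exfalso
        have := mul_nonneg hK0 (sub_nonneg.2 hβ1)
        linarith
    · rw [Nat.cast_sub hKn]
      constructor
      · rintro ⟨h1, h2⟩
        have hK1 : (0 : ℝ) < K := by exact_mod_cast h1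
        rw [div_lt_iff₀ hK1] at h2
        linarith
      · intro h
        have h3 : (n : ℝ) < β * K := by linarith
        have hK1 : (0 : ℝ) < K := by
          rcases hK0.lt_or_eq with h4 | h4
          · exact h4
          · rw [← h4, mul_zero] at h3
            linarith
        exact ⟨by exact_mod_cast hK1, by rw [div_lt_iff₀ hK1]; exact h3⟩
  · constructor
    · rintro ⟨x, K, n, h, -⟩
      exact absurd ⟨x, K, n, h⟩ hs
    · rintro ⟨-, h⟩
      exfalso
      have h1 : {Z | s ∈ D.E (join Z Y)} = ∅ := by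
        ext Z
        simp only [Set.mem_setOf_eq, Set.mem_empty_iff_false, iff_false]
        exact E_empty D _ hs
      rw [h1, measureReal_empty] at h
      have h2 : (1 / 2 : ℝ) ^ (D.L s.length + 2) ≤ 1 := by
        apply pow_le_one₀ <;> norm_num
      linarith

/-- Every language of a `Delta_(m+1)` family reduces to the language of an NP family. -/
theorem main_reduce {m : ℕ} {B : Fam} (hB : B ∈ DelF (m + 1)) :
    ∃ E ∈ SigF 1, ∃ f : List Bool → List Bool, PolyFun f ∧
      ∀ (Y : Oracle) (s : List Bool), s ∈ LmR Y B ↔ f s ∈ LmR Y E := by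
  obtain ⟨C, ⟨q, Tr, r, hr, hC⟩, Tp, p, hp, hB⟩ := hB
  have hC' : C = (Dat.C ⟨m, q, Tr, r, hr, Tp, p, hp⟩) := by
    funext A
    ext x
    exact hC A x
  have hB' : B = (Dat.B ⟨m, q, Tr, r, hr, Tp, p, hp⟩) := by
    funext A
    ext x
    rw [hB A x, hC']
    exact Iff.rfl
  rw [hB']
  exact ⟨_, E_mem _, _, polyFun_of_poly (redf_poly _), fun Y s => redf_iff _ Y s⟩

end Pool.Agent.H82.LM
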