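import Pool.Agent.H82.LM.Dat

/-!
# Row Cons: the consistent claims are the correct ones

PROOFS. Abbreviate, for an address `a` with `unadr a = (true, b, w)` (then `a = adr b w`,
`adr_of_unadr`), `M w = D.m * D.q.eval |w| = (ops ..).length` (`ops_length`).
`ruleP_adr`, `solP_adr`: `unadr_adr`.
`L_bound`: `|adr b w| = 2 |b| + 1 + |w|` (`length_adr`), `M w ≤ m * q(Λ)` since `|w| ≤ Λ`
(`poly_mono` in Pool/Agent/H9/Classes.lean), `D.L n = 2 * (m * q(Λ)) + 1 + Λ` with `Λ = D.lam n`.
`consistent_iff`, direction →: let the claims satisfy the rule at all addresses of length `≤ L`.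
If the address is not of the form `adr b w` with `|w| ≤ Λ`, `|b| ≤ M w`, then `ruleP` and `solP` are
both false. For `|w| ≤ Λ` prove `A (cl (adr b w)) = true ↔ D.V (Phi A) w b` for `|b| ≤ M w` by
induction on `M w - |b|`: for `|b| = M w` by `QB_leaf`, for `|b| < M w` by `QB_node` and the
induction hypothesis for the two children (their addresses have length `≤ L` by `L_bound`).
Direction ←: let the claims be `solP` at all addresses of length `≤ L`; then `ruleP ↔ solP` at each
address of length `≤ L`, by `QB_node` / `QB_leaf` again (the addresses of the children are again of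
length `≤ L`).
`root`: for `|w| ≤ Λ` the claim at `adr [] w = false :: w` is `D.V (Phi A) w []`, which is
`w ∈ D.C (Phi A)` by `alt_QB` (`chunks .. ([] ++ v)`).
`accepts_claims`: the machine `D.p` on input `x` halts after `D.Tp.eval |x|` steps for every oracle
(`D.hp`), so `Accepts` is `AcceptsIn` (`accepts_iff_of_halted`), and by `dtp_acceptsIn` and
`DTP.depends` it depends only on the oracle on words of length at most
`|x| + D.Tp.eval |x| ≤ D.lam n`; there the two oracles `w ↦ A (cl (false :: w))` and
`chi (D.C (Phi A))` agree by `root`.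
-/

set_option autoImplicit false

namespace Pool.Agent.H82.LM

open Pool.Agent.H9 Pool.Agent.H83 MeasureTheory

namespace Dat

variable (D : Dat)

theorem Cons_L (n : ℕ) : D.L n = 2 * (D.m * D.q.eval (D.lam n)) + 1 + D.lam n := by
  unfold Dat.L Dat.LP Dat.lam
  simp only [Polynomial.eval_add, Polynomial.eval_mul, Polynomial.eval_C, Polynomial.eval_comp,
    Polynomial.eval_one, Polynomial.eval_ofNat]

theorem L_bound {n : ℕ} {b w : List Bool} (hw : w.length ≤ D.lam n)
    (hb : b.length ≤ D.m * D.q.eval w.length) : (adr b w).length ≤ D.L n := by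
  rw [length_adr, D.Cons_L]
  have h1 : D.m * D.q.eval w.length ≤ D.m * D.q.eval (D.lam n) :=
    Nat.mul_le_mul_left _ (poly_mono D.q hw)
  omega

theorem Cons_op {e : Bool} {P Q P' Q' : Prop} (h1 : P ↔ P') (h2 : Q ↔ Q') :
    opP e P Q ↔ opP e P' Q' := by
  unfold opP
  rw [h1, h2]

theorem Cons_rule (A : Oracle) (Λ : ℕ) (b w : List Bool) : D.ruleP A Λ (adr b w) ↔
    w.length ≤ Λ ∧
    ((b.length < D.m * D.q.eval w.length ∧
      opP (((ops D.m true (D.q.eval w.length)).drop b.length).headD false)
        (A (cl (adr (b ++ [false]) w)) = true) (A (cl (adr (b ++ [true]) w)) = true)) ∨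
    (b.length = D.m * D.q.eval w.length ∧
      Accepts (Phi A) D.r (w :: chunks D.m (D.q.eval w.length) b))) := by
  unfold Dat.ruleP
  rw [unadr_adr]
  simp only [true_and]

theorem Cons_sol (A : Oracle) (Λ : ℕ) (b w : List Bool) : D.solP A Λ (adr b w) ↔
    w.length ≤ Λ ∧ b.length ≤ D.m * D.q.eval w.length ∧ D.V (Phi A) w b := by
  unfold Dat.solP
  rw [unadr_adr]
  simp only [true_and]

theorem Cons_node (A : Oracle) (w b : List Bool) (h : b.length < D.m * D.q.eval w.length) :
    D.V A w b ↔ opP (((ops D.m true (D.q.eval w.length)).drop b.length).headD false)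
      (D.V A w (b ++ [false])) (D.V A w (b ++ [true])) :=
  QB_node (ops D.m true (D.q.eval w.length)) b
    (fun v => Accepts A D.r (w :: chunks D.m (D.q.eval w.length) v)) (by rw [ops_length]; exact h)

theorem Cons_leaf (A : Oracle) (w b : List Bool) (h : b.length = D.m * D.q.eval w.length) :
    D.V A w b ↔ Accepts A D.r (w :: chunks D.m (D.q.eval w.length) b) :=
  QB_leaf (ops D.m true (D.q.eval w.length)) b
    (fun v => Accepts A D.r (w :: chunks D.m (D.q.eval w.length) v)) (by rw [ops_length]; exact h)

theorem Cons_snoc (b : List Bool) (x : Bool) : (b ++ [x]).length = b.length + 1 := by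
  simp

theorem consistent_iff (A : Oracle) (n : ℕ) :
    (∀ a : List Bool, a.length ≤ D.L n → (A (cl a) = true ↔ D.ruleP A (D.lam n) a)) ↔
      (∀ a : List Bool, a.length ≤ D.L n → (A (cl a) = true ↔ D.solP A (D.lam n) a)) := by
  constructor
  · intro h a ha
    by_cases h1 : (unadr a).1 = true
    · obtain ⟨b, hb⟩ : ∃ b, b = (unadr a).2.1 := ⟨_, rfl⟩
      obtain ⟨w, hw⟩ : ∃ w, w = (unadr a).2.2 := ⟨_, rfl⟩
      have hab : a = adr b w := by rw [hb, hw]; exact adr_of_unadr h1
      rw [hab] at ha ⊢
      by_cases hwl : w.length ≤ D.lam n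
      · by_cases hbl : b.length ≤ D.m * D.q.eval w.length
        · have K : ∀ (k : ℕ) (b : List Bool), b.length + k = D.m * D.q.eval w.length →
              (A (cl (adr b w)) = true ↔ D.V (Phi A) w b) := by
            intro k
            induction k with
            | zero =>
              intro b hk
              rw [add_zero] at hk
              rw [h _ (D.L_bound hwl hk.le), D.Cons_rule, D.Cons_leaf _ _ _ hk]
              constructor
              · rintro ⟨-, h2 | h2⟩
                · omega
                · exact h2.2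
              · intro h2
                exact ⟨hwl, Or.inr ⟨hk, h2⟩⟩
            | succ k ih =>
              intro b hk
              have hlt : b.length < D.m * D.q.eval w.length := by omega
              rw [h _ (D.L_bound hwl hlt.le), D.Cons_rule, D.Cons_node _ _ _ hlt,
                ← Cons_op (ih (b ++ [false]) (by rw [Cons_snoc]; omega))
                  (ih (b ++ [true]) (by rw [Cons_snoc]; omega))]
              constructor
              · rintro ⟨-, h2 | h2⟩
                · exact h2.2
                · omega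
              · intro h2
                exact ⟨hwl, Or.inl ⟨hlt, h2⟩⟩
          rw [K (D.m * D.q.eval w.length - b.length) b (by omega), D.Cons_sol]
          exact ⟨fun h2 => ⟨hwl, hbl, h2⟩, fun h2 => h2.2.2⟩
        · rw [h _ ha, D.Cons_rule, D.Cons_sol]
          constructor
          · rintro ⟨-, h2 | h2⟩
            · omega
            · omega
          · rintro ⟨-, h2, -⟩
            exact absurd h2 hbl
      · rw [h _ ha, D.Cons_rule, D.Cons_sol]
        exact ⟨fun h2 => absurd h2.1 hwl, fun h2 => absurd h2.1 hwl⟩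
    · rw [h a ha]
      unfold Dat.ruleP Dat.solP
      exact ⟨fun h2 => absurd h2.1 h1, fun h2 => absurd h2.1 h1⟩
  · intro h a ha
    by_cases h1 : (unadr a).1 = true
    · obtain ⟨b, hb⟩ : ∃ b, b = (unadr a).2.1 := ⟨_, rfl⟩
      obtain ⟨w, hw⟩ : ∃ w, w = (unadr a).2.2 := ⟨_, rfl⟩
      have hab : a = adr b w := by rw [hb, hw]; exact adr_of_unadr h1
      rw [hab] at ha ⊢
      rw [h _ ha, D.Cons_sol, D.Cons_rule]
      by_cases hwl : w.length ≤ D.lam n
      · rcases lt_trichotomy b.length (D.m * D.q.eval w.length) with hlt | heq | hgt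
        · have hc : ∀ x : Bool, (A (cl (adr (b ++ [x]) w)) = true ↔ D.V (Phi A) w (b ++ [x])) := by
            intro x
            have hx : (b ++ [x]).length ≤ D.m * D.q.eval w.length := by
              rw [Cons_snoc]; exact hlt
            rw [h _ (D.L_bound hwl hx), D.Cons_sol]
            exact ⟨fun h2 => h2.2.2, fun h2 => ⟨hwl, hx, h2⟩⟩
          rw [D.Cons_node _ _ _ hlt, ← Cons_op (hc false) (hc true)]
          constructor
          · rintro ⟨-, -, h2⟩
            exact ⟨hwl, Or.inl ⟨hlt, h2⟩⟩
          · rintro ⟨-, h2 | h2⟩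
            · exact ⟨hwl, hlt.le, h2.2⟩
            · exact absurd h2.1 hlt.ne
        · rw [D.Cons_leaf _ _ _ heq]
          constructor
          · rintro ⟨-, -, h2⟩
            exact ⟨hwl, Or.inr ⟨heq, h2⟩⟩
          · rintro ⟨-, h2 | h2⟩
            · exact absurd heq h2.1.ne
            · exact ⟨hwl, heq.le, h2.2⟩
        · constructor
          · rintro ⟨-, h2, -⟩
            omega
          · rintro ⟨-, h2 | h2⟩
            · omega
            · omega
      · exact ⟨fun h2 => absurd h2.1 hwl, fun h2 => absurd h2.1 hwl⟩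
    · rw [h a ha]
      unfold Dat.ruleP Dat.solP
      exact ⟨fun h2 => absurd h2.1 h1, fun h2 => absurd h2.1 h1⟩

theorem root (A : Oracle) (n : ℕ)
    (h : ∀ a : List Bool, a.length ≤ D.L n → (A (cl a) = true ↔ D.solP A (D.lam n) a))
    {w : List Bool} (hw : w.length ≤ D.lam n) :
    A (cl (false :: w)) = true ↔ w ∈ D.C (Phi A) := by
  have h0 : ([] : List Bool).length ≤ D.m * D.q.eval w.length := Nat.zero_le _
  have h1 := h (adr [] w) (D.L_bound hw h0)
  rw [adr_nil] at h1
  rw [h1, ← adr_nil, D.Cons_sol]
  have h2 : w ∈ D.C (Phi A) ↔ D.V (Phi A) w [] := by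
    show Alt true D.m (D.q.eval w.length) (fun us => Accepts (Phi A) D.r (w :: us)) ↔ _
    rw [alt_QB]
    rfl
  rw [h2]
  exact ⟨fun h3 => h3.2.2, fun h3 => ⟨hw, h0, h3⟩⟩

theorem accepts_claims (A : Oracle) (n : ℕ)
    (h : ∀ a : List Bool, a.length ≤ D.L n → (A (cl a) = true ↔ D.solP A (D.lam n) a))
    {x : List Bool} (hx : x.length ≤ n) :
    Accepts (fun w => A (cl (false :: w))) D.p [x] ↔ x ∈ D.B (Phi A) := by
  show _ ↔ Accepts (chi (D.C (Phi A))) D.p [x]
  rw [accepts_iff_of_halted (D.hp _ [x] rfl), accepts_iff_of_halted (D.hp _ [x] rfl)]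
  refine (dtp_acceptsIn D.p [x] (D.Tp.eval (totalLength [x])) (D.lam n) ?_).depends ?_
  · have e : totalLength [x] = x.length := by
      simp [totalLength]
    have h1 : D.Tp.eval (totalLength [x]) ≤ D.Tp.eval n := poly_mono D.Tp (by rw [e]; exact hx)
    have h2 : D.lam n = n + D.Tp.eval n := by
      unfold Dat.lam Dat.lamP
      rw [Polynomial.eval_add, Polynomial.eval_X]
    omega
  · intro w hw
    have hw' : w.length ≤ D.lam n := hw
    rw [Bool.eq_iff_iff, D.root A n h hw']
    classical
    unfold chi
    exact decide_eq_true_iff.symm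

end Dat

end Pool.Agent.H82.LM
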