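import Pool.Agent.H82.LM.Clos

/-!
# Row Parse: reading `adr b w`

PROOFS. `unadr_adr`, `adr_of_unadr`: induction (functional induction of `unadr`). `unadr_poly`: a
left fold over `s` (`Poly.foldl` or `Poly.foldl_add`, Pool/Agent/H83/PolyLib.lean) with the state
`(done, mark, b, w) : Bool × Bool × List Bool × List Bool`: start `(false, false, [], [])`, step on the
symbol `x`: if `done` then append `x` to the accumulator `w` (kept reversed); else if `mark` then add
`x` to `b` (kept reversed) and clear `mark`; else if `x` then set `mark` else set `done`. At the end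
`unadr s = (done, b.reverse, w.reverse)`: to make this true for ALL `s` prove by induction that the
fold started in `(false, false, b0, [])` ends with `done = (unadr s).1`,
`b.reverse = b0.reverse ++ (unadr s).2.1`, `w.reverse = (unadr s).2.2`. `Enc` instances exist for
products, lists and `Bool`.
-/

set_option autoImplicit false

namespace Pool.Agent.H82.LM

open Pool.Agent.H9 Pool.Agent.H83

/-- Inverse of `adr`; the first component tells whether the word is of the form `adr b w`. -/
def unadr : List Bool → Bool × List Bool × List Bool
  | [] => (false, [], [])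
  | false :: w => (true, [], w)
  | [true] => (false, [], [])
  | true :: x :: t => ((unadr t).1, x :: (unadr t).2.1, (unadr t).2.2)

theorem adr_nil (w : List Bool) : adr [] w = false :: w := rfl

theorem adr_cons (x : Bool) (b w : List Bool) : adr (x :: b) w = true :: x :: adr b w := by
  simp [adr]

theorem length_adr (b w : List Bool) : (adr b w).length = 2 * b.length + 1 + w.length := by
  induction b with
  | nil => rw [adr_nil]; simp; omega
  | cons x b ih =>
    rw [adr_cons, List.length_cons, List.length_cons, ih, List.length_cons]
    omega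

theorem unadr_adr (b w : List Bool) : unadr (adr b w) = (true, b, w) := by
  induction b with
  | nil => rw [adr_nil, unadr]
  | cons x b ih => rw [adr_cons, unadr, ih]

theorem adr_of_unadr {s : List Bool} (h : (unadr s).1 = true) :
    s = adr (unadr s).2.1 (unadr s).2.2 := by
  induction s using unadr.induct with
  | case1 => simp [unadr] at h
  | case2 w => simp [unadr, adr_nil]
  | case3 => simp [unadr] at h
  | case4 x t ih =>
    rw [unadr] at h ⊢
    have h1 := ih h
    simp only
    rw [adr_cons, ← h1]

theorem adr_inj {b w b' w' : List Bool} (h : adr b w = adr b' w') : b = b' ∧ w = w' := by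
  have h1 := unadr_adr b w
  rw [h, unadr_adr] at h1
  simp only [Prod.mk.injEq, true_and] at h1
  exact ⟨h1.1.symm, h1.2.symm⟩

/-- The step of the automaton which reads `adr b w`. -/
def Parse_step (q : Bool × Bool × List Bool × List Bool) (x : Bool) :
    Bool × Bool × List Bool × List Bool :=
  bif q.1 then (true, false, q.2.2.1, x :: q.2.2.2)
  else bif q.2.1 then (false, false, x :: q.2.2.1, q.2.2.2)
  else bif x then (false, true, q.2.2.1, q.2.2.2)
  else (true, false, q.2.2.1, q.2.2.2)

theorem Parse_done (s : List Bool) : ∀ b w : List Bool,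
    s.foldl Parse_step (true, false, b, w) = (true, false, b, s.reverse ++ w) := by
  induction s with
  | nil => intro b w; rfl
  | cons x s ih =>
    intro b w
    rw [List.foldl_cons]
    change s.foldl Parse_step (true, false, b, x :: w) = _
    rw [ih]
    simp

theorem Parse_fold (s : List Bool) : ∀ b0 : List Bool,
    (s.foldl Parse_step (false, false, b0, [])).1 = (unadr s).1 ∧
    (s.foldl Parse_step (false, false, b0, [])).2.2.1.reverse = b0.reverse ++ (unadr s).2.1 ∧
    (s.foldl Parse_step (false, false, b0, [])).2.2.2.reverse = (unadr s).2.2 := by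
  induction s using unadr.induct with
  | case1 => intro b0; simp [unadr]
  | case2 w =>
    intro b0
    rw [List.foldl_cons]
    change (w.foldl Parse_step (true, false, b0, [])).1 = _ ∧
      (w.foldl Parse_step (true, false, b0, [])).2.2.1.reverse = _ ∧
      (w.foldl Parse_step (true, false, b0, [])).2.2.2.reverse = _
    rw [Parse_done]
    simp [unadr]
  | case3 =>
    intro b0
    refine ⟨?_, ?_, ?_⟩ <;> simp [unadr, Parse_step]
  | case4 x t ih =>
    intro b0
    rw [List.foldl_cons, List.foldl_cons]
    change (t.foldl Parse_step (false, false, x :: b0, [])).1 = _ ∧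
      (t.foldl Parse_step (false, false, x :: b0, [])).2.2.1.reverse = _ ∧
      (t.foldl Parse_step (false, false, x :: b0, [])).2.2.2.reverse = _
    obtain ⟨h1, h2, h3⟩ := ih (x :: b0)
    rw [h1, h2, h3, unadr]
    simp

theorem Parse_step_poly : Poly (fun p : List Bool × (Bool × Bool × List Bool × List Bool) × Bool =>
    Parse_step p.2.1 p.2.2) := by
  have hq : Poly (fun p : List Bool × (Bool × Bool × List Bool × List Bool) × Bool => p.2.1) :=
    Poly.fst' (Poly.snd' Poly.id)
  have hx : Poly (fun p : List Bool × (Bool × Bool × List Bool × List Bool) × Bool => p.2.2) :=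
    Poly.snd' (Poly.snd' Poly.id)
  have h1 := Poly.fst' hq
  have h2 := Poly.fst' (Poly.snd' hq)
  have h3 := Poly.fst' (Poly.snd' (Poly.snd' hq))
  have h4 := Poly.snd' (Poly.snd' (Poly.snd' hq))
  exact Poly.cond h1 ((Pool.Agent.H83.Poly.const true).pair ((Pool.Agent.H83.Poly.const false).pair (h3.pair (Poly.cons hx h4))))
    (Poly.cond h2 ((Pool.Agent.H83.Poly.const false).pair ((Pool.Agent.H83.Poly.const false).pair ((Poly.cons hx h3).pair h4)))
      (Poly.cond hx ((Pool.Agent.H83.Poly.const false).pair ((Pool.Agent.H83.Poly.const true).pair (h3.pair h4)))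
        ((Pool.Agent.H83.Poly.const true).pair ((Pool.Agent.H83.Poly.const false).pair (h3.pair h4)))))

theorem unadr_poly : Poly unadr := by
  have h : Poly (fun s : List Bool => s.foldl Parse_step (false, false, [], [])) := by
    refine Poly.foldl_add (f := fun (_ : List Bool) q x => Parse_step q x) Poly.id
      (Pool.Agent.H83.Poly.const (false, false, [], [])) Parse_step_poly (fun _ => 20) (PB.const 20) ?_
    rintro a ⟨d, m, b, w⟩ x -
    have e1 : sz false = 1 := rfl
    have e2 : sz true = 3 := rfl
    cases d <;> cases m <;> cases x <;>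
      simp only [Parse_step, cond_true, cond_false, Poly.sz_pair, Poly.sz_cons, e1, e2] <;> omega
  refine ((Poly.fst' h).pair ((Poly.reverse (Poly.fst' (Poly.snd' (Poly.snd' h)))).pair
    (Poly.reverse (Poly.snd' (Poly.snd' (Poly.snd' h)))))).congr ?_
  intro s
  obtain ⟨h1, h2, h3⟩ := Parse_fold s []
  rw [h1, h2, h3]
  simp

theorem adr_poly {α : Type} [Enc α] {b w : α → List Bool} (hb : Poly b) (hw : Poly w) :
    Poly (fun a => adr (b a) (w a)) := by
  have h1 : Poly (fun a => (b a).flatMap (fun x => [true, x])) :=
    Poly.flatMap (f := fun _ x => [true, x]) hb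
      (Poly.cons (Pool.Agent.H83.Poly.const true) (Poly.cons (Poly.snd' Poly.id) (Pool.Agent.H83.Poly.const [])))
  exact Poly.append h1 (Poly.cons (Pool.Agent.H83.Poly.const false) hw)

end Pool.Agent.H82.LM
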