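import Pool.Agent.H82.LM.Tree
import Pool.Agent.H82.LM.Parse
import Pool.Agent.H82.LM.CardI

/-!
# The data of a `Delta_(m+1)` family and the NP event built from it (definitions)
-/

set_option autoImplicit false

namespace Pool.Agent.H82.LM

open Pool.Agent.H9 Pool.Agent.H83 MeasureTheory

/-- A machine `p` with an oracle `C` in `Sigma_m`, given by the machine `r`. -/
structure Dat where
  /-- number of blocks -/
  m : ℕ
  /-- length of the blocks -/
  q : Polynomial ℕ
  /-- time of `r` -/
  Tr : Polynomial ℕ
  /-- verifier of `C` -/
  r : Prog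
  hr : ∀ A, Clocked A (m + 1) r Tr
  /-- time of `p` -/
  Tp : Polynomial ℕ
  /-- deterministic machine -/
  p : Prog
  hp : ∀ A, Clocked A 1 p Tp

namespace Dat

variable (D : Dat)

/-- The `Sigma_m` family. -/
def C (A : Oracle) : Set (List Bool) :=
  {x | Alt true D.m (D.q.eval x.length) (fun us => Accepts A D.r (x :: us))}

/-- The `Delta_(m+1)` family. -/
def B (A : Oracle) : Set (List Bool) := {x | Accepts (chi (D.C A)) D.p [x]}

/-- Bound for the length of the queries to `C`. -/
noncomputable def lamP : Polynomial ℕ := Polynomial.X + D.Tp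

/-- Bound for the length of the addresses of the claims. -/
noncomputable def LP : Polynomial ℕ :=
  2 * (Polynomial.C D.m * D.q.comp D.lamP) + 1 + D.lamP

/-- Bound for the length of the queries to `C`. -/
noncomputable def lam (n : ℕ) : ℕ := D.lamP.eval n

/-- Bound for the length of the addresses of the claims. -/
noncomputable def L (n : ℕ) : ℕ := D.LP.eval n

/-- Number of index bits. -/
noncomputable def N (n : ℕ) : ℕ := 1 + (n + 1) + (D.L n + 1)

end Dat

/-- The left half of the left half, joined with the right half: the oracle of the given family. -/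
def Phi (A : Oracle) : Oracle
  | [] => false
  | false :: w => A (false :: false :: w)
  | true :: w => A (true :: w)

/-- Position of the claim with address `a`. -/
def cl (a : List Bool) : List Bool := false :: true :: true :: a

/-- Position of the index bit `j`. -/
def ix (j : ℕ) : List Bool := false :: true :: false :: List.replicate j true

/-- The first `N` index bits (last bit first). -/
def rb (A : Oracle) : ℕ → List Bool
  | 0 => []
  | n + 1 => A (ix n) :: rb A n

namespace Dat

variable (D : Dat)

/-- The value that the claim with address `a` should have according to the other claims: `a` is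
`adr b w`, and the claim says whether the rest of the quantifiers of `C`, after the bits `b`, is
satisfied on input `w`. -/
def ruleP (A : Oracle) (Λ : ℕ) (a : List Bool) : Prop :=
  (unadr a).1 = true ∧ (unadr a).2.2.length ≤ Λ ∧
    (((unadr a).2.1.length < D.m * D.q.eval (unadr a).2.2.length ∧
      opP (((ops D.m true (D.q.eval (unadr a).2.2.length)).drop (unadr a).2.1.length).headD false)
        (A (cl (adr ((unadr a).2.1 ++ [false]) (unadr a).2.2)) = true)
        (A (cl (adr ((unadr a).2.1 ++ [true]) (unadr a).2.2)) = true)) ∨
    ((unadr a).2.1.length = D.m * D.q.eval (unadr a).2.2.length ∧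
      Accepts (Phi A) D.r ((unadr a).2.2 ::
        chunks D.m (D.q.eval (unadr a).2.2.length) (unadr a).2.1)))

/-- The true value of the node `(w, b)`. -/
def V (A : Oracle) (w b : List Bool) : Prop :=
  QB ((ops D.m true (D.q.eval w.length)).drop b.length)
    (fun v => Accepts A D.r (w :: chunks D.m (D.q.eval w.length) (b ++ v)))

/-- The correct value of the claim with address `a`. -/
def solP (A : Oracle) (Λ : ℕ) (a : List Bool) : Prop :=
  (unadr a).1 = true ∧ (unadr a).2.2.length ≤ Λ ∧
    (unadr a).2.1.length ≤ D.m * D.q.eval (unadr a).2.2.length ∧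
    D.V (Phi A) (unadr a).2.2 (unadr a).2.1

/-- The event, for fixed index bits `f`, `i`, `a` and the guess `u`. -/
def core (A : Oracle) (n : ℕ) (wK wn x : List Bool) (f : Bool) (i a u : List Bool) : Prop :=
  (f = true ∧ Inn i wK ∧ ¬ Inn i wn ∧
    (bval a = 0 ∨ (bval u ≤ bval a ∧ A (cl (strip u)) = true))) ∨
  (f = true ∧ ¬ (Inn i wK ∧ ¬ Inn i wn) ∧ bval a ≠ 0) ∨
  (f = false ∧ Inn i wK ∧ (bval a ≠ 0 ∨ ¬ (A (cl (strip u)) = true ↔ D.ruleP A (D.lam n) (strip u)) ∨
    Accepts (fun w => A (cl (false :: w))) D.p [x])) ∨
  (f = false ∧ ¬ Inn i wK)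

/-- The event, for the guess `u`. -/
def ev (A : Oracle) (s u : List Bool) : Prop :=
  (unadr s).1 = true ∧ (unadr (unadr s).2.2).1 = true ∧
    D.core A s.length (unadr s).2.1 (unadr (unadr s).2.2).2.1 (unadr (unadr s).2.2).2.2
      ((rb A (D.N s.length)).headD false)
      ((rb A (D.N s.length)).tail.take (s.length + 1))
      ((rb A (D.N s.length)).drop (1 + (s.length + 1))) u

/-- The NP family. -/
def E (A : Oracle) : Set (List Bool) :=
  {s | ∃ u : List Bool, u.length = (D.LP + 1).eval s.length ∧ D.ev A s u}

end Dat

end Pool.Agent.H82.LM
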