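import Mathlib
import Pool.Agent.H9.Classes
import Pool.Agent.H83.PolyLib

/-!
# Definitions: oracle programs as functions on encoded data, oracle dependent languages, the
measure languages `Lm(B)`
-/

set_option autoImplicit false

namespace Pool.Agent.H82.LM

open Pool.Agent.H9 Pool.Agent.H83 MeasureTheory

/-! ### Functions computed by oracle programs on encoded data -/

/-- The memory whose stack `0` is `l` and whose other stacks are empty. -/
def st (l : List Bool) : ℕ → List Bool := fun i => if i = 0 then l else []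

/-- The oracle dependent function `f` is computed in polynomial time, relative to all oracles of
`S`, by one oracle program working on the top of stack `0`. -/
def OP {α β : Type} [Enc α] [Enc β] (S : Set Oracle) (f : Oracle → α → β) : Prop :=
  ∃ (P : Prog) (N : ℕ → ℕ), PB N ∧ ∀ A ∈ S, ∀ (a : α) (rest : List Bool),
    Exec A P (st (str a ++ rest)) (st (str (f A a) ++ rest)) (N (sz a))

/-! ### Oracle dependent languages -/

/-- `p` with oracle `A` halts within `T(n)` steps on `j`-tuples of strings of total length `n`. -/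
def Clocked (A : Oracle) (j : ℕ) (p : Prog) (T : Polynomial ℕ) : Prop :=
  ∀ xs : List (List Bool), xs.length = j → (run A p xs (T.eval (totalLength xs))).1 = []

/-- An oracle dependent language `Z ↦ B^Z`. -/
abbrev Fam := Oracle → Set (List Bool)

/-- The oracle dependent languages of class `Sigma_k^p`, given by one clocked oracle machine. -/
def SigF (k : ℕ) : Set Fam :=
  {B | ∃ (q T : Polynomial ℕ) (p : Prog), (∀ A, Clocked A (k + 1) p T) ∧
    ∀ A x, x ∈ B A ↔ Alt true k (q.eval x.length) (fun us => Accepts A p (x :: us))}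

open Classical in
/-- The characteristic function of a language, as an oracle. -/
noncomputable def chi (L : Set (List Bool)) : Oracle := fun w => decide (w ∈ L)

/-- The oracle dependent languages of class `Delta_k^p = P^(Sigma_(k-1)^p)`. -/
def DelF (k : ℕ) : Set Fam :=
  {B | ∃ C ∈ SigF (k - 1), ∃ (T : Polynomial ℕ) (p : Prog), (∀ A, Clocked A 1 p T) ∧
    ∀ A x, x ∈ B A ↔ Accepts (chi (C A)) p [x]}

/-- The class `Sigma_k^p`. -/
def SigP (k : ℕ) : Set (Set (List Bool)) := SigmaP (fun _ => false) k

/-- The class `Delta_k^p = P^(Sigma_(k-1)^p)`. -/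
def DelP (k : ℕ) : Set (Set (List Bool)) :=
  {L | ∃ C ∈ SigP (k - 1), ∃ p : Prog, PolyTime (chi C) 1 p ∧ ∀ x, x ∈ L ↔ Accepts (chi C) p [x]}

/-! ### The measure, the enumeration of strings, tuples -/

/-- The fair coin. -/
noncomputable def coin : Measure Bool := (PMF.uniformOfFintype Bool).toMeasure

/-- The uniform product measure on oracles. -/
noncomputable def mu : Measure Oracle := Measure.infinitePi (fun _ : List Bool => coin)

/-- The enumeration of all strings in length-lexicographic order: `z 0` is empty,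
`z (2 n + 1) = z n 0` and `z (2 n + 2) = z n 1`. -/
def z : ℕ → List Bool
  | 0 => []
  | n + 1 => z (n / 2) ++ [decide (n % 2 = 1)]
decreasing_by omega

/-- Self-delimiting concatenation: `1 b_1 1 b_2 ... 1 b_m 0 w`. -/
def adr (b w : List Bool) : List Bool := b.flatMap (fun x => [true, x]) ++ false :: w

/-- The tupling function. -/
def tup (x u v : List Bool) : List Bool := adr u (adr v x)

/-- `Lm(B)`. -/
def Lm (B : Fam) : Set (List Bool) :=
  {s | ∃ (x : List Bool) (k n : ℕ), s = tup x (z k) (z n) ∧ 0 < k ∧
    (n : ℝ) / k < mu.real {Z | x ∈ B Z}}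

/-- `Lm(B)` relative to the extra oracle `Y`. -/
def LmR (Y : Oracle) (B : Fam) : Set (List Bool) :=
  {s | ∃ (x : List Bool) (k n : ℕ), s = tup x (z k) (z n) ∧ 0 < k ∧
    (n : ℝ) / k < mu.real {Z | x ∈ B (join Z Y)}}

/-- `L Sigma_k^p`. -/
def LSig (k : ℕ) : Set (Set (List Bool)) := {L | ∃ B ∈ SigF k, L = Lm B}

/-- `L Delta_k^p`. -/
def LDel (k : ℕ) : Set (Set (List Bool)) := {L | ∃ B ∈ DelF k, L = Lm B}

/-- `L Sigma_k^p` relative to `Y`. -/
def LSigR (Y : Oracle) (k : ℕ) : Set (Set (List Bool)) := {L | ∃ B ∈ SigF k, L = LmR Y B}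

/-- `L Delta_k^p` relative to `Y`. -/
def LDelR (Y : Oracle) (k : ℕ) : Set (Set (List Bool)) := {L | ∃ B ∈ DelF k, L = LmR Y B}

/-! ### Reductions -/

/-- `f` is computable in polynomial time. -/
def PolyFun (f : List Bool → List Bool) : Prop :=
  ∃ (p : Prog) (T : Polynomial ℕ), ∀ x : List Bool, ∃ s : ℕ → List Bool,
    run (fun _ => false) p [x] (T.eval x.length) = ([], s) ∧ s 0 = f x

/-- Every language of `A` has a polynomial time many-one reduction to a language of `D`. -/
def MLe (A D : Set (Set (List Bool))) : Prop :=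
  ∀ L ∈ A, ∃ L' ∈ D, ∃ f : List Bool → List Bool, PolyFun f ∧ ∀ x, x ∈ L ↔ f x ∈ L'

/-- Equivalence of classes of languages under polynomial time many-one reductions. -/
def MEq (A D : Set (Set (List Bool))) : Prop := MLe A D ∧ MLe D A

/-- The statement Q1. -/
def Q1 : Prop := ∀ k : ℕ, 1 ≤ k → MEq (LDel k) (LSig k) → LDel k = LSig k

end Pool.Agent.H82.LM
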