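import Pool.Agent.H82.LM.Clos

/-!
# Row Iter: bounded iteration

PROOF (compare Pool/Agent/H83/Poly.lean, theorems iter_aux, iterateList, iterate). The H83 loop
`loop .A isT body` (repeat while the top symbol of stack `0` is `true`) is simulated with the flag
stack `6`: let `setf = cond 0 skip skip (push 6 true)` and
`whileT B = seq setf (loop 6 (seq (pop 6) (seq B setf)))`. All other stacks are empty whenever `B` is
started, so the memories are `st ..` there.
Body for the iteration of `f`: the stack is `str n ++ (str s ++ rest)` with `n : List Unit` nonempty,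
that is `true :: (str () ++ (str n' ++ (str s ++ rest)))`, `str () = [false]`. Do: the symbols
`true` on top are exactly what is needed to view it as the code of a pair: let
`G : List Unit × σ → ..`. Simplest: let `Q` be the composite program
`(n, s) ↦ (n.tail, s)`, then exchange, `pop 0`, program for `f`, `push 0 true`, exchange; the state
between the rounds is `str (n, s) ++ rest` with the leading `true` of the pair REMOVED, so that the
top symbol is the first symbol of `str n`, which is `true` iff `n ≠ []`. In a round: `push 0 true`
(now `str (n, s) ++ rest`), program for `(n, s) ↦ (s, n.tail)`, `pop 0` (now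
`str s ++ (str n.tail ++ rest)`), program for `f`, `push 0 true` (`str (f s, n.tail) ++ rest`),
program for the exchange, `pop 0`. At the end: the stack is `false :: (str s ++ rest)`; `pop 0`.
Here `f` may depend on the oracle. The number of rounds is `n`, the size of the state is bounded by
`B (sz a)` by hypothesis, the programs have monotone time bounds (`OP.exists_prog`).
`List.replicate (n A a) ()` is a `Poly` function of `n A a` (`Poly.replicate_unit`).
-/

set_option autoImplicit false

namespace Pool.Agent.H82.LM

open Pool.Agent.H9 Pool.Agent.H83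

variable {α β γ σ τ : Type} [Enc α] [Enc β] [Enc γ] [Enc σ] [Enc τ] {S : Set Oracle}

private theorem push0 (A : Oracle) (b : Bool) (l : List Bool) :
    Exec A (.push 0 b) (st l) (st (b :: l)) 1 := by
  have h := exec_push A (st l) 0 b
  have e : Function.update (st l) 0 (b :: st l 0) = st (b :: l) := by
    funext i
    by_cases hi : i = 0
    · subst hi
      simp [st]
    · simp [st, hi]
  rwa [e] at h

private theorem pop0 (A : Oracle) (b : Bool) (l : List Bool) :
    Exec A (.pop 0) (st (b :: l)) (st l) 1 := by
  have h := exec_pop A (st (b :: l)) 0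
  have e : Function.update (st (b :: l)) 0 (st (b :: l) 0).tail = st l := by
    funext i
    by_cases hi : i = 0
    · subst hi
      simp [st]
    · simp [st, hi]
  rwa [e] at h

/-- Set the flag if the top of stack `0` is `true`. -/
private def setf : Prog := .cond 0 .skip .skip (.push 6 true)

/-- The memory with the flag set. -/
private def stf (l : List Bool) : ℕ → List Bool := Function.update (st l) 6 [true]

private theorem setf_false (A : Oracle) (l : List Bool) :
    Exec A setf (st (false :: l)) (st (false :: l)) 2 := by
  refine exec_cond_cons (b := false) (l := l) rfl ?_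
  exact exec_skip A _

private theorem setf_true (A : Oracle) (l : List Bool) :
    Exec A setf (st (true :: l)) (stf (true :: l)) 2 := by
  refine exec_cond_cons (b := true) (l := l) rfl ?_
  have h := exec_push A (st (true :: l)) 6 true
  have e : st (true :: l) 6 = [] := rfl
  rw [e] at h
  exact h

private theorem pop_flag (A : Oracle) (l : List Bool) :
    Exec A (.pop 6) (stf l) (st l) 1 := by
  have h := exec_pop A (stf l) 6
  have e : Function.update (stf l) 6 (stf l 6).tail = st l := by
    funext i
    by_cases hi : i = 6
    · subst hi
      simp [stf, st]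
    · simp [stf, hi]
  rwa [e] at h

/-- The content of stack `0` between the rounds. -/
private def cont {σ : Type} [Enc σ] (n : ℕ) (s : σ) (rest : List Bool) : List Bool :=
  str (List.replicate n ()) ++ (str s ++ rest)

private theorem cont_zero {σ : Type} [Enc σ] (s : σ) (rest : List Bool) :
    cont 0 s rest = false :: (str s ++ rest) := rfl

private theorem cont_succ {σ : Type} [Enc σ] (n : ℕ) (s : σ) (rest : List Bool) :
    cont (n + 1) s rest = true :: false :: cont n s rest := rfl

/-- Set the flag in the states between the rounds. -/
private theorem loop_aux {σ : Type} [Enc σ] (A : Oracle) (f : σ → σ) (B : Prog) (C M D : ℕ)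
    (rest : List Bool)
    (hB : ∀ n s, n < M → sz s ≤ D → sz (f s) ≤ D →
      Exec A B (st (cont (n + 1) s rest)) (st (cont n (f s) rest)) C) :
    ∀ (n : ℕ) (s : σ), n ≤ M → (∀ i ≤ n, sz (f^[i] s) ≤ D) →
      Exec A (.seq setf (.loop 6 (.seq (.pop 6) (.seq B setf)))) (st (cont n s rest))
        (st (false :: (str (f^[n] s) ++ rest))) (n * (C + 10) + 4) := by
  have key : ∀ (n : ℕ) (s : σ), n ≤ M → (∀ i ≤ n, sz (f^[i] s) ≤ D) →
      ∃ m, Exec A setf (st (cont n s rest)) m 2 ∧
        Exec A (.loop 6 (.seq (.pop 6) (.seq B setf))) m
          (st (false :: (str (f^[n] s) ++ rest))) (n * (C + 10) + 1) := by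
    intro n
    induction n with
    | zero =>
      intro s _ _
      refine ⟨st (cont 0 s rest), ?_, ?_⟩
      · rw [cont_zero]
        exact setf_false A _
      · rw [cont_zero]
        exact (exec_loop_nil rfl).mono (by omega)
    | succ n ih =>
      intro s hn hs
      have hs0 : sz s ≤ D := hs 0 (Nat.zero_le _)
      have hs1 : sz (f s) ≤ D := hs 1 (by omega)
      obtain ⟨m, h1, h2⟩ := ih (f s) (by omega) (fun i hi => by
        have := hs (i + 1) (by omega)
        rwa [Function.iterate_succ_apply] at this)
      refine ⟨stf (cont (n + 1) s rest), ?_, ?_⟩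
      · rw [cont_succ]
        exact setf_true A _
      · have h3 := pop_flag A (cont (n + 1) s rest)
        have h4 := hB n s (by omega) hs0 hs1
        have h5 : stf (cont (n + 1) s rest) 6 = true :: [] := by
          simp [stf]
        rw [Function.iterate_succ_apply]
        refine (exec_loop_cons h5 (h3.seq (h4.seq h1)) h2).mono ?_
        rw [Nat.add_mul]
        omega
  intro n s hn hs
  obtain ⟨m, h1, h2⟩ := key n s hn hs
  refine (h1.seq h2).mono ?_
  omega

private theorem le_sz_replicate (n : ℕ) : n ≤ sz (List.replicate n ()) := by
  induction n with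
  | zero => exact Nat.zero_le _
  | succ n ih =>
    rw [List.replicate_succ, Poly.sz_cons]
    omega

theorem OP.iterate {n : Oracle → α → ℕ} {s : Oracle → α → σ} {f : Oracle → σ → σ}
    (hn : OP S n) (hs : OP S s) (hf : OP S f) (B : ℕ → ℕ) (hB : PB B)
    (hfB : ∀ A ∈ S, ∀ a, ∀ i ≤ n A a, sz ((f A)^[i] (s A a)) ≤ B (sz a)) :
    OP S (fun A a => (f A)^[n A a] (s A a)) := by
  have hn' : OP S (fun A a => List.replicate (n A a) ()) := OP.map Poly.replicate_unit hn
  obtain ⟨b, hb, hbm, hnb⟩ := hn'.size_le
  obtain ⟨B', hB', hBm, hBB'⟩ := hB.exists_mono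
  obtain ⟨P, N, hN, hNm, hP⟩ := hf.exists_prog
  obtain ⟨Q, K, hK, hKm, hQ⟩ := (hn'.pair hs).exists_prog
  obtain ⟨E1, N1, hN1, hN1m, hE1⟩ := (OP.of_poly (Poly.snd.pair (Poly.tail Poly.fst) :
    Poly (fun p : List Unit × σ => (p.2, p.1.tail))) S).exists_prog
  obtain ⟨E2, N2, hN2, hN2m, hE2⟩ := (OP.of_poly (Poly.snd.pair Poly.fst :
    Poly (fun p : σ × List Unit => (p.2, p.1))) S).exists_prog
  let R : Prog := .seq (.push 0 true) (.seq E1 (.seq (.pop 0) (.seq P (.seq (.push 0 true)
    (.seq E2 (.pop 0))))))
  let C : ℕ → ℕ := fun k => N1 (b k + B' k + 1) + (N (B' k) + N2 (B' k + b k + 1)) + 10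
  refine ⟨.seq Q (.seq (.pop 0) (.seq (.seq setf (.loop 6 (.seq (.pop 6) (.seq R setf))))
    (.pop 0))), fun k => K k + (b k * (C k + 10) + 20), ?_, ?_⟩
  · have hbB : PB (fun k => b k + B' k + 1) := (hb.add hB').add (PB.const 1)
    have hBb : PB (fun k => B' k + b k + 1) := (hB'.add hb).add (PB.const 1)
    have hC : PB C := ((hN1.comp hbB).add ((hN.comp hB').add (hN2.comp hBb))).add (PB.const 10)
    exact hK.add ((hb.mul (hC.add (PB.const 10))).add (PB.const 20))
  · intro A hA a rest
    have h0 := hQ A hA a rest
    have e0 : str (List.replicate (n A a) (), s A a) ++ rest =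
        true :: cont (n A a) (s A a) rest := by
      simp [Poly.str_pair, cont]
    rw [e0] at h0
    have hnl : n A a ≤ b (sz a) := (le_sz_replicate _).trans (hnb A hA a)
    have hround : ∀ m t, m < n A a → sz t ≤ B' (sz a) → sz (f A t) ≤ B' (sz a) →
        Exec A R (st (cont (m + 1) t rest)) (st (cont m (f A t) rest)) (C (sz a)) := by
      intro m t hm ht hft
      have hsm : ∀ j, j ≤ n A a → sz (List.replicate j ()) ≤ b (sz a) := by
        intro j hj
        refine le_trans ?_ (hnb A hA a)
        obtain ⟨d, hd⟩ := Nat.exists_eq_add_of_le hj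
        rw [hd]
        clear hd
        induction d with
        | zero => exact le_rfl
        | succ d ih =>
          refine ih.trans ?_
          rw [← Nat.add_assoc, List.replicate_succ, Poly.sz_cons]
          omega
      have g1 := push0 A true (cont (m + 1) t rest)
      have g2 := hE1 A hA (List.replicate (m + 1) (), t) rest
      have e1 : str (List.replicate (m + 1) (), t) ++ rest = true :: cont (m + 1) t rest := by
        simp [Poly.str_pair, cont]
      have e2 : str (t, (List.replicate (m + 1) ()).tail) ++ rest =
          true :: (str t ++ (str (List.replicate m ()) ++ rest)) := by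
        simp [Poly.str_pair]
      beta_reduce at g2
      rw [e1, e2] at g2
      have g3 := pop0 A true (str t ++ (str (List.replicate m ()) ++ rest))
      have g4 := hP A hA t (str (List.replicate m ()) ++ rest)
      have g5 := push0 A true (str (f A t) ++ (str (List.replicate m ()) ++ rest))
      have g6 := hE2 A hA (f A t, List.replicate m ()) rest
      have e3 : str (f A t, List.replicate m ()) ++ rest =
          true :: (str (f A t) ++ (str (List.replicate m ()) ++ rest)) := by
        simp [Poly.str_pair]
      have e4 : str (List.replicate m (), f A t) ++ rest = true :: cont m (f A t) rest := by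
        simp [Poly.str_pair, cont]
      beta_reduce at g6
      rw [e3, e4] at g6
      have g7 := pop0 A true (cont m (f A t) rest)
      refine (g1.seq (g2.seq (g3.seq (g4.seq (g5.seq (g6.seq g7)))))).mono ?_
      have b1 : N1 (sz (List.replicate (m + 1) (), t)) ≤ N1 (b (sz a) + B' (sz a) + 1) := by
        apply hN1m
        rw [Poly.sz_pair]
        have := hsm (m + 1) hm
        omega
      have b2 : N (sz t) ≤ N (B' (sz a)) := hNm ht
      have b3 : N2 (sz (f A t, List.replicate m ())) ≤ N2 (B' (sz a) + b (sz a) + 1) := by
        apply hN2m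
        rw [Poly.sz_pair]
        have := hsm m hm.le
        omega
      show _ ≤ N1 (b (sz a) + B' (sz a) + 1) + (N (B' (sz a)) + N2 (B' (sz a) + b (sz a) + 1)) + 10
      omega
    have h1 := pop0 A true (cont (n A a) (s A a) rest)
    have h2 := loop_aux A (f A) R (C (sz a)) (n A a) (B' (sz a)) rest hround (n A a) (s A a) le_rfl
      (fun i hi => (hfB A hA a i hi).trans (hBB' _))
    have h3 := pop0 A false (str ((f A)^[n A a] (s A a)) ++ rest)
    refine (h0.seq (h1.seq (h2.seq h3))).mono ?_
    have := Nat.mul_le_mul_right (C (sz a) + 10) hnl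
    beta_reduce
    omega

end Pool.Agent.H82.LM
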