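import Pool.Agent.H82.LM.Dat
import Pool.Agent.H82.LM.SimL
import Pool.Agent.H82.LM.Iter

/-!
# Row EvA: the local rule and the index bits are computable by oracle programs

PROOFS. `OP.phi`: `Phi A w = (!w.isEmpty) && A (g w)` with `g w = bif w.headD false then w else
false :: w` (for `w = false :: w'` this is `false :: false :: w'`); `OP.ask`, `Poly.cond`,
`Poly.headD`, `Poly.cons`, `Poly.isEmpty`, `OP.of_poly`.
`rb_length`: induction. `OP.rb`: `rb A N = (fun l => A (ix l.length) :: l)^[N] []` (induction on
`N`), `OP.iterate` with the bound `B n = 5 * n + 5` (a list of `i` bits has size at most `4 * i + 1`;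
`sz N = 2 * N + 1`); `ix l.length` is `false :: true :: false :: replicate ..`, `Poly` by
`poly_replicateB`.
`rule_OP`: with `U = unadr a` (`unadr_poly`), `b = U.2.1`, `w = U.2.2`, `Q = D.q.eval w.length`
(`Poly.polyEval`), `R A (Λ, a) = U.1 && decide (w.length ≤ Λ) &&
((decide (b.length < D.m * Q) && bif o then x0 || x1 else x0 && x1) ||
 (decide (b.length = D.m * Q) && f A (fitL (D.m + 1) (w :: chunks D.m Q b))))`, where
`o = ((ops D.m true Q).drop b.length).headD false`, `x0 = A (cl (adr (b ++ [false]) w))`,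
`x1 = A (cl (adr (b ++ [true]) w))` (`OP.ask`, `adr_poly`, `Poly.append`), and
`f A xs = decide (Accepts (Phi A) D.r xs)` (`OP.simL` with `G = Phi`, `OP.phi`, `D.hr`; `fitL` of a list
of length `D.m + 1` is the list, `fitL_of_length`, `chunks_length`). Combine with `OP.and`, `OP.or`,
`OP.cond`, `OP.map`.
-/

set_option autoImplicit false

namespace Pool.Agent.H82.LM

open Pool.Agent.H9 Pool.Agent.H83

theorem OP.phi (S : Set Oracle) : OP S (fun A w => Phi A w) := by
  have hg : Poly (fun w : List Bool => bif w.headD false then w else false :: w) :=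
    Poly.cond (Poly.headD false Poly.id) Poly.id (Poly.cons (Pool.Agent.H83.Poly.const false) Poly.id)
  have h1 : OP S (fun (_ : Oracle) (w : List Bool) => !w.isEmpty) :=
    OP.of_poly (Poly.not (Poly.isEmpty Poly.id)) S
  refine (OP.and h1 (OP.ask (OP.of_poly hg S))).congr fun A _ w => ?_
  rcases w with _ | ⟨_ | _, w⟩ <;> simp [Phi]

theorem rb_length (A : Oracle) (N : ℕ) : (rb A N).length = N := by
  induction N with
  | zero => rfl
  | succ n ih => simp [Pool.Agent.H82.LM.rb, ih]

theorem rb_iterate (A : Oracle) (N : ℕ) :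
    (fun l : List Bool => A (ix l.length) :: l)^[N] [] = Pool.Agent.H82.LM.rb A N := by
  induction N with
  | zero => rfl
  | succ n ih =>
    rw [Function.iterate_succ_apply', ih]
    simp only [Pool.Agent.H82.LM.rb, rb_length]

theorem sz_list_bool (l : List Bool) : sz l ≤ 4 * l.length + 1 := by
  induction l with
  | nil => exact le_of_eq rfl
  | cons b l ih =>
    rw [Poly.sz_cons]
    have := Poly.sz_bool b
    simp only [List.length_cons]
    omega

theorem OP.rb (S : Set Oracle) : OP S (fun A (N : ℕ) => Pool.Agent.H82.LM.rb A N) := by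
  have hix : Poly (fun l : List Bool => ix l.length) :=
    Poly.cons (Pool.Agent.H83.Poly.const false) (Poly.cons (Pool.Agent.H83.Poly.const true)
      (Poly.cons (Pool.Agent.H83.Poly.const false) (poly_replicateB true (Poly.length Poly.id))))
  have hf : OP S (fun A (l : List Bool) => A (ix l.length) :: l) :=
    OP.cons (OP.ask (OP.of_poly hix S)) (OP.of_poly Poly.id S)
  have h := OP.iterate (S := S) (n := fun _ (N : ℕ) => N) (s := fun _ (_ : ℕ) => ([] : List Bool))
    (f := fun A (l : List Bool) => A (ix l.length) :: l)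
    (OP.of_poly Poly.id S) (OP.const []) hf (fun n => 5 * n + 5)
    (((PB.const 5).mul PB.id).add (PB.const 5)) (by
      intro A _ N i hi
      rw [rb_iterate]
      have h1 := sz_list_bool (Pool.Agent.H82.LM.rb A i)
      rw [rb_length] at h1
      have h2 : sz N = 2 * N + 1 := Poly.sz_nat N
      omega)
  exact h.congr fun A _ N => rb_iterate A N

theorem rule_OP (D : Dat) : ∃ R : Oracle → ℕ × List Bool → Bool, OP Set.univ R ∧
    ∀ A Λ a, (R A (Λ, a) = true ↔ D.ruleP A Λ a) := by
  classical
  let F : Oracle → List (List Bool) → Bool := fun A xs => decide (Accepts (Phi A) D.r xs)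
  have hF : OP Set.univ (fun A xs => F A (fitL (D.m + 1) xs)) :=
    OP.simL (D.m + 1) D.r D.Tr (OP.phi Set.univ) (fun A _ => D.hr (Phi A))
      (fun A _ xs _ => by simp [F])
  -- the parts of the address
  have hU : Poly (fun p : ℕ × List Bool => unadr p.2) := unadr_poly.comp Poly.snd
  have hL : Poly (fun p : ℕ × List Bool => p.1) := Poly.fst
  have hu1 : Poly (fun p : ℕ × List Bool => (unadr p.2).1) := Poly.fst' hU
  have hb : Poly (fun p : ℕ × List Bool => (unadr p.2).2.1) := Poly.fst' (Poly.snd' hU)
  have hw : Poly (fun p : ℕ × List Bool => (unadr p.2).2.2) := Poly.snd' (Poly.snd' hU)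
  have hQ : Poly (fun p : ℕ × List Bool => D.q.eval (unadr p.2).2.2.length) :=
    Poly.polyEval D.q (Poly.length hw)
  have hmQ : Poly (fun p : ℕ × List Bool => D.m * D.q.eval (unadr p.2).2.2.length) :=
    Poly.mul (Pool.Agent.H83.Poly.const D.m) hQ
  have ho : Poly (fun p : ℕ × List Bool =>
      ((ops D.m true (D.q.eval (unadr p.2).2.2.length)).drop (unadr p.2).2.1.length).headD false) :=
    Poly.headD false (poly_drop (ops_poly D.m true hQ) (Poly.length hb))
  have hcl (x : Bool) : Poly (fun p : ℕ × List Bool =>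
      cl (adr ((unadr p.2).2.1 ++ [x]) (unadr p.2).2.2)) :=
    Poly.cons (Pool.Agent.H83.Poly.const false) (Poly.cons (Pool.Agent.H83.Poly.const true)
      (Poly.cons (Pool.Agent.H83.Poly.const true)
        (adr_poly (Poly.append hb (Pool.Agent.H83.Poly.const [x])) hw)))
  have hx (x : Bool) : OP Set.univ (fun A (p : ℕ × List Bool) =>
      A (cl (adr ((unadr p.2).2.1 ++ [x]) (unadr p.2).2.2))) :=
    OP.ask (OP.of_poly (hcl x) Set.univ)
  have hch : Poly (fun p : ℕ × List Bool => (unadr p.2).2.2 ::
      chunks D.m (D.q.eval (unadr p.2).2.2.length) (unadr p.2).2.1) :=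
    Poly.cons hw (chunks_poly D.m hQ hb)
  have hacc : OP Set.univ (fun A (p : ℕ × List Bool) => F A (fitL (D.m + 1) ((unadr p.2).2.2 ::
      chunks D.m (D.q.eval (unadr p.2).2.2.length) (unadr p.2).2.1))) :=
    OP.comp (g := fun A xs => F A (fitL (D.m + 1) xs)) hF (OP.of_poly hch Set.univ)
  have h1 : OP Set.univ (fun (_ : Oracle) (p : ℕ × List Bool) => (unadr p.2).1) :=
    OP.of_poly hu1 _
  have h2 : OP Set.univ (fun (_ : Oracle) (p : ℕ × List Bool) =>
      decide ((unadr p.2).2.2.length ≤ p.1)) :=
    OP.of_poly (Poly.natLe (Poly.length hw) hL) _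
  have h3 : OP Set.univ (fun (_ : Oracle) (p : ℕ × List Bool) =>
      decide ((unadr p.2).2.1.length < D.m * D.q.eval (unadr p.2).2.2.length)) :=
    OP.of_poly (Poly.natLt (Poly.length hb) hmQ) _
  have h4 : OP Set.univ (fun (_ : Oracle) (p : ℕ × List Bool) =>
      decide ((unadr p.2).2.1.length = D.m * D.q.eval (unadr p.2).2.2.length)) :=
    OP.of_poly (Poly.natEq (Poly.length hb) hmQ) _
  have h5 := OP.cond (OP.of_poly ho Set.univ) (OP.or (hx false) (hx true))
    (OP.and (hx false) (hx true))
  refine ⟨_, OP.and (OP.and h1 h2) (OP.or (OP.and h3 h5) (OP.and h4 hacc)), ?_⟩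
  intro A Λ a
  have hlen : ((unadr a).2.2 ::
      chunks D.m (D.q.eval (unadr a).2.2.length) (unadr a).2.1).length = D.m + 1 := by
    rw [List.length_cons, chunks_length]
  have key : ∀ (o x y : Bool), ((bif o then x || y else x && y) = true ↔
      opP o (x = true) (y = true)) := by
    intro o x y
    cases o <;> cases x <;> cases y <;> simp [opP]
  simp only [Bool.and_eq_true, Bool.or_eq_true, decide_eq_true_eq, key, fitL_of_length hlen, F,
    Dat.ruleP, and_assoc]

end Pool.Agent.H82.LM
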