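import Pool.Agent.H82.LM.CntE
import Pool.Agent.H82.LM.ClsC

/-!
# The final theorems
-/

set_option autoImplicit false

namespace Pool.Agent.H82.LM

open Pool.Agent.H9 Pool.Agent.H83 MeasureTheory

/-! ### Oracle transformations -/

theorem OP.leftO (S : Set Oracle) : OP S (fun A (w : List Bool) => A (false :: w)) :=
  OP.ask (OP.of_poly (Poly.cons (Pool.Agent.H83.Poly.const false) Poly.id) S)

theorem OP.rightO (S : Set Oracle) : OP S (fun A (w : List Bool) => A (true :: w)) :=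
  OP.ask (OP.of_poly (Poly.cons (Pool.Agent.H83.Poly.const true) Poly.id) S)

/-- Joining the oracle with the empty one. -/
theorem OP.joinL (S : Set Oracle) : OP S (fun A (w : List Bool) => join A (fun _ => false) w) := by
  have h1 : OP S (fun A (w : List Bool) => A w.tail) := OP.ask (OP.of_poly (Poly.tail Poly.id) S)
  have h2 : OP S (fun (_ : Oracle) (w : List Bool) => !(w.isEmpty)) :=
    OP.of_poly (Poly.not (Poly.isEmpty Poly.id)) S
  have h3 : OP S (fun (_ : Oracle) (w : List Bool) => !(w.headD false)) :=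
    OP.of_poly (Poly.not (Poly.headD false Poly.id)) S
  refine (h2.and (h3.and h1)).congr ?_
  intro A _ w
  match w with
  | [] => rfl
  | false :: w => simp [join]
  | true :: w => simp [join]

/-- Joining the empty oracle with the oracle. -/
theorem OP.joinR (S : Set Oracle) : OP S (fun A (w : List Bool) => join (fun _ => false) A w) := by
  have h1 : OP S (fun A (w : List Bool) => A w.tail) := OP.ask (OP.of_poly (Poly.tail Poly.id) S)
  have h3 : OP S (fun (_ : Oracle) (w : List Bool) => (w.headD false)) :=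
    OP.of_poly (Poly.headD false Poly.id) S
  refine (h3.and h1).congr ?_
  intro A _ w
  match w with
  | [] => rfl
  | false :: w => simp [join]
  | true :: w => simp [join]

/-! ### Reductions -/

theorem main_reduce0 {m : ℕ} {B : Fam} (hB : B ∈ DelF (m + 1)) :
    ∃ E ∈ SigF 1, ∃ f : List Bool → List Bool, PolyFun f ∧ ∀ s : List Bool, s ∈ Lm B ↔ f s ∈ Lm E := by
  have hB' := delF_comp hB (Φ := fun A w => A (false :: w)) (OP.leftO _)
  obtain ⟨E, hE, f, hf, h⟩ := main_reduce hB'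
  have hE' := sigF_comp hE (Φ := fun A => join A (fun _ => false)) (OP.joinL _)
  exact ⟨_, hE', f, hf, fun s => h (fun _ => false) s⟩

theorem mle_trans_sub {A D D' : Set (Set (List Bool))} (h : MLe A D) (hD : D ⊆ D') : MLe A D' := by
  intro L hL
  obtain ⟨L', hL', f, hf, h'⟩ := h L hL
  exact ⟨L', hD hL', f, hf, h'⟩

theorem LSigR_mono (Y : Oracle) {k l : ℕ} (h : k ≤ l) : LSigR Y k ⊆ LSigR Y l := by
  rintro L ⟨B, hB, rfl⟩
  exact ⟨B, sigF_mono' h hB, rfl⟩

theorem LDelR_mono (Y : Oracle) {k l : ℕ} (h : k ≤ l) : LDelR Y k ⊆ LDelR Y l := by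
  rintro L ⟨B, hB, rfl⟩
  exact ⟨B, delF_mono' h hB, rfl⟩

theorem LSigR_sub_LDelR (Y : Oracle) (k : ℕ) : LSigR Y k ⊆ LDelR Y (k + 1) := by
  rintro L ⟨B, hB, rfl⟩
  exact ⟨B, sigF_sub_delF k hB, rfl⟩

theorem LSig_mono {k l : ℕ} (h : k ≤ l) : LSig k ⊆ LSig l := by
  rintro L ⟨B, hB, rfl⟩
  exact ⟨B, sigF_mono' h hB, rfl⟩

theorem LDel_mono {k l : ℕ} (h : k ≤ l) : LDel k ⊆ LDel l := by
  rintro L ⟨B, hB, rfl⟩
  exact ⟨B, delF_mono' h hB, rfl⟩

theorem LSig_sub_LDel (k : ℕ) : LSig k ⊆ LDel (k + 1) := by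
  rintro L ⟨B, hB, rfl⟩
  exact ⟨B, sigF_sub_delF k hB, rfl⟩

theorem LDelR_le (Y : Oracle) (k : ℕ) : MLe (LDelR Y k) (LSigR Y 1) := by
  have h : MLe (LDelR Y (k + 1)) (LSigR Y 1) := by
    rintro L ⟨B, hB, rfl⟩
    obtain ⟨E, hE, f, hf, h⟩ := main_reduce hB
    exact ⟨_, ⟨E, hE, rfl⟩, f, hf, fun s => h Y s⟩
  intro L hL
  exact h L (LDelR_mono Y (Nat.le_succ k) hL)

theorem LDel_le (k : ℕ) : MLe (LDel k) (LSig 1) := by
  have h : MLe (LDel (k + 1)) (LSig 1) := by
    rintro L ⟨B, hB, rfl⟩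
    obtain ⟨E, hE, f, hf, h⟩ := main_reduce0 hB
    exact ⟨_, ⟨E, hE, rfl⟩, f, hf, fun s => h s⟩
  intro L hL
  exact h L (LDel_mono (Nat.le_succ k) hL)

theorem LSigR_le (Y : Oracle) (k : ℕ) : MLe (LSigR Y k) (LSigR Y 1) := by
  intro L hL
  exact LDelR_le Y (k + 1) L (LSigR_sub_LDelR Y k hL)

theorem LSig_le (k : ℕ) : MLe (LSig k) (LSig 1) := by
  intro L hL
  exact LDel_le (k + 1) L (LSig_sub_LDel k hL)

theorem meqR (Y : Oracle) {k : ℕ} (hk : 2 ≤ k) : MEq (LDelR Y k) (LSigR Y k) :=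
  ⟨mle_trans_sub (LDelR_le Y k) (LSigR_mono Y (by omega)),
    mle_trans_sub (LSigR_le Y k) ((LSigR_sub_LDelR Y 1).trans (LDelR_mono Y (by omega)))⟩

theorem meq0 {k : ℕ} (hk : 2 ≤ k) : MEq (LDel k) (LSig k) :=
  ⟨mle_trans_sub (LDel_le k) (LSig_mono (by omega)),
    mle_trans_sub (LSig_le k) ((LSig_sub_LDel 1).trans (LDel_mono (by omega)))⟩

/-! ### Equality -/

theorem eq_of_thresholds {a b : ℝ} (ha : 0 ≤ a) (hb : 0 ≤ b)
    (h : ∀ k n : ℕ, 0 < k → ((n : ℝ) / k < a ↔ (n : ℝ) / k < b)) : a = b := by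
  have key : ∀ {a b : ℝ}, 0 ≤ a → (∀ k n : ℕ, 0 < k → ((n : ℝ) / k < a ↔ (n : ℝ) / k < b)) →
      ¬ a < b := by
    intro a b ha h hab
    obtain ⟨q, hq1, hq2⟩ := exists_rat_btwn hab
    have hq0 : (0 : ℚ) ≤ q := by
      have : (0 : ℝ) ≤ q := ha.trans hq1.le
      exact_mod_cast this
    have hq : (q : ℝ) = (q.num.toNat : ℝ) / (q.den : ℝ) := by
      have h1 : (q.num.toNat : ℤ) = q.num := Int.toNat_of_nonneg (Rat.num_nonneg.2 hq0)
      have h2 : ((q.num.toNat : ℤ) : ℝ) = (q.num : ℝ) := by rw [h1]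
      rw [Int.cast_natCast] at h2
      rw [h2]
      exact Rat.cast_def q
    have := (h q.den q.num.toNat q.den_pos).2 (by rw [← hq]; exact hq2)
    rw [← hq] at this
    exact absurd this (not_lt.2 hq1.le)
  rcases lt_trichotomy a b with hab | hab | hab
  · exact absurd hab (key ha h)
  · exact hab
  · exact absurd hab (key hb (fun k n hk => (h k n hk).symm))

theorem tup_inj {x u v x' u' v' : List Bool} (h : tup x u v = tup x' u' v') :
    x = x' ∧ u = u' ∧ v = v' := by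
  obtain ⟨h1, h2⟩ := adr_inj h
  obtain ⟨h3, h4⟩ := adr_inj h2
  exact ⟨h4, h1, h3⟩

theorem mem_lmR {Y : Oracle} {B : Fam} {x : List Bool} {k n : ℕ} (hk : 0 < k) :
    tup x (z k) (z n) ∈ LmR Y B ↔ (n : ℝ) / k < mu.real {Z | x ∈ B (join Z Y)} := by
  constructor
  · rintro ⟨x', k', n', h1, h2, h3⟩
    obtain ⟨e1, e2, e3⟩ := tup_inj h1
    rw [e1, z_inj e2, z_inj e3]
    exact h3
  · intro h
    exact ⟨x, k, n, rfl, hk, h⟩

theorem mem_lm {B : Fam} {x : List Bool} {k n : ℕ} (hk : 0 < k) :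
    tup x (z k) (z n) ∈ Lm B ↔ (n : ℝ) / k < mu.real {Z | x ∈ B Z} := by
  constructor
  · rintro ⟨x', k', n', h1, h2, h3⟩
    obtain ⟨e1, e2, e3⟩ := tup_inj h1
    rw [e1, z_inj e2, z_inj e3]
    exact h3
  · intro h
    exact ⟨x, k, n, rfl, hk, h⟩

/-- An event that depends on the words of bounded length only. -/
theorem dep_of_local {G : Set Oracle} {M : ℕ}
    (h : ∀ Z Z' : Oracle, (∀ w : List Bool, w.length ≤ M → Z w = Z' w) → (Z ∈ G ↔ Z' ∈ G)) :
    ∃ R : Finset (List Bool), Dep (R : Set (List Bool)) G := by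
  refine ⟨(Finset.range (M + 1)).biUnion strings, fun Z Z' hZ => h Z Z' ?_⟩
  intro w hw
  apply hZ
  simp only [Finset.coe_biUnion, Set.mem_iUnion, Finset.mem_coe, mem_strings, Finset.mem_range,
    exists_prop]
  exact ⟨w.length, by omega, rfl⟩

theorem join_local (Y : Oracle) {M : ℕ} {Z Z' : Oracle}
    (h : ∀ w : List Bool, w.length ≤ M → Z w = Z' w) (w : List Bool) (hw : w.length ≤ M) :
    join Z Y w = join Z' Y w := by
  match w with
  | [] => rfl
  | false :: w =>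
    simp only [List.length_cons] at hw
    exact h w (by omega)
  | true :: w => rfl

/-- A family in `Delta_k` whose probabilities are `0` or `1` relative to `Y` is constant. -/
theorem const_of_measureR {k : ℕ} {B : Fam} (hB : B ∈ DelF k) (Y : Oracle) (x : List Bool)
    (P : Prop) (h1 : P → mu.real {Z | x ∈ B (join Z Y)} = 1)
    (h0 : ¬ P → mu.real {Z | x ∈ B (join Z Y)} = 0) (Z : Oracle) : x ∈ B (join Z Y) ↔ P := by
  obtain ⟨M, hM⟩ := delF_local hB x.length
  obtain ⟨R, hR⟩ := dep_of_local (G := {Z | x ∈ B (join Z Y)}) (M := M)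
    (fun Z Z' hZ => hM _ _ (fun w hw => join_local Y hZ w hw) x le_rfl)
  by_cases hP : P
  · exact iff_of_true (mu_full hR (h1 hP) Z) hP
  · exact iff_of_false (mu_zero hR (h0 hP) Z) hP

theorem const_of_measure {k : ℕ} {B : Fam} (hB : B ∈ DelF k) (x : List Bool)
    (P : Prop) (h1 : P → mu.real {Z | x ∈ B Z} = 1)
    (h0 : ¬ P → mu.real {Z | x ∈ B Z} = 0) (Z : Oracle) : x ∈ B Z ↔ P := by
  obtain ⟨M, hM⟩ := delF_local hB x.length
  obtain ⟨R, hR⟩ := dep_of_local (G := {Z | x ∈ B Z}) (M := M)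
    (fun Z Z' hZ => hM _ _ hZ x le_rfl)
  by_cases hP : P
  · exact iff_of_true (mu_full hR (h1 hP) Z) hP
  · exact iff_of_false (mu_zero hR (h0 hP) Z) hP

theorem real_const (P : Prop) : (P → mu.real {_Z : Oracle | P} = 1) ∧
    (¬ P → mu.real {_Z : Oracle | P} = 0) := by
  constructor
  · intro h
    have : {_Z : Oracle | P} = Set.univ := by ext; simp [h]
    rw [this]
    simp
  · intro h
    have : {_Z : Oracle | P} = ∅ := by ext; simp [h]
    rw [this]
    simp

/-- If `L Delta_k^p = L Sigma_k^p` relative to `Y`, then `Sigma_k^(p,Y) ⊆ Delta_k^(p,Y)`. -/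
theorem eqR {k : ℕ} {Y : Oracle} (h : LDelR Y k = LSigR Y k) {B : Fam} (hB : B ∈ SigF k) :
    ∃ B' ∈ DelF k, B' Y = B Y := by
  have hB1 := sigF_comp hB (Φ := fun A w => A (true :: w)) (OP.rightO _)
  have hm : LmR Y (fun A => B (fun w => A (true :: w))) ∈ LDelR Y k := by
    rw [h]; exact ⟨_, hB1, rfl⟩
  obtain ⟨B2, hB2, he⟩ := hm
  have hmeas : ∀ x : List Bool, mu.real {_Z : Oracle | x ∈ B Y} =
      mu.real {Z | x ∈ B2 (join Z Y)} := by
    intro x
    apply eq_of_thresholds measureReal_nonneg measureReal_nonneg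
    intro k n hk
    rw [← mem_lmR hk (B := B2), ← he, mem_lmR hk]
    rfl
  refine ⟨fun A => B2 (join (fun _ => false) A),
    delF_comp hB2 (Φ := fun A => join (fun _ => false) A) (OP.joinR _), ?_⟩
  ext x
  exact const_of_measureR hB2 Y x (x ∈ B Y)
    (fun hx => by rw [← hmeas]; exact (real_const _).1 hx)
    (fun hx => by rw [← hmeas]; exact (real_const _).2 hx) (fun _ => false)

/-- If `L Delta_k^p = L Sigma_k^p`, then `Sigma_k^p ⊆ Delta_k^p`. -/
theorem eq0 {k : ℕ} (h : LDel k = LSig k) : SigP k ⊆ DelP k := by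
  intro L hL
  have hm : Lm (fun _ : Oracle => L) ∈ LDel k := by
    rw [h]; exact ⟨_, const_fam hL, rfl⟩
  obtain ⟨B2, hB2, he⟩ := hm
  have hmeas : ∀ x : List Bool, mu.real {_Z : Oracle | x ∈ L} = mu.real {Z | x ∈ B2 Z} := by
    intro x
    apply eq_of_thresholds measureReal_nonneg measureReal_nonneg
    intro k n hk
    rw [← mem_lm hk (B := B2), ← he, mem_lm hk]
  have : L = B2 (fun _ => false) := by
    ext x
    exact (const_of_measure hB2 x (x ∈ L)
      (fun hx => by rw [← hmeas]; exact (real_const _).1 hx)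
      (fun hx => by rw [← hmeas]; exact (real_const _).2 hx) (fun _ => false)).symm
  rw [this]
  exact delP_of_delF hB2

theorem q1_collapse (h : Q1) (k : ℕ) : SigP k ⊆ DelP 2 :=
  collapse (fun j hj => eq0 (h j (by omega) (meq0 hj))) k

end Pool.Agent.H82.LM
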