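import Pool.Agent.H82.LM.SimStep

/-!
# Row Load: putting the input of the simulated program in place, cleaning up

PROOFS. `exec_load`: induction on `xs` with general `i`: `str (x :: xs) = true :: (str x ++ str xs)`;
pop the `true`, `decode (W + i) 1 2` (row Raw, `exec_decode`; stacks `1`, `2` are empty since
`3 ≤ W`, stack `W + i` is empty by hypothesis) removes `str x` and puts `x` on stack `W + i`; at the end
`str [] = [false]` is popped. `exec_clr`: induction on `j`, with `exec_clear` of
Pool/Agent/H9/Classes.lean.
-/

set_option autoImplicit false

namespace Pool.Agent.H82.LM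

open Pool.Agent.H9 Pool.Agent.H83

private lemma Load_upd0 {W : ℕ} (s : ℕ → List Bool) (l l' : List Bool) :
    Function.update (emb W s l) 0 l' = emb W s l' := by
  funext i
  by_cases hi : i = 0
  · subst hi
    rw [Function.update_self]
    simp [emb]
  · rw [Function.update_of_ne hi]
    simp [emb, hi]

private lemma Load_updW {W : ℕ} (hW : 1 ≤ W) (s : ℕ → List Bool) (l v : List Bool) (i : ℕ) :
    Function.update (emb W s l) (W + i) v = emb W (Function.update s i v) l := by
  funext j
  by_cases hj : j = W + i
  · subst hj
    rw [Function.update_self]
    have h1 : W + i ≠ 0 := by omega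
    have h2 : ¬ (W + i < W) := by omega
    unfold emb
    rw [if_neg h1, if_neg h2, Nat.add_sub_cancel_left, Function.update_self]
  · rw [Function.update_of_ne hj]
    by_cases h0 : j = 0
    · simp [emb, h0]
    · by_cases h1 : j < W
      · simp [emb, h0, h1]
      · have h3 : j - W ≠ i := by omega
        simp [emb, h0, h1, Function.update_of_ne h3]

private lemma Load_embW {W : ℕ} (hW : 1 ≤ W) (s : ℕ → List Bool) (l : List Bool) (i : ℕ) :
    emb W s l (W + i) = s i := by
  have h1 : W + i ≠ 0 := by omega
  have h2 : ¬ (W + i < W) := by omega
  unfold emb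
  rw [if_neg h1, if_neg h2, Nat.add_sub_cancel_left]

/-- Load `j` words from their code on stack `0` to the stacks `W + i, W + i + 1, ...`. -/
def load (W : ℕ) : ℕ → ℕ → Prog
  | _, 0 => .pop 0
  | i, j + 1 => .seq (.pop 0) (.seq (decode (W + i) 1 2) (load W (i + 1) j))

theorem exec_load (A : Oracle) {W : ℕ} (hW : 3 ≤ W) : ∀ (xs : List (List Bool)) (i : ℕ)
    (s : ℕ → List Bool) (rest : List Bool), (∀ j, i ≤ j → s j = []) →
    Exec A (load W i xs.length) (emb W s (str xs ++ rest))
      (emb W (fun j => if j < i then s j else xs.getD (j - i) []) rest)
      (30 * totalLength xs + 40 * xs.length + 1) := by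
  intro xs
  induction xs with
  | nil =>
    intro i s rest hs
    have h1 := exec_pop A (emb W s (str ([] : List (List Bool)) ++ rest)) 0
    have h2 : (emb W s (str ([] : List (List Bool)) ++ rest) 0).tail = rest := by
      simp [emb, str_lnil]
    rw [h2, Load_upd0] at h1
    have h3 : (fun j => if j < i then s j else ([] : List (List Bool)).getD (j - i) []) = s := by
      funext j
      split_ifs with h
      · rfl
      · rw [hs j (by omega)]
        simp
    rw [h3]
    exact h1.mono (by simp)
  | cons x xs ih =>
    intro i s rest hs
    have h1 := exec_pop A (emb W s (str (x :: xs) ++ rest)) 0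
    have h2 : (emb W s (str (x :: xs) ++ rest) 0).tail = str x ++ (str xs ++ rest) := by
      simp [emb, str_lcons]
    rw [h2, Load_upd0] at h1
    have h3 := exec_decode A (i := W + i) (c := 1) (f := 2) (by omega) (by omega) (by omega)
      (by omega) (by omega) (by omega) (emb W s (str x ++ (str xs ++ rest))) x (str xs ++ rest)
      (by simp [emb]) (by rw [Load_embW (by omega)]; exact hs i le_rfl)
      (by simp [emb, show (1 : ℕ) < W by omega]) (by simp [emb, show (2 : ℕ) < W by omega])
    rw [Load_upd0, Load_updW (by omega)] at h3
    have h4 := ih (i + 1) (Function.update s i x) rest (by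
      intro j hj
      rw [Function.update_of_ne (by omega)]
      exact hs j (by omega))
    have h5 : (fun j => if j < i + 1 then Function.update s i x j else xs.getD (j - (i + 1)) []) =
        (fun j => if j < i then s j else (x :: xs).getD (j - i) []) := by
      funext j
      rcases Nat.lt_trichotomy j i with h | h | h
      · rw [if_pos (by omega), if_pos h, Function.update_of_ne (by omega)]
      · subst h
        rw [if_pos (by omega), if_neg (by omega), Function.update_self]
        simp
      · rw [if_neg (by omega), if_neg (by omega)]
        have h6 : j - i = (j - (i + 1)) + 1 := by omega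
        rw [h6, List.getD_cons_succ]
    rw [h5] at h4
    have h7 : load W i (x :: xs).length =
        .seq (.pop 0) (.seq (decode (W + i) 1 2) (load W (i + 1) xs.length)) := rfl
    rw [h7]
    refine (h1.seq (h3.seq h4)).mono ?_
    have h8 : totalLength (x :: xs) = x.length + totalLength xs := by
      simp [totalLength]
    rw [h8, List.length_cons]
    omega

/-- Empty the stacks `W, ..., W + j - 1`. -/
def clr (W : ℕ) : ℕ → Prog
  | 0 => .skip
  | j + 1 => .seq (clr W j) (.loop (W + j) (.pop (W + j)))

theorem exec_clr (A : Oracle) {W : ℕ} (hW : 1 ≤ W) (j Λ : ℕ) (s : ℕ → List Bool) (l : List Bool)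
    (hΛ : ∀ i, (s i).length ≤ Λ) :
    Exec A (clr W j) (emb W s l) (emb W (fun i => if i < j then [] else s i) l)
      (j * (2 * Λ + 2) + 1) := by
  induction j with
  | zero =>
    have h1 : (fun i => if i < 0 then [] else s i) = s := by
      funext i
      simp
    rw [h1]
    exact (exec_skip A (emb W s l)).mono (by simp)
  | succ j ih =>
    have h1 := exec_clear A (W + j) (s j) (emb W (fun i => if i < j then [] else s i) l) (by
      rw [Load_embW hW]
      simp)
    rw [Load_updW hW] at h1
    have h2 : Function.update (fun i => if i < j then [] else s i) j [] =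
        fun i => if i < j + 1 then [] else s i := by
      funext i
      by_cases hi : i = j
      · subst hi
        rw [Function.update_self, if_pos (by omega)]
      · rw [Function.update_of_ne hi]
        by_cases h3 : i < j
        · rw [if_pos h3, if_pos (by omega)]
        · rw [if_neg h3, if_neg (by omega)]
    rw [h2] at h1
    have h4 : clr W (j + 1) = .seq (clr W j) (.loop (W + j) (.pop (W + j))) := rfl
    rw [h4]
    refine (ih.seq h1).mono ?_
    have h5 := hΛ j
    have h6 : (j + 1) * (2 * Λ + 2) = j * (2 * Λ + 2) + (2 * Λ + 2) := by ring
    rw [h6]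
    omega

end Pool.Agent.H82.LM
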