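import Pool.Agent.H82.LM.Defs

/-!
# Row Meas1: the uniform measure on oracles

PROOFS. `coin_singleton`: `PMF.toMeasure_apply_singleton`, `PMF.uniformOfFintype_apply`.
`measurePreserving_of_box`-type argument for `mu_flip` and `mu_comp`: by
`MeasureTheory.Measure.eq_infinitePi` (or `Measure.eq_infinitePi'`) it suffices to compute the
measure of the preimage of a box `Set.pi R t` over a finset `R`, which is again a box
(`MeasureTheory.Measure.infinitePi_pi`): for the flip at `w0` the factor `t w0` is replaced by its
preimage under `not`, which has the same `coin` measure; for `Z ↦ Z ∘ g` with `g` injective the box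
over `R` becomes the box over `R.image g` with factor `t w` at `g w`. Measurability of both maps:
`measurable_pi_iff`.
`Dep.measurableSet`: the event is the union over the finitely many patterns `τ : R → Bool` of
cylinders (or: it is the preimage of a set of `R → Bool`, a finite discrete space, under the measurable
restriction map). `mu_full`: if some `Z0` is not in `G`, then the cylinder
`{Z | ∀ w ∈ R, Z w = Z0 w}` is disjoint from `G` and has measure `(1/2) ^ |R| > 0`
(`infinitePi_pi`), contradiction.
-/

set_option autoImplicit false

namespace Pool.Agent.H82.LM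

open Pool.Agent.H9 MeasureTheory

theorem coin_singleton (b : Bool) : coin {b} = 1 / 2 := by
  unfold coin
  rw [PMF.toMeasure_apply_singleton _ _ (measurableSet_singleton b)]
  simp [PMF.uniformOfFintype_apply]

instance : IsProbabilityMeasure coin := by
  unfold coin; infer_instance

instance : IsProbabilityMeasure mu := by
  unfold mu; infer_instance

theorem Meas1_coin_map_not : coin.map (fun b : Bool => !b) = coin := by
  refine Measure.ext_of_singleton fun b => ?_
  rw [Measure.map_apply (measurable_of_countable _) (measurableSet_singleton b)]
  have : (fun b : Bool => !b) ⁻¹' {b} = {!b} := by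
    ext c; cases b <;> cases c <;> simp
  rw [this, coin_singleton, coin_singleton]

/-- Flipping one bit preserves the measure. -/
theorem mu_flip (w0 : List Bool) :
    MeasurePreserving (fun Z : Oracle => Function.update Z w0 (!(Z w0))) mu mu := by
  classical
  have hfun : (fun Z : Oracle => Function.update Z w0 (!(Z w0))) =
      (fun (Z : List Bool → Bool) i => (if i = w0 then (fun b : Bool => !b) else id) (Z i)) := by
    funext Z i
    by_cases h : i = w0
    · subst h
      simp
    · simp [h]
  have hm : ∀ i : List Bool, Measurable (if i = w0 then (fun b : Bool => !b) else id) :=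
    fun i => measurable_of_countable _
  refine ⟨?_, ?_⟩
  · rw [hfun]
    exact measurable_pi_iff.2 fun i => (hm i).comp (measurable_pi_apply i)
  · rw [hfun]
    unfold mu
    rw [Measure.infinitePi_map_pi _ hm]
    congr 1
    funext i
    by_cases h : i = w0
    · simp only [h, if_true]
      exact Meas1_coin_map_not
    · simp only [h, if_false]
      exact Measure.map_id

/-- Selecting bits preserves the measure. -/
theorem mu_comp {g : List Bool → List Bool} (hg : Function.Injective g) :
    MeasurePreserving (fun Z : Oracle => Z ∘ g) mu mu := by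
  classical
  have hmeas : Measurable (fun Z : Oracle => Z ∘ g) :=
    measurable_pi_iff.2 fun i => measurable_pi_apply (g i)
  refine ⟨hmeas, ?_⟩
  unfold mu
  refine Measure.eq_infinitePi _ fun s t ht => ?_
  rw [Measure.map_apply hmeas (MeasurableSet.pi s.countable_toSet fun i _ => ht i)]
  have hpre : (fun Z : Oracle => Z ∘ g) ⁻¹' ((s : Set (List Bool)).pi t) =
      ((s.image g : Finset (List Bool)) : Set (List Bool)).pi
        (fun v => ⋂ i ∈ {i : List Bool | g i = v}, t i) := by
    ext Z
    simp only [Set.mem_preimage, Set.mem_pi, Function.comp_apply, Finset.coe_image,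
      Set.mem_image, Finset.mem_coe, forall_exists_index, and_imp, Set.mem_iInter,
      Set.mem_setOf_eq]
    constructor
    · rintro h v i hi rfl j hj
      rw [hg hj]
      exact h i hi
    · intro h i hi
      exact h (g i) i hi rfl i rfl
  rw [hpre, Measure.infinitePi_pi]
  · rw [Finset.prod_image fun i _ j _ h => hg h]
    refine Finset.prod_congr rfl fun i _ => ?_
    congr 1
    ext b
    simp only [Set.mem_setOf_eq, Set.mem_iInter]
    constructor
    · intro h
      exact h i rfl
    · intro h j hj
      rw [hg hj]
      exact h
  · intro v _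
    exact (Set.toFinite _).measurableSet

/-- The event `G` depends only on the bits in `R`. -/
def Dep (R : Set (List Bool)) (G : Set Oracle) : Prop :=
  ∀ Z Z' : Oracle, (∀ w ∈ R, Z w = Z' w) → (Z ∈ G ↔ Z' ∈ G)

theorem Dep.mono {R R' : Set (List Bool)} {G : Set Oracle} (h : Dep R G) (hR : R ⊆ R') :
    Dep R' G := fun Z Z' hZ => h Z Z' fun w hw => hZ w (hR hw)

theorem Dep.compl {R : Set (List Bool)} {G : Set Oracle} (h : Dep R G) : Dep R Gᶜ :=
  fun Z Z' hZ => not_congr (h Z Z' hZ)

theorem Dep.measurableSet {R : Finset (List Bool)} {G : Set Oracle} (h : Dep (R : Set (List Bool)) G) :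
    MeasurableSet G := by
  have hG : G = (R.restrict (π := fun _ : List Bool => Bool)) ⁻¹'
      ((R.restrict (π := fun _ : List Bool => Bool)) '' G) := by
    ext Z
    constructor
    · intro hZ
      exact ⟨Z, hZ, rfl⟩
    · rintro ⟨Z', hZ', he⟩
      refine (h Z' Z fun w hw => ?_).1 hZ'
      exact congrFun he ⟨w, hw⟩
  rw [hG]
  refine (Finset.measurable_restrict (X := fun _ : List Bool => Bool) R) ?_
  exact (Set.toFinite _).measurableSet

theorem mu_full {R : Finset (List Bool)} {G : Set Oracle} (h : Dep (R : Set (List Bool)) G)
    (h1 : mu.real G = 1) (Z : Oracle) : Z ∈ G := by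
  by_contra hZ
  have hcyl : mu ((R : Set (List Bool)).pi fun w => ({Z w} : Set Bool)) = (1 / 2) ^ R.card := by
    unfold mu
    rw [Measure.infinitePi_pi _ fun i _ => measurableSet_singleton _]
    rw [Finset.prod_congr rfl fun i _ => coin_singleton (Z i), Finset.prod_const]
  have hdis : Disjoint G ((R : Set (List Bool)).pi fun w => ({Z w} : Set Bool)) := by
    rw [Set.disjoint_left]
    intro Z' hZ' hc
    exact hZ ((h Z' Z fun w hw => by simpa using hc w hw).1 hZ')
  have hms : MeasurableSet ((R : Set (List Bool)).pi fun w => ({Z w} : Set Bool)) :=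
    MeasurableSet.pi R.countable_toSet fun i _ => measurableSet_singleton _
  have hle : mu.real G + mu.real ((R : Set (List Bool)).pi fun w => ({Z w} : Set Bool)) ≤ 1 := by
    rw [← measureReal_union hdis hms]
    exact measureReal_le_one
  have hpos : 0 < mu.real ((R : Set (List Bool)).pi fun w => ({Z w} : Set Bool)) := by
    unfold Measure.real
    rw [hcyl]
    refine ENNReal.toReal_pos ?_ ?_
    · exact pow_ne_zero _ (by simp)
    · exact ENNReal.pow_ne_top (by simp)
  linarith

theorem mu_zero {R : Finset (List Bool)} {G : Set Oracle} (h : Dep (R : Set (List Bool)) G)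
    (h1 : mu.real G = 0) (Z : Oracle) : Z ∉ G := by
  refine mu_full (G := Gᶜ) h.compl ?_ Z
  rw [probReal_compl_eq_one_sub h.measurableSet, h1]
  norm_num

end Pool.Agent.H82.LM
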