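import Pool.Agent.H82.LM.Defs

/-!
# Row Raw: transfer of a word between its code on stack 0 and another stack

`str w` for `w : List Bool` is `piece w_1 ++ piece w_2 ++ ... ++ [false]` with
`piece false = [true, false]`, `piece true = [true, true, false, false]`
(`str_lnil`, `str_lcons`, `str_false`, `str_true` are `rfl`).

PROOFS. Everything is an execution of a concrete program; use `exec_push`, `exec_pop`, `Exec.seq`,
`exec_cond_cons`, `exec_loop_nil`, `exec_loop_cons`, `exec_moveAll` (Pool.Agent.H9.Progs).
* `exec_decode`: after `push f true`, prove by induction on `w` (generalising `s`, with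
  `s 0 = str w ++ rest`, `s f = [true]`, `s c = l`) that the loop ends in
  `update (update (update s 0 rest) c (w.reverse ++ l)) f []` in at most `10 * |w| + 5` steps
  (case `[]`: top of stack 0 is `false`: pop 0, pop f, and the loop stops; case `b :: w`: pop the
  `true`, then one of the two inner branches). Then `moveAll c i` gives `(w.reverse).reverse = w`
  on stack `i`.
* `exec_encode`, `exec_encodeK`: `moveAll i c` gives `w.reverse` on `c`; then induction on the
  content `l` of stack `c` (with stack `0` equal to `str m ++ r`, ends with
  `str (l.reverse ++ m) ++ r`).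
The exact constants `30` are generous. The memory functions are compared by `funext` and
case distinctions on the indices.
-/

set_option autoImplicit false

namespace Pool.Agent.H82.LM

open Pool.Agent.H9 Pool.Agent.H83

theorem str_lnil {α : Type} [Enc α] : str ([] : List α) = [false] := rfl

theorem str_lcons {α : Type} [Enc α] (b : α) (l : List α) :
    str (b :: l) = true :: (str b ++ str l) := rfl

theorem str_false : str false = [false] := rfl

theorem str_true : str true = [true, false, false] := rfl

/-- Body of the loop of `decode`. -/
def decBody (c f : ℕ) : Prog :=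
  .cond 0 (.pop f) (.seq (.pop 0) (.pop f))
    (.seq (.pop 0) (.cond 0 .skip (.seq (.pop 0) (.push c false))
      (.seq (.pop 0) (.seq (.pop 0) (.seq (.pop 0) (.push c true))))))

/-- Remove the code of a word from stack `0` and put the word on stack `i` (scratch stacks `c`
and `f`). -/
def decode (i c f : ℕ) : Prog :=
  .seq (.push f true) (.seq (.loop f (decBody c f)) (moveAll c i))

/-- Body of the loop of `encode`. -/
def encBody (c : ℕ) : Prog :=
  .cond c .skip (.seq (.pop c) (.seq (.push 0 false) (.push 0 true)))
    (.seq (.pop c) (.seq (.push 0 false) (.seq (.push 0 false)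
      (.seq (.push 0 true) (.push 0 true)))))

/-- Put the code of the word on stack `i` on stack `0`, emptying stack `i` (scratch stack `c`). -/
def encode (i c : ℕ) : Prog := .seq (moveAll i c) (.seq (.push 0 false) (.loop c (encBody c)))

/-- Body of the loop of `encodeK`. -/
def encKBody (i c : ℕ) : Prog :=
  .cond c .skip (.seq (.pop c) (.seq (.push i false) (.seq (.push 0 false) (.push 0 true))))
    (.seq (.pop c) (.seq (.push i true) (.seq (.push 0 false) (.seq (.push 0 false)
      (.seq (.push 0 true) (.push 0 true))))))

/-- Put the code of the word on stack `i` on stack `0`, keeping stack `i` (scratch stack `c`). -/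
def encodeK (i c : ℕ) : Prog := .seq (moveAll i c) (.seq (.push 0 false) (.loop c (encKBody i c)))

private theorem Raw_to {A : Oracle} {p : Prog} {s s' s'' : ℕ → List Bool} {N M : ℕ}
    (h : Exec A p s s' N) (e : s' = s'') (hNM : N ≤ M) : Exec A p s s'' M := by
  subst e
  exact h.mono hNM

private theorem Raw_dec_end (A : Oracle) {c f : ℕ} (hf : f ≠ 0) (s : ℕ → List Bool)
    (rest : List Bool) (h0 : s 0 = false :: rest) (h3 : s f = [true]) :
    Exec A (decBody c f) s (Function.update (Function.update s 0 rest) f []) 4 := by
  have h := exec_cond_cons (A := A) (p := .pop f) (q := .seq (.pop 0) (.pop f))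
    (r := .seq (.pop 0) (.cond 0 .skip (.seq (.pop 0) (.push c false))
      (.seq (.pop 0) (.seq (.pop 0) (.seq (.pop 0) (.push c true)))))) h0
    (by
      show Exec A (.seq (.pop 0) (.pop f)) s _ _
      exact Exec.seq (exec_pop A s 0) (exec_pop A _ f))
  refine Raw_to h ?_ (by norm_num)
  rw [h0, List.tail_cons, Function.update_of_ne hf, h3, List.tail_cons]

private theorem Raw_dec_false (A : Oracle) {c f : ℕ} (hc : c ≠ 0) (s : ℕ → List Bool)
    (r : List Bool) (h0 : s 0 = true :: false :: r) :
    Exec A (decBody c f) s (Function.update (Function.update s 0 r) c (false :: s c)) 11 := by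
  have e1 := exec_pop A s 0
  have hs1 : (Function.update s 0 (s 0).tail) 0 = false :: r := by
    rw [Function.update_self, h0, List.tail_cons]
  have e2 : Exec A (if false then (.seq (.pop 0) (.seq (.pop 0) (.seq (.pop 0) (.push c true))))
      else (.seq (.pop 0) (.push c false)) : Prog) (Function.update s 0 (s 0).tail) _ _ :=
    Exec.seq (exec_pop A (Function.update s 0 (s 0).tail) 0) (exec_push A _ c false)
  have e3 := exec_cond_cons (p := .skip) hs1 e2
  have e4 := Exec.seq e1 e3
  have e5 := exec_cond_cons (A := A) (p := .pop f) (q := .seq (.pop 0) (.pop f)) (b := true)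
    h0 e4
  refine Raw_to e5 ?_ (by norm_num)
  rw [h0, Function.update_self, List.tail_cons, List.tail_cons, Function.update_idem,
    Function.update_of_ne hc]

private theorem Raw_dec_true (A : Oracle) {c f : ℕ} (hc : c ≠ 0) (s : ℕ → List Bool)
    (r : List Bool) (h0 : s 0 = true :: true :: false :: false :: r) :
    Exec A (decBody c f) s (Function.update (Function.update s 0 r) c (true :: s c)) 11 := by
  have e1 := exec_pop A s 0
  have hs1 : (Function.update s 0 (s 0).tail) 0 = true :: false :: false :: r := by
    rw [Function.update_self, h0, List.tail_cons]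
  have e2 : Exec A (if true then (.seq (.pop 0) (.seq (.pop 0) (.seq (.pop 0) (.push c true))))
      else (.seq (.pop 0) (.push c false)) : Prog) (Function.update s 0 (s 0).tail) _ _ :=
    Exec.seq (exec_pop A (Function.update s 0 (s 0).tail) 0) (Exec.seq (exec_pop A _ 0)
        (Exec.seq (exec_pop A _ 0) (exec_push A _ c true)))
  have e3 := exec_cond_cons (p := .skip) hs1 e2
  have e4 := Exec.seq e1 e3
  have e5 := exec_cond_cons (A := A) (p := .pop f) (q := .seq (.pop 0) (.pop f)) (b := true)
    h0 e4
  refine Raw_to e5 ?_ (by norm_num)
  simp only [h0, Function.update_self, List.tail_cons, Function.update_idem,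
    Function.update_of_ne hc]

private theorem Raw_dec_loop (A : Oracle) {c f : ℕ} (hc : c ≠ 0) (hf : f ≠ 0) (hcf : c ≠ f)
    (rest : List Bool) (w : List Bool) : ∀ (s : ℕ → List Bool) (l : List Bool),
    s 0 = str w ++ rest → s f = [true] → s c = l →
    Exec A (.loop f (decBody c f)) s
      (Function.update (Function.update (Function.update s 0 rest) c (w.reverse ++ l)) f [])
      (12 * w.length + 6) := by
  induction w with
  | nil =>
    intro s l h0 h3 h2
    rw [str_lnil] at h0
    refine Raw_to (exec_loop_cons h3 (Raw_dec_end A (c := c) hf s rest h0 h3)
      (exec_loop_nil (by rw [Function.update_self]))) ?_ (by simp)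
    funext m
    simp only [Function.update_apply, List.reverse_nil, List.nil_append]
    by_cases hm : m = f
    · rw [if_pos hm, if_pos hm]
    · rw [if_neg hm, if_neg hm]
      by_cases hmc : m = c
      · rw [if_pos hmc, hmc, if_neg hc, h2]
      · rw [if_neg hmc]
  | cons b w ih =>
    intro s l h0 h3 h2
    have key : Exec A (decBody c f) s
        (Function.update (Function.update s 0 (str w ++ rest)) c (b :: s c)) 11 := by
      rw [str_lcons] at h0
      cases b with
      | false =>
        rw [str_false] at h0
        exact Raw_dec_false A hc s _ h0
      | true =>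
        rw [str_true] at h0
        exact Raw_dec_true A hc s _ h0
    have h4 := ih (Function.update (Function.update s 0 (str w ++ rest)) c (b :: s c)) (b :: l)
      (by rw [Function.update_of_ne hc.symm, Function.update_self])
      (by rw [Function.update_of_ne hcf.symm, Function.update_of_ne hf, h3])
      (by rw [Function.update_self, h2])
    refine Raw_to (exec_loop_cons h3 key h4) ?_ (by rw [List.length_cons]; omega)
    funext m
    simp only [Function.update_apply, List.reverse_cons, List.append_assoc,
      List.singleton_append]
    by_cases hm : m = f
    · rw [if_pos hm, if_pos hm]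
    · rw [if_neg hm, if_neg hm]
      by_cases hmc : m = c
      · rw [if_pos hmc, if_pos hmc]
      · rw [if_neg hmc, if_neg hmc, if_neg hmc]
        by_cases hm0 : m = 0
        · rw [if_pos hm0, if_pos hm0]
        · rw [if_neg hm0, if_neg hm0, if_neg hm0]

theorem exec_decode (A : Oracle) {i c f : ℕ} (hi : i ≠ 0) (hc : c ≠ 0) (hf : f ≠ 0) (hic : i ≠ c)
    (hif : i ≠ f) (hcf : c ≠ f) (s : ℕ → List Bool) (w rest : List Bool)
    (h0 : s 0 = str w ++ rest) (h1 : s i = []) (h2 : s c = []) (h3 : s f = []) :
    Exec A (decode i c f) s (Function.update (Function.update s 0 rest) i w)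
      (30 * w.length + 30) := by
  have e1 := exec_push A s f true
  have e2 := Raw_dec_loop A hc hf hcf rest w (Function.update s f (true :: s f)) []
    (by rw [Function.update_of_ne hf.symm, h0]) (by rw [Function.update_self, h3])
    (by rw [Function.update_of_ne hcf, h2])
  obtain ⟨s', e3, a1, a2, a3⟩ := exec_moveAll A hic.symm
    (Function.update (Function.update (Function.update (Function.update s f (true :: s f)) 0 rest)
      c (w.reverse ++ [])) f [])
  have e4 := Exec.seq e1 (Exec.seq e2 e3)
  have b1 : (Function.update (Function.update (Function.update (Function.update s f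
      (true :: s f)) 0 rest) c (w.reverse ++ [])) f []) c = w.reverse := by
    rw [Function.update_of_ne hcf, Function.update_self, List.append_nil]
  have b2 : (Function.update (Function.update (Function.update (Function.update s f
      (true :: s f)) 0 rest) c (w.reverse ++ [])) f []) i = [] := by
    rw [Function.update_of_ne hif, Function.update_of_ne hic, Function.update_of_ne hi,
      Function.update_of_ne hif, h1]
  rw [b1] at e4 a2
  rw [b2, List.reverse_reverse, List.append_nil] at a2
  rw [List.length_reverse] at e4
  refine Raw_to e4 ?_ (by omega)
  funext m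
  by_cases hmi : m = i
  · rw [hmi, Function.update_self, a2]
  · rw [Function.update_of_ne hmi]
    by_cases hmc : m = c
    · rw [hmc, a1, Function.update_of_ne hc, h2]
    · rw [a3 m hmc hmi]
      by_cases hmf : m = f
      · rw [hmf, Function.update_self, Function.update_of_ne hf, h3]
      · rw [Function.update_of_ne hmf, Function.update_of_ne hmc]
        by_cases hm0 : m = 0
        · rw [hm0, Function.update_self, Function.update_self]
        · rw [Function.update_of_ne hm0, Function.update_of_ne hm0, Function.update_of_ne hmf]

private theorem Raw_enc_body (A : Oracle) {c : ℕ} (hc : c ≠ 0) (s : ℕ → List Bool)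
    (b : Bool) (l m r : List Bool) (h2 : s c = b :: l) (h0 : s 0 = str m ++ r) :
    Exec A (encBody c) s (Function.update (Function.update s c l) 0 (str (b :: m) ++ r)) 10 := by
  cases b with
  | false =>
    have h := exec_cond_cons (A := A) (p := .skip)
      (q := .seq (.pop c) (.seq (.push 0 false) (.push 0 true)))
      (r := .seq (.pop c) (.seq (.push 0 false) (.seq (.push 0 false)
        (.seq (.push 0 true) (.push 0 true))))) h2
      (by
        show Exec A (.seq (.pop c) (.seq (.push 0 false) (.push 0 true))) s _ _
        exact Exec.seq (exec_pop A s c) (Exec.seq (exec_push A _ 0 false) (exec_push A _ 0 true)))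
    refine Raw_to h ?_ (by norm_num)
    simp only [h2, Function.update_self, List.tail_cons, Function.update_idem,
      Function.update_of_ne hc.symm, h0, str_lcons, str_false, List.cons_append,
      List.nil_append]
  | true =>
    have h := exec_cond_cons (A := A) (p := .skip)
      (q := .seq (.pop c) (.seq (.push 0 false) (.push 0 true)))
      (r := .seq (.pop c) (.seq (.push 0 false) (.seq (.push 0 false)
        (.seq (.push 0 true) (.push 0 true))))) h2
      (by
        show Exec A (.seq (.pop c) (.seq (.push 0 false) (.seq (.push 0 false)
          (.seq (.push 0 true) (.push 0 true))))) s _ _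
        exact Exec.seq (exec_pop A s c) (Exec.seq (exec_push A _ 0 false)
          (Exec.seq (exec_push A _ 0 false) (Exec.seq (exec_push A _ 0 true)
            (exec_push A _ 0 true)))))
    refine Raw_to h ?_ (by norm_num)
    simp only [h2, Function.update_self, List.tail_cons, Function.update_idem,
      Function.update_of_ne hc.symm, h0, str_lcons, str_true, List.cons_append,
      List.nil_append]

private theorem Raw_enc_loop (A : Oracle) {c : ℕ} (hc : c ≠ 0) (r : List Bool) (l : List Bool) :
    ∀ (s : ℕ → List Bool) (m : List Bool), s c = l → s 0 = str m ++ r →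
    Exec A (.loop c (encBody c)) s
      (Function.update (Function.update s c []) 0 (str (l.reverse ++ m) ++ r))
      (11 * l.length + 1) := by
  induction l with
  | nil =>
    intro s m h2 h0
    refine Raw_to (exec_loop_nil h2) ?_ (by simp)
    funext k
    simp only [Function.update_apply, List.reverse_nil, List.nil_append]
    by_cases hk : k = 0
    · rw [if_pos hk, hk, h0]
    · rw [if_neg hk]
      by_cases hkc : k = c
      · rw [if_pos hkc, hkc, h2]
      · rw [if_neg hkc]
  | cons b l ih =>
    intro s m h2 h0
    have e1 := Raw_enc_body A hc s b l m r h2 h0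
    have e2 := ih (Function.update (Function.update s c l) 0 (str (b :: m) ++ r)) (b :: m)
      (by rw [Function.update_of_ne hc, Function.update_self])
      (by rw [Function.update_self])
    refine Raw_to (exec_loop_cons h2 e1 e2) ?_ (by rw [List.length_cons]; omega)
    funext k
    simp only [Function.update_apply, List.reverse_cons, List.append_assoc,
      List.singleton_append]
    by_cases hk : k = 0
    · rw [if_pos hk, if_pos hk]
    · rw [if_neg hk, if_neg hk]
      by_cases hkc : k = c
      · simp [hkc, hc]
      · simp [hkc, hk]

theorem exec_encode (A : Oracle) {i c : ℕ} (hi : i ≠ 0) (hc : c ≠ 0) (hic : i ≠ c)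
    (s : ℕ → List Bool) (h2 : s c = []) :
    Exec A (encode i c) s (Function.update (Function.update s 0 (str (s i) ++ s 0)) i [])
      (30 * (s i).length + 30) := by
  obtain ⟨s', e1, a1, a2, a3⟩ := exec_moveAll A hic s
  rw [h2, List.append_nil] at a2
  have h0 : s' 0 = s 0 := a3 0 hi.symm hc.symm
  have e2 := exec_push A s' 0 false
  have e3 := Raw_enc_loop A hc (s 0) (s i).reverse (Function.update s' 0 (false :: s' 0)) []
    (by rw [Function.update_of_ne hc, a2])
    (by rw [Function.update_self, h0, str_lnil]; rfl)
  have e4 := Exec.seq e1 (Exec.seq e2 e3)
  rw [List.length_reverse, List.reverse_reverse, List.append_nil] at e4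
  refine Raw_to e4 ?_ (by omega)
  funext k
  by_cases hk : k = 0
  · rw [hk, Function.update_self, Function.update_of_ne hi.symm, Function.update_self]
  · rw [Function.update_of_ne hk]
    by_cases hkc : k = c
    · rw [hkc, Function.update_self, Function.update_of_ne hic.symm, Function.update_of_ne hc, h2]
    · rw [Function.update_of_ne hkc, Function.update_of_ne hk]
      by_cases hki : k = i
      · rw [hki, Function.update_self, a1]
      · rw [Function.update_of_ne hki, Function.update_of_ne hk, a3 k hki hkc]

private theorem Raw_encK_body (A : Oracle) {i c : ℕ} (hi : i ≠ 0) (hc : c ≠ 0) (hic : i ≠ c)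
    (s : ℕ → List Bool)
    (b : Bool) (l m r : List Bool) (h2 : s c = b :: l) (h0 : s 0 = str m ++ r) :
    Exec A (encKBody i c) s (Function.update (Function.update (Function.update s c l) i
      (b :: s i)) 0 (str (b :: m) ++ r)) 12 := by
  cases b with
  | false =>
    have h := exec_cond_cons (A := A) (p := .skip)
      (q := .seq (.pop c) (.seq (.push i false) (.seq (.push 0 false) (.push 0 true))))
      (r := .seq (.pop c) (.seq (.push i true) (.seq (.push 0 false) (.seq (.push 0 false)
        (.seq (.push 0 true) (.push 0 true)))))) h2
      (by
        show Exec A (.seq (.pop c) (.seq (.push i false) (.seq (.push 0 false)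
          (.push 0 true)))) s _ _
        exact Exec.seq (exec_pop A s c) (Exec.seq (exec_push A _ i false)
          (Exec.seq (exec_push A _ 0 false) (exec_push A _ 0 true))))
    refine Raw_to h ?_ (by norm_num)
    simp only [h2, Function.update_self, List.tail_cons, Function.update_idem,
      Function.update_of_ne hc.symm, Function.update_of_ne hi.symm, Function.update_of_ne hic,
      h0, str_lcons, str_false, List.cons_append, List.nil_append]
  | true =>
    have h := exec_cond_cons (A := A) (p := .skip)
      (q := .seq (.pop c) (.seq (.push i false) (.seq (.push 0 false) (.push 0 true))))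
      (r := .seq (.pop c) (.seq (.push i true) (.seq (.push 0 false) (.seq (.push 0 false)
        (.seq (.push 0 true) (.push 0 true)))))) h2
      (by
        show Exec A (.seq (.pop c) (.seq (.push i true) (.seq (.push 0 false)
          (.seq (.push 0 false) (.seq (.push 0 true) (.push 0 true)))))) s _ _
        exact Exec.seq (exec_pop A s c) (Exec.seq (exec_push A _ i true)
          (Exec.seq (exec_push A _ 0 false) (Exec.seq (exec_push A _ 0 false)
            (Exec.seq (exec_push A _ 0 true) (exec_push A _ 0 true))))))
    refine Raw_to h ?_ (by norm_num)
    simp only [h2, Function.update_self, List.tail_cons, Function.update_idem,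
      Function.update_of_ne hc.symm, Function.update_of_ne hi.symm, Function.update_of_ne hic,
      h0, str_lcons, str_true, List.cons_append, List.nil_append]

private theorem Raw_encK_loop (A : Oracle) {i c : ℕ} (hi : i ≠ 0) (hc : c ≠ 0) (hic : i ≠ c)
    (r : List Bool) (l : List Bool) :
    ∀ (s : ℕ → List Bool) (m : List Bool), s c = l → s 0 = str m ++ r →
    Exec A (.loop c (encKBody i c)) s
      (Function.update (Function.update (Function.update s c []) i (l.reverse ++ s i)) 0
        (str (l.reverse ++ m) ++ r))
      (13 * l.length + 1) := by
  induction l with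
  | nil =>
    intro s m h2 h0
    refine Raw_to (exec_loop_nil h2) ?_ (by simp)
    funext k
    simp only [Function.update_apply, List.reverse_nil, List.nil_append]
    by_cases hk : k = 0
    · rw [if_pos hk, hk, h0]
    · rw [if_neg hk]
      by_cases hki : k = i
      · rw [if_pos hki, hki]
      · rw [if_neg hki]
        by_cases hkc : k = c
        · rw [if_pos hkc, hkc, h2]
        · rw [if_neg hkc]
  | cons b l ih =>
    intro s m h2 h0
    have e1 := Raw_encK_body A hi hc hic s b l m r h2 h0
    have e2 := ih (Function.update (Function.update (Function.update s c l) i (b :: s i)) 0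
        (str (b :: m) ++ r)) (b :: m)
      (by rw [Function.update_of_ne hc, Function.update_of_ne hic.symm, Function.update_self])
      (by rw [Function.update_self])
    refine Raw_to (exec_loop_cons h2 e1 e2) ?_ (by rw [List.length_cons]; omega)
    funext k
    simp only [Function.update_apply, List.reverse_cons, List.append_assoc,
      List.singleton_append]
    by_cases hk : k = 0
    · rw [if_pos hk, if_pos hk]
    · rw [if_neg hk, if_neg hk]
      by_cases hki : k = i
      · simp [hki, hi]
      · rw [if_neg hki, if_neg hki]
        by_cases hkc : k = c
        · simp [hkc, hc, hic.symm]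
        · simp [hkc, hk, hki]

theorem exec_encodeK (A : Oracle) {i c : ℕ} (hi : i ≠ 0) (hc : c ≠ 0) (hic : i ≠ c)
    (s : ℕ → List Bool) (h2 : s c = []) :
    Exec A (encodeK i c) s (Function.update s 0 (str (s i) ++ s 0)) (30 * (s i).length + 30) := by
  obtain ⟨s', e1, a1, a2, a3⟩ := exec_moveAll A hic s
  rw [h2, List.append_nil] at a2
  have h0 : s' 0 = s 0 := a3 0 hi.symm hc.symm
  have e2 := exec_push A s' 0 false
  have e3 := Raw_encK_loop A hi hc hic (s 0) (s i).reverse
    (Function.update s' 0 (false :: s' 0)) []
    (by rw [Function.update_of_ne hc, a2])
    (by rw [Function.update_self, h0, str_lnil]; rfl)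
  have e4 := Exec.seq e1 (Exec.seq e2 e3)
  rw [List.length_reverse, List.reverse_reverse, List.append_nil, Function.update_of_ne hi, a1,
    List.append_nil] at e4
  refine Raw_to e4 ?_ (by omega)
  funext k
  by_cases hk : k = 0
  · rw [hk, Function.update_self, Function.update_self]
  · rw [Function.update_of_ne hk, Function.update_of_ne hk]
    by_cases hki : k = i
    · rw [hki, Function.update_self]
    · rw [Function.update_of_ne hki]
      by_cases hkc : k = c
      · rw [hkc, Function.update_self, h2]
      · rw [Function.update_of_ne hkc, Function.update_of_ne hk, a3 k hki hkc]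

end Pool.Agent.H82.LM
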