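import Pool.Agent.H82.LM.Load

/-!
# Row Sim: simulation of a machine whose oracle is a polynomial time oracle function

PROOF. Let `G`, `NG` (monotone) be given by `hF.exists_prog`, `D0` a program for `prm ↦ (prm, prm)`
(`OP.of_poly (Poly.id.pair Poly.id)`), `D = seq D0 (pop 0)`; let `K b` (`b : Bool`) be a program for
the constant function `prm ↦ b` (`OP.const b`). Let `W ≥ 3` with `Below W` for `D`, `G`, and let `w0`
with `Below w0 p` (`exists_below`), `J = max w0 j`. The program is
`seq (pop 0) (seq (load W 0 j) (seq (sub W D G p) (cond (W + 0) X0 X0 X1)))` with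
`X0 = seq (clr W J) (K false)` and `X1 = seq (clr W J) (K true)`.
The input is `str (xs, prm) ++ rest = true :: (str xs ++ (str prm ++ rest))` (`Poly.str_pair`; the
code of an element of the subtype is the code of `xs`). After `load`: memory
`emb W (fun i => xs.getD i []) (str prm ++ rest)` (`st l = emb W (fun _ => []) l`). Put
`t = T.eval (totalLength xs)`: by `hp` the run of `p` with oracle `w ↦ F A (w, prm)` has halted after
`t` steps, so `big_of_run` gives `Big ... n` with `n ≤ t` and final memory `s'`, the same as the memory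
of `run ... t` (`Pool.Agent.H9.run`, `start`); `Accepts` iff `(s' 0).head? = some true`
(`accepts_iff_of_halted`). `sub_exec` with `Λ = totalLength xs + t` (`length_start_le`). The stacks
of `s'` from `J` on are empty (`Big.above`, `List.getD` beyond the length). After `clr W J` the
memory is `emb W (fun _ => []) .. = st ..`; then `K b` gives `st (str b ++ rest)`.
`totalLength xs ≤ sz xs` (induction, `Poly.length_le_sz`), so all times are polynomially bounded in
`sz a = sz xs + sz prm + 1`.
-/

set_option autoImplicit false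

namespace Pool.Agent.H82.LM

open Pool.Agent.H9 Pool.Agent.H83

theorem Sim_st_emb (W : ℕ) (l : List Bool) : st l = emb W (fun _ => []) l := by
  funext i
  unfold st emb
  by_cases h : i = 0
  · simp [h]
  · simp [h]

theorem Sim_pop (A : Oracle) (b : Bool) (l : List Bool) : Exec A (Prog.pop 0) (st (b :: l)) (st l) 1 := by
  have h := exec_pop A (st (b :: l)) 0
  have e : Function.update (st (b :: l)) 0 ((st (b :: l)) 0).tail = st l := by
    funext i
    by_cases hi : i = 0
    · subst hi
      rw [Function.update_self]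
      rfl
    · rw [Function.update_of_ne hi]
      unfold st
      rw [if_neg hi, if_neg hi]
  rwa [e] at h

theorem Sim_sz (w : List Bool) : sz w ≤ 4 * w.length + 1 := by
  induction w with
  | nil => simp
  | cons b w ih =>
    have h1 := Poly.sz_bool b
    rw [Poly.sz_cons, List.length_cons]
    omega

theorem Sim_tl (xs : List (List Bool)) : totalLength xs ≤ sz xs := by
  induction xs with
  | nil => simp [totalLength]
  | cons x xs ih =>
    have h1 := Poly.length_le_sz x
    unfold totalLength at ih ⊢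
    rw [Poly.sz_cons, List.map_cons, List.sum_cons]
    omega

theorem Sim_dup {π : Type} [Enc π] (S : Set Oracle) : ∃ (D : Prog) (N : ℕ → ℕ), PB N ∧ Monotone N ∧
    ∀ A ∈ S, ∀ (prm : π) (rest : List Bool), Exec A D (st (str prm ++ rest))
      (st (str prm ++ (str prm ++ rest))) (N (sz prm)) := by
  have h : OP S (fun (_ : Oracle) (prm : π) => (prm, prm)) := OP.of_poly (Poly.id.pair Poly.id) S
  obtain ⟨P, N, hN, hm, hP⟩ := h.exists_prog
  refine ⟨Prog.seq P (Prog.pop 0), fun n => N n + 1 + 1, (hN.add (PB.const 1)).add (PB.const 1), ?_, ?_⟩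
  · intro a b hab
    have := hm hab
    show N a + 1 + 1 ≤ N b + 1 + 1
    omega
  · intro A hA prm rest
    refine Exec.seq (hP A hA prm rest) ?_
    have e : str (prm, prm) ++ rest = true :: (str prm ++ (str prm ++ rest)) := by
      rw [Poly.str_pair, List.cons_append, List.append_assoc]
    rw [e]
    exact Sim_pop A true _

/-- the run of the simulated program -/
theorem Sim_run {π : Type} [Enc π] {j : ℕ} {p : Prog} {T : Polynomial ℕ} {A : Oracle}
    {F : List Bool × π → Bool} {prm : π} (hp : Clocked (fun w => F (w, prm)) j p T)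
    {xs : List (List Bool)} (hxs : xs.length = j) :
    ∃ (s' : ℕ → List Bool) (n : ℕ), n ≤ T.eval (totalLength xs) ∧
      Big (fun w => F (w, prm)) p (fun i => xs.getD i []) s' n ∧
      (Accepts (fun w => F (w, prm)) p xs ↔ (s' 0).head? = some true) := by
  have h1 := hp xs hxs
  obtain ⟨c, hc⟩ : ∃ c, c = run (fun w => F (w, prm)) p xs (T.eval (totalLength xs)) := ⟨_, rfl⟩
  have h2 := accepts_iff_of_halted h1
  rw [← hc] at h1
  obtain ⟨n, hn, hb⟩ := big_of_run (A := fun w => F (w, prm)) (p := p) (s := fun i => xs.getD i [])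
    (s' := c.2) (t := T.eval (totalLength xs)) (by
      have h3 : c = ([], c.2) := Prod.ext h1 rfl
      rw [← h3, hc]
      rfl)
  refine ⟨c.2, n, hn, hb, ?_⟩
  rw [h2]
  unfold AcceptsIn
  rw [← hc]
  constructor
  · intro h
    exact h.2
  · intro h
    exact ⟨h1, h⟩

theorem Sim_core {π : Type} [Enc π] {W J j : ℕ} (hW : 3 ≤ W) {p D G K0 K1 : Prog} (hD : Below W D)
    (hG : Below W G) (hJp : Below J p) (hjJ : j ≤ J) {T : Polynomial ℕ} {A : Oracle}
    {F : List Bool × π → Bool} {prm : π}
    {ND NG NK0 NK1 : ℕ} {xs : List (List Bool)} (hxs : xs.length = j)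
    (hp : Clocked (fun w => F (w, prm)) j p T)
    (hDx : ∀ rest : List Bool, Exec A D (st (str prm ++ rest))
      (st (str prm ++ (str prm ++ rest))) ND)
    (hGx : ∀ (w rest : List Bool), w.length ≤ totalLength xs + T.eval (totalLength xs) →
      Exec A G (st (str (w, prm) ++ rest)) (st (str (F (w, prm)) ++ rest)) NG)
    (hK0 : ∀ rest : List Bool, Exec A K0 (st (str prm ++ rest)) (st (str false ++ rest)) NK0)
    (hK1 : ∀ rest : List Bool, Exec A K1 (st (str prm ++ rest)) (st (str true ++ rest)) NK1)
    (rest : List Bool) (b : Bool) (hb : b = true ↔ Accepts (fun w => F (w, prm)) p xs) :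
    Exec A (Prog.seq (Prog.pop 0) (Prog.seq (load W 0 j) (Prog.seq (sub W D G p)
      (Prog.cond W (Prog.seq (clr W J) K0) (Prog.seq (clr W J) K0) (Prog.seq (clr W J) K1)))))
      (st (str (xs, prm) ++ rest)) (st (str b ++ rest))
      (1 + ((30 * totalLength xs + 40 * j + 1) + (T.eval (totalLength xs) *
        (ND + NG + 30 * (totalLength xs + T.eval (totalLength xs)) + 100) +
        ((J * (2 * (totalLength xs + T.eval (totalLength xs)) + 2) + 1 + (NK0 + NK1) + 1) + 1) + 1) + 1) + 1) := by
  obtain ⟨s', n, hn, hbig, hacc⟩ := Sim_run (A := A) hp hxs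
  have e1 : str (xs, prm) ++ rest = true :: (str xs ++ (str prm ++ rest)) := by
    rw [Poly.str_pair, List.cons_append, List.append_assoc]
  rw [e1]
  refine Exec.seq (Sim_pop A true _) ?_
  -- load
  have h1 := exec_load A hW xs 0 (fun _ => []) (str prm ++ rest) (fun _ _ => rfl)
  rw [← Sim_st_emb, hxs] at h1
  have e2 : (fun i : ℕ => if i < 0 then ([] : List Bool) else xs.getD (i - 0) []) =
      (fun i => xs.getD i []) := by
    funext i
    rw [if_neg (Nat.not_lt_zero i), Nat.sub_zero]
  rw [e2] at h1
  refine Exec.seq h1 ?_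
  -- simulate
  have hlen0 : ∀ i, (xs.getD i ([] : List Bool)).length ≤ totalLength xs := fun i => length_start_le p xs i
  have h2 := sub_exec hW hD hG (A := A) (F := F) (prm := prm)
    (Λ := totalLength xs + T.eval (totalLength xs)) hDx hGx hbig
    (fun i => Nat.add_le_add (hlen0 i) hn) rest
  refine Exec.seq (h2.mono (Nat.mul_le_mul_right _ hn)) ?_
  -- clean up
  have h3 := exec_clr A (W := W) (by omega) J (totalLength xs + T.eval (totalLength xs)) s'
    (str prm ++ rest) (fun i => (hbig.length i).trans (Nat.add_le_add (hlen0 i) hn))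
  have e3 : (fun i : ℕ => if i < J then ([] : List Bool) else s' i) = fun _ => [] := by
    funext i
    by_cases hi : i < J
    · rw [if_pos hi]
    · rw [if_neg hi, hbig.above hJp (not_lt.1 hi)]
      exact List.getD_eq_default _ _ (by omega)
  rw [e3, ← Sim_st_emb] at h3
  have hW0 : emb W s' (str prm ++ rest) W = s' 0 := by
    unfold emb
    rw [if_neg (by omega), if_neg (lt_irrefl W), Nat.sub_self]
  have x0 := Exec.seq h3 (hK0 rest)
  have x1 := Exec.seq h3 (hK1 rest)
  have hmono0 := x0.mono (show J * (2 * (totalLength xs + T.eval (totalLength xs)) + 2) + 1 + NK0 + 1 ≤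
    J * (2 * (totalLength xs + T.eval (totalLength xs)) + 2) + 1 + (NK0 + NK1) + 1 by omega)
  have hmono1 := x1.mono (show J * (2 * (totalLength xs + T.eval (totalLength xs)) + 2) + 1 + NK1 + 1 ≤
    J * (2 * (totalLength xs + T.eval (totalLength xs)) + 2) + 1 + (NK0 + NK1) + 1 by omega)
  match hs : s' 0 with
  | [] =>
    have hbf : b = false := by
      rw [Bool.eq_false_iff]
      intro h
      have := hacc.1 (hb.1 h)
      rw [hs] at this
      simp at this
    rw [hbf]
    exact exec_cond_nil (hW0.trans hs) hmono0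
  | false :: l =>
    have hbf : b = false := by
      rw [Bool.eq_false_iff]
      intro h
      have := hacc.1 (hb.1 h)
      rw [hs] at this
      simp at this
    rw [hbf]
    exact exec_cond_cons (b := false) (hW0.trans hs) hmono0
  | true :: l =>
    have hbt : b = true := by
      apply hb.2
      apply hacc.2
      rw [hs]
      rfl
    rw [hbt]
    exact exec_cond_cons (b := true) (hW0.trans hs) hmono1

theorem OP.sim {π : Type} [Enc π] {S : Set Oracle} (j : ℕ) (p : Prog) (T : Polynomial ℕ)
    {F : Oracle → List Bool × π → Bool} (hF : OP S F)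
    (hp : ∀ A ∈ S, ∀ prm : π, Clocked (fun w => F A (w, prm)) j p T)
    {f : Oracle → {xs : List (List Bool) // xs.length = j} × π → Bool}
    (hf : ∀ A ∈ S, ∀ a, f A a = true ↔ Accepts (fun w => F A (w, a.2)) p a.1.1) :
    OP S f := by
  obtain ⟨G, NG, hNG, hNGm, hG⟩ := hF.exists_prog
  obtain ⟨D, ND, hND, hNDm, hD⟩ := Sim_dup (π := π) S
  obtain ⟨K0, NK0, hNK0, hNK0m, hK0⟩ := (OP.const (S := S) (α := π) false).exists_prog
  obtain ⟨K1, NK1, hNK1, hNK1m, hK1⟩ := (OP.const (S := S) (α := π) true).exists_prog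
  obtain ⟨WD, hWD⟩ := exists_below D
  obtain ⟨WG, hWG⟩ := exists_below G
  obtain ⟨w0, hw0⟩ := exists_below p
  obtain ⟨W, hW3, hWD', hWG'⟩ : ∃ W, 3 ≤ W ∧ WD ≤ W ∧ WG ≤ W := ⟨3 + WD + WG, by omega, by omega, by omega⟩
  obtain ⟨J, hJ1, hJ2⟩ : ∃ J, w0 ≤ J ∧ j ≤ J := ⟨w0 + j, by omega, by omega⟩
  refine ⟨Prog.seq (Prog.pop 0) (Prog.seq (load W 0 j) (Prog.seq (sub W D G p)
      (Prog.cond W (Prog.seq (clr W J) K0) (Prog.seq (clr W J) K0) (Prog.seq (clr W J) K1)))),
    fun n => 1 + ((30 * n + 40 * j + 1) + (T.eval n * (ND n + NG (4 * (n + T.eval n) + 1 + n + 1) +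
      30 * (n + T.eval n) + 100) + ((J * (2 * (n + T.eval n) + 2) + 1 + (NK0 n + NK1 n) + 1) + 1) + 1) + 1) + 1,
    ?_, ?_⟩
  · have hT : PB (fun n => T.eval n) := PB.poly T
    have hs : PB (fun n => n + T.eval n) := PB.id.add hT
    have hg : PB (fun n => NG (4 * (n + T.eval n) + 1 + n + 1)) :=
      hNG.comp (((((PB.const 4).mul hs).add (PB.const 1)).add PB.id).add (PB.const 1))
    have h1 : PB (fun n => ND n + NG (4 * (n + T.eval n) + 1 + n + 1) + 30 * (n + T.eval n) + 100) :=
      ((hND.add hg).add ((PB.const 30).mul hs)).add (PB.const 100)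
    have h2 : PB (fun n => J * (2 * (n + T.eval n) + 2) + 1 + (NK0 n + NK1 n) + 1) :=
      ((((PB.const J).mul (((PB.const 2).mul hs).add (PB.const 2))).add (PB.const 1)).add
        (hNK0.add hNK1)).add (PB.const 1)
    have h3 : PB (fun n => 30 * n + 40 * j + 1) :=
      (((PB.const 30).mul PB.id).add (PB.const (40 * j))).add (PB.const 1)
    exact ((PB.const 1).add ((h3.add (((hT.mul h1).add (h2.add (PB.const 1))).add (PB.const 1))).add
      (PB.const 1))).add (PB.const 1)
  · rintro A hA ⟨xs, prm⟩ rest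
    have hsz : sz (xs, prm) = sz xs.1 + sz prm + 1 := rfl
    obtain ⟨n, hn⟩ : ∃ n, n = sz (xs, prm) := ⟨_, rfl⟩
    have htl := Sim_tl xs.1
    have hx : totalLength xs.1 ≤ n := by omega
    have hpn : sz prm ≤ n := by omega
    have hTn : T.eval (totalLength xs.1) ≤ T.eval n := eval_mono T hx
    have hcore := Sim_core (W := W) (J := J) (j := j) hW3 (hWD.mono hWD') (hWG.mono hWG') (hw0.mono hJ1) hJ2
      (A := A) (F := F A) (prm := prm) (T := T) (ND := ND n)
      (NG := NG (4 * (n + T.eval n) + 1 + n + 1)) (NK0 := NK0 n) (NK1 := NK1 n) xs.2 (hp A hA prm)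
      (fun rest => (hD A hA prm rest).mono (hNDm hpn)) (fun w rest hw => by
        refine (hG A hA (w, prm) rest).mono (hNGm ?_)
        have h4 := Sim_sz w
        have h5 : sz (w, prm) = sz w + sz prm + 1 := rfl
        omega) (fun rest => (hK0 A hA prm rest).mono (hNK0m hpn))
      (fun rest => (hK1 A hA prm rest).mono (hNK1m hpn)) rest (f A (xs, prm)) (hf A hA (xs, prm))
    rw [← hn]
    refine Exec.mono (s := st (str (xs, prm) ++ rest)) hcore ?_
    have h6 : T.eval (totalLength xs.1) * (ND n + NG (4 * (n + T.eval n) + 1 + n + 1) +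
        30 * (totalLength xs.1 + T.eval (totalLength xs.1)) + 100) ≤
        T.eval n * (ND n + NG (4 * (n + T.eval n) + 1 + n + 1) + 30 * (n + T.eval n) + 100) :=
      Nat.mul_le_mul hTn (by omega)
    have h7 : J * (2 * (totalLength xs.1 + T.eval (totalLength xs.1)) + 2) ≤ J * (2 * (n + T.eval n) + 2) :=
      Nat.mul_le_mul_left J (by omega)
    refine Nat.add_le_add_right (Nat.add_le_add_left (Nat.add_le_add_right (Nat.add_le_add ?_ ?_) 1) 1) 1
    · omega
    · refine Nat.add_le_add_right (Nat.add_le_add h6 ?_) 1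
      refine Nat.add_le_add_right (Nat.add_le_add_right (Nat.add_le_add_right ?_ _) _) 1
      exact Nat.add_le_add_right h7 1

end Pool.Agent.H82.LM
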