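import Pool.Agent.H82.LM.Big

/-!
# Row SimStep: simulation of a program, its oracle being replaced by a subroutine

The stack `i` of the simulated program is the stack `W + i` of the simulating program; the stack `0`
contains the parameter (its code `str prm`, above `rest`); the other stacks below `W` are empty
(`emb`). A query of the word `w` on stack `i` is answered by computing `F (w, prm)` with the
subroutine `G`: `D` duplicates the parameter, `encodeK (W + i) 1` pushes `str w`, `push 0 true` makes
it `str (w, prm) ++ (str prm ++ rest)` (`Poly.str_pair`), `G` replaces it by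
`str (F (w, prm)) ++ (str prm ++ rest)`, where `str true = [true, false, false]` and
`str false = [false]`.

PROOF of `sub_exec`: induction on `Big`; all cases except `askT`, `askF` are the same program step,
because `emb W s l` at `W + i` is `s i` and `Function.update (emb W s l) (W + i) v =
emb W (Function.update s i v) l` (prove this lemma first, for `0 < W`). The length bound
`∀ i, (s i).length + n ≤ Λ` passes to the premises by `Big.length`. The cost: every `Big` step
counts `1` and is worth `K = ND + NG + 30 * Λ + 100` steps; e.g. for `seq`: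
`n * K + m * K + 1 ≤ (n + m + 1) * K`. In the cases `askT`, `askF`: `D` and `G` are given on memories
`st ..`; by `Exec.frame` they work on `mix W (st ..) (emb W s l) = emb W s ..`. `encodeK` is
`exec_encodeK` (the stack `1` is empty because `1 < W`).
-/

set_option autoImplicit false

namespace Pool.Agent.H82.LM

open Pool.Agent.H9 Pool.Agent.H83

/-- The program with stacks shifted by `W` and queries answered by the subroutine `G`. -/
def sub (W : ℕ) (D G : Prog) : Prog → Prog
  | .skip => .skip
  | .push i b => .push (W + i) b
  | .pop i => .pop (W + i)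
  | .seq p q => .seq (sub W D G p) (sub W D G q)
  | .cond i p q r => .cond (W + i) (sub W D G p) (sub W D G q) (sub W D G r)
  | .loop i p => .loop (W + i) (sub W D G p)
  | .ask i p q => .seq D (.seq (encodeK (W + i) 1) (.seq (.push 0 true) (.seq G
      (.cond 0 .skip (.seq (.pop 0) (sub W D G q))
        (.seq (.pop 0) (.seq (.pop 0) (.seq (.pop 0) (sub W D G p))))))))

/-- Memory of the simulation: `l` on stack `0`, the memory `s` from stack `W` on. -/
def emb (W : ℕ) (s : ℕ → List Bool) (l : List Bool) : ℕ → List Bool :=
  fun i => if i = 0 then l else if i < W then [] else s (i - W)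

private theorem SimStep_at {W i : ℕ} (hW : 0 < W) (s : ℕ → List Bool) (l : List Bool) :
    emb W s l (W + i) = s i := by
  unfold emb
  rw [if_neg (by omega), if_neg (by omega)]
  congr 1
  omega

private theorem SimStep_zero {W : ℕ} (s : ℕ → List Bool) (l : List Bool) :
    emb W s l 0 = l := if_pos rfl

private theorem SimStep_one {W : ℕ} (hW : 1 < W) (s : ℕ → List Bool) (l : List Bool) :
    emb W s l 1 = [] := by
  unfold emb
  rw [if_neg (by omega), if_pos hW]

private theorem SimStep_upd {W i : ℕ} (hW : 0 < W) (s : ℕ → List Bool) (l v : List Bool) :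
    Function.update (emb W s l) (W + i) v = emb W (Function.update s i v) l := by
  funext j
  by_cases hj : j = W + i
  · subst hj
    rw [Function.update_self, SimStep_at hW, Function.update_self]
  · rw [Function.update_of_ne hj]
    unfold emb
    by_cases h0 : j = 0
    · rw [if_pos h0, if_pos h0]
    · rw [if_neg h0, if_neg h0]
      by_cases h1 : j < W
      · rw [if_pos h1, if_pos h1]
      · rw [if_neg h1, if_neg h1, Function.update_of_ne (by omega)]

private theorem SimStep_upd0 {W : ℕ} (s : ℕ → List Bool) (l v : List Bool) :
    Function.update (emb W s l) 0 v = emb W s v := by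
  funext j
  by_cases hj : j = 0
  · subst hj
    rw [Function.update_self, SimStep_zero]
  · rw [Function.update_of_ne hj]
    unfold emb
    rw [if_neg hj, if_neg hj]

private theorem SimStep_mix {W : ℕ} (hW : 0 < W) (s : ℕ → List Bool) (l v : List Bool) :
    mix W (st v) (emb W s l) = emb W s v := by
  funext j
  unfold mix st emb
  by_cases h0 : j = 0
  · rw [if_pos (by omega), if_pos h0, if_pos h0]
  · rw [if_neg h0, if_neg h0, if_neg h0]
    by_cases h1 : j < W
    · rw [if_pos h1, if_pos h1]
    · rw [if_neg h1, if_neg h1]

private theorem SimStep_str_true : str true = [true, false, false] := rfl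

private theorem SimStep_str_false : str false = [false] := rfl

private theorem SimStep_push {W : ℕ} (A : Oracle) (s : ℕ → List Bool) (l : List Bool) (b : Bool) :
    Exec A (.push 0 b) (emb W s l) (emb W s (b :: l)) 1 := by
  have h := exec_push A (emb W s l) 0 b
  rwa [SimStep_zero, SimStep_upd0] at h

private theorem SimStep_pop {W : ℕ} (A : Oracle) (s : ℕ → List Bool) (l : List Bool) (b : Bool) :
    Exec A (.pop 0) (emb W s (b :: l)) (emb W s l) 1 := by
  have h := exec_pop A (emb W s (b :: l)) 0
  rwa [SimStep_zero, SimStep_upd0, List.tail_cons] at h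

/-- The query: everything up to the branching. -/
private theorem SimStep_query {π : Type} [Enc π] {W : ℕ} (hW : 3 ≤ W) {D G : Prog}
    (hD : Below W D) (hG : Below W G) {A : Oracle} {F : List Bool × π → Bool} {prm : π}
    {ND NG Λ : ℕ}
    (hDx : ∀ rest : List Bool, Exec A D (st (str prm ++ rest))
      (st (str prm ++ (str prm ++ rest))) ND)
    (hGx : ∀ (w rest : List Bool), w.length ≤ Λ → Exec A G (st (str (w, prm) ++ rest))
      (st (str (F (w, prm)) ++ rest)) NG)
    (i : ℕ) (s s' : ℕ → List Bool) (rest : List Bool) (hs : (s i).length ≤ Λ) {X : Prog} {C : ℕ}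
    (hX : Exec A X (emb W s (str (F (s i, prm)) ++ (str prm ++ rest)))
      (emb W s' (str prm ++ rest)) C) :
    Exec A (.seq D (.seq (encodeK (W + i) 1) (.seq (.push 0 true) (.seq G X))))
      (emb W s (str prm ++ rest)) (emb W s' (str prm ++ rest))
      (ND + NG + 30 * Λ + 35 + C) := by
  have hW0 : 0 < W := by omega
  have h1 := Exec.frame (hDx rest) hD (emb W s (str prm ++ rest))
  rw [SimStep_mix hW0, SimStep_mix hW0] at h1
  have h2 := exec_encodeK A (i := W + i) (c := 1) (by omega) (by omega) (by omega)
    (s := emb W s (str prm ++ (str prm ++ rest))) (SimStep_one (by omega) _ _)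
  rw [SimStep_at hW0, SimStep_zero, SimStep_upd0] at h2
  have h3 := SimStep_push (W := W) A s (str (s i) ++ (str prm ++ (str prm ++ rest))) true
  have e3 : true :: (str (s i) ++ (str prm ++ (str prm ++ rest))) =
      str (s i, prm) ++ (str prm ++ rest) := by
    rw [Poly.str_pair, List.cons_append, List.append_assoc]
  rw [e3] at h3
  have h4 := Exec.frame (hGx (s i) (str prm ++ rest) hs) hG
    (emb W s (str (s i, prm) ++ (str prm ++ rest)))
  rw [SimStep_mix hW0, SimStep_mix hW0] at h4
  refine (h1.seq (h2.seq (h3.seq (h4.seq hX)))).mono ?_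
  omega

private theorem SimStep_arith {n m K N : ℕ} (_h1 : 1 ≤ K) (h2 : N ≤ n * K + m * K + K) :
    N ≤ (n + m + 1) * K := by
  rw [add_mul, add_mul, one_mul]
  exact h2

private theorem SimStep_arith1 {n K N : ℕ} (h2 : N ≤ n * K + K) :
    N ≤ (n + 1) * K := by
  rw [add_mul, one_mul]
  exact h2

theorem sub_exec {π : Type} [Enc π] {W : ℕ} (hW : 3 ≤ W) {D G : Prog} (hD : Below W D)
    (hG : Below W G) {A : Oracle} {F : List Bool × π → Bool} {prm : π} {ND NG Λ : ℕ}
    (hDx : ∀ rest : List Bool, Exec A D (st (str prm ++ rest))
      (st (str prm ++ (str prm ++ rest))) ND)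
    (hGx : ∀ (w rest : List Bool), w.length ≤ Λ → Exec A G (st (str (w, prm) ++ rest))
      (st (str (F (w, prm)) ++ rest)) NG)
    {p : Prog} {s s' : ℕ → List Bool} {n : ℕ} (h : Big (fun w => F (w, prm)) p s s' n)
    (hΛ : ∀ i, (s i).length + n ≤ Λ) (rest : List Bool) :
    Exec A (sub W D G p) (emb W s (str prm ++ rest)) (emb W s' (str prm ++ rest))
      (n * (ND + NG + 30 * Λ + 100)) := by
  have hW0 : 0 < W := by omega
  obtain ⟨K, hK⟩ : ∃ K, K = ND + NG + 30 * Λ + 100 := ⟨_, rfl⟩
  rw [← hK]
  have hK1 : 1 ≤ K := by omega
  revert hΛ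
  induction h with
  | skip s =>
    intro _
    exact (exec_skip A _).mono (by omega)
  | push i b s =>
    intro _
    have h := exec_push A (emb W s (str prm ++ rest)) (W + i) b
    rw [SimStep_at hW0, SimStep_upd hW0] at h
    exact h.mono (by omega)
  | pop i s =>
    intro _
    have h := exec_pop A (emb W s (str prm ++ rest)) (W + i)
    rw [SimStep_at hW0, SimStep_upd hW0] at h
    exact h.mono (by omega)
  | @seq p q s s' s'' n m h1 _ ih1 ih2 =>
    intro hΛ
    have e1 := ih1 (fun i => by have := hΛ i; omega)
    have e2 := ih2 (fun i => by have := hΛ i; have := h1.length i; omega)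
    exact (e1.seq e2).mono (SimStep_arith hK1 (by omega))
  | @condN i p q r s s' n h _ ih =>
    intro hΛ
    have e1 := ih (fun i => by have := hΛ i; omega)
    exact (exec_cond_nil (by rw [SimStep_at hW0]; exact h) e1).mono (SimStep_arith1 (by omega))
  | @condF i p q r s s' n l h _ ih =>
    intro hΛ
    have e1 := ih (fun i => by have := hΛ i; omega)
    exact (exec_cond_cons (b := false) (by rw [SimStep_at hW0]; exact h) e1).mono
      (SimStep_arith1 (by omega))
  | @condT i p q r s s' n l h _ ih =>
    intro hΛ
    have e1 := ih (fun i => by have := hΛ i; omega)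
    exact (exec_cond_cons (b := true) (by rw [SimStep_at hW0]; exact h) e1).mono
      (SimStep_arith1 (by omega))
  | @loopN i p s h =>
    intro _
    exact (exec_loop_nil (by rw [SimStep_at hW0]; exact h)).mono (by omega)
  | @loopC i p s s' s'' n m b l h h1 _ ih1 ih2 =>
    intro hΛ
    have e1 := ih1 (fun i => by have := hΛ i; omega)
    have e2 := ih2 (fun i => by have := hΛ i; have := h1.length i; omega)
    exact (exec_loop_cons (by rw [SimStep_at hW0]; exact h) e1 e2).mono
      (SimStep_arith hK1 (by omega))
  | @askT i p q s s' n h _ ih =>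
    intro hΛ
    have hsi : (s i).length ≤ Λ := by have := hΛ i; omega
    have e1 := ih (fun i => by have := hΛ i; omega)
    have h' : F (s i, prm) = true := h
    have e2 : Exec A (.cond 0 .skip (.seq (.pop 0) (sub W D G q))
        (.seq (.pop 0) (.seq (.pop 0) (.seq (.pop 0) (sub W D G p)))))
        (emb W s (str (F (s i, prm)) ++ (str prm ++ rest))) (emb W s' (str prm ++ rest))
        (1 + (1 + (1 + n * K + 1) + 1) + 1 + 1) := by
      rw [h', SimStep_str_true]
      refine exec_cond_cons (b := true) (l := false :: false :: (str prm ++ rest))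
        (by rw [SimStep_zero]; rfl) ?_
      rw [if_pos rfl]
      exact (SimStep_pop A s _ _).seq ((SimStep_pop A s _ _).seq ((SimStep_pop A s _ _).seq e1))
    refine (SimStep_query hW hD hG hDx hGx i s s' rest hsi e2).mono (SimStep_arith1 ?_)
    omega
  | @askF i p q s s' n h _ ih =>
    intro hΛ
    have hsi : (s i).length ≤ Λ := by have := hΛ i; omega
    have e1 := ih (fun i => by have := hΛ i; omega)
    have h' : F (s i, prm) = false := h
    have e2 : Exec A (.cond 0 .skip (.seq (.pop 0) (sub W D G q))
        (.seq (.pop 0) (.seq (.pop 0) (.seq (.pop 0) (sub W D G p)))))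
        (emb W s (str (F (s i, prm)) ++ (str prm ++ rest))) (emb W s' (str prm ++ rest))
        (1 + n * K + 1 + 1) := by
      rw [h', SimStep_str_false]
      refine exec_cond_cons (b := false) (l := str prm ++ rest)
        (by rw [SimStep_zero]; rfl) ?_
      rw [if_neg Bool.false_ne_true]
      exact (SimStep_pop A s _ _).seq e1
    refine (SimStep_query hW hD hG hDx hGx i s s' rest hsi e2).mono (SimStep_arith1 ?_)
    omega

end Pool.Agent.H82.LM
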