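import Pool.Agent.H82.LM.Bval

/-!
# Row StripB: `strip` and binary values, comparison of binary numbers

PROOFS. `bval_strip`, `strip_of_zero`: induction. `strip_length`, `exists_strip`: a word `w` with
`|w| ≤ L` is the `strip` of the word `replicate (L - |w|) false ++ true :: w` of length `L + 1`.
`exists_ltb`: compare from the least significant bit: fold over `i.reverse` with the state
`(r, flag)`, start `(w.reverse, false)`, step on the bit `x`: with `y = r.headD false`, new state
`(r.tail, bif x == y then flag else y)`; result: the flag. For lists `l`, `r` least significant bit
first (`nval [] = 0`, `nval (x :: l) = x.toNat + 2 * nval l`; `bval l = nval l.reverse`) with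
`r.length ≤ l.length` the final flag is `true` iff `nval l < nval r` or (`nval l = nval r` and the
initial flag is `true`): induction on `l`. `Poly.foldl_add` or `Poly.foldl` (the state does not
grow), Pool/Agent/H83/PolyLib.lean.
-/

set_option autoImplicit false

namespace Pool.Agent.H82.LM

open Pool.Agent.H9 Pool.Agent.H83

theorem bval_strip {u : List Bool} (h : bval u ≠ 0) : bval (true :: strip u) = bval u := by
  induction u with
  | nil => exact absurd rfl h
  | cons b l ih =>
    cases b
    · have e : bval (false :: l) = bval l := by simp [bval]
      rw [e] at h ⊢
      rw [strip]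
      exact ih h
    · rfl

theorem strip_of_zero {u : List Bool} (h : bval u = 0) : strip u = [] := by
  induction u with
  | nil => rfl
  | cons b l ih =>
    cases b
    · have e : bval (false :: l) = bval l := by simp [bval]
      rw [e] at h
      rw [strip]
      exact ih h
    · exfalso
      rw [bval, Bool.toNat_true, one_mul] at h
      have := Nat.two_pow_pos l.length
      omega

private theorem strip_length_aux (u : List Bool) : (strip u).length ≤ u.length - 1 := by
  induction u with
  | nil => simp [strip]
  | cons b l ih =>
    cases b
    · rw [strip, List.length_cons]
      omega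
    · rw [strip, List.length_cons]
      omega

theorem strip_length {u : List Bool} {L : ℕ} (h : u.length = L + 1) : (strip u).length ≤ L := by
  have := strip_length_aux u
  omega

private theorem strip_rep (k : ℕ) (l : List Bool) :
    strip (List.replicate k false ++ l) = strip l ∧ bval (List.replicate k false ++ l) = bval l := by
  induction k with
  | zero => exact ⟨rfl, rfl⟩
  | succ k ih =>
    rw [List.replicate_succ, List.cons_append]
    refine ⟨?_, ?_⟩
    · rw [strip]
      exact ih.1
    · rw [bval, Bool.toNat_false, zero_mul, zero_add]
      exact ih.2

theorem exists_strip {w : List Bool} {L : ℕ} (h : w.length ≤ L) :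
    ∃ u : List Bool, u.length = L + 1 ∧ strip u = w ∧ bval u = bval (true :: w) := by
  obtain ⟨h1, h2⟩ := strip_rep (L - w.length) (true :: w)
  refine ⟨List.replicate (L - w.length) false ++ true :: w, ?_, ?_, h2⟩
  · rw [List.length_append, List.length_replicate, List.length_cons]
    omega
  · rw [h1]
    rfl

/-- Binary value, least significant bit first. -/
private def nval : List Bool → ℕ
  | [] => 0
  | x :: l => x.toNat + 2 * nval l

private theorem bval_reverse (l : List Bool) : bval l.reverse = nval l := by
  induction l with
  | nil => rfl
  | cons x l ih =>
    rw [List.reverse_cons, bval_append_single, ih, nval]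
    omega

/-- One step of the comparison. -/
private def cstep (s : List Bool × Bool) (x : Bool) : List Bool × Bool :=
  (s.1.tail, bif decide (x = s.1.headD false) then s.2 else s.1.headD false)

private theorem nval_head (r : List Bool) :
    nval r = (r.headD false).toNat + 2 * nval r.tail := by
  cases r with
  | nil => rfl
  | cons y r => rfl

private theorem cfold (l : List Bool) : ∀ (r : List Bool) (flag : Bool), r.length ≤ l.length →
    ((l.foldl cstep (r, flag)).2 = true ↔ nval l < nval r ∨ (nval l = nval r ∧ flag = true)) := by
  induction l with
  | nil =>
    intro r flag h
    have hr : r = [] := by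
      rw [List.length_nil] at h
      exact List.length_eq_zero_iff.1 (by omega)
    subst hr
    simp
  | cons x l ih =>
    intro r flag h
    rw [List.foldl_cons]
    have h1 : r.tail.length ≤ l.length := by
      rw [List.length_tail]
      rw [List.length_cons] at h
      omega
    have h2 := ih r.tail (bif decide (x = r.headD false) then flag else r.headD false) h1
    have h3 : cstep (r, flag) x =
        (r.tail, bif decide (x = r.headD false) then flag else r.headD false) := rfl
    rw [h3, h2, nval, nval_head r]
    generalize r.headD false = y
    generalize nval l = a
    generalize nval r.tail = b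
    cases x <;> cases y <;> cases flag <;> simp <;> omega

theorem exists_ltb : ∃ ltb : List Bool × List Bool → Bool, Poly ltb ∧
    ∀ i w : List Bool, w.length ≤ i.length → (ltb (i, w) = true ↔ bval i < bval w) := by
  refine ⟨fun p => (p.1.reverse.foldl cstep (p.2.reverse, false)).2, ?_, ?_⟩
  · refine Poly.snd' (Poly.foldl_add (l := fun p : List Bool × List Bool => p.1.reverse)
      (s := fun p : List Bool × List Bool => (p.2.reverse, false)) (f := fun _ s x => cstep s x)
      (Poly.reverse (Poly.fst' Poly.id)) ((Poly.reverse (Poly.snd' Poly.id)).pair (Pool.Agent.H83.Poly.const false))
      ?_ (fun _ => 3) (PB.const 3) ?_)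
    · unfold cstep
      have hs : Poly (fun p : (List Bool × List Bool) × (List Bool × Bool) × Bool => p.2.1.1) :=
        Poly.fst' (Poly.fst' (Poly.snd' Poly.id))
      refine (Poly.tail hs).pair (Poly.cond (Poly.boolEq (Poly.snd' (Poly.snd' Poly.id))
        (Poly.headD false hs)) (Poly.snd' (Poly.fst' (Poly.snd' Poly.id))) (Poly.headD false hs))
    · rintro a ⟨s, b⟩ x -
      show sz (s.tail, bif decide (x = s.headD false) then b else s.headD false) ≤ sz (s, b) + 3
      rw [Poly.sz_pair, Poly.sz_pair]
      have h1 := Poly.sz_drop_le s 1
      rw [List.drop_one] at h1
      have h2 := Poly.sz_bool (bif decide (x = s.headD false) then b else s.headD false)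
      have h3 := sz_pos b
      omega
  · intro i w h
    have h1 := cfold i.reverse w.reverse false (by simpa using h)
    beta_reduce
    rw [h1, ← bval_reverse, ← bval_reverse, List.reverse_reverse, List.reverse_reverse]
    simp

end Pool.Agent.H82.LM
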