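import Pool.Agent.H82.LM.Raw

/-!
# Row Trans: polynomial time functions of the library H83 are computed by (oracle free) H9 programs

PROOF. Take the program `P : Pg Bool Bool` and the bound `N` given by `hf Bool Bool`
(`Poly`, file Pool/Agent/H83/Poly.lean). Number the stacks of H83: `A, B, C, D, inp, out` get the
numbers `0, 1, 2, 3, 4, 5`, and stack `6` is a flag. All alphabets `Gam Bool Bool k` are `Bool`
(by cases on `k`), so a family `S` of stacks of H83 gives a memory `mem S : ℕ → List Bool` with empty
stacks from `6` on. Translate `Cmd` to `Prog`: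
* `skip, push, pop, seq` literally;
* `ite k f p q` becomes `cond (num k) X_none X_false X_true` with `X_o = tr p` if `f o = true` and
  `tr q` otherwise;
* `loop k f p` becomes `seq setf (loop 6 (seq (pop 6) (seq (tr p) setf)))` with
  `setf = cond (num k) Y_none Y_false Y_true`, `Y_o = push 6 true` if `f o = true` and `skip`
  otherwise.
CLAIM: `Cmd.Run P S S' n` implies that `(step A)^[m] (tr P :: k, mem S) = (k, mem S')` for some
`m ≤ 8 * n - 1` and all `k` (that is, `Exec A (tr P) (mem S) (mem S') (8 * n - 1)`; note `1 ≤ n`).
Induction on `Run`. Only the loop is not immediate: for it the induction gives an execution of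
`seq setf L`, `L = loop 6 ..`, from `mem S'`; its first step goes to `setf :: L :: k`, and this is
where the execution of the first round (flag set, test, pop of the flag, `tr p`) arrives. (One may
prove the statement for the loop in the form: from `(setf :: L :: k, mem S)` one reaches
`(k, mem S')` in `m` steps.)
Finally `mk [] [] (str a ++ rest) [] [] []` has memory `st (str a ++ rest)` (`Tr`, `RunLe` in
Pool/Agent/H83/Tree.lean: `Tr P a b c d ...` holds for all contents of `inp`, `out`; take `[]`), so
`Computes P f N` gives the result with the bound `8 * N n`.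
-/

set_option autoImplicit false

namespace Pool.Agent.H82.LM

open Pool.Agent.H9 Pool.Agent.H83

/-- The number of a stack. -/
def Trans_num : Stk → ℕ
  | .A => 0
  | .B => 1
  | .C => 2
  | .D => 3
  | .inp => 4
  | .out => 5

/-- The symbols of a stack as bits. -/
def Trans_toB : ∀ k : Stk, Gam Bool Bool k → Bool
  | .A => fun b => b
  | .B => fun b => b
  | .C => fun b => b
  | .D => fun b => b
  | .inp => fun b => b
  | .out => fun b => b

/-- Bits as symbols of a stack. -/
def Trans_ofB : ∀ k : Stk, Bool → Gam Bool Bool k
  | .A => fun b => b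
  | .B => fun b => b
  | .C => fun b => b
  | .D => fun b => b
  | .inp => fun b => b
  | .out => fun b => b

theorem Trans_of_to (k : Stk) (a : Gam Bool Bool k) : Trans_ofB k (Trans_toB k a) = a := by
  cases k <;> rfl

/-- The memory given by a family of stacks. -/
def Trans_mem (S : ∀ k, List (Gam Bool Bool k)) : ℕ → List Bool
  | 0 => S .A
  | 1 => S .B
  | 2 => S .C
  | 3 => S .D
  | 4 => S .inp
  | 5 => S .out
  | _ + 6 => []

theorem Trans_mem_num (S : ∀ k, List (Gam Bool Bool k)) (k : Stk) :
    Trans_mem S (Trans_num k) = (S k).map (Trans_toB k) := by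
  cases k <;> exact (List.map_id _).symm

theorem Trans_mem_six (S : ∀ k, List (Gam Bool Bool k)) : Trans_mem S 6 = [] := rfl

theorem Trans_mem_update (S : ∀ k, List (Gam Bool Bool k)) (k : Stk) (l : List (Gam Bool Bool k)) :
    Trans_mem (Function.update S k l) =
      Function.update (Trans_mem S) (Trans_num k) (l.map (Trans_toB k)) := by
  funext i
  cases k <;> rcases i with _ | _ | _ | _ | _ | _ | i <;>
    first
      | exact (List.map_id _).symm
      | rfl

theorem Trans_num_ne (k : Stk) : Trans_num k ≠ 6 := by
  cases k <;> decide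

/-- Set the flag. -/
def Trans_Y (b : Bool) : Prog := if b then .push 6 true else .skip

/-- Set the flag according to a test. -/
def Trans_setf (k : Stk) (f : Option (Gam Bool Bool k) → Bool) : Prog :=
  .cond (Trans_num k) (Trans_Y (f none)) (Trans_Y (f (some (Trans_ofB k false))))
    (Trans_Y (f (some (Trans_ofB k true))))

/-- The loop of the translation. -/
def Trans_L (k : Stk) (f : Option (Gam Bool Bool k) → Bool) (p : Prog) : Prog :=
  .loop 6 (.seq (.pop 6) (.seq p (Trans_setf k f)))

/-- The translation. -/
def Trans_tr : Cmd Stk (Gam Bool Bool) → Prog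
  | .skip => .skip
  | .push k a => .push (Trans_num k) (Trans_toB k a)
  | .pop k => .pop (Trans_num k)
  | .seq p q => .seq (Trans_tr p) (Trans_tr q)
  | .ite k f p q => .cond (Trans_num k) (if f none then Trans_tr p else Trans_tr q)
      (if f (some (Trans_ofB k false)) then Trans_tr p else Trans_tr q)
      (if f (some (Trans_ofB k true)) then Trans_tr p else Trans_tr q)
  | .loop k f p => .seq (Trans_setf k f) (Trans_L k f (Trans_tr p))

theorem Trans_cond {A : Oracle} {k : Stk} {S : ∀ k, List (Gam Bool Bool k)}
    (G : Option (Gam Bool Bool k) → Prog) {s' : ℕ → List Bool} {N : ℕ}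
    (h : Exec A (G (S k).head?) (Trans_mem S) s' N) :
    Exec A (.cond (Trans_num k) (G none) (G (some (Trans_ofB k false)))
      (G (some (Trans_ofB k true)))) (Trans_mem S) s' (N + 1) := by
  have hm := Trans_mem_num S k
  cases hS : S k with
  | nil =>
    rw [hS] at h hm
    exact exec_cond_nil hm h
  | cons a l =>
    rw [hS] at h hm
    rw [List.map_cons] at hm
    refine exec_cond_cons hm ?_
    have h1 : (if Trans_toB k a then G (some (Trans_ofB k true)) else
        G (some (Trans_ofB k false))) = G (some a) := by
      conv_rhs => rw [← Trans_of_to k a]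
      cases Trans_toB k a <;> rfl
    rw [h1]
    exact h

theorem Trans_exec_setf {A : Oracle} {k : Stk} {f : Option (Gam Bool Bool k) → Bool}
    {S : ∀ k, List (Gam Bool Bool k)} :
    Exec A (Trans_setf k f) (Trans_mem S)
      (if f (S k).head? then Function.update (Trans_mem S) 6 [true] else Trans_mem S) 2 := by
  refine Trans_cond (fun o => Trans_Y (f o)) ?_
  unfold Trans_Y
  cases f (S k).head? with
  | true => exact exec_push A (Trans_mem S) 6 true
  | false => exact exec_skip A (Trans_mem S)

theorem Trans_seq_inv {A : Oracle} {p q : Prog} {s s' : ℕ → List Bool} {N : ℕ}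
    (h : Exec A (.seq p q) s s' N) :
    ∃ n, n + 1 ≤ N ∧ ∀ K : List Prog, (step A)^[n] (p :: q :: K, s) = (K, s') := by
  obtain ⟨n, hn, h⟩ := h
  cases n with
  | zero =>
    have h1 := h []
    rw [Function.iterate_zero, id] at h1
    have h2 := congrArg Prod.fst h1
    simp at h2
  | succ n =>
    refine ⟨n, hn, fun K => ?_⟩
    have h1 := h K
    rw [Function.iterate_succ_apply] at h1
    exact h1

theorem Trans_run_pos {P : Cmd Stk (Gam Bool Bool)} {S S' : ∀ k, List (Gam Bool Bool k)} {n : ℕ}
    (h : Cmd.Run P S S' n) : 1 ≤ n := by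
  induction h <;> omega

theorem Trans_run (A : Oracle) {P : Cmd Stk (Gam Bool Bool)} {S S' : ∀ k, List (Gam Bool Bool k)}
    {n : ℕ} (h : Cmd.Run P S S' n) :
    Exec A (Trans_tr P) (Trans_mem S) (Trans_mem S') (8 * n - 1) := by
  induction h with
  | skip S => exact (exec_skip A _).mono (by omega)
  | push k a S =>
    rw [Trans_mem_update, List.map_cons, ← Trans_mem_num]
    exact (exec_push A _ _ _).mono (by omega)
  | pop k S =>
    rw [Trans_mem_update, List.map_tail, ← Trans_mem_num]
    exact (exec_pop A _ _).mono (by omega)
  | seq h1 h2 ih1 ih2 =>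
    have g1 := Trans_run_pos h1
    have g2 := Trans_run_pos h2
    exact (ih1.seq ih2).mono (by omega)
  | @iteT k f p q S S' n hf h1 ih =>
    have g1 := Trans_run_pos h1
    refine (Trans_cond (fun o => if f o then Trans_tr p else Trans_tr q) (N := 8 * n - 1)
      ?_).mono (by omega)
    simp only [hf, if_true]
    exact ih
  | @iteF k f p q S S' n hf h1 ih =>
    have g1 := Trans_run_pos h1
    refine (Trans_cond (fun o => if f o then Trans_tr p else Trans_tr q) (N := 8 * n - 1)
      ?_).mono (by omega)
    simp only [hf, Bool.false_eq_true, if_false]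
    exact ih
  | @loopF k f p S hf =>
    have h1 := Trans_exec_setf (A := A) (k := k) (f := f) (S := S)
    rw [hf] at h1
    simp only [Bool.false_eq_true, if_false] at h1
    exact (h1.seq (exec_loop_nil (Trans_mem_six S))).mono (by omega)
  | @loopT k f p S S' S'' n m hf hp hl ihp ihl =>
    have g1 := Trans_run_pos hp
    have g2 := Trans_run_pos hl
    have h1 := Trans_exec_setf (A := A) (k := k) (f := f) (S := S)
    rw [hf] at h1
    simp only [if_true] at h1
    obtain ⟨a, ha, h1⟩ := h1
    obtain ⟨b, hb, h2⟩ := ihp
    obtain ⟨c, hc, h3⟩ := Trans_seq_inv ihl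
    refine ⟨c + (b + (1 + (1 + (1 + (1 + (a + 1)))))), by omega, fun K => ?_⟩
    rw [Function.iterate_add_apply, Function.iterate_add_apply, Function.iterate_add_apply,
      Function.iterate_add_apply, Function.iterate_add_apply, Function.iterate_add_apply,
      Function.iterate_add_apply]
    have e1 : (step A)^[1] (Trans_tr (.loop k f p) :: K, Trans_mem S) =
        (Trans_setf k f :: Trans_L k f (Trans_tr p) :: K, Trans_mem S) := rfl
    rw [e1, h1]
    have e2 : (step A)^[1] (Trans_L k f (Trans_tr p) :: K, Function.update (Trans_mem S) 6 [true]) =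
        (.seq (.pop 6) (.seq (Trans_tr p) (Trans_setf k f)) :: Trans_L k f (Trans_tr p) :: K,
          Function.update (Trans_mem S) 6 [true]) := by
      rw [Function.iterate_one]
      have e3 : Function.update (Trans_mem S) 6 [true] 6 = [true] := Function.update_self _ _ _
      simp [step, Trans_L]
    rw [e2]
    have e4 : (step A)^[1] (.seq (.pop 6) (.seq (Trans_tr p) (Trans_setf k f)) ::
        Trans_L k f (Trans_tr p) :: K, Function.update (Trans_mem S) 6 [true]) =
        (.pop 6 :: .seq (Trans_tr p) (Trans_setf k f) :: Trans_L k f (Trans_tr p) :: K,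
          Function.update (Trans_mem S) 6 [true]) := rfl
    rw [e4]
    have e5 : (step A)^[1] (.pop 6 :: .seq (Trans_tr p) (Trans_setf k f) ::
        Trans_L k f (Trans_tr p) :: K, Function.update (Trans_mem S) 6 [true]) =
        (.seq (Trans_tr p) (Trans_setf k f) :: Trans_L k f (Trans_tr p) :: K, Trans_mem S) := by
      rw [Function.iterate_one]
      have e6 : step A (.pop 6 :: .seq (Trans_tr p) (Trans_setf k f) ::
          Trans_L k f (Trans_tr p) :: K, Function.update (Trans_mem S) 6 [true]) =
          (.seq (Trans_tr p) (Trans_setf k f) :: Trans_L k f (Trans_tr p) :: K,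
            Function.update (Function.update (Trans_mem S) 6 [true]) 6
              (Function.update (Trans_mem S) 6 [true] 6).tail) := rfl
      rw [e6, Function.update_self, Function.update_idem, List.tail_cons, ← Trans_mem_six S,
        Function.update_eq_self]
    rw [e5]
    have e7 : (step A)^[1] (.seq (Trans_tr p) (Trans_setf k f) ::
        Trans_L k f (Trans_tr p) :: K, Trans_mem S) =
        (Trans_tr p :: Trans_setf k f :: Trans_L k f (Trans_tr p) :: K, Trans_mem S) := rfl
    rw [e7, h2, h3]

theorem Trans_st (l : List Bool) :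
    Trans_mem (mk (α := Bool) (β := Bool) [] [] l [] [] []) = st l := by
  funext i
  rcases i with _ | _ | _ | _ | _ | _ | i <;> rfl

theorem OP.of_poly {α β : Type} [Enc α] [Enc β] {f : α → β} (hf : Poly f) (S : Set Oracle) :
    OP S (fun _ => f) := by
  obtain ⟨P, N, hN, hP⟩ := hf Bool Bool
  refine ⟨Trans_tr P, fun n => 8 * N n, (PB.const 8).mul hN, fun A _ a rest => ?_⟩
  obtain ⟨n, hn, hr⟩ := hP a rest [] []
  have h1 := Trans_run A hr
  rw [Trans_st, Trans_st] at h1
  refine h1.mono ?_
  show 8 * n - 1 ≤ 8 * N (sz a)
  omega

end Pool.Agent.H82.LM
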