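import Pool.Agent.H82.LM.PolyStr

/-!
# Row Tree: alternating quantifiers over words as quantifiers over bits

PROOFS. `QB_append`: induction on `es`. `QB_replicate`: induction on `q` (generalising `φ`):
`QB (replicate q e ++ es) φ ↔ qt e q (fun u => QB es (fun v => φ (u ++ v)))`; a word of length
`q + 1` is `b :: u`; for `e = true` split `∃ u` according to the first bit, for `e = false` split
`∀ u`. `alt_QB`: induction on `m` (generalising `e` and `ψ`), by `QB_replicate` and
`chunks (m + 1) q (u ++ v) = u :: chunks m q v` for `u.length = q`. `QB_node`: `es.drop j` for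
`j < es.length` is `es[j] :: es.drop (j + 1)`; unfold `QB`.
-/

set_option autoImplicit false

namespace Pool.Agent.H82.LM

open Pool.Agent.H9 Pool.Agent.H83

/-- `or` for `e = true`, `and` for `e = false`. -/
def opP (e : Bool) (P Q : Prop) : Prop := if e = true then P ∨ Q else P ∧ Q

/-- Quantifiers over bits. -/
def QB : List Bool → (List Bool → Prop) → Prop
  | [], φ => φ []
  | e :: es, φ => opP e (QB es (fun v => φ (false :: v))) (QB es (fun v => φ (true :: v)))

theorem opP_congr {e : Bool} {P P' Q Q' : Prop} (h : P ↔ P') (h' : Q ↔ Q') :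
    opP e P Q ↔ opP e P' Q' := by
  unfold opP
  split_ifs
  · exact or_congr h h'
  · exact and_congr h h'

theorem QB_congr {es : List Bool} {φ ψ : List Bool → Prop}
    (h : ∀ v : List Bool, v.length = es.length → (φ v ↔ ψ v)) : QB es φ ↔ QB es ψ := by
  induction es generalizing φ ψ with
  | nil => exact h [] rfl
  | cons e es ih =>
    exact opP_congr (ih fun v hv => h _ (by simp [hv])) (ih fun v hv => h _ (by simp [hv]))

theorem qt_zero (e : Bool) (χ : List Bool → Prop) : qt e 0 χ ↔ χ [] := by
  cases e
  · simp only [qt]
    constructor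
    · intro h
      exact h [] rfl
    · intro h u hu
      rw [List.length_eq_zero_iff.1 hu]
      exact h
  · simp only [qt]
    constructor
    · rintro ⟨u, hu, h⟩
      rw [List.length_eq_zero_iff.1 hu] at h
      exact h
    · intro h
      exact ⟨[], rfl, h⟩

theorem qt_succ (e : Bool) (q : ℕ) (χ : List Bool → Prop) :
    qt e (q + 1) χ ↔ opP e (qt e q (fun u => χ (false :: u))) (qt e q (fun u => χ (true :: u))) := by
  cases e
  · simp only [qt, opP, Bool.false_eq_true, if_false]
    constructor
    · intro h
      exact ⟨fun u hu => h _ (by simp [hu]), fun u hu => h _ (by simp [hu])⟩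
    · rintro ⟨h1, h2⟩ u hu
      match u, hu with
      | false :: u, hu => exact h1 u (by simpa using hu)
      | true :: u, hu => exact h2 u (by simpa using hu)
  · simp only [qt, opP, if_true]
    constructor
    · rintro ⟨u, hu, h⟩
      match u, hu, h with
      | false :: u, hu, h => exact Or.inl ⟨u, by simpa using hu, h⟩
      | true :: u, hu, h => exact Or.inr ⟨u, by simpa using hu, h⟩
    · rintro (⟨u, hu, h⟩ | ⟨u, hu, h⟩)
      · exact ⟨false :: u, by simp [hu], h⟩
      · exact ⟨true :: u, by simp [hu], h⟩

theorem QB_replicate (e : Bool) (q : ℕ) (es : List Bool) (φ : List Bool → Prop) :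
    QB (List.replicate q e ++ es) φ ↔ qt e q (fun u => QB es (fun v => φ (u ++ v))) := by
  induction q generalizing φ with
  | zero => exact (qt_zero e (fun u => QB es (fun v => φ (u ++ v)))).symm
  | succ q ih =>
    refine Iff.trans ?_ (qt_succ e q (fun u => QB es (fun v => φ (u ++ v)))).symm
    exact opP_congr (ih (fun v => φ (false :: v))) (ih (fun v => φ (true :: v)))

theorem alt_QB (e : Bool) (m q : ℕ) (ψ : List (List Bool) → Prop) :
    Alt e m q ψ ↔ QB (ops m e q) (fun b => ψ (chunks m q b)) := by
  induction m generalizing e ψ with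
  | zero => exact Iff.rfl
  | succ m ih =>
    have h1 : Alt e (m + 1) q ψ ↔ qt e q (fun u => Alt (!e) m q (fun us => ψ (u :: us))) := by
      cases e <;> exact Iff.rfl
    refine h1.trans (Iff.trans ?_ (QB_replicate e q (ops m (!e) q) (fun b => ψ (chunks (m + 1) q b))).symm)
    refine qt_congr fun u hu => ?_
    refine (ih (!e) (fun us => ψ (u :: us))).trans (QB_congr fun v _ => ?_)
    have h2 : chunks (m + 1) q (u ++ v) = u :: chunks m q v := by
      subst hu
      simp [chunks]
    rw [h2]

/-- The value of an inner node `b` of the tree in terms of its two children. -/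
theorem QB_node (es b : List Bool) (φ : List Bool → Prop) (h : b.length < es.length) :
    QB (es.drop b.length) (fun v => φ (b ++ v)) ↔
      opP ((es.drop b.length).headD false)
        (QB (es.drop (b ++ [false]).length) (fun v => φ ((b ++ [false]) ++ v)))
        (QB (es.drop (b ++ [true]).length) (fun v => φ ((b ++ [true]) ++ v))) := by
  have h1 : (b ++ [false]).length = b.length + 1 := by simp
  have h2 : (b ++ [true]).length = b.length + 1 := by simp
  rw [h1, h2, List.drop_eq_getElem_cons h, List.headD_cons]
  simp only [List.append_assoc, List.singleton_append]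
  exact Iff.rfl

/-- The value of a leaf. -/
theorem QB_leaf (es b : List Bool) (φ : List Bool → Prop) (h : b.length = es.length) :
    QB (es.drop b.length) (fun v => φ (b ++ v)) ↔ φ b := by
  rw [h, List.drop_length]
  change φ (b ++ []) ↔ φ b
  rw [List.append_nil]

end Pool.Agent.H82.LM
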