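import Pool.Agent.H82.LM.ClsB
import Pool.Agent.H82.LM.Iter

/-!
# Row URange: bounded universal quantifier, words in lists of words

PROOFS. `OP.allRange`: iterate (`OP.iterate`) the function
`(j, c, a) ↦ (j + 1, c && f A (j, a), a)` on `ℕ × Bool × α`, `n a` times, from `(0, true, a)`; the size
of the state is at most `2 * n + 1 + 3 + sz a + 2`, and `n A a ≤ sz (n A a)` is polynomially bounded
(`OP.size_le`). `poly_eqWord`: equality of two words: fold over the first word with the state
`(rest of the second word, flag)`; equal iff the flag is true and the rest is empty at the end.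
`poly_memWord`: `Poly.any` with `poly_eqWord`. `poly_getD`: `(l.drop j).headD []` (`poly_drop`).
`poly_mapTake`, `poly_mapDrop`, `poly_mapSlice`: `Poly.map` with `poly_take`, `poly_drop`
(`Poly.map` allows the function to depend on the argument `a`).
-/

set_option autoImplicit false

namespace Pool.Agent.H82.LM

open Pool.Agent.H9 Pool.Agent.H83

variable {α : Type} [Enc α] {S : Set Oracle}

private theorem URange_iter {α : Type} (g : ℕ × α → Bool) (a : α) (k : ℕ) :
    (fun q : ℕ × Bool × α => (q.1 + 1, q.2.1 && g (q.1, q.2.2), q.2.2))^[k] (0, true, a)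
      = (k, (List.range k).all (fun j => g (j, a)), a) := by
  induction k with
  | zero => rfl
  | succ k ih =>
    rw [Function.iterate_succ_apply', ih, List.range_succ, List.all_append]
    simp

theorem OP.allRange {n : Oracle → α → ℕ} {f : Oracle → ℕ × α → Bool} (hn : OP S n) (hf : OP S f) :
    OP S (fun A a => (List.range (n A a)).all (fun j => f A (j, a))) := by
  obtain ⟨b, hb, hbm, hnb⟩ := hn.size_le
  have hstep : OP S (fun A (q : ℕ × Bool × α) =>
      (q.1 + 1, q.2.1 && f A (q.1, q.2.2), q.2.2)) := by
    have h1 : OP S (fun (_ : Oracle) (q : ℕ × Bool × α) => q.1 + 1) :=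
      OP.of_poly (Poly.succ Poly.fst) S
    have h2 : OP S (fun (_ : Oracle) (q : ℕ × Bool × α) => q.2.1) :=
      OP.of_poly (Poly.fst.comp Poly.snd) S
    have h3 : OP S (fun (_ : Oracle) (q : ℕ × Bool × α) => (q.1, q.2.2)) :=
      OP.of_poly (Poly.fst.pair (Poly.snd.comp Poly.snd)) S
    have h4 : OP S (fun A (q : ℕ × Bool × α) => f A (q.1, q.2.2)) := OP.comp hf h3
    have h5 : OP S (fun (_ : Oracle) (q : ℕ × Bool × α) => q.2.2) :=
      OP.of_poly (Poly.snd.comp Poly.snd) S
    exact h1.pair ((OP.and h2 h4).pair h5)
  have h0 : OP S (fun (_ : Oracle) (a : α) => ((0 : ℕ), true, a)) :=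
    OP.of_poly ((H83.Poly.const 0).pair ((H83.Poly.const true).pair Poly.id)) S
  have h := OP.iterate hn h0 hstep (fun k => b k + (3 + k + 1) + 1)
    ((hb.add (((PB.const 3).add PB.id).add (PB.const 1))).add (PB.const 1)) (by
      intro A hA a i hi
      have e := URange_iter (f A) a i
      beta_reduce at e ⊢
      rw [e]
      simp only [Poly.sz_pair, Poly.sz_nat]
      have h1 := hnb A hA a
      rw [Poly.sz_nat] at h1
      have h2 := Poly.sz_bool ((List.range i).all (fun j => f A (j, a)))
      omega)
  refine (OP.fst' (OP.snd' h)).congr fun A _ a => ?_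
  have e := URange_iter (f A) a (n A a)
  beta_reduce at e ⊢
  rw [e]

/-- One step of the comparison of two words. -/
private def URange_F (s : List Bool × Bool) (x : Bool) : List Bool × Bool :=
  (s.1.tail, s.2 && (!s.1.isEmpty && decide (s.1.headD true = x)))

private theorem URange_fold (u : List Bool) : ∀ (v : List Bool) (c : Bool),
    ((u.foldl URange_F (v, c)).2 && (u.foldl URange_F (v, c)).1.isEmpty) =
      (c && decide (u = v)) := by
  induction u with
  | nil => intro v c; cases v <;> simp
  | cons x u ih =>
    intro v c
    rw [List.foldl_cons]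
    have e : URange_F (v, c) x =
        (v.tail, c && (!v.isEmpty && decide (v.headD true = x))) := rfl
    rw [e, ih]
    cases v with
    | nil => simp
    | cons y v =>
      simp only [List.isEmpty_cons, Bool.not_false, List.headD_cons, Bool.true_and, List.tail_cons,
        List.cons.injEq, Bool.decide_and, Bool.and_assoc]
      congr 2
      exact decide_eq_decide.2 eq_comm

private theorem URange_rest (u : List Bool) : ∀ (v : List Bool) (c : Bool),
    (u.foldl URange_F (v, c)).1 = v.drop u.length := by
  induction u with
  | nil => intro v c; rfl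
  | cons x u ih =>
    intro v c
    rw [List.foldl_cons]
    have e : URange_F (v, c) x =
        (v.tail, c && (!v.isEmpty && decide (v.headD true = x))) := rfl
    rw [e, ih, List.length_cons, ← List.drop_one, List.drop_drop, Nat.add_comm]

private theorem URange_F_poly :
    Poly (fun p : α × (List Bool × Bool) × Bool => URange_F p.2.1 p.2.2) := by
  have h1 : Poly (fun p : α × (List Bool × Bool) × Bool => p.2.1.1) :=
    Poly.fst' (Poly.fst' (Poly.snd' Poly.id))
  have h2 : Poly (fun p : α × (List Bool × Bool) × Bool => p.2.1.2) :=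
    Poly.snd' (Poly.fst' (Poly.snd' Poly.id))
  have h3 : Poly (fun p : α × (List Bool × Bool) × Bool => p.2.2) :=
    Poly.snd' (Poly.snd' Poly.id)
  exact (Poly.tail h1).pair (Poly.and h2 (Poly.and (Poly.not (Poly.isEmpty h1))
    (Poly.boolEq (Poly.headD true h1) h3)))

theorem poly_eqWord {u v : α → List Bool} (hu : Poly u) (hv : Poly v) :
    Poly (fun a => decide (u a = v a)) := by
  obtain ⟨b, hb, hbm, hvb⟩ := hv.size_le
  have h := Poly.foldl (l := u) (s := fun a => (v a, true))
    (f := fun (_ : α) (s : List Bool × Bool) (x : Bool) => URange_F s x) hu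
    (hv.pair (H83.Poly.const true)) URange_F_poly (fun k => b k + 3 + 1)
    ((hb.add (PB.const 3)).add (PB.const 1)) (by
      intro a i _
      have h1 := URange_rest ((u a).take i) (v a) true
      have h2 : sz (((u a).take i).foldl URange_F (v a, true)) =
          sz (((u a).take i).foldl URange_F (v a, true)).1 +
            sz (((u a).take i).foldl URange_F (v a, true)).2 + 1 := rfl
      have h3 := Poly.sz_bool (((u a).take i).foldl URange_F (v a, true)).2
      have h4 := Poly.sz_drop_le (v a) ((u a).take i).length
      have h5 := hvb a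
      rw [h1] at h2
      show sz (((u a).take i).foldl URange_F (v a, true)) ≤ b (sz a) + 3 + 1
      omega)
  refine (Poly.and (Poly.snd' h) (Poly.isEmpty (Poly.fst' h))).congr fun a => ?_
  rw [URange_fold, Bool.true_and]

theorem poly_memWord {u : α → List Bool} {l : α → List (List Bool)} (hu : Poly u) (hl : Poly l) :
    Poly (fun a => decide (u a ∈ l a)) := by
  refine (Poly.any (f := fun a x => decide (u a = x)) hl
    (poly_eqWord (Poly.comp hu Poly.fst) Poly.snd)).congr fun a => ?_
  rw [Bool.eq_iff_iff]
  simp

theorem poly_getD {l : α → List (List Bool)} {j : α → ℕ} (hl : Poly l) (hj : Poly j) :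
    Poly (fun a => (l a).getD (j a) []) := by
  refine (Poly.headD [] (poly_drop hl hj)).congr fun a => ?_
  rw [List.headD_eq_head?_getD, List.head?_drop, List.getD_eq_getElem?_getD]

theorem poly_mapTake {l : α → List (List Bool)} {j : α → ℕ} (hl : Poly l) (hj : Poly j) :
    Poly (fun a => (l a).map (List.take (j a))) := by
  exact H83.Poly.map (f := fun a x => List.take (j a) x) hl
    (poly_take Poly.snd (Poly.comp hj Poly.fst))

theorem poly_mapDrop {l : α → List (List Bool)} {j : α → ℕ} (hl : Poly l) (hj : Poly j) :
    Poly (fun a => (l a).map (List.drop (j a))) := by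
  exact H83.Poly.map (f := fun a x => List.drop (j a) x) hl
    (poly_drop Poly.snd (Poly.comp hj Poly.fst))

theorem poly_dropLast {l : α → List (List Bool)} (hl : Poly l) : Poly (fun a => (l a).dropLast) := by
  refine (poly_take hl (Poly.pred (Poly.length hl))).congr fun a => ?_
  rw [List.dropLast_eq_take]

/-- `|f x|` is bounded by a polynomial in `|x|`. -/
theorem poly_length_bound {f : List Bool → List Bool} (hf : Poly f) :
    ∃ b : Polynomial ℕ, ∀ x, (f x).length ≤ b.eval x.length := by
  obtain ⟨g, ⟨p, hp⟩, hgm, hg⟩ := hf.size_le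
  have hsz : ∀ x : List Bool, sz x ≤ 4 * x.length + 1 := by
    intro x
    induction x with
    | nil => simp
    | cons y x ih =>
      have := Poly.sz_bool y
      rw [Poly.sz_cons, List.length_cons]
      omega
  refine ⟨p.comp (4 * Polynomial.X + 1), fun x => ?_⟩
  have h1 := Poly.length_le_sz (f x)
  have h2 := hg x
  have h3 := hgm (hsz x)
  have h4 := hp (4 * x.length + 1)
  have h5 : (p.comp (4 * Polynomial.X + 1)).eval x.length = p.eval (4 * x.length + 1) := by
    rw [Polynomial.eval_comp]
    simp
  rw [h5]
  exact h1.trans (h2.trans (h3.trans h4))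

end Pool.Agent.H82.LM
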