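import Pool.Agent.H82.LM.UAlt
import Pool.Agent.H82.LM.URange
import Pool.Agent.H82.LM.Parse

/-!
# Row UAll: closure properties of `SigF k`, part 2

PROOFS (conventions as in row UPre). Let `G` be given by `q`, `T`, `p`.
* `sigF_all`: for `j < n(|x|)` the input `y_j = adr (replicate j true) x` has length
  `2 j + 1 + |x| ≤ 2 n + 1 + |x|` (`length_adr`), so `q(|y_j|) ≤ Q := q(2 n(|x|) + 1 + |x|)`. Block
  length `n * Q`, matrix `(List.range n).all (fun j => f A (y_j :: (us.map (slice Q j)).map
  (take (q(|y_j|)))))` (`OP.allRange`; `adr_poly`, `poly_replicateB`, `poly_mapTake`, and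
  `us.map (slice Q j)` is `(us.map (drop (j * Q))).map (take Q)`); `Alt_all`, `Alt_take`.
* `sigF_ex`: `k = l + 1`. For `|u| = n(|x|)` the input `adr u x` has length `2 n + 1 + |x|`, so
  `q' = q(2 n(|x|) + 1 + |x|)` is the block length for it. New block length `Q = n + q'`; matrix
  `f A (adr (v.take n) x :: v.drop n :: vs.map (take q'))` for `us = v :: vs`; the first quantifier
  `∃ v, |v| = n + q'` is `∃ u, |u| = n ∧ ∃ u1, |u1| = q'`, and `Alt_take` for the remaining blocks.
* `sigF_succ`: `B` given by `q`, `T`, `p`; `x ∈ B A ↔ ∃ u, |u| = q(|x|) ∧ Alt false k q (fun us =>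
  Accepts A p (x :: u :: us))`. Take `n = q` and `G A = {y | (unadr y).1 = true ∧ Alt true k (q(|x|))
  (fun us => ¬ Accepts A p (x :: u :: us))}` where `u = (unadr y).2.1`, `x = (unadr y).2.2`; it is in
  `SigF k`: block length `q` (`q(|x|) ≤ q(|y|)` as `|x| ≤ |y|` for a parsed `y`, `adr_of_unadr`,
  `length_adr`), matrix `(unadr y).1 && !(f A (x :: u :: us.map (take q(|x|))))`; `Alt_take`,
  `Alt_not`. (If `(unadr y).1 = false` both sides are false.)
-/

set_option autoImplicit false

namespace Pool.Agent.H82.LM

open Pool.Agent.H9 Pool.Agent.H83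

open Classical in
/-- Acceptance as a Boolean. -/
noncomputable def uacc (p : Prog) (A : Oracle) (xs : List (List Bool)) : Bool := decide (Accepts A p xs)

theorem uacc_iff (p : Prog) (A : Oracle) (xs : List (List Bool)) : uacc p A xs = true ↔ Accepts A p xs := by
  simp [uacc]

theorem uacc_OP (j : ℕ) (p : Prog) (T : Polynomial ℕ) (hp : ∀ A, Clocked A j p T) :
    OP Set.univ (fun A (xs : List (List Bool)) => uacc p A (fitL j xs)) :=
  OP.simL j p T (G := fun A w => A w) (OP.query _) (fun A _ => hp A) (fun A _ xs _ => uacc_iff p A xs)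

theorem uAlt_const (c : Prop) (m : ℕ) (k : ℕ) : ∀ e : Bool, Alt e k m (fun _ => c) ↔ c := by
  induction k with
  | zero => intro e; rfl
  | succ k ih =>
    intro e
    cases e with
    | true =>
      change (∃ u : List Bool, u.length = m ∧ Alt false k m (fun _ => c)) ↔ c
      rw [ih false]
      exact ⟨fun ⟨_, _, h⟩ => h, fun h => ⟨List.replicate m true, by simp, h⟩⟩
    | false =>
      change (∀ u : List Bool, u.length = m → Alt true k m (fun _ => c)) ↔ c
      rw [ih true]
      exact ⟨fun h => h (List.replicate m true) (by simp), fun h _ _ => h⟩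

/-- The input for the `j`-th instance. -/
def uallIn (n q : Polynomial ℕ) (a : ℕ × List (List Bool)) : List (List Bool) :=
  adr (List.replicate a.1 true) (a.2.headD []) ::
    (((a.2.tail.map (List.drop (a.1 * q.eval (2 * n.eval (a.2.headD []).length + 1 + (a.2.headD []).length)))).map
      (List.take (q.eval (2 * n.eval (a.2.headD []).length + 1 + (a.2.headD []).length)))).map
      (List.take (q.eval (adr (List.replicate a.1 true) (a.2.headD [])).length)))

theorem uallIn_poly (n q : Polynomial ℕ) : Poly (uallIn n q) := by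
  have h1 : Poly (fun a : ℕ × List (List Bool) => a.1) := Poly.fst
  have h2 : Poly (fun a : ℕ × List (List Bool) => a.2) := Poly.snd
  have hx : Poly (fun a : ℕ × List (List Bool) => a.2.headD []) := Poly.headD [] h2
  have hl : Poly (fun a : ℕ × List (List Bool) => (a.2.headD []).length) := Poly.length hx
  have hy : Poly (fun a : ℕ × List (List Bool) => adr (List.replicate a.1 true) (a.2.headD [])) :=
    adr_poly (poly_replicateB true h1) hx
  have hQ : Poly (fun a : ℕ × List (List Bool) =>
      q.eval (2 * n.eval (a.2.headD []).length + 1 + (a.2.headD []).length)) :=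
    Poly.polyEval q (Poly.add (Poly.add (Poly.mul (Pool.Agent.H83.Poly.const 2) (Poly.polyEval n hl))
      (Pool.Agent.H83.Poly.const 1)) hl)
  exact Poly.cons hy (poly_mapTake (poly_mapTake (poly_mapDrop (Poly.tail h2) (Poly.mul h1 hQ)) hQ)
    (Poly.polyEval q (Poly.length hy)))

theorem sigF_all {k : ℕ} {G : Fam} (hG : G ∈ SigF k) (n : Polynomial ℕ) :
    (fun A => {x : List Bool | ∀ j < n.eval x.length, adr (List.replicate j true) x ∈ G A}) ∈
      SigF k := by
  obtain ⟨q, T, p, hT, hL⟩ := hG
  have hF : OP Set.univ (fun (A : Oracle) (L : List (List Bool)) =>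
      (List.range (n.eval (L.headD []).length)).all
        (fun j => uacc p A (fitL (k + 1) (uallIn n q (j, L))))) := by
    refine OP.allRange (n := fun _ (L : List (List Bool)) => n.eval (L.headD []).length)
      (f := fun A a => uacc p A (fitL (k + 1) (uallIn n q a))) ?_ ?_
    · exact OP.of_poly (Poly.polyEval n (Poly.length (Poly.headD [] Poly.id))) _
    · exact (uacc_OP (k + 1) p T hT).comp (OP.of_poly (uallIn_poly n q) _)
  have h := sigF_of_OP k (n * q.comp (2 * n + 1 + Polynomial.X)) hF
  convert h using 1
  funext A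
  ext x
  simp only [Set.mem_ofPred_eq]
  set N := n.eval x.length with hN
  set Q := q.eval (2 * N + 1 + x.length) with hQ
  have e1 : (n * q.comp (2 * n + 1 + Polynomial.X)).eval x.length = N * Q := by
    rw [hQ, hN]
    simp [Polynomial.eval_comp]
  rw [e1]
  have h1 : Alt true k (N * Q) (fun us => (List.range (n.eval ((x :: us).headD []).length)).all
        (fun j => uacc p A (fitL (k + 1) (uallIn n q (j, x :: us)))) = true) ↔
      Alt true k (N * Q) (fun us => ∀ j < N, (fun j us => Accepts A p (adr (List.replicate j true) x ::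
        us.map (List.take (q.eval (adr (List.replicate j true) x).length)))) j (us.map (slice Q j))) := by
    apply Alt_congr
    intro us hus _
    rw [List.all_eq_true]
    simp only [List.mem_range]
    refine forall_congr' fun j => ?_
    refine imp_congr Iff.rfl ?_
    rw [uacc_iff, fitL_of_length]
    · have e2 : uallIn n q (j, x :: us) = adr (List.replicate j true) x ::
          (us.map (slice Q j)).map (List.take (q.eval (adr (List.replicate j true) x).length)) := by
        rw [uallIn]
        simp only [List.headD_cons, List.tail_cons, List.map_map]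
        rfl
      rw [e2]
    · simp [uallIn, hus]
  rw [h1]
  refine Iff.trans ?_ (Alt_all true k Q N (fun j us => Accepts A p (adr (List.replicate j true) x ::
        us.map (List.take (q.eval (adr (List.replicate j true) x).length))))).symm
  refine forall_congr' fun j => forall_congr' fun hj => ?_
  rw [hL A (adr (List.replicate j true) x)]
  refine (Alt_take true k (q := q.eval (adr (List.replicate j true) x).length) (Q := Q) ?_
    (fun us => Accepts A p (adr (List.replicate j true) x :: us))).symm
  rw [length_adr, List.length_replicate, hQ]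
  exact eval_mono q (by omega)

/-- The input for the instance with the guess `v.take n`. -/
def uexIn (n q : Polynomial ℕ) (L : List (List Bool)) : List (List Bool) :=
  adr ((L.tail.headD []).take (n.eval (L.headD []).length)) (L.headD []) ::
    (L.tail.headD []).drop (n.eval (L.headD []).length) ::
      L.tail.tail.map (List.take (q.eval (2 * n.eval (L.headD []).length + 1 + (L.headD []).length)))

theorem uexIn_poly (n q : Polynomial ℕ) : Poly (uexIn n q) := by
  have hx : Poly (fun L : List (List Bool) => L.headD []) := Poly.headD [] Poly.id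
  have hl : Poly (fun L : List (List Bool) => (L.headD []).length) := Poly.length hx
  have ht : Poly (fun L : List (List Bool) => L.tail) := Poly.tail Poly.id
  have hv : Poly (fun L : List (List Bool) => L.tail.headD []) := Poly.headD [] ht
  have hn : Poly (fun L : List (List Bool) => n.eval (L.headD []).length) := Poly.polyEval n hl
  have hQ : Poly (fun L : List (List Bool) =>
      q.eval (2 * n.eval (L.headD []).length + 1 + (L.headD []).length)) :=
    Poly.polyEval q (Poly.add (Poly.add (Poly.mul (Pool.Agent.H83.Poly.const 2) hn)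
      (Pool.Agent.H83.Poly.const 1)) hl)
  exact Poly.cons (adr_poly (poly_take hv hn) hx) (Poly.cons (poly_drop hv hn)
    (poly_mapTake (Poly.tail ht) hQ))

theorem sigF_ex {k : ℕ} (hk : 1 ≤ k) {G : Fam} (hG : G ∈ SigF k) (n : Polynomial ℕ) :
    (fun A => {x : List Bool | ∃ u : List Bool, u.length = n.eval x.length ∧ adr u x ∈ G A}) ∈
      SigF k := by
  obtain ⟨l, rfl⟩ : ∃ l, k = l + 1 := ⟨k - 1, by omega⟩
  obtain ⟨q, T, p, hT, hL⟩ := hG
  have hF : OP Set.univ (fun (A : Oracle) (L : List (List Bool)) =>
      uacc p A (fitL (l + 1 + 1) (uexIn n q L))) :=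
    (uacc_OP (l + 1 + 1) p T hT).comp (OP.of_poly (uexIn_poly n q) _)
  have h := sigF_of_OP (l + 1) (n + q.comp (2 * n + 1 + Polynomial.X)) hF
  convert h using 1
  funext A
  ext x
  simp only [Set.mem_ofPred_eq]
  set N := n.eval x.length with hN
  set Q := q.eval (2 * N + 1 + x.length) with hQ
  have e1 : (n + q.comp (2 * n + 1 + Polynomial.X)).eval x.length = N + Q := by
    rw [hQ, hN]
    simp [Polynomial.eval_comp]
  rw [e1]
  have hQu : ∀ u : List Bool, u.length = N → q.eval (adr u x).length = Q := by
    intro u hu
    rw [length_adr, hu]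
  have key : ∀ v : List Bool, Alt false l (N + Q) (fun vs =>
      uacc p A (fitL (l + 1 + 1) (uexIn n q (x :: v :: vs))) = true) ↔
      Alt false l Q (fun vs => Accepts A p (adr (v.take N) x :: v.drop N :: vs)) := by
    intro v
    rw [← Alt_take false l (Nat.le_add_left Q N)
      (fun vs => Accepts A p (adr (v.take N) x :: v.drop N :: vs))]
    apply Alt_congr
    intro vs hvs _
    rw [uacc_iff, fitL_of_length]
    · rfl
    · simp [uexIn, hvs]
  change (∃ u : List Bool, u.length = N ∧ adr u x ∈ G A) ↔
    ∃ v : List Bool, v.length = N + Q ∧ Alt false l (N + Q) (fun vs =>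
      uacc p A (fitL (l + 1 + 1) (uexIn n q (x :: v :: vs))) = true)
  constructor
  · rintro ⟨u, hu, hG⟩
    rw [hL A (adr u x), hQu u hu] at hG
    obtain ⟨u1, hu1, h1⟩ := hG
    refine ⟨u ++ u1, by rw [List.length_append, hu, hu1], ?_⟩
    rw [key, List.take_left' hu, List.drop_left' hu]
    exact h1
  · rintro ⟨v, hv, h1⟩
    rw [key] at h1
    have hu : (v.take N).length = N := by
      rw [List.length_take, hv]
      omega
    refine ⟨v.take N, hu, ?_⟩
    rw [hL A (adr (v.take N) x), hQu _ hu]
    refine ⟨v.drop N, ?_, h1⟩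
    rw [List.length_drop, hv]
    omega

/-- The input for the instance coded by `adr u x`. -/
def usuIn (q : Polynomial ℕ) (L : List (List Bool)) : List (List Bool) :=
  (unadr (L.headD [])).2.2 :: (unadr (L.headD [])).2.1 ::
    L.tail.map (List.take (q.eval (unadr (L.headD [])).2.2.length))

theorem usuIn_poly (q : Polynomial ℕ) : Poly (usuIn q) := by
  have hy : Poly (fun L : List (List Bool) => unadr (L.headD [])) :=
    unadr_poly.comp (Poly.headD [] Poly.id)
  have hx := Poly.snd' (Poly.snd' hy)
  have hu := Poly.fst' (Poly.snd' hy)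
  exact Poly.cons hx (Poly.cons hu (poly_mapTake (Poly.tail Poly.id) (Poly.polyEval q (Poly.length hx))))

theorem usigF_succ_mem {k : ℕ} {q T : Polynomial ℕ} {p : Prog} (hT : ∀ A, Clocked A (k + 1 + 1) p T) :
    (fun A => {y : List Bool | (unadr y).1 = true ∧ Alt true k (q.eval (unadr y).2.2.length)
      (fun us => ¬ Accepts A p ((unadr y).2.2 :: (unadr y).2.1 :: us))}) ∈ SigF k := by
  have hF : OP Set.univ (fun (A : Oracle) (L : List (List Bool)) =>
      (unadr (L.headD [])).1 && !(uacc p A (fitL (k + 1 + 1) (usuIn q L)))) := by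
    refine OP.and (f := fun _ (L : List (List Bool)) => (unadr (L.headD [])).1)
      (g := fun A L => !(uacc p A (fitL (k + 1 + 1) (usuIn q L)))) ?_ (OP.not ?_)
    · exact OP.of_poly (Poly.fst' (unadr_poly.comp (Poly.headD [] Poly.id))) _
    · exact (uacc_OP (k + 1 + 1) p T hT).comp (OP.of_poly (usuIn_poly q) _)
  have h := sigF_of_OP k q hF
  convert h using 1
  funext A
  ext y
  simp only [Set.mem_ofPred_eq, List.headD_cons]
  cases hy : (unadr y).1 with
  | false =>
    have h1 : Alt true k (q.eval y.length) (fun us => (false && !(uacc p A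
        (fitL (k + 1 + 1) (usuIn q (y :: us))))) = true) ↔ False :=
      Iff.trans (Alt_congr (fun us _ _ => by simp)) (uAlt_const False _ k true)
    rw [h1]
    simp
  | true =>
    have hle : q.eval (unadr y).2.2.length ≤ q.eval y.length := by
      apply eval_mono
      have h1 := congrArg List.length (adr_of_unadr hy)
      rw [length_adr] at h1
      omega
    rw [← Alt_take true k hle]
    simp only [true_and]
    apply Alt_congr
    intro us hus _
    rw [Bool.true_and, Bool.not_eq_true', ← Bool.not_eq_true, uacc_iff, fitL_of_length]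
    · rfl
    · simp [usuIn, hus]

theorem sigF_succ {k : ℕ} {B : Fam} (hB : B ∈ SigF (k + 1)) :
    ∃ (n : Polynomial ℕ), ∃ G ∈ SigF k, ∀ A x, x ∈ B A ↔
      ∃ u : List Bool, u.length = n.eval x.length ∧ adr u x ∉ G A := by
  obtain ⟨q, T, p, hT, hL⟩ := hB
  refine ⟨q, _, usigF_succ_mem (q := q) hT, fun A x => ?_⟩
  rw [hL A x]
  change (∃ u : List Bool, u.length = q.eval x.length ∧ Alt false k (q.eval x.length)
    (fun us => Accepts A p (x :: u :: us))) ↔ _
  refine exists_congr fun u => and_congr Iff.rfl ?_
  simp only [Set.mem_ofPred_eq, unadr_adr, true_and]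
  rw [Alt_not]
  simp only [not_not, Bool.not_true]

end Pool.Agent.H82.LM
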