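import Pool.Agent.H82.LM.ClsB
import Pool.Agent.H9.Bind

/-!
# Row UAlt: manipulation of alternating prefixes

All statements are for `Alt e k m φ` (Pool/Agent/H9/Machine.lean), equal to
`AltL e (List.replicate k m) φ` (`Alt_eq`, Pool/Agent/H9/Hier.lean). PROOFS.
`Alt_congr`: `AltL_congr`. `Alt_not`: induction on `k`. `Alt_take`: `AltL_take`
(Pool/Agent/H9/Bind.lean). `Alt_dummy_last`: `AltL_snoc`, the last quantifier does not bind anything
(there are words of length `m`). `Alt_dummy_first`: definition.
`Alt_and`: induction on `k` (generalising `e`, `φ`, `ψ`): for `e = true`: if `u` works for `φ` and `v`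
for `ψ`, then `u ++ v` works for both, and conversely take `(w.take Q, w.drop Q)`; for `e = false`:
every pair `(u, v)` is `(w.take Q, w.drop Q)` for `w = u ++ v`, and every `w` gives a pair.
`Alt_all`: induction on `k` (generalising `e`, `φ`): for `e = true`: given for every `j < n` a word
`u_j` of length `Q` (choice), the word `w = u_0 ++ ... ++ u_(n-1)` of length `n * Q` has
`slice Q j w = u_j`, and conversely; for `e = false`: a word `u` is `slice Q j w` for
`w` = any concatenation with `j`-th block `u`; here one needs
`(∀ j < n, ∀ u, |u| = Q → X j u) ↔ ∀ w, |w| = n * Q → ∀ j < n, X j (slice Q j w)`. (Then the induction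
hypothesis is applied to `fun j us => φ j (slice Q j w :: us)`.)
-/

set_option autoImplicit false

namespace Pool.Agent.H82.LM

open Pool.Agent.H9

theorem Alt_congr {e : Bool} {k m : ℕ} {φ ψ : List (List Bool) → Prop}
    (h : ∀ us : List (List Bool), us.length = k → (∀ u ∈ us, u.length = m) → (φ us ↔ ψ us)) :
    Alt e k m φ ↔ Alt e k m ψ := by
  rw [Alt_eq, Alt_eq]
  apply AltL_congr
  intro us hus
  apply h us
  · have h1 := congrArg List.length hus
    simpa using h1
  · intro u hu
    have h1 : u.length ∈ us.map List.length := List.mem_map_of_mem hu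
    rw [hus] at h1
    exact List.eq_of_mem_replicate h1

theorem Alt_not (e : Bool) (k m : ℕ) (φ : List (List Bool) → Prop) :
    ¬ Alt e k m φ ↔ Alt (!e) k m (fun us => ¬ φ us) := by
  induction k generalizing e φ with
  | zero => exact Iff.rfl
  | succ k ih =>
    cases e
    · change (¬ ∀ u : List Bool, u.length = m → Alt true k m (fun us => φ (u :: us))) ↔
        ∃ u : List Bool, u.length = m ∧ Alt false k m (fun us => ¬ φ (u :: us))
      push Not
      exact exists_congr fun u => and_congr_right fun _ => ih true _
    · change (¬ ∃ u : List Bool, u.length = m ∧ Alt false k m (fun us => φ (u :: us))) ↔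
        ∀ u : List Bool, u.length = m → Alt true k m (fun us => ¬ φ (u :: us))
      push Not
      exact forall_congr' fun u => imp_congr_right fun _ => ih false _

theorem Alt_take (e : Bool) (k : ℕ) {q Q : ℕ} (h : q ≤ Q) (φ : List (List Bool) → Prop) :
    Alt e k Q (fun us => φ (us.map (List.take q))) ↔ Alt e k q φ := by
  rw [Alt_eq, Alt_eq]
  exact AltL_take h k e φ

theorem Alt_dummy_last (e : Bool) (k m : ℕ) (φ : List (List Bool) → Prop) :
    Alt e (k + 1) m (fun us => φ us.dropLast) ↔ Alt e k m φ := by
  induction k generalizing e φ with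
  | zero =>
    cases e
    · change (∀ u : List Bool, u.length = m → φ []) ↔ φ []
      exact ⟨fun h => h (List.replicate m true) (by simp), fun h _ _ => h⟩
    · change (∃ u : List Bool, u.length = m ∧ φ []) ↔ φ []
      exact ⟨fun ⟨_, _, h⟩ => h, fun h => ⟨List.replicate m true, by simp, h⟩⟩
  | succ k ih =>
    have key : ∀ (b : Bool) (u : List Bool),
        Alt b (k + 1) m (fun us => φ ((u :: us).dropLast)) ↔
          Alt b k m (fun us => φ (u :: us)) := by
      intro b u
      rw [← ih b (fun us => φ (u :: us))]
      apply Alt_congr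
      intro us hus _
      have hne : us ≠ [] := by
        rintro rfl
        simp at hus
      rw [List.dropLast_cons_of_ne_nil hne]
    cases e
    · exact forall_congr' fun u => imp_congr_right fun _ => key true u
    · exact exists_congr fun u => and_congr_right fun _ => key false u

theorem Alt_dummy_first (e : Bool) (k m : ℕ) (φ : List (List Bool) → Prop) :
    Alt e (k + 1) m (fun us => φ us.tail) ↔ Alt (!e) k m φ := by
  cases e
  · change (∀ u : List Bool, u.length = m → Alt true k m φ) ↔ Alt true k m φ
    exact ⟨fun h => h (List.replicate m true) (by simp), fun h _ _ => h⟩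
  · change (∃ u : List Bool, u.length = m ∧ Alt false k m φ) ↔ Alt false k m φ
    exact ⟨fun ⟨_, _, h⟩ => h, fun h => ⟨List.replicate m true, by simp, h⟩⟩

theorem Alt_and (e : Bool) (k Q : ℕ) (φ ψ : List (List Bool) → Prop) :
    Alt e k (Q + Q) (fun us => φ (us.map (List.take Q)) ∧ ψ (us.map (List.drop Q))) ↔
      Alt e k Q φ ∧ Alt e k Q ψ := by
  induction k generalizing e φ ψ with
  | zero => exact Iff.rfl
  | succ k ih =>
    have key : ∀ (b : Bool) (w : List Bool),
        Alt b k (Q + Q) (fun us => φ ((w :: us).map (List.take Q)) ∧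
          ψ ((w :: us).map (List.drop Q))) ↔
          Alt b k Q (fun us => φ (w.take Q :: us)) ∧ Alt b k Q (fun us => ψ (w.drop Q :: us)) := by
      intro b w
      rw [← ih b (fun us => φ (w.take Q :: us)) (fun us => ψ (w.drop Q :: us))]
      rfl
    cases e
    · change (∀ w : List Bool, w.length = Q + Q → _) ↔
        (∀ u : List Bool, u.length = Q → _) ∧ (∀ v : List Bool, v.length = Q → _)
      constructor
      · intro h
        constructor
        · intro u hu
          have h1 := ((key true _).1 (h (u ++ List.replicate Q true) (by simp [hu]))).1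
          rw [List.take_left' hu] at h1
          exact h1
        · intro v hv
          have h1 := ((key true _).1 (h (List.replicate Q true ++ v) (by simp [hv]))).2
          rw [List.drop_left' (by simp)] at h1
          exact h1
      · rintro ⟨h1, h2⟩ w hw
        exact (key true w).2 ⟨h1 _ (by simp [hw]), h2 _ (by simp [hw])⟩
    · change (∃ w : List Bool, w.length = Q + Q ∧ _) ↔
        (∃ u : List Bool, u.length = Q ∧ _) ∧ (∃ v : List Bool, v.length = Q ∧ _)
      constructor
      · rintro ⟨w, hw, h⟩
        obtain ⟨h1, h2⟩ := (key false w).1 h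
        exact ⟨⟨w.take Q, by simp [hw], h1⟩, ⟨w.drop Q, by simp [hw], h2⟩⟩
      · rintro ⟨⟨u, hu, h1⟩, ⟨v, hv, h2⟩⟩
        refine ⟨u ++ v, by simp [hu, hv], (key false _).2 ?_⟩
        rw [List.take_left' hu, List.drop_left' hu]
        exact ⟨h1, h2⟩

/-- The `j`-th block of length `Q`. -/
def slice (Q j : ℕ) (w : List Bool) : List Bool := (w.drop (j * Q)).take Q

private theorem UAlt_len {Q j n : ℕ} (h : j < n) {w : List Bool} (hw : w.length = n * Q) :
    (slice Q j w).length = Q := by
  unfold slice
  rw [List.length_take, List.length_drop, hw]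
  have h1 : (j + 1) * Q ≤ n * Q := Nat.mul_le_mul_right Q h
  rw [Nat.add_mul, one_mul] at h1
  omega

private theorem UAlt_cat (Q : ℕ) (u : ℕ → List Bool) (hu : ∀ j, (u j).length = Q) : ∀ n : ℕ,
    ∃ w : List Bool, w.length = n * Q ∧ ∀ j < n, slice Q j w = u j := by
  intro n
  induction n with
  | zero => exact ⟨[], by simp, fun j hj => absurd hj (Nat.not_lt_zero j)⟩
  | succ n ih =>
    obtain ⟨w, hw, h⟩ := ih
    refine ⟨w ++ u n, by rw [List.length_append, hw, hu, Nat.add_mul, one_mul], ?_⟩
    intro j hj
    rcases Nat.lt_succ_iff_lt_or_eq.1 hj with h1 | h1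
    · rw [← h j h1]
      unfold slice
      have h2 : (j + 1) * Q ≤ n * Q := Nat.mul_le_mul_right Q h1
      rw [Nat.add_mul, one_mul] at h2
      rw [List.drop_append_of_le_length (by omega), List.take_append_of_le_length]
      rw [List.length_drop]
      omega
    · rw [h1]
      unfold slice
      rw [List.drop_left' hw, List.take_of_length_le (by rw [hu])]

private theorem UAlt_ex (Q n : ℕ) (X : ℕ → List Bool → Prop) :
    (∃ w : List Bool, w.length = n * Q ∧ ∀ j < n, X j (slice Q j w)) ↔
      ∀ j < n, ∃ u : List Bool, u.length = Q ∧ X j u := by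
  constructor
  · rintro ⟨w, hw, h⟩ j hj
    exact ⟨slice Q j w, UAlt_len hj hw, h j hj⟩
  · intro h
    have h1 : ∀ j, ∃ u : List Bool, u.length = Q ∧ (j < n → X j u) := by
      intro j
      by_cases hj : j < n
      · obtain ⟨u, hu, hX⟩ := h j hj
        exact ⟨u, hu, fun _ => hX⟩
      · exact ⟨List.replicate Q true, by simp, fun h => absurd h hj⟩
    choose u hu hX using h1
    obtain ⟨w, hw, hs⟩ := UAlt_cat Q u hu n
    refine ⟨w, hw, fun j hj => ?_⟩
    rw [hs j hj]
    exact hX j hj

private theorem UAlt_fa (Q n : ℕ) (X : ℕ → List Bool → Prop) :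
    (∀ w : List Bool, w.length = n * Q → ∀ j < n, X j (slice Q j w)) ↔
      ∀ j < n, ∀ u : List Bool, u.length = Q → X j u := by
  constructor
  · intro h j hj u hu
    obtain ⟨w, hw, hs⟩ := UAlt_cat Q (fun i => if i = j then u else List.replicate Q true)
      (by intro i; by_cases hi : i = j <;> simp [hi, hu]) n
    have h1 := h w hw j hj
    rw [hs j hj] at h1
    simpa using h1
  · intro h w hw j hj
    exact h j hj _ (UAlt_len hj hw)

theorem Alt_all (e : Bool) (k Q n : ℕ) (φ : ℕ → List (List Bool) → Prop) :
    Alt e k (n * Q) (fun us => ∀ j < n, φ j (us.map (slice Q j))) ↔ ∀ j < n, Alt e k Q (φ j) := by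
  induction k generalizing e φ with
  | zero => exact Iff.rfl
  | succ k ih =>
    have key : ∀ (b : Bool) (w : List Bool),
        Alt b k (n * Q) (fun us => ∀ j < n, φ j ((w :: us).map (slice Q j))) ↔
          ∀ j < n, Alt b k Q (fun us => φ j (slice Q j w :: us)) := by
      intro b w
      rw [← ih b (fun j us => φ j (slice Q j w :: us))]
      rfl
    cases e
    · refine Iff.trans (forall_congr' fun w => imp_congr_right fun _ => key true w) ?_
      exact UAlt_fa Q n (fun j u => Alt true k Q (fun us => φ j (u :: us)))
    · refine Iff.trans (exists_congr fun w => and_congr_right fun _ => key false w) ?_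
      exact UAlt_ex Q n (fun j u => Alt false k Q (fun us => φ j (u :: us)))

end Pool.Agent.H82.LM
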