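import Pool.Agent.H82.LM.URange
import Pool.Agent.H82.LM.Parse
import Pool.Agent.H9.Bind

/-!
# Row UTab: tables of answers

PROOFS. `tabW_poly`: iterate (`Poly.iterate`) `(acc, u) ↦ if (unadr u).1 then
(acc ++ [(unadr u).2.1], (unadr u).2.2) else (acc, u)` for `|u|` rounds from `([], u)`; the total size
does not exceed a linear function of the size of `u`. `tabW_surj`: put `u = adr e_1 (adr e_2 (...
(replicate j true)))`, `unadr (replicate j true)` has first component `false`; the length before
padding is `∑ (2 |e_i| + 1) ≤ t * (2 * l + 1)`.
`look_poly`: `poly_memWord`, `Poly.cons`, `Poly.or`, `Poly.and`.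
`run_look`: (→) by `cert_iterate` (Pool/Agent/H9/Bind.lean), applied to `start p [x]`, `t` steps
and `Λ = |x| + t` (`length_start_le`): a finset `R` of at most `t` words of length at most `Λ` such
that every oracle agreeing on `R` with `O` has the same run. Take `W` = the list of
`(O w) :: w`, `w ∈ R.toList`. For every `W'` the oracle `look W W'` agrees with `O` on `R`. The
machine halts within `t` steps for all oracles (`accepts_iff_of_halted`).
(←) Let `W'` be the list of the `(O w) :: w` for `w ∈ R`: the oracle `look W W'` agrees with `O` on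
`R`: if `true :: w ∈ W` then `O w = true` by the hypothesis on `W`, if `false :: w ∈ W` then
`O w = false`, otherwise the value is `decide (true :: w ∈ W') = O w`. So
`Accepts O p [x]` iff `Accepts (look W W') p [x]`.
-/

set_option autoImplicit false

namespace Pool.Agent.H82.LM

open Pool.Agent.H9 Pool.Agent.H83

/-- The list of words coded by a word. -/
def tabW (u : List Bool) : List (List Bool) :=
  if h : (unadr u).1 = true then (unadr u).2.1 :: tabW (unadr u).2.2 else []
termination_by u.length
decreasing_by
  have h1 := congrArg List.length (adr_of_unadr h)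
  rw [length_adr] at h1
  omega

theorem UTab_of_true {u : List Bool} (h : (unadr u).1 = true) :
    tabW u = (unadr u).2.1 :: tabW (unadr u).2.2 := by
  rw [tabW, dif_pos h]

theorem UTab_of_false {u : List Bool} (h : ¬ (unadr u).1 = true) : tabW u = [] := by
  rw [tabW, dif_neg h]

theorem UTab_length {u : List Bool} (h : (unadr u).1 = true) :
    u.length = 2 * (unadr u).2.1.length + 1 + (unadr u).2.2.length := by
  have h1 := congrArg List.length (adr_of_unadr h)
  rwa [length_adr] at h1

/-- One round of the reading of a table. -/
def UTab_step (q : List (List Bool) × List Bool) : List (List Bool) × List Bool :=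
  bif (unadr q.2).1 then ((unadr q.2).2.1 :: q.1, (unadr q.2).2.2) else (q.1, q.2)

theorem UTab_step_true {q : List (List Bool) × List Bool} (h : (unadr q.2).1 = true) :
    UTab_step q = ((unadr q.2).2.1 :: q.1, (unadr q.2).2.2) := by
  rw [UTab_step, h, cond_true]

theorem UTab_step_false {q : List (List Bool) × List Bool} (h : ¬ (unadr q.2).1 = true) :
    UTab_step q = q := by
  rw [Bool.not_eq_true] at h
  rw [UTab_step, h, cond_false]

theorem UTab_iter : ∀ (n : ℕ) (q : List (List Bool) × List Bool), q.2.length ≤ n →
    (UTab_step^[n] q).1.reverse = q.1.reverse ++ tabW q.2 := by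
  intro n
  induction n with
  | zero =>
    intro q hq
    have h0 : q.2 = [] := List.length_eq_zero_iff.1 (by omega)
    have h1 : ¬ (unadr q.2).1 = true := by rw [h0]; simp [unadr]
    rw [UTab_of_false h1, Function.iterate_zero, id, List.append_nil]
  | succ n ih =>
    intro q hq
    rw [Function.iterate_succ_apply]
    by_cases h : (unadr q.2).1 = true
    · have hl := UTab_length h
      rw [ih _ (by rw [UTab_step_true h]; simp only; omega), UTab_step_true h, UTab_of_true h]
      simp
    · have hf : Function.IsFixedPt UTab_step q := UTab_step_false h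
      rw [hf.eq, (hf.iterate n).eq, UTab_of_false h, List.append_nil]

theorem UTab_sz_word (w : List Bool) : sz w ≤ 4 * w.length + 1 := by
  induction w with
  | nil => rw [Poly.sz_nil]; omega
  | cons b w ih =>
    have := Poly.sz_bool b
    rw [Poly.sz_cons, List.length_cons]
    omega

theorem UTab_pot (q : List (List Bool) × List Bool) :
    sz (UTab_step q).1 + 4 * (UTab_step q).2.length ≤ sz q.1 + 4 * q.2.length := by
  by_cases h : (unadr q.2).1 = true
  · have hl := UTab_length h
    rw [UTab_step_true h]
    simp only [Poly.sz_cons]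
    have := UTab_sz_word (unadr q.2).2.1
    omega
  · rw [UTab_step_false h]

theorem UTab_pot_iter (n : ℕ) (q : List (List Bool) × List Bool) :
    sz (UTab_step^[n] q).1 + 4 * (UTab_step^[n] q).2.length ≤ sz q.1 + 4 * q.2.length := by
  induction n with
  | zero => exact le_rfl
  | succ n ih =>
    rw [Function.iterate_succ_apply']
    exact (UTab_pot _).trans ih

theorem UTab_step_poly : Poly UTab_step := by
  have h2 : Poly (fun q : List (List Bool) × List Bool => unadr q.2) :=
    unadr_poly.comp (Poly.snd' Poly.id)
  exact Poly.cond (Poly.fst' h2)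
    ((Poly.cons (Poly.fst' (Poly.snd' h2)) (Poly.fst' Poly.id)).pair (Poly.snd' (Poly.snd' h2)))
    ((Poly.fst' Poly.id).pair (Poly.snd' Poly.id))

theorem UTab_poly : Poly tabW := by
  have h : Poly (fun u : List Bool => UTab_step^[u.length] ([], u)) := by
    refine Poly.iterate (n := fun u : List Bool => u.length)
      (s := fun u : List Bool => (([] : List (List Bool)), u)) (Poly.length Poly.id)
      ((Pool.Agent.H83.Poly.const []).pair Poly.id) UTab_step_poly (fun n => 4 * n + 3)
      (((PB.const 4).mul PB.id).add (PB.const 3)) ?_
    intro u i _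
    have h1 := UTab_pot_iter i (([] : List (List Bool)), u)
    have h2 := UTab_sz_word (UTab_step^[i] (([] : List (List Bool)), u)).2
    have h3 := Poly.length_le_sz u
    generalize UTab_step^[i] (([] : List (List Bool)), u) = q at *
    obtain ⟨a, b⟩ := q
    simp only [Poly.sz_pair, Poly.sz_nil] at *
    omega
  refine (Poly.reverse (Poly.fst' h)).congr ?_
  intro u
  rw [UTab_iter u.length (([] : List (List Bool)), u) le_rfl]
  simp

theorem tabW_poly {α : Type} [Enc α] {u : α → List Bool} (hu : Poly u) :
    Poly (fun a => tabW (u a)) := UTab_poly.comp hu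

theorem UTab_replicate : ∀ n : ℕ, (unadr (List.replicate n true)).1 = false
  | 0 => by simp [unadr]
  | 1 => by simp [unadr]
  | n + 2 => by
    rw [List.replicate_succ, List.replicate_succ, unadr]
    exact UTab_replicate n

theorem tabW_surj (es : List (List Bool)) {t l n : ℕ} (h1 : es.length ≤ t)
    (h2 : ∀ e ∈ es, e.length ≤ l) (hn : t * (2 * l + 1) ≤ n) :
    ∃ u : List Bool, u.length = n ∧ tabW u = es := by
  induction es generalizing t n with
  | nil =>
    refine ⟨List.replicate n true, by simp, UTab_of_false ?_⟩
    rw [UTab_replicate n]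
    simp
  | cons e es ih =>
    rw [List.length_cons] at h1
    obtain ⟨t, rfl⟩ : ∃ t', t = t' + 1 := ⟨t - 1, by omega⟩
    have he : e.length ≤ l := h2 e (by simp)
    rw [Nat.succ_mul] at hn
    obtain ⟨u, hu1, hu2⟩ := ih (t := t) (n := n - (2 * e.length + 1)) (by omega)
      (fun e' he' => h2 e' (by simp [he'])) (by omega)
    refine ⟨adr e u, ?_, ?_⟩
    · rw [length_adr, hu1]
      omega
    · have h3 := unadr_adr e u
      rw [UTab_of_true (by rw [h3]), h3, hu2]

theorem tabW_length (u : List Bool) : (tabW u).length ≤ u.length := by
  induction h : u.length using Nat.strong_induction_on generalizing u with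
  | _ n ih =>
    by_cases h1 : (unadr u).1 = true
    · have hl := UTab_length h1
      rw [UTab_of_true h1, List.length_cons]
      have := ih _ (by omega) (unadr u).2.2 rfl
      omega
    · rw [UTab_of_false h1]
      simp

/-- The oracle given by two tables: `true :: w` or `false :: w` in the table `W` fixes the value at
`w`, otherwise `true :: w` in `W'`. -/
def look (W W' : List (List Bool)) : Oracle := fun w =>
  decide (true :: w ∈ W) || (!(decide (false :: w ∈ W)) && decide (true :: w ∈ W'))

theorem look_poly : Poly (fun a : List Bool × (List (List Bool) × List (List Bool)) =>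
    look a.2.1 a.2.2 a.1) := by
  have hw : Poly (fun a : List Bool × (List (List Bool) × List (List Bool)) => a.1) :=
    Poly.fst' Poly.id
  have hW : Poly (fun a : List Bool × (List (List Bool) × List (List Bool)) => a.2.1) :=
    Poly.fst' (Poly.snd' Poly.id)
  have hW' : Poly (fun a : List Bool × (List (List Bool) × List (List Bool)) => a.2.2) :=
    Poly.snd' (Poly.snd' Poly.id)
  have ht := Poly.cons (Pool.Agent.H83.Poly.const true) hw
  have hf := Poly.cons (Pool.Agent.H83.Poly.const false) hw
  exact Poly.or (poly_memWord ht hW) (Poly.and (Poly.not (poly_memWord hf hW)) (poly_memWord ht hW'))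

/-- The table of the values of `O` at the words of `R`. -/
noncomputable def UTab_tab (O : Oracle) (R : Finset (List Bool)) : List (List Bool) :=
  R.toList.map (fun w => O w :: w)

theorem UTab_mem (O : Oracle) (R : Finset (List Bool)) (b : Bool) (w : List Bool) :
    b :: w ∈ UTab_tab O R ↔ w ∈ R ∧ O w = b := by
  rw [UTab_tab, List.mem_map]
  constructor
  · rintro ⟨v, hv, h⟩
    injection h with h1 h2
    subst h2
    exact ⟨Finset.mem_toList.1 hv, h1⟩
  · rintro ⟨h1, h2⟩
    exact ⟨w, Finset.mem_toList.2 h1, by rw [h2]⟩

theorem UTab_look (O : Oracle) (R : Finset (List Bool)) (W W' : List (List Bool))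
    (hW : ∀ b w, b :: w ∈ W → O w = b) {w : List Bool} (hw : w ∈ R)
    (h : (O w :: w) ∈ W ∨ (true :: w ∈ W' ↔ O w = true)) : O w = look W W' w := by
  rw [look]
  by_cases h1 : true :: w ∈ W
  · rw [hW true w h1]
    simp [h1]
  · by_cases h2 : false :: w ∈ W
    · rw [hW false w h2]
      simp [h1, h2]
    · have h3 : true :: w ∈ W' ↔ O w = true := by
        rcases h with h | h
        · exfalso
          cases hO : O w
          · rw [hO] at h; exact h2 h
          · rw [hO] at h; exact h1 h
        · exact h
      cases hO : O w
      · rw [hO] at h3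
        have h4 : ¬ true :: w ∈ W' := fun h5 => by simp at h3; exact h3 h5
        simp [h1, h4]
      · rw [hO] at h3
        have h4 : true :: w ∈ W' := h3.2 rfl
        simp [h2, h4]

theorem run_look (p : Prog) (T : Polynomial ℕ) (hp : ∀ A, Clocked A 1 p T) (O : Oracle)
    (x : List Bool) (N : ℕ)
    (hN : T.eval x.length * (2 * (x.length + T.eval x.length + 1) + 1) ≤ N) :
    Accepts O p [x] ↔ ∃ u : List Bool, u.length = N ∧
      (∀ e ∈ tabW u, e = [] ∨ (e.headD false = true ↔ O e.tail = true)) ∧
      ∀ u' : List Bool, u'.length = N → Accepts (look (tabW u) (tabW u')) p [x] := by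
  have htl : totalLength [x] = x.length := by simp [totalLength]
  have hacc : ∀ A : Oracle, Accepts A p [x] ↔ AcceptsIn A p [x] (T.eval x.length) := by
    intro A
    have h1 := hp A [x] rfl
    rw [htl] at h1
    exact accepts_iff_of_halted h1
  obtain ⟨R, hR1, hR2, hR3⟩ := cert_iterate (x.length + T.eval x.length) O (T.eval x.length)
    (start p [x]) (fun i => by
      have := length_start_le p [x] i
      rw [htl] at this
      omega)
  have hsame : ∀ B : Oracle, (∀ w ∈ R, O w = B w) → (Accepts B p [x] ↔ Accepts O p [x]) := by
    intro B hB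
    have h1 := hR3 B hB
    rw [hacc, hacc, AcceptsIn, AcceptsIn, run, run, h1]
  have htab : ∃ v : List Bool, v.length = N ∧ tabW v = UTab_tab O R := by
    refine tabW_surj (UTab_tab O R) (t := T.eval x.length) (l := x.length + T.eval x.length + 1)
      ?_ ?_ hN
    · rw [UTab_tab, List.length_map, Finset.length_toList]
      exact hR1
    · intro e he
      rw [UTab_tab, List.mem_map] at he
      obtain ⟨w, hw, rfl⟩ := he
      have := hR2 w (Finset.mem_toList.1 hw)
      rw [List.length_cons]
      omega
  obtain ⟨v, hv1, hv2⟩ := htab
  constructor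
  · intro hO
    refine ⟨v, hv1, ?_, ?_⟩
    · intro e he
      right
      rw [hv2, UTab_tab, List.mem_map] at he
      obtain ⟨w, hw, rfl⟩ := he
      exact Iff.rfl
    · intro u' _
      refine (hsame _ ?_).2 hO
      intro w hw
      rw [hv2]
      refine UTab_look O R _ _ (fun b w h => ((UTab_mem O R b w).1 h).2) hw (Or.inl ?_)
      exact (UTab_mem O R (O w) w).2 ⟨hw, rfl⟩
  · rintro ⟨u, _, hu2, hu3⟩
    refine (hsame _ ?_).1 (hu3 v hv1)
    intro w hw
    rw [hv2]
    refine UTab_look O R _ _ ?_ hw (Or.inr ?_)
    · intro b w h
      rcases hu2 _ h with h4 | h4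
      · exact absurd h4 (by simp)
      · simp only [List.headD_cons, List.tail_cons] at h4
        cases b
        · simp only [Bool.false_eq_true, false_iff, Bool.not_eq_true] at h4
          exact h4
        · exact h4.1 rfl
    · rw [UTab_mem]
      exact ⟨fun h => h.2, fun h => ⟨hw, h⟩⟩

end Pool.Agent.H82.LM
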