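import Pool.Agent.H82.LM.UPre
import Pool.Agent.H82.LM.UAll
import Pool.Agent.H82.LM.UTab

/-!
# Row UDel: `Delta_k` is contained in `Sigma_k` (`k ≥ 2`) and closed under complement

PROOFS. `delF_compl`: the machine `seq p (cond 0 (push 0 true) (push 0 true) (push 0 false))` (the
machine `p` accepts iff it halts with `true` on top of stack `0`; the new machine halts within
`T + 4` steps; use `big_of_run`, `Big.exec`, `run_of_exec`, or `OP.simL`/`OP.toProg` as in row ClsB).
`delF_sub_sigF`: let `B A = {x | Accepts (chi (C A)) p [x]}`, `C ∈ SigF m`, `m ≥ 1`, `p` clocked by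
`T`, and `n = T * (2 * (X + T + 1) + 1)` (a polynomial, so that `run_look` applies with
`N = n.eval |x|`). Let
`F1 A = {y | ∀ j < (n' y), e_j(y) = [] ∨ ((e_j(y)).headD false = true ↔ (e_j(y)).tail ∈ C A)}` with
`e_j(y) = (tabW (unadr y).2.1).getD j []`; in terms of `sigF_all` (with the polynomial `X`, and
`(tabW u).length ≤ |u| ≤ |y|`, `tabW_length`, so all entries are covered by `j < |y|`, and beyond the
end of the list `e_j = []`), `sigF_preimage` for the `Poly` function
`adr (replicate j true) y ↦ (tabW (unadr y).2.1).getD j []` (`unadr_poly`, `tabW_poly`, `poly_getD`;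
`j` is the length of the first part), and `sigF_mixed hC`: `F1 ∈ SigF (m + 1)`.
`F2 A = {y | ∀ u', |u'| = n(|(unadr y).2.2|) → Accepts (look (tabW (unadr y).2.1) (tabW u')) p
[(unadr y).2.2]}`: it does not depend on `A`. Its complement is in `SigF 1`: matrix on `[y, u']`
with block length `n` evaluated at `|y|`, `u'` truncated to the length `n(|(unadr y).2.2|)`
(`≤ n(|y|)`, because the second part of `unadr y` is not longer than `y` - prove this by induction -
and `Alt_take`); the matrix is `OP` by `OP.sim` with `π = List (List Bool) × List (List Bool)`,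
`F A (w, (W, W')) = look W W' w` (`look_poly`). So `F2 ∈ SigF 2 ⊆ SigF (m + 1)`
(`sigF_compl_succ`, `sigF_mono'`). Then `F1 ∩ F2 ∈ SigF (m + 1)` (`sigF_inter`) and
`{x | ∃ u, |u| = n(|x|) ∧ adr u x ∈ F1 A ∩ F2 A} ∈ SigF (m + 1)` (`sigF_ex`); this is `B A` by
`run_look` with `O = chi (C A)` (`unadr_adr`; `chi` is `decide` of membership).
-/

set_option autoImplicit false

namespace Pool.Agent.H82.LM

open Pool.Agent.H9 Pool.Agent.H83

theorem delF_compl {k : ℕ} {B : Fam} (hB : B ∈ DelF k) : (fun A => (B A)ᶜ) ∈ DelF k := by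
  classical
  obtain ⟨C, hC, T, p, hp, hB⟩ := hB
  have h1 := OP.simL (S := Set.univ) 1 p T (OP.query Set.univ) (fun A _ => hp A)
    (f := fun A xs => decide (Accepts A p xs)) (fun A _ xs _ => decide_eq_true_iff)
  have h2 := h1.not
  obtain ⟨p', T', h3⟩ := OP.toProg 1 h2
  refine ⟨C, hC, T', p', fun A => (h3 A (Set.mem_univ _)).1, fun A x => ?_⟩
  rw [(h3 (chi (C A)) (Set.mem_univ _)).2 [x] rfl, fitL_of_length (show [x].length = 1 from rfl)]
  show x ∈ (B A)ᶜ ↔ (!(decide (Accepts (chi (C A)) p [x]))) = true
  rw [Set.mem_compl_iff, hB, Bool.not_eq_true', decide_eq_false_iff_not]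

/-- the polynomial bound for the length of the tables -/
private noncomputable def UDel_n (T : Polynomial ℕ) : Polynomial ℕ :=
  T * (2 * (Polynomial.X + T + 1) + 1)

private theorem UDel_eval (T : Polynomial ℕ) (k : ℕ) :
    (UDel_n T).eval k = T.eval k * (2 * (k + T.eval k + 1) + 1) := by
  simp [UDel_n]

/-- the `j`-th entry of the table -/
private def UDel_e (z : List Bool) : List Bool :=
  (tabW (unadr (unadr z).2.2).2.1).getD (unadr z).2.1.length []

private theorem UDel_e_poly : Poly UDel_e := by
  have h1 : Poly (fun z : List Bool => (unadr z).2.2) := Poly.snd' (Poly.snd' unadr_poly)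
  have h2 : Poly (fun z : List Bool => (unadr z).2.1) := Poly.fst' (Poly.snd' unadr_poly)
  have h3 : Poly (fun z : List Bool => (unadr (unadr z).2.2).2.1) := h2.comp h1
  exact poly_getD (tabW_poly h3) (Poly.length h2)

/-- the consistency of the table with the oracle -/
private def UDel_F1 (C : Fam) : Fam := fun A =>
  {y | ∀ j < (Polynomial.X : Polynomial ℕ).eval y.length, adr (List.replicate j true) y ∈
    {z | UDel_e z ∈ {y : List Bool | y = [] ∨ (y.headD false = true ↔ y.tail ∈ C A)}}}

private theorem UDel_F1_mem {m : ℕ} {C : Fam} (hC : C ∈ SigF m) : UDel_F1 C ∈ SigF (m + 1) :=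
  sigF_all (sigF_preimage (sigF_mixed hC) UDel_e_poly) Polynomial.X

private theorem UDel_F1_iff (C : Fam) (A : Oracle) (u x : List Bool) : adr u x ∈ UDel_F1 C A ↔
    ∀ e ∈ tabW u, e = [] ∨ (e.headD false = true ↔ e.tail ∈ C A) := by
  have key : ∀ j, UDel_e (adr (List.replicate j true) (adr u x)) = (tabW u).getD j [] := by
    intro j
    unfold UDel_e
    rw [unadr_adr]
    simp only [unadr_adr, List.length_replicate]
  constructor
  · intro h e he
    obtain ⟨j, hj, rfl⟩ := List.mem_iff_getElem.1 he
    have h1 : j < (Polynomial.X : Polynomial ℕ).eval (adr u x).length := by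
      rw [Polynomial.eval_X, length_adr]
      have := tabW_length u
      omega
    have h2 : UDel_e (adr (List.replicate j true) (adr u x)) = [] ∨
      ((UDel_e (adr (List.replicate j true) (adr u x))).headD false = true ↔
        (UDel_e (adr (List.replicate j true) (adr u x))).tail ∈ C A) := h j h1
    rw [key j, List.getD_eq_getElem _ _ hj] at h2
    exact h2
  · intro h j _
    show UDel_e (adr (List.replicate j true) (adr u x)) = [] ∨
      ((UDel_e (adr (List.replicate j true) (adr u x))).headD false = true ↔
        (UDel_e (adr (List.replicate j true) (adr u x))).tail ∈ C A)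
    rw [key j]
    rcases Nat.lt_or_ge j (tabW u).length with hj | hj
    · rw [List.getD_eq_getElem _ _ hj]
      exact h _ (List.getElem_mem hj)
    · left
      exact List.getD_eq_default _ _ hj

/-- the complement of the universal part -/
private def UDel_F2c (p : Prog) (T : Polynomial ℕ) : Fam := fun _ =>
  {y | ∃ u' : List Bool, u'.length = (UDel_n T).eval (unadr y).2.2.length ∧
    ¬ Accepts (look (tabW (unadr y).2.1) (tabW u')) p [(unadr y).2.2]}

private theorem UDel_snd_le : ∀ y : List Bool, (unadr y).2.2.length ≤ y.length := by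
  intro y
  induction y using unadr.induct with
  | case1 => simp [unadr]
  | case2 w => simp [unadr]
  | case3 => simp [unadr]
  | case4 x t ih =>
    rw [unadr]
    simp only [List.length_cons]
    omega

open Classical in
private theorem UDel_OP (p : Prog) (T : Polynomial ℕ) (hp : ∀ A, Clocked A 1 p T) :
    OP Set.univ (fun (_ : Oracle) (xs : List (List Bool)) =>
      !(decide (Accepts (look (tabW (unadr (xs.headD [])).2.1)
        (tabW ((xs.tail.headD []).take ((UDel_n T).eval (unadr (xs.headD [])).2.2.length)))) p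
        [(unadr (xs.headD [])).2.2]))) := by
  have hlook : OP Set.univ (fun (_ : Oracle) (a : List Bool × (List (List Bool) × List (List Bool))) =>
      look a.2.1 a.2.2 a.1) := OP.of_poly look_poly _
  have h1 := OP.sim (S := Set.univ) 1 p T hlook (fun A _ prm => hp (look prm.1 prm.2))
    (f := fun (_ : Oracle) (a : {xs : List (List Bool) // xs.length = 1} ×
      (List (List Bool) × List (List Bool))) => decide (Accepts (look a.2.1 a.2.2) p a.1.1))
    (fun A _ a => decide_eq_true_iff)
  have hy : Poly (fun xs : List (List Bool) => xs.headD []) := Poly.headD [] Poly.id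
  have hu : Poly (fun xs : List (List Bool) => xs.tail.headD []) := Poly.headD [] (Poly.tail Poly.id)
  have hx : Poly (fun xs : List (List Bool) => (unadr (xs.headD [])).2.2) :=
    (Poly.snd' (Poly.snd' unadr_poly)).comp hy
  have hw : Poly (fun xs : List (List Bool) => (unadr (xs.headD [])).2.1) :=
    (Poly.fst' (Poly.snd' unadr_poly)).comp hy
  have h2 : OP Set.univ (fun (_ : Oracle) (xs : List (List Bool)) =>
      ((⟨[(unadr (xs.headD [])).2.2], rfl⟩ : {xs : List (List Bool) // xs.length = 1}),
        (tabW (unadr (xs.headD [])).2.1,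
          tabW ((xs.tail.headD []).take ((UDel_n T).eval (unadr (xs.headD [])).2.2.length))))) :=
    (OP.subtype_mk (D := fun xs : List (List Bool) => xs.length = 1)
      (OP.of_poly (Poly.cons hx (Pool.Agent.H83.Poly.const [])) Set.univ) (fun _ _ => rfl)).pair
      (OP.of_poly ((tabW_poly hw).pair (tabW_poly (poly_take hu
        (Poly.polyEval (UDel_n T) (Poly.length hx))))) Set.univ)
  exact (h1.comp h2).not

private theorem UDel_F2c_mem (p : Prog) (T : Polynomial ℕ) (hp : ∀ A, Clocked A 1 p T) :
    UDel_F2c p T ∈ SigF 1 := by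
  classical
  have h1 := sigF_of_OP 1 (UDel_n T) (UDel_OP p T hp)
  have h2 : UDel_F2c p T = (fun A => {x : List Bool | Alt true 1 ((UDel_n T).eval x.length)
      (fun us => (fun (_ : Oracle) (xs : List (List Bool)) =>
      !(decide (Accepts (look (tabW (unadr (xs.headD [])).2.1)
        (tabW ((xs.tail.headD []).take ((UDel_n T).eval (unadr (xs.headD [])).2.2.length)))) p
        [(unadr (xs.headD [])).2.2]))) A (x :: us) = true)}) := by
    funext A
    ext y
    show (∃ u' : List Bool, u'.length = (UDel_n T).eval (unadr y).2.2.length ∧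
      ¬ Accepts (look (tabW (unadr y).2.1) (tabW u')) p [(unadr y).2.2]) ↔
      ∃ u : List Bool, u.length = (UDel_n T).eval y.length ∧
      (!(decide (Accepts (look (tabW (unadr y).2.1)
        (tabW (u.take ((UDel_n T).eval (unadr y).2.2.length)))) p
        [(unadr y).2.2]))) = true
    have hle : (UDel_n T).eval (unadr y).2.2.length ≤ (UDel_n T).eval y.length :=
      poly_mono _ (UDel_snd_le y)
    constructor
    · rintro ⟨u', hu', h⟩
      refine ⟨u' ++ List.replicate ((UDel_n T).eval y.length - (UDel_n T).eval (unadr y).2.2.length) true,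
        ?_, ?_⟩
      · rw [List.length_append, List.length_replicate, hu']
        omega
      · rw [← hu', List.take_left, Bool.not_eq_true', decide_eq_false_iff_not]
        exact h
    · rintro ⟨u, hu, h⟩
      rw [Bool.not_eq_true', decide_eq_false_iff_not] at h
      refine ⟨u.take ((UDel_n T).eval (unadr y).2.2.length), ?_, h⟩
      rw [List.length_take, hu]
      exact Nat.min_eq_left hle
  rw [h2]
  exact h1

theorem delF_sub_sigF {m : ℕ} (hm : 1 ≤ m) : DelF (m + 1) ⊆ SigF (m + 1) := by
  classical
  rintro B ⟨C, hC, T, p, hp, hB⟩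
  rw [Nat.add_sub_cancel] at hC
  have h1 := UDel_F1_mem hC
  have h2 : (fun A => (UDel_F2c p T A)ᶜ) ∈ SigF (m + 1) :=
    sigF_mono' (by omega) (sigF_compl_succ (UDel_F2c_mem p T hp))
  have h3 := sigF_ex (by omega) (sigF_inter h1 h2) (UDel_n T)
  have h4 : B = (fun A => {x : List Bool | ∃ u : List Bool, u.length = (UDel_n T).eval x.length ∧
      adr u x ∈ UDel_F1 C A ∩ (UDel_F2c p T A)ᶜ}) := by
    funext A
    ext x
    rw [hB A x, run_look p T hp (chi (C A)) x ((UDel_n T).eval x.length) (by rw [UDel_eval])]
    show _ ↔ ∃ u : List Bool, u.length = (UDel_n T).eval x.length ∧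
      adr u x ∈ UDel_F1 C A ∩ (UDel_F2c p T A)ᶜ
    refine exists_congr fun u => and_congr_right fun hu => ?_
    rw [Set.mem_inter_iff, UDel_F1_iff, Set.mem_compl_iff]
    refine and_congr ?_ ?_
    · refine forall_congr' fun e => imp_congr_right fun _ => ?_
      have h5 : (chi (C A) e.tail = true) ↔ e.tail ∈ C A := by
        unfold chi
        exact decide_eq_true_iff
      rw [h5]
    · show _ ↔ ¬ ∃ u' : List Bool, u'.length = (UDel_n T).eval (unadr (adr u x)).2.2.length ∧
        ¬ Accepts (look (tabW (unadr (adr u x)).2.1) (tabW u')) p [(unadr (adr u x)).2.2]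
      rw [unadr_adr]
      push Not
      rfl
  rw [h4]
  exact h3

end Pool.Agent.H82.LM
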