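import Pool.Agent.H82.LM.UAlt
import Pool.Agent.H82.LM.URange
import Pool.Agent.H82.LM.Parse

/-!
# Row UPre: closure properties of `SigF k`, part 1

PROOFS. Let `B` be given by `q`, `T`, `p`, and let `f A xs := decide (Accepts A p xs)`
(`OP.simL` with `G A = A` (`OP.query`): the function `xs ↦ f A (fitL (k + 1) xs)` is `OP`, and `fitL`
is the identity on lists of length `k + 1`). All proofs: choose the block length as a polynomial in
`|x|`, give the matrix as an `OP` function of the list `x :: us` (head `Poly.headD []`, tail
`Poly.tail`), apply `sigF_of_OP`, and prove the equivalence with the lemmas of row UAlt.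
* `sigF_preimage`: with `b` from `poly_length_bound`, block length `Q = q.comp b` (so
  `q(|g x|) ≤ Q(|x|)`, `poly_mono`), matrix `f A (g x :: us.map (take (q(|g x|))))`, `Alt_take`.
* `sigF_mixed`: block length `q`; matrix `y.isEmpty || bif y.headD false then
  f A (y.tail :: us.dropLast.map (take q(|y.tail|))) else !(f A (y.tail :: us.tail.map (take ..)))`;
  `Alt_take`, `Alt_dummy_last`, `Alt_dummy_first`, `Alt_not`. (For `y = []` the matrix is `true`, and
  `Alt` of a true statement is true.)
* `sigF_compl_succ`: matrix `!(f A (x :: us.tail))`, `Alt_dummy_first`, `Alt_not`.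
* `sigF_inter`: let `q1`, `q2` be the block lengths, `Q = q1 + q2`, new block length `Q + Q`, matrix
  `f1 A (x :: (us.map (take Q)).map (take q1)) && f2 A (x :: (us.map (drop Q)).map (take q2))`;
  `Alt_and`, `Alt_take`.
-/

set_option autoImplicit false

namespace Pool.Agent.H82.LM

open Pool.Agent.H9 Pool.Agent.H83

theorem UPre_rep {k : ℕ} {B : Fam} (hB : B ∈ SigF k) :
    ∃ (q : Polynomial ℕ) (g : Oracle → List (List Bool) → Bool), OP Set.univ g ∧
      ∀ A x, x ∈ B A ↔ Alt true k (q.eval x.length) (fun us => g A (x :: us) = true) := by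
  classical
  obtain ⟨q, T, p, hp, hB⟩ := hB
  have hF := OP.simL (S := Set.univ) (k + 1) p T (G := fun A w => A w) (OP.query Set.univ)
      (fun A _ => hp A) (f := fun (A : Oracle) (xs : List (List Bool)) => decide (Accepts A p xs))
      (fun A _ xs _ => decide_eq_true_iff)
  refine ⟨q, _, hF, fun A x => ?_⟩
  rw [hB A x]
  apply Alt_congr
  intro us hus _
  have h3 : fitL (k + 1) (x :: us) = x :: us :=
    fitL_of_length (by rw [List.length_cons, hus])
  simp only [h3, decide_eq_true_eq]

theorem UPre_mk {k : ℕ} (q : Polynomial ℕ) {g : Oracle → List (List Bool) → Bool}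
    (hg : OP Set.univ g) {B : Fam}
    (h : ∀ A x, x ∈ B A ↔ Alt true k (q.eval x.length) (fun us => g A (x :: us) = true)) :
    B ∈ SigF k := by
  have h1 := sigF_of_OP k q hg
  have h2 : B = (fun A => {x : List Bool | Alt true k (q.eval x.length)
      (fun us => g A (x :: us) = true)}) := by
    funext A
    ext x
    exact h A x
  rw [h2]
  exact h1

theorem UPre_true (e : Bool) (k m : ℕ) : Alt e k m (fun _ => True) := by
  induction k generalizing e with
  | zero => trivial
  | succ k ih =>
    cases e
    · exact fun u _ => ih true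
    · exact ⟨List.replicate m true, by simp, ih false⟩

theorem sigF_preimage {k : ℕ} {B : Fam} (hB : B ∈ SigF k) {g : List Bool → List Bool}
    (hg : Poly g) : (fun A => {x | g x ∈ B A}) ∈ SigF k := by
  obtain ⟨q, f, hf, hB⟩ := UPre_rep hB
  obtain ⟨b, hb⟩ := poly_length_bound hg
  have hx : Poly (fun xs : List (List Bool) => g (xs.headD [])) :=
    hg.comp (Poly.headD [] Poly.id)
  have h1 : Poly (fun xs : List (List Bool) => g (xs.headD []) ::
      xs.tail.map (List.take (q.eval (g (xs.headD [])).length))) :=
    Poly.cons hx (poly_mapTake (Poly.tail Poly.id) (Poly.polyEval q (Poly.length hx)))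
  refine UPre_mk (q.comp b) (OP.comp hf (OP.of_poly h1 Set.univ)) fun A x => ?_
  have h2 : q.eval (g x).length ≤ (q.comp b).eval x.length := by
    rw [Polynomial.eval_comp]
    exact poly_mono q (hb x)
  change g x ∈ B A ↔ Alt true k ((q.comp b).eval x.length)
    (fun us => f A (g x :: us.map (List.take (q.eval (g x).length))) = true)
  rw [Alt_take true k h2 (fun us => f A (g x :: us) = true)]
  exact hB A (g x)

theorem sigF_mixed {m : ℕ} {C : Fam} (hC : C ∈ SigF m) :
    (fun A => {y : List Bool | y = [] ∨ (y.headD false = true ↔ y.tail ∈ C A)}) ∈ SigF (m + 1) := by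
  obtain ⟨q, f, hf, hC⟩ := UPre_rep hC
  have hy : Poly (fun xs : List (List Bool) => xs.headD []) := Poly.headD [] Poly.id
  have ht : Poly (fun xs : List (List Bool) => (xs.headD []).tail) := Poly.tail hy
  have hq : Poly (fun xs : List (List Bool) => q.eval (xs.headD []).tail.length) :=
    Poly.polyEval q (Poly.length ht)
  have h1 : Poly (fun xs : List (List Bool) => (xs.headD []).tail ::
      xs.tail.dropLast.map (List.take (q.eval (xs.headD []).tail.length))) :=
    Poly.cons ht (poly_mapTake (poly_dropLast (Poly.tail Poly.id)) hq)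
  have h2 : Poly (fun xs : List (List Bool) => (xs.headD []).tail ::
      xs.tail.tail.map (List.take (q.eval (xs.headD []).tail.length))) :=
    Poly.cons ht (poly_mapTake (Poly.tail (Poly.tail Poly.id)) hq)
  have h3 : OP Set.univ (fun (A : Oracle) (xs : List (List Bool)) =>
      (xs.headD []).isEmpty || (bif (xs.headD []).headD false then
        f A ((xs.headD []).tail ::
          xs.tail.dropLast.map (List.take (q.eval (xs.headD []).tail.length)))
      else !(f A ((xs.headD []).tail ::
          xs.tail.tail.map (List.take (q.eval (xs.headD []).tail.length)))))) := by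
    refine OP.or (OP.of_poly (Poly.isEmpty hy) Set.univ) ?_
    refine OP.cond (OP.of_poly (Poly.headD false hy) Set.univ)
      (OP.comp hf (OP.of_poly h1 Set.univ)) ?_
    exact OP.not (OP.comp hf (OP.of_poly h2 Set.univ))
  refine UPre_mk q h3 fun A y => ?_
  match y with
  | [] =>
    constructor
    · intro _
      exact (Alt_congr (fun us _ _ => by simp)).1 (UPre_true true (m + 1) (q.eval 0))
    · intro _
      exact Or.inl rfl
  | true :: t =>
    have hle : q.eval t.length ≤ q.eval (true :: t).length := poly_mono q (by simp)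
    have e1 := Alt_dummy_last true m (q.eval (true :: t).length)
      (fun us => f A (t :: us.map (List.take (q.eval t.length))) = true)
    have e2 := Alt_take true m hle (fun us => f A (t :: us) = true)
    have e3 := hC A t
    have e4 : true :: t ∈ {y : List Bool | y = [] ∨ (y.headD false = true ↔ y.tail ∈ C A)} ↔
        t ∈ C A := by
      simp
    rw [e4, e3, ← e2, ← e1]
    apply Alt_congr
    intro us _ _
    simp
  | false :: t =>
    have hle : q.eval t.length ≤ q.eval (false :: t).length := poly_mono q (by simp)
    have e1 := Alt_dummy_first true m (q.eval (false :: t).length)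
      (fun us => ¬ f A (t :: us.map (List.take (q.eval t.length))) = true)
    have e2 := Alt_take true m hle (fun us => f A (t :: us) = true)
    have e3 := hC A t
    have e5 := Alt_not true m (q.eval (false :: t).length)
      (fun us => f A (t :: us.map (List.take (q.eval t.length))) = true)
    have e4 : false :: t ∈ {y : List Bool | y = [] ∨ (y.headD false = true ↔ y.tail ∈ C A)} ↔
        ¬ t ∈ C A := by
      simp
    rw [e4, e3, ← e2, e5, ← e1]
    apply Alt_congr
    intro us _ _
    simp

theorem sigF_compl_succ {k : ℕ} {B : Fam} (hB : B ∈ SigF k) : (fun A => (B A)ᶜ) ∈ SigF (k + 1) := by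
  obtain ⟨q, f, hf, hB⟩ := UPre_rep hB
  have h1 : Poly (fun xs : List (List Bool) => xs.headD [] :: xs.tail.tail) :=
    Poly.cons (Poly.headD [] Poly.id) (Poly.tail (Poly.tail Poly.id))
  refine UPre_mk q (OP.not (OP.comp hf (OP.of_poly h1 Set.univ))) fun A x => ?_
  have e1 := Alt_dummy_first true k (q.eval x.length) (fun us => ¬ f A (x :: us) = true)
  have e2 := Alt_not true k (q.eval x.length) (fun us => f A (x :: us) = true)
  rw [Set.mem_compl_iff, hB A x, e2, ← e1]
  apply Alt_congr
  intro us _ _
  simp

theorem sigF_inter {k : ℕ} {B B' : Fam} (hB : B ∈ SigF k) (hB' : B' ∈ SigF k) :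
    (fun A => B A ∩ B' A) ∈ SigF k := by
  obtain ⟨q1, f1, hf1, hB⟩ := UPre_rep hB
  obtain ⟨q2, f2, hf2, hB'⟩ := UPre_rep hB'
  have hx : Poly (fun xs : List (List Bool) => xs.headD []) := Poly.headD [] Poly.id
  have hl := Poly.length hx
  have h1 : Poly (fun xs : List (List Bool) => xs.headD [] ::
      (xs.tail.map (List.take ((q1 + q2).eval (xs.headD []).length))).map
        (List.take (q1.eval (xs.headD []).length))) :=
    Poly.cons hx (poly_mapTake (poly_mapTake (Poly.tail Poly.id) (Poly.polyEval _ hl))
      (Poly.polyEval _ hl))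
  have h2 : Poly (fun xs : List (List Bool) => xs.headD [] ::
      (xs.tail.map (List.drop ((q1 + q2).eval (xs.headD []).length))).map
        (List.take (q2.eval (xs.headD []).length))) :=
    Poly.cons hx (poly_mapTake (poly_mapDrop (Poly.tail Poly.id) (Poly.polyEval _ hl))
      (Poly.polyEval _ hl))
  refine UPre_mk ((q1 + q2) + (q1 + q2)) (OP.and (OP.comp hf1 (OP.of_poly h1 Set.univ))
    (OP.comp hf2 (OP.of_poly h2 Set.univ))) fun A x => ?_
  have hle1 : q1.eval x.length ≤ (q1 + q2).eval x.length := by
    rw [Polynomial.eval_add]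
    exact Nat.le_add_right _ _
  have hle2 : q2.eval x.length ≤ (q1 + q2).eval x.length := by
    rw [Polynomial.eval_add]
    exact Nat.le_add_left _ _
  have e1 := Alt_take true k hle1 (fun us => f1 A (x :: us) = true)
  have e2 := Alt_take true k hle2 (fun us => f2 A (x :: us) = true)
  have e3 := Alt_and true k ((q1 + q2).eval x.length)
    (fun us => f1 A (x :: us.map (List.take (q1.eval x.length))) = true)
    (fun us => f2 A (x :: us.map (List.take (q2.eval x.length))) = true)
  rw [Set.mem_inter_iff, hB A x, hB' A x, ← e1, ← e2, ← e3]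
  rw [show ((q1 + q2) + (q1 + q2)).eval x.length =
    (q1 + q2).eval x.length + (q1 + q2).eval x.length from Polynomial.eval_add]
  apply Alt_congr
  intro us _ _
  simp [List.headD]

end Pool.Agent.H82.LM
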