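import Pool.Agent.H82.LM.ClsA
import Pool.Agent.H82.LM.Meas1
import Pool.Agent.H71.RO.Pd
import Pool.Agent.H71.RO.Pe
import Pool.Agent.H71.RO.Cd

/-!
# Row URO: the random oracle theorem for the uniform measure

PROOFS. `Lk_family`: as `Lk_mem` (Pool/Agent/H71/RO/Mc.lean), with the uniform time bound of
`run_prog` (see the proof of `prog_poly`: `(k + 40) X + (k + 40)`).
`defLe_mu`: the event `{A | ∀ w, |w| ≤ m → A w = a w}` is a box over the finset of the
`2 ^ (m + 1) - 1` words of length at most `m` (`Finset.sum` of `card_strings` over `range (m + 1)`),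
`Measure.infinitePi_pi` and `coin_singleton` give `(1/2) ^ (2 ^ (m + 1) - 1)`, which is
`ENNReal.ofReal (2 ^ (0 - (2 ^ (m + 1) - 1)))` (real exponent; `Real.rpow_neg`, `Real.rpow_natCast`).
`ae_Lk`: copy the first part of the proof of `result` in
Pool/Agent/H71/Parked/RandomnessThreshold.lean (with `D = 0`, `hfreq` trivial because
`0 ≤ 2 ^ (m ^ ε)` for all `m`): `∀ᵐ A ∂mu, ∀ k, Lk A k ∉ SigmaPoly A k`, and
`SigmaP A k ⊆ SigmaPoly A k` (`sigma_poly`).
-/

set_option autoImplicit false

namespace Pool.Agent.H82.LM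

open Pool.Agent.H9 Pool.Agent.H71.RO MeasureTheory

theorem URO_countable : Countable (Polynomial ℕ) := by
  rw [← Cardinal.mk_le_aleph0_iff]
  refine (Polynomial.cardinalMk_le_max (R := ℕ)).trans ?_
  simp

theorem URO_card (m : ℕ) : ((Finset.range (m + 1)).biUnion strings).card = 2 ^ (m + 1) - 1 := by
  rw [Finset.card_biUnion]
  · rw [Finset.sum_congr rfl fun i _ => card_strings i]
    have h := Nat.geomSum_eq (m := 2) le_rfl (m + 1)
    rw [h]
    omega
  · intro i _ j _ hij
    show Disjoint (strings i) (strings j)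
    rw [Finset.disjoint_left]
    intro w hw hw'
    exact hij ((mem_strings.1 hw).symm.trans (mem_strings.1 hw'))

theorem Lk_family (k : ℕ) : (fun A => Lk A k) ∈ SigF (k + 1) := by
  refine ⟨Polynomial.X, Polynomial.C (k + 40) * Polynomial.X + Polynomial.C (k + 40), prog k,
    fun A xs hxs => ?_, fun A z => ?_⟩
  · obtain ⟨s', h, -⟩ := run_prog A k xs hxs
    rw [Polynomial.eval_add, Polynomial.eval_mul, Polynomial.eval_C, Polynomial.eval_X, h]
  · rw [Polynomial.eval_X]
    exact Iff.rfl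

theorem defLe_mu (m : ℕ) : DefLe mu m 0 := by
  intro a
  obtain ⟨R, hR⟩ : ∃ R : Finset (List Bool), R = (Finset.range (m + 1)).biUnion strings := ⟨_, rfl⟩
  have hmem : ∀ w : List Bool, w ∈ R ↔ w.length ≤ m := by
    intro w
    rw [hR, Finset.mem_biUnion]
    constructor
    · rintro ⟨i, hi, hw⟩
      rw [mem_strings.1 hw]
      have := Finset.mem_range.1 hi
      omega
    · intro hw
      exact ⟨w.length, Finset.mem_range.2 (by omega), mem_strings.2 rfl⟩
  have hev : {A : Oracle | ∀ w : List Bool, w.length ≤ m → A w = a w} =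
      (R : Set (List Bool)).pi fun w => ({a w} : Set Bool) := by
    ext A
    rw [Set.mem_pi]
    constructor
    · intro h w hw
      exact h w ((hmem w).1 hw)
    · intro h w hw
      exact h w ((hmem w).2 hw)
  have hcyl : mu ((R : Set (List Bool)).pi fun w => ({a w} : Set Bool)) = (1 / 2) ^ R.card := by
    unfold mu
    rw [Measure.infinitePi_pi _ fun i _ => measurableSet_singleton _]
    rw [Finset.prod_congr rfl fun i _ => coin_singleton (a i), Finset.prod_const]
  have hcard : R.card = 2 ^ (m + 1) - 1 := by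
    rw [hR]
    exact URO_card m
  have h1 : (0 : ℝ) - (2 ^ (m + 1) - 1) = -((2 ^ (m + 1) - 1 : ℕ) : ℝ) := by
    rw [Nat.cast_sub Nat.one_le_two_pow]
    push_cast
    ring
  have h2 : (2 : ℝ) ^ ((0 : ℝ) - (2 ^ (m + 1) - 1)) = (1 / 2) ^ (2 ^ (m + 1) - 1) := by
    rw [h1, Real.rpow_neg zero_le_two, Real.rpow_natCast, one_div, inv_pow]
  rw [hev, hcyl, hcard, h2, ENNReal.ofReal_pow (by norm_num)]
  have h3 : ENNReal.ofReal (1 / 2) = 1 / 2 := by
    rw [ENNReal.ofReal_div_of_pos two_pos, ENNReal.ofReal_one, ENNReal.ofReal_ofNat]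
  rw [h3]

theorem ae_Lk : ∀ᵐ Y ∂mu, ∀ k : ℕ, Lk Y k ∉ SigmaP Y k := by
  have hnull : ∀ (k : ℕ), ∀ᵐ A ∂mu, Lk A k ∉ SigmaPoly A k := by
    intro k
    have := URO_countable
    have hall : ∀ᵐ A ∂mu, ∀ (q r T : Polynomial ℕ) (p : Prog),
        ¬ ∀ (n : ℕ) (as : List ℕ) (b : ℕ), as.length = k + 1 → Ev k q r T p as b n A := by
      rw [ae_all_iff]; intro q
      rw [ae_all_iff]; intro r
      rw [ae_all_iff]; intro T
      rw [ae_all_iff]; intro p
      rw [ae_iff]
      have h := null_set (D := fun _ => 0) defLe_mu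
        (fun ε _ => (Filter.Eventually.of_forall fun m => by positivity).frequently) k q r T p
      simpa only [not_not] using h
    filter_upwards [hall] with A hA hmem
    obtain ⟨q, r, T, p, h⟩ := ev_of_mem hmem
    exact hA q r T p h
  have hnull' : ∀ᵐ A ∂mu, ∀ k, Lk A k ∉ SigmaPoly A k := by
    rw [ae_all_iff]; exact hnull
  filter_upwards [hnull'] with A hA k hk
  exact hA k (sigma_poly A k hk)

end Pool.Agent.H82.LM
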