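import Pool.Agent.H82.LM.UDel
import Pool.Agent.H82.LM.ClsC

/-!
# Row USep: if `Sigma_k^Y ⊆ Delta_k^Y` then `Sigma_(k+1)^Y ⊆ Sigma_k^Y`

PROOF. Let `B ∈ SigF (k + 1)`, and let `n`, `G ∈ SigF k` be given by `sigF_succ`. By hypothesis there
is `G' ∈ DelF k` with `G' Y = G Y`; its complement is in `DelF k` (`delF_compl`), hence in `SigF k`
(`delF_sub_sigF`, `k = m + 1`, `m ≥ 1`). By `sigF_ex` the family
`A ↦ {x | ∃ u, |u| = n(|x|) ∧ adr u x ∈ (G' A)ᶜ}` is in `SigF k`, and at `A = Y` it is `B Y`. Finally a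
family of `SigF k` at `Y` is in `SigmaP Y k` by definition.
-/

set_option autoImplicit false

namespace Pool.Agent.H82.LM

open Pool.Agent.H9 Pool.Agent.H83

theorem sigmaP_of_sigF {k : ℕ} {B : Fam} (hB : B ∈ SigF k) (Y : Oracle) : B Y ∈ SigmaP Y k := by
  obtain ⟨q, T, p, h1, h2⟩ := hB
  exact ⟨q, p, ⟨T, h1 _⟩, fun x => h2 _ x⟩

theorem sep {k : ℕ} (hk : 2 ≤ k) {Y : Oracle} (h : ∀ B ∈ SigF k, ∃ B' ∈ DelF k, B' Y = B Y)
    {B : Fam} (hB : B ∈ SigF (k + 1)) : B Y ∈ SigmaP Y k := by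
  obtain ⟨n, G, hG, hGB⟩ := sigF_succ hB
  obtain ⟨G', hG', hY⟩ := h G hG
  obtain ⟨m, rfl⟩ : ∃ m, k = m + 1 := ⟨k - 1, by omega⟩
  have h1 := sigF_ex (by omega) (delF_sub_sigF (by omega) (delF_compl hG')) n
  have h2 := sigmaP_of_sigF h1 Y
  convert h2 using 1
  ext x
  rw [hGB, ← hY]
  rfl

end Pool.Agent.H82.LM
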