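import Pool.Agent.H82.LM.Big

/-!
# Row Wrap: from functions on codes to machines on strings

PROOF of `OP.toProg`. The input `xs = [x_0, ..., x_(j-1)]` is on the stacks `0, ..., j - 1`
(`start`). Case `j = 0`: push the code `str [] = [false]` and run the program of `F`. Case `j ≥ 1`:
`moveAll 0 (j + 1)`, `moveAll (j + 1) j` put `x_0` on stack `j` (two reversals) and empty stack `0`;
`push 0 false` (this is `str []`); for `i = j - 1, j - 2, ..., 1`: `encode i (j + 1)`
(row Raw, `exec_encode`), `push 0 true` (then stack `0` is `str [x_i, ..., x_(j-1)]`, by
`str_lcons`); finally `encode j (j + 1)`, `push 0 true`. Now the memory is `st (str xs)`; run the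
program `P` of `hF` (with `rest = []`). The final memory is `st (str (F A xs))`, and the first symbol
of `str b` is `b`. The machine halts after these steps (`run_of_exec`; `accepts_iff_of_halted`).
`sz xs` is bounded by `5 * totalLength xs + 2 * j + 1`, time bounds are monotone (`OP.exists_prog`),
`PB` gives a polynomial.

PROOF of `polyFun_of_poly`. Relative to the empty oracle: `x` on stack `0`; `moveAll 0 2`,
`moveAll 2 1` (now `x` on stack `1`), `encode 1 2`: memory `st (str x)`. Run the program of `f`
(`OP.of_poly hf {A}`): `st (str (f x))`. `decode 1 2 3`: `f x` is on stack `1`, stack `0` is empty;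
`moveAll 1 2`, `moveAll 2 0`.
-/

set_option autoImplicit false

namespace Pool.Agent.H82.LM

open Pool.Agent.H9 Pool.Agent.H83

theorem Wrap_sz_bool (b : Bool) : sz b ≤ 3 := by
  rw [← length_str]
  cases b
  · rw [str_false]; simp
  · rw [str_true]; simp

theorem Wrap_sz_word (w : List Bool) : sz w ≤ 4 * w.length + 1 ∧ w.length ≤ sz w := by
  induction w with
  | nil =>
    rw [← length_str, str_lnil]
    simp
  | cons b w ih =>
    have h1 := Wrap_sz_bool b
    have h2 : sz (b :: w) = sz b + sz w + 1 := by
      rw [← length_str, str_lcons]
      simp
    rw [h2, List.length_cons]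
    omega

theorem Wrap_sz_list (xs : List (List Bool)) :
    sz xs ≤ 4 * totalLength xs + 2 * xs.length + 1 := by
  induction xs with
  | nil =>
    rw [← length_str, str_lnil]
    simp
  | cons x xs ih =>
    have h1 := (Wrap_sz_word x).1
    have h2 : sz (x :: xs) = sz x + sz xs + 1 := by
      rw [← length_str, str_lcons]
      simp
    have h3 : totalLength (x :: xs) = x.length + totalLength xs := by
      simp [totalLength]
    rw [h2, h3, List.length_cons]
    omega

/-- Encode the contents of the stacks of a list, as a list of words, on stack `0`. -/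
def wencs (c : ℕ) : List ℕ → Prog
  | [] => .push 0 false
  | i :: is => .seq (wencs c is) (.seq (encode i c) (.push 0 true))

theorem exec_wencs (A : Oracle) (c : ℕ) (hc : c ≠ 0) : ∀ (is : List ℕ), is.Nodup → 0 ∉ is →
    c ∉ is → ∀ s : ℕ → List Bool, s c = [] →
    Exec A (wencs c is) s
      (fun m => if m = 0 then str (is.map s) ++ s 0 else if m ∈ is then [] else s m)
      (30 * ((is.map s).map List.length).sum + 33 * is.length + 1) := by
  intro is
  induction is with
  | nil =>
    intro _ _ _ s _
    have h := exec_push A s 0 false
    have e : Function.update s 0 (false :: s 0) = (fun m => if m = 0 then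
        str (([] : List ℕ).map s) ++ s 0 else if m ∈ ([] : List ℕ) then [] else s m) := by
      funext m
      by_cases hm : m = 0
      · subst hm
        simp [str_lnil]
      · simp [hm]
    rw [← e]
    exact h.mono (by simp)
  | cons i is ih =>
    intro hnd h0 hcm s hs
    have hi0 : i ≠ 0 := fun h => h0 (by simp [h])
    have hic : i ≠ c := fun h => hcm (by simp [h])
    have hii : i ∉ is := (List.nodup_cons.1 hnd).1
    have hci : c ∉ is := fun h => hcm (by simp [h])
    have h1 := ih hnd.of_cons (fun h => h0 (by simp [h])) hci s hs
    set s1 : ℕ → List Bool :=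
      fun m => if m = 0 then str (is.map s) ++ s 0 else if m ∈ is then [] else s m with hs1
    have e0 : s1 0 = str (is.map s) ++ s 0 := by rw [hs1]; simp
    have ec : s1 c = [] := by rw [hs1]; simp [hc, hci, hs]
    have ei : s1 i = s i := by rw [hs1]; simp [hi0, hii]
    have h2 := exec_encode A hi0 hc hic s1 ec
    have h3 := exec_push A (Function.update (Function.update s1 0 (str (s1 i) ++ s1 0)) i []) 0 true
    have h4 := h1.seq (h2.seq h3)
    have e : Function.update (Function.update (Function.update s1 0 (str (s1 i) ++ s1 0)) i []) 0
        (true :: (Function.update (Function.update s1 0 (str (s1 i) ++ s1 0)) i []) 0) =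
        (fun m => if m = 0 then
        str ((i :: is).map s) ++ s 0 else if m ∈ i :: is then [] else s m) := by
      funext m
      by_cases hm : m = 0
      · subst hm
        rw [Function.update_self, Function.update_of_ne (Ne.symm hi0), Function.update_self,
          if_pos rfl, ei, e0, List.map_cons, str_lcons]
        simp
      · rw [Function.update_of_ne hm, if_neg hm]
        by_cases hmi : m = i
        · subst hmi
          rw [Function.update_self, if_pos (by simp)]
        · rw [Function.update_of_ne hmi, Function.update_of_ne hm, hs1]
          simp [hm, hmi]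
    rw [e] at h4
    refine h4.mono ?_
    rw [ei]
    simp only [List.map_cons, List.sum_cons, List.length_cons]
    omega

/-- Move stack `0` to stack `j`, over stack `j + 1`. -/
def wmove (c j : ℕ) : Prog := .seq (moveAll 0 c) (moveAll c j)

theorem exec_wmove (A : Oracle) {c j : ℕ} (hc : c ≠ 0) (hj : j ≠ 0) (hcj : c ≠ j)
    (s : ℕ → List Bool) (h1 : s c = []) (h2 : s j = []) :
    Exec A (wmove c j) s (Function.update (Function.update s 0 []) j (s 0))
      (10 * (s 0).length + 3) := by
  obtain ⟨t, ht, t1, t2, t3⟩ := exec_moveAll A (Ne.symm hc) s
  obtain ⟨u, hu, u1, u2, u3⟩ := exec_moveAll A hcj t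
  have e : u = Function.update (Function.update s 0 []) j (s 0) := by
    funext m
    by_cases hmj : m = j
    · subst hmj
      rw [u2, t2, Function.update_self, h1, t3 m hj (Ne.symm hcj), h2]
      simp
    · rw [Function.update_of_ne hmj]
      by_cases hm0 : m = 0
      · subst hm0
        rw [u3 0 (Ne.symm hc) (Ne.symm hj), t1, Function.update_self]
      · rw [Function.update_of_ne hm0]
        by_cases hmc : m = c
        · subst hmc
          rw [u1, h1]
        · rw [u3 m hmc hmj, t3 m hm0 hmc]
  rw [← e]
  refine (ht.seq hu).mono ?_
  rw [t2, h1]
  simp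
  omega

theorem Wrap_map (xs : List (List Bool)) (s : ℕ → List Bool) (k : ℕ)
    (h : ∀ i, i < xs.length → s (k + i) = xs.getD i []) :
    (List.range' k xs.length).map s = xs := by
  induction xs generalizing k with
  | nil => simp
  | cons x xs ih =>
    rw [List.length_cons, List.range'_succ, List.map_cons]
    have h0 := h 0 (by simp)
    rw [add_zero] at h0
    rw [h0, ih (k + 1)]
    · simp
    · intro i hi
      have h1 := h (i + 1) (by simp [hi])
      rw [show k + 1 + i = k + (i + 1) by ring, h1]
      simp

/-- The loading program. -/
def wload : ℕ → Prog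
  | 0 => .push 0 false
  | j + 1 => .seq (wmove (j + 2) (j + 1)) (wencs (j + 2) ((j + 1) :: List.range' 1 j))

theorem exec_wload (A : Oracle) (xs : List (List Bool)) :
    Exec A (wload xs.length) (fun i => xs.getD i []) (st (str xs))
      (50 * totalLength xs + 40 * xs.length + 5) := by
  cases xs with
  | nil =>
    have h := exec_push A (fun i => ([] : List (List Bool)).getD i []) 0 false
    have e : Function.update (fun i => ([] : List (List Bool)).getD i []) 0
        (false :: ([] : List (List Bool)).getD 0 []) = st (str ([] : List (List Bool))) := by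
      funext m
      by_cases hm : m = 0
      · subst hm
        simp [st, str_lnil]
      · simp [st, hm]
    rw [← e]
    exact h.mono (by simp)
  | cons x xs =>
    set j := xs.length with hj
    set s : ℕ → List Bool := fun i => (x :: xs).getD i [] with hs
    have hbig : ∀ i, j + 1 ≤ i → s i = [] := by
      intro i hi
      rw [hs]
      simp only [List.getD_eq_getElem?_getD]
      rw [List.getElem?_eq_none_iff.mpr (by simp; omega)]
      rfl
    have hs0 : s 0 = x := by rw [hs]; simp
    have h1 := exec_wmove A (c := j + 2) (j := j + 1) (by omega) (by omega) (by omega) s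
      (hbig _ (by omega)) (hbig _ (by omega))
    rw [hs0] at h1
    set t := Function.update (Function.update s 0 []) (j + 1) x with ht
    have h2 := exec_wencs A (j + 2) (by omega) ((j + 1) :: List.range' 1 j) (by
        rw [List.nodup_cons]
        refine ⟨?_, List.nodup_range'⟩
        intro h
        rw [List.mem_range'] at h
        obtain ⟨i, hi, hi'⟩ := h
        omega) (by
        intro h
        rw [List.mem_cons, List.mem_range'] at h
        rcases h with h | ⟨i, hi, hi'⟩ <;> omega) (by
        intro h
        rw [List.mem_cons, List.mem_range'] at h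
        rcases h with h | ⟨i, hi, hi'⟩ <;> omega) t (by
        rw [ht, Function.update_of_ne (by omega), Function.update_of_ne (by omega)]
        exact hbig _ (by omega))
    have hmap : ((j + 1) :: List.range' 1 j).map t = x :: xs := by
      rw [List.map_cons, ht, Function.update_self, hj, Wrap_map]
      intro i hi
      rw [Function.update_of_ne (by omega), Function.update_of_ne (by omega), hs]
      simp only [add_comm 1 i, List.getD_cons_succ]
    rw [hmap] at h2
    have e : (fun m => if m = 0 then str (x :: xs) ++ t 0 else
        if m ∈ (j + 1) :: List.range' 1 j then [] else t m) = st (str (x :: xs)) := by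
      funext m
      unfold st
      by_cases hm : m = 0
      · subst hm
        rw [if_pos rfl, if_pos rfl, ht, Function.update_of_ne (by omega), Function.update_self,
          List.append_nil]
      · rw [if_neg hm, if_neg hm]
        split_ifs with h3
        · rfl
        · rw [List.mem_cons, List.mem_range'] at h3
          push Not at h3
          rw [ht, Function.update_of_ne h3.1, Function.update_of_ne hm]
          apply hbig
          by_contra h4
          exact h3.2 (m - 1) (by omega) (by omega)
    rw [e] at h2
    refine (h1.seq h2).mono ?_
    simp only [List.length_cons, List.length_range', totalLength, List.map_cons, List.sum_cons]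
    omega

theorem OP.toProg (j : ℕ) {S : Set Oracle} {F : Oracle → List (List Bool) → Bool} (hF : OP S F) :
    ∃ (p : Prog) (T : Polynomial ℕ), ∀ A ∈ S, Clocked A j p T ∧
      ∀ xs : List (List Bool), xs.length = j → (Accepts A p xs ↔ F A xs = true) := by
  obtain ⟨P, N, ⟨Q, hQ⟩, hN, hP⟩ := hF.exists_prog
  refine ⟨.seq (wload j) P, 50 * Polynomial.X + Polynomial.C (40 * j + 6) +
    Q.comp (4 * Polynomial.X + Polynomial.C (2 * j + 1)), fun A hA => ?_⟩
  have key : ∀ xs : List (List Bool), xs.length = j →
      run A (.seq (wload j) P) xs ((50 * Polynomial.X + Polynomial.C (40 * j + 6) +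
        Q.comp (4 * Polynomial.X + Polynomial.C (2 * j + 1)) : Polynomial ℕ).eval
        (totalLength xs)) = ([], st (str (F A xs))) := by
    intro xs hxs
    apply run_of_exec
    have h1 := exec_wload A xs
    rw [hxs] at h1
    have h2 := hP A hA xs []
    rw [List.append_nil, List.append_nil] at h2
    refine (h1.seq h2).mono ?_
    have h3 := Wrap_sz_list xs
    rw [hxs] at h3
    have h4 := (hN h3).trans (hQ _)
    have h5 : (50 * Polynomial.X + Polynomial.C (40 * j + 6) +
        Q.comp (4 * Polynomial.X + Polynomial.C (2 * j + 1)) : Polynomial ℕ).eval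
        (totalLength xs) = 50 * totalLength xs + (40 * j + 6) +
        Q.eval (4 * totalLength xs + (2 * j + 1)) := by
      simp [Polynomial.eval_comp]
    rw [h5]
    rw [show 4 * totalLength xs + 2 * j + 1 = 4 * totalLength xs + (2 * j + 1) by ring] at h4
    omega
  refine ⟨fun xs hxs => by rw [key xs hxs], fun xs hxs => ?_⟩
  rw [accepts_iff_of_halted (by rw [key xs hxs])]
  unfold AcceptsIn
  rw [key xs hxs]
  simp only [st, if_true, true_and]
  cases F A xs
  · rw [str_false]; simp
  · rw [str_true]; simp

theorem polyFun_of_poly {f : List Bool → List Bool} (hf : Poly f) : PolyFun f := by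
  set A : Oracle := fun _ => false with hA
  obtain ⟨P, N, ⟨Q, hQ⟩, hN, hP⟩ := (OP.of_poly hf {A}).exists_prog
  obtain ⟨g, ⟨R, hR⟩, hg, hfg⟩ := hf.size_le
  refine ⟨.seq (wmove 2 1) (.seq (encode 1 2) (.seq P (.seq (decode 1 2 3)
    (.seq (moveAll 1 2) (moveAll 2 0))))),
    50 * Polynomial.X + 100 + Q.comp (4 * Polynomial.X + 1) +
      50 * R.comp (4 * Polynomial.X + 1), fun x => ?_⟩
  have h1 := exec_wmove A (c := 2) (j := 1) (by omega) (by omega) (by omega)
    (fun i => [x].getD i []) (by simp) (by simp)
  have e0 : [x].getD 0 [] = x := by simp
  rw [e0] at h1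
  have h2 := exec_encode A (i := 1) (c := 2) (by omega) (by omega) (by omega)
    (Function.update (Function.update (fun i => [x].getD i []) 0 []) 1 x) (by
      rw [Function.update_of_ne (by omega), Function.update_of_ne (by omega)]
      simp)
  rw [Function.update_self] at h2
  have e1 : Function.update (Function.update (Function.update (Function.update
      (fun i => [x].getD i []) 0 []) 1 x) 0 (str x ++ (Function.update (Function.update
      (fun i => [x].getD i []) 0 []) 1 x) 0)) 1 [] = st (str x ++ []) := by
    funext m
    unfold st
    by_cases hm1 : m = 1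
    · subst hm1
      rw [Function.update_self, if_neg (by omega)]
    · rw [Function.update_of_ne hm1]
      by_cases hm : m = 0
      · subst hm
        rw [Function.update_self, if_pos rfl, Function.update_of_ne (by omega),
          Function.update_self]
      · rw [Function.update_of_ne hm, Function.update_of_ne hm1, Function.update_of_ne hm,
          if_neg hm]
        obtain ⟨k, rfl⟩ := Nat.exists_eq_succ_of_ne_zero hm
        simp
  rw [e1] at h2
  have h3 := hP A rfl x []
  have h4 := exec_decode A (i := 1) (c := 2) (f := 3) (by omega) (by omega) (by omega) (by omega)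
    (by omega) (by omega) (st (str (f x) ++ [])) (f x) [] rfl rfl rfl rfl
  obtain ⟨t, ht, t1, t2, t3⟩ := exec_moveAll A (i := 1) (j := 2) (by omega)
    (Function.update (Function.update (st (str (f x) ++ [])) 0 []) 1 (f x))
  obtain ⟨u, hu, u1, u2, u3⟩ := exec_moveAll A (i := 2) (j := 0) (by omega) t
  have t2' : t 2 = (f x).reverse := by
    rw [t2, Function.update_self, Function.update_of_ne (by omega),
      Function.update_of_ne (by omega)]
    simp [st]
  have t0 : t 0 = [] := by
    rw [t3 0 (by omega) (by omega), Function.update_of_ne (by omega), Function.update_self]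
  refine ⟨u, ?_, by rw [u2, t2', t0]; simp⟩
  apply run_of_exec
  refine (h1.seq (h2.seq (h3.seq (h4.seq (ht.seq hu))))).mono ?_
  rw [t2', Function.update_self, List.length_reverse]
  have h5 : (50 * Polynomial.X + 100 + Q.comp (4 * Polynomial.X + 1) +
      50 * R.comp (4 * Polynomial.X + 1) : Polynomial ℕ).eval x.length =
      50 * x.length + 100 + Q.eval (4 * x.length + 1) + 50 * R.eval (4 * x.length + 1) := by
    simp [Polynomial.eval_comp]
  rw [h5]
  have h6 := (Wrap_sz_word x).1
  have h7 := (Wrap_sz_word (f x)).2
  have h8 := (hN h6).trans (hQ _)
  have h9 := (hfg x).trans ((hg h6).trans (hR _))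
  omega

end Pool.Agent.H82.LM
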