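import Pool.Agent.H82.LM.YLex
import Pool.Agent.H82.LM.URange
import Pool.Agent.H82.LM.Iter

/-!
# Row YDel: the lexicographic event is in `Delta_2`

PROOF. Let `n = M.eval |x| + 1`. The NP oracle: `C A = {y | y = false :: adr π x with |π| ≤ n and
A (false :: i) ≠ A (true :: code x i) for some word i of length n which begins with π} ∪
{y | y = true :: adr i x, A (true :: code x i) = true}`, `code x i = adr (replicate e true) (adr x i)`.
`C ∈ SigF 1` (`sigF_of_OP 1`, block length `M + 1` evaluated at `|y|`, which is at least
`n = M.eval |x| + 1`, because `|x| ≤ |y|`): matrix on `[y, u]`: with `U = unadr y.tail`, `π = U.2.1`,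
`x = U.2.2`, `i = π ++ (u.take n).drop π.length`:
`U.1 && bif y.headD true then A (true :: code x π) else (decide (π.length ≤ n) &&
(A (false :: i) != A (true :: code x i)))` (for `y = []` take `headD true` and `U.1 = false`;
`|i| = n` when `|u.take n| = n` and `|π| ≤ n`; every `i` of length `n` beginning with `π` arises, from a
`u` beginning with `i`). `OP.ask`, `adr_poly`, `unadr_poly`, `poly_take`, `poly_drop`, `Poly.append`,
`Poly.polyEval`, `poly_replicateB` (or `Poly.const` for `replicate e true`), `Poly.natLe`,
`Poly.boolEq`.
The deterministic machine with the oracle `O = chi (C A)`: the function of `x`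
`π = (fun π => bif O (false :: adr (π ++ [false]) x) then π ++ [false] else π ++ [true])^[n] []`
(`OP.iterate` with the state `(π, x)`, size of `π` after `i` steps at most `4 * i + 1`) and
`ans = bif O (false :: adr [] x) then O (true :: adr π x) else O (true :: adr (replicate n true) x)`;
`OP.toProg 1` with `S = univ` gives a clocked machine for `xs ↦ ans (xs.headD [])`, so the family
`A ↦ {x | ans = true}` is in `DelF 2`.
Correctness: if some `i` of length `n` has `A (false :: i) ≠ A (true :: code x i)` (a difference), let
`i0` be the one with the least `bval`; by induction on `l ≤ n` the word after `l` steps is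
`i0.take l` (if there is a difference beginning with `π ++ [false]`, then `i0`, which begins with
`π`, must begin with `π ++ [false]`: a word of length `n` beginning with `π ++ [false]` has smaller
`bval` than one beginning with `π ++ [true]`; `bval (u ++ v) = bval u * 2 ^ v.length + bval v`,
`bval_lt`). So `π = i0` at the end, and the first alternative of `Lex` holds iff
`A (true :: code x i0) = true`. Otherwise only the second alternative is possible.
-/

set_option autoImplicit false

namespace Pool.Agent.H82.LM

open Pool.Agent.H9 Pool.Agent.H83 MeasureTheory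

/-- the code -/
private def YDel_code (e : ℕ) (x i : List Bool) : List Bool :=
  adr (List.replicate e true) (adr x i)

/-- the completion of a prefix -/
private def YDel_I (n : ℕ) (π u : List Bool) : List Bool := π ++ (u.take n).drop π.length

/-- the matrix, with the parts of the parsed word as arguments -/
private noncomputable def YDel_G (e : ℕ) (M : Polynomial ℕ) (A : Oracle) (b : Bool)
    (U : Bool × List Bool × List Bool) (u : List Bool) : Bool :=
  U.1 && bif b then A (true :: YDel_code e U.2.2 U.2.1) else
    (decide (U.2.1.length ≤ M.eval U.2.2.length + 1) &&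
      !(decide (A (false :: YDel_I (M.eval U.2.2.length + 1) U.2.1 u) =
        A (true :: YDel_code e U.2.2 (YDel_I (M.eval U.2.2.length + 1) U.2.1 u)))))

/-- the matrix -/
private noncomputable def YDel_F (e : ℕ) (M : Polynomial ℕ) (A : Oracle) (xs : List (List Bool)) :
    Bool :=
  YDel_G e M A ((xs.headD []).headD true) (unadr (xs.headD []).tail) (xs.tail.headD [])

private theorem YDel_F_OP (e : ℕ) (M : Polynomial ℕ) : OP Set.univ (YDel_F e M) := by
  have hy : Poly (fun xs : List (List Bool) => xs.headD []) := Poly.headD [] Poly.id
  have hu : Poly (fun xs : List (List Bool) => xs.tail.headD []) := Poly.headD [] (Poly.tail Poly.id)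
  have hb : Poly (fun xs : List (List Bool) => (xs.headD []).headD true) := Poly.headD true hy
  have hU : Poly (fun xs : List (List Bool) => unadr (xs.headD []).tail) :=
    unadr_poly.comp (Poly.tail hy)
  have hU1 : Poly (fun xs : List (List Bool) => (unadr (xs.headD []).tail).1) := Poly.fst' hU
  have hπ : Poly (fun xs : List (List Bool) => (unadr (xs.headD []).tail).2.1) :=
    Poly.fst' (Poly.snd' hU)
  have hx : Poly (fun xs : List (List Bool) => (unadr (xs.headD []).tail).2.2) :=
    Poly.snd' (Poly.snd' hU)
  have hn : Poly (fun xs : List (List Bool) => M.eval (unadr (xs.headD []).tail).2.2.length + 1) :=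
    Poly.succ (Poly.polyEval M (Poly.length hx))
  have hI : Poly (fun xs : List (List Bool) => YDel_I (M.eval (unadr (xs.headD []).tail).2.2.length + 1)
      (unadr (xs.headD []).tail).2.1 (xs.tail.headD [])) :=
    Poly.append hπ (poly_drop (poly_take hu hn) (Poly.length hπ))
  have hcode : ∀ {i : List (List Bool) → List Bool}, Poly i →
      Poly (fun xs : List (List Bool) =>
        true :: YDel_code e (unadr (xs.headD []).tail).2.2 (i xs)) := fun hi =>
    Poly.cons (Pool.Agent.H83.Poly.const true)
      (adr_poly (Pool.Agent.H83.Poly.const (List.replicate e true)) (adr_poly hx hi))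
  have h1 : OP Set.univ (fun (A : Oracle) (xs : List (List Bool)) =>
      A (true :: YDel_code e (unadr (xs.headD []).tail).2.2 (unadr (xs.headD []).tail).2.1)) :=
    OP.ask (OP.of_poly (hcode hπ) Set.univ)
  have h2 : OP Set.univ (fun (A : Oracle) (xs : List (List Bool)) =>
      A (true :: YDel_code e (unadr (xs.headD []).tail).2.2
        (YDel_I (M.eval (unadr (xs.headD []).tail).2.2.length + 1)
      (unadr (xs.headD []).tail).2.1 (xs.tail.headD [])))) :=
    OP.ask (OP.of_poly (hcode hI) Set.univ)
  have h3 : OP Set.univ (fun (A : Oracle) (xs : List (List Bool)) =>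
      A (false :: (YDel_I (M.eval (unadr (xs.headD []).tail).2.2.length + 1)
      (unadr (xs.headD []).tail).2.1 (xs.tail.headD [])))) :=
    OP.ask (OP.of_poly (Poly.cons (Pool.Agent.H83.Poly.const false) hI) Set.univ)
  have h4 := OP.map (g := fun p : Bool × Bool => decide (p.1 = p.2))
    (Poly.boolEq Poly.fst Poly.snd) (h3.pair h2)
  have h5 : OP Set.univ (fun (_ : Oracle) (xs : List (List Bool)) =>
      decide ((unadr (xs.headD []).tail).2.1.length ≤
        M.eval (unadr (xs.headD []).tail).2.2.length + 1)) :=
    OP.of_poly (Poly.natLe (Poly.length hπ) hn) Set.univ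
  exact OP.and (OP.of_poly hU1 Set.univ) (OP.cond (OP.of_poly hb Set.univ) h1 (OP.and h5 h4.not))

/-- the oracle family -/
private def YDel_C (e : ℕ) (M : Polynomial ℕ) : Fam := fun A =>
  {y : List Bool | Alt true 1 ((M + 1).eval y.length) (fun us => YDel_F e M A (y :: us) = true)}

private theorem YDel_C_mem (e : ℕ) (M : Polynomial ℕ) : YDel_C e M ∈ SigF 1 :=
  sigF_of_OP 1 (M + 1) (YDel_F_OP e M)

private theorem YDel_C1 (e : ℕ) (M : Polynomial ℕ) (A : Oracle) (x i : List Bool) :
    true :: adr i x ∈ YDel_C e M A ↔ A (true :: YDel_code e x i) = true := by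
  show (∃ u : List Bool, u.length = (M + 1).eval (true :: adr i x).length ∧
    YDel_G e M A true (unadr (adr i x)) u = true) ↔ _
  have h : ∀ u, YDel_G e M A true (unadr (adr i x)) u = A (true :: YDel_code e x i) := by
    intro u
    rw [unadr_adr]
    simp only [YDel_G, cond_true, Bool.true_and]
  constructor
  · rintro ⟨u, _, hu⟩
    rwa [h] at hu
  · intro hA
    exact ⟨List.replicate _ true, List.length_replicate, by rw [h]; exact hA⟩

private theorem YDel_C2 (e : ℕ) (M : Polynomial ℕ) (A : Oracle) (x π : List Bool) :
    false :: adr π x ∈ YDel_C e M A ↔ ∃ i : List Bool, i.length = M.eval x.length + 1 ∧ π <+: i ∧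
      A (false :: i) ≠ A (true :: YDel_code e x i) := by
  show (∃ u : List Bool, u.length = (M + 1).eval (false :: adr π x).length ∧
    YDel_G e M A false (unadr (adr π x)) u = true) ↔ _
  have h : ∀ u, YDel_G e M A false (unadr (adr π x)) u = true ↔
      π.length ≤ M.eval x.length + 1 ∧ A (false :: YDel_I (M.eval x.length + 1) π u) ≠
        A (true :: YDel_code e x (YDel_I (M.eval x.length + 1) π u)) := by
    intro u
    rw [unadr_adr]
    simp only [YDel_G, cond_false, Bool.true_and, Bool.and_eq_true, decide_eq_true_eq,
      Bool.not_eq_true', decide_eq_false_iff_not, ne_eq]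
  have hm : (M + 1).eval (false :: adr π x).length = M.eval (false :: adr π x).length + 1 := by
    rw [Polynomial.eval_add, Polynomial.eval_one]
  have hle : M.eval x.length + 1 ≤ (M + 1).eval (false :: adr π x).length := by
    rw [hm]
    have h1 : x.length ≤ (false :: adr π x).length := by
      rw [List.length_cons, length_adr]
      omega
    have := poly_mono M h1
    omega
  constructor
  · rintro ⟨u, hu, h1⟩
    obtain ⟨h2, h3⟩ := (h u).1 h1
    refine ⟨_, ?_, ?_, h3⟩
    · rw [YDel_I, List.length_append, List.length_drop, List.length_take, hu]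
      omega
    · exact List.prefix_append _ _
  · rintro ⟨i, hi, ⟨r, rfl⟩, h3⟩
    rw [List.length_append] at hi
    refine ⟨(π ++ r) ++ List.replicate ((M + 1).eval (false :: adr π x).length -
      (M.eval x.length + 1)) true, ?_, ?_⟩
    · rw [List.length_append, List.length_append, List.length_replicate]
      omega
    · rw [h]
      refine ⟨by omega, ?_⟩
      have h4 : YDel_I (M.eval x.length + 1) π ((π ++ r) ++ List.replicate
          ((M + 1).eval (false :: adr π x).length - (M.eval x.length + 1)) true) = π ++ r := by
        have h5 : M.eval x.length + 1 = (π ++ r).length := by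
          rw [List.length_append]
          omega
        rw [YDel_I, h5, List.take_left, List.drop_left]
      rw [h4]
      exact h3

/-- one step of the search -/
private def YDel_step (O : Oracle) (s : List Bool × List Bool) : List Bool × List Bool :=
  (bif O (false :: adr (s.1 ++ [false]) s.2) then s.1 ++ [false] else s.1 ++ [true], s.2)

/-- the word found by the search -/
private noncomputable def YDel_w (M : Polynomial ℕ) (O : Oracle) (x : List Bool) : List Bool :=
  ((YDel_step O)^[M.eval x.length + 1] (([] : List Bool), x)).1

/-- the answer -/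
private noncomputable def YDel_ans (M : Polynomial ℕ) (O : Oracle) (x : List Bool) : Bool :=
  bif O (false :: adr [] x) then O (true :: adr (YDel_w M O x) x)
    else O (true :: adr (List.replicate (M.eval x.length + 1) true) x)

private theorem YDel_iter (O : Oracle) (x : List Bool) : ∀ (i : ℕ) (π : List Bool),
    ∃ π' : List Bool, (YDel_step O)^[i] (π, x) = (π', x) ∧ π'.length = π.length + i := by
  intro i
  induction i with
  | zero => exact fun π => ⟨π, rfl, rfl⟩
  | succ i ih =>
    intro π
    have h1 : ∃ b : Bool, YDel_step O (π, x) = (π ++ [b], x) := by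
      unfold YDel_step
      cases O (false :: adr ((π, x).1 ++ [false]) (π, x).2)
      · exact ⟨true, rfl⟩
      · exact ⟨false, rfl⟩
    obtain ⟨b, hb⟩ := h1
    obtain ⟨π', h2, h3⟩ := ih (π ++ [b])
    refine ⟨π', ?_, ?_⟩
    · rw [Function.iterate_succ_apply, hb, h2]
    · rw [h3, List.length_append, List.length_singleton]
      omega

private theorem YDel_sz (w : List Bool) : sz w ≤ 4 * w.length + 1 := by
  induction w with
  | nil => exact le_rfl
  | cons b w ih =>
    rw [Poly.sz_cons, List.length_cons]
    have := Poly.sz_bool b
    omega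

private theorem YDel_w_OP (M : Polynomial ℕ) : OP Set.univ (fun (O : Oracle) (x : List Bool) =>
    YDel_w M O x) := by
  have hstep : OP Set.univ (fun (O : Oracle) (s : List Bool × List Bool) => YDel_step O s) :=
    OP.pair (OP.cond (OP.ask (OP.of_poly (Poly.cons (Pool.Agent.H83.Poly.const false)
      (adr_poly (Poly.append Poly.fst (Pool.Agent.H83.Poly.const [false])) Poly.snd)) Set.univ))
      (OP.of_poly (Poly.append Poly.fst (Pool.Agent.H83.Poly.const [false])) Set.univ)
      (OP.of_poly (Poly.append Poly.fst (Pool.Agent.H83.Poly.const [true])) Set.univ))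
      (OP.of_poly Poly.snd Set.univ)
  have hn : OP Set.univ (fun (_ : Oracle) (x : List Bool) => M.eval x.length + 1) :=
    OP.of_poly (Poly.succ (Poly.polyEval M (Poly.length Poly.id))) Set.univ
  have hs : OP Set.univ (fun (_ : Oracle) (x : List Bool) => (([] : List Bool), x)) :=
    OP.of_poly ((Pool.Agent.H83.Poly.const []).pair Poly.id) Set.univ
  refine OP.fst' (OP.iterate hn hs hstep (fun k => 4 * (M.eval k + 1) + 1 + k + 1)
    ((((((PB.const 4).mul ((PB.poly M).add (PB.const 1))).add (PB.const 1)).add PB.id)).add
      (PB.const 1)) ?_)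
  intro O _ x i hi
  obtain ⟨π', h1, h2⟩ := YDel_iter O x i []
  rw [h1, Poly.sz_pair]
  have h3 := YDel_sz π'
  have h4 : M.eval x.length ≤ M.eval (sz x) := poly_mono M (Poly.length_le_sz x)
  rw [List.length_nil, Nat.zero_add] at h2
  omega

private theorem YDel_ans_OP (M : Polynomial ℕ) : OP Set.univ (fun (O : Oracle) (x : List Bool) =>
    YDel_ans M O x) := by
  have hcons : ∀ (b : Bool) {f : Oracle → List Bool → List Bool}, OP Set.univ f →
      OP Set.univ (fun (O : Oracle) (x : List Bool) => O (b :: adr (f O x) x)) := fun b f hf =>
    OP.ask (OP.map (g := fun p : List Bool × List Bool => b :: adr p.1 p.2)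
      (Poly.cons (Pool.Agent.H83.Poly.const b) (adr_poly Poly.fst Poly.snd))
      (hf.pair (OP.of_poly Poly.id Set.univ)))
  exact OP.cond (hcons false (OP.const [])) (hcons true (YDel_w_OP M))
    (hcons true (OP.of_poly (poly_replicateB true
      (Poly.succ (Poly.polyEval M (Poly.length Poly.id)))) Set.univ))

private theorem YDel_bval (π r r0 : List Bool) (h : r.length = r0.length) :
    bval (π ++ false :: r) < bval (π ++ true :: r0) := by
  induction π with
  | nil =>
    show bval (false :: r) < bval (true :: r0)
    have h1 := bval_lt r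
    rw [bval, bval, h] at *
    simp only [Bool.toNat_false, Bool.toNat_true, zero_mul, one_mul]
    omega
  | cons b π ih =>
    show bval (b :: (π ++ false :: r)) < bval (b :: (π ++ true :: r0))
    rw [bval, bval]
    have h2 : (π ++ false :: r).length = (π ++ true :: r0).length := by
      simp only [List.length_append, List.length_cons, h]
    rw [h2]
    omega

private theorem YDel_chi {L : Set (List Bool)} {w : List Bool} : chi L w = true ↔ w ∈ L := by
  classical
  unfold chi
  exact decide_eq_true_iff

private theorem YDel_search (e : ℕ) (M : Polynomial ℕ) (A : Oracle) (x i0 : List Bool)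
    (h0 : i0.length = M.eval x.length + 1)
    (hd : A (false :: i0) ≠ A (true :: YDel_code e x i0))
    (hmin : ∀ i : List Bool, i.length = M.eval x.length + 1 →
      A (false :: i) ≠ A (true :: YDel_code e x i) → bval i0 ≤ bval i) :
    ∀ l ≤ M.eval x.length + 1, (YDel_step (chi (YDel_C e M A)))^[l] (([] : List Bool), x) =
      (i0.take l, x) := by
  intro l
  induction l with
  | zero => exact fun _ => by simp
  | succ l ih =>
    intro hl
    rw [Function.iterate_succ_apply', ih (by omega)]
    have hlt : l < i0.length := by omega
    have h1 : i0.take (l + 1) = i0.take l ++ [i0[l]] := List.take_succ_eq_append_getElem hlt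
    have h2 : i0 = i0.take l ++ i0[l] :: i0.drop (l + 1) := by
      rw [← List.drop_eq_getElem_cons hlt, List.take_append_drop]
    rw [h1]
    unfold YDel_step
    cases hb : i0[l] with
    | false =>
      have h3 : chi (YDel_C e M A) (false :: adr (i0.take l ++ [false]) x) = true := by
        rw [YDel_chi, YDel_C2]
        refine ⟨i0, h0, ?_, hd⟩
        rw [← hb, ← h1]
        exact List.take_prefix _ _
      simp only [h3, cond_true]
    | true =>
      have h3 : ¬ chi (YDel_C e M A) (false :: adr (i0.take l ++ [false]) x) = true := by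
        rw [YDel_chi, YDel_C2]
        rintro ⟨i, hi, ⟨r, hr⟩, hid⟩
        have h4 := hmin i hi hid
        rw [hb] at h2
        have h5 : i = i0.take l ++ false :: r := by
          rw [← hr, List.append_assoc]
          rfl
        have h6 : r.length = (i0.drop (l + 1)).length := by
          rw [h5, List.length_append, List.length_cons, List.length_take] at hi
          rw [List.length_drop]
          omega
        have h7 := YDel_bval (i0.take l) r (i0.drop (l + 1)) h6
        rw [← h5, ← h2] at h7
        omega
      rw [Bool.not_eq_true] at h3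
      simp only [h3, cond_false]

private theorem YDel_correct (e : ℕ) (M : Polynomial ℕ) (A : Oracle) (x : List Bool) :
    ((fun w => A (false :: w)) ∈ Lex (M.eval x.length + 1)
      (fun i => A (true :: YDel_code e x i))) ↔ YDel_ans M (chi (YDel_C e M A)) x = true := by
  classical
  by_cases hex : ∃ i : List Bool, i.length = M.eval x.length + 1 ∧
      A (false :: i) ≠ A (true :: YDel_code e x i)
  · obtain ⟨i0, ⟨h0, hd⟩, hmin⟩ : ∃ i0 : List Bool, (i0.length = M.eval x.length + 1 ∧
        A (false :: i0) ≠ A (true :: YDel_code e x i0)) ∧ ∀ i : List Bool,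
        (i.length = M.eval x.length + 1 ∧
        A (false :: i) ≠ A (true :: YDel_code e x i)) → bval i0 ≤ bval i := by
      obtain ⟨i0, h1, h2⟩ := WellFounded.has_min (measure bval).wf
        {i : List Bool | i.length = M.eval x.length + 1 ∧
          A (false :: i) ≠ A (true :: YDel_code e x i)} hex
      exact ⟨i0, h1, fun i hi => not_lt.1 (h2 i hi)⟩
    have h1 := YDel_search e M A x i0 h0 hd (fun i hi hid => hmin i ⟨hi, hid⟩)
      (M.eval x.length + 1) le_rfl
    have h2 : YDel_w M (chi (YDel_C e M A)) x = i0 := by
      rw [YDel_w, h1, ← h0, List.take_length]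
    have h3 : chi (YDel_C e M A) (false :: adr [] x) = true := by
      rw [YDel_chi, YDel_C2]
      exact ⟨i0, h0, List.nil_prefix, hd⟩
    rw [YDel_ans, h3, cond_true, h2, YDel_chi, YDel_C1]
    constructor
    · rintro (⟨i, hi, hj, hne, hdi⟩ | ⟨hall, _⟩)
      · have h4 : bval i0 ≤ bval i := hmin i ⟨hi, hne⟩
        have h5 : i0 = i := by
          refine bval_inj (by rw [h0, hi]) (le_antisymm h4 ?_)
          by_contra hcon
          exact hd (hj i0 h0 (not_le.1 hcon))
        rw [h5]
        exact hdi
      · exact absurd (hall i0 h0) hd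
    · intro h4
      refine Or.inl ⟨i0, h0, fun j hj hlt => ?_, hd, h4⟩
      by_contra hcon
      exact absurd (hmin j ⟨hj, hcon⟩) (not_le.2 hlt)
  · have h3 : ¬ chi (YDel_C e M A) (false :: adr [] x) = true := by
      rw [YDel_chi, YDel_C2]
      rintro ⟨i, hi, _, hid⟩
      exact hex ⟨i, hi, hid⟩
    rw [Bool.not_eq_true] at h3
    rw [YDel_ans, h3, cond_false, YDel_chi, YDel_C1]
    constructor
    · rintro (⟨i, hi, hj, hne, hdi⟩ | ⟨_, h4⟩)
      · exact absurd ⟨i, hi, hne⟩ hex
      · exact h4
    · intro h4
      refine Or.inr ⟨fun i hi => ?_, h4⟩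
      by_contra hcon
      exact hex ⟨i, hi, hcon⟩

theorem lex_family (e : ℕ) (M : Polynomial ℕ) :
    (fun A : Oracle => {x : List Bool | (fun w => A (false :: w)) ∈ Lex (M.eval x.length + 1)
      (fun i => A (true :: adr (List.replicate e true) (adr x i)))}) ∈ DelF 2 := by
  have h1 : OP Set.univ (fun (O : Oracle) (xs : List (List Bool)) => YDel_ans M O (xs.headD [])) :=
    (YDel_ans_OP M).comp (OP.of_poly (Poly.headD [] Poly.id) Set.univ)
  obtain ⟨p, T, h2⟩ := OP.toProg 1 h1
  refine ⟨YDel_C e M, YDel_C_mem e M, T, p, fun A => (h2 A (Set.mem_univ _)).1, fun A x => ?_⟩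
  rw [(h2 (chi (YDel_C e M A)) (Set.mem_univ _)).2 [x] rfl]
  exact YDel_correct e M A x

end Pool.Agent.H82.LM
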