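import Pool.Agent.H82.LM.YDel
import Pool.Agent.H82.LM.UDel
import Pool.Agent.H82.LM.Fin

/-!
# An oracle relative to which all classes `L Delta_k^p`, `L Sigma_k^p` with `k ≥ 2` are equal
-/

set_option autoImplicit false

namespace Pool.Agent.H82.LM

open Pool.Agent.H9 Pool.Agent.H83 MeasureTheory

theorem Lex_congr {M : ℕ} {d d' : List Bool → Bool}
    (h : ∀ i : List Bool, i.length = M → d i = d' i) : Lex M d = Lex M d' := by
  have key : ∀ {d d' : List Bool → Bool}, (∀ i : List Bool, i.length = M → d i = d' i) →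
      Lex M d ⊆ Lex M d' := by
    intro d d' h Z hZ
    rcases hZ with ⟨i, hi, h1, h2, h3⟩ | ⟨h1, h2⟩
    · left
      exact ⟨i, hi, fun j hj hji => by rw [← h j hj]; exact h1 j hj hji, by rw [← h i hi]; exact h2,
        by rw [← h i hi]; exact h3⟩
    · right
      exact ⟨fun i hi => by rw [← h i hi]; exact h1 i hi, by rw [← h _ (by simp)]; exact h2⟩
  exact Set.Subset.antisymm (key h) (key fun i hi => (h i hi).symm)

theorem exists_collapse : ∃ Y : Oracle, ∀ k, LSigR Y k ⊆ LDelR Y 2 := by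
  obtain ⟨Y, hY⟩ := exists_Y
  refine ⟨Y, fun k => ?_⟩
  rintro L ⟨B, hB, rfl⟩
  obtain ⟨e, M, hloc, hdig⟩ := hY k B hB
  refine ⟨_, lex_family e M, ?_⟩
  have key : ∀ x : List Bool, mu.real {Z | x ∈ B (join Z Y)} =
      mu.real {Z | (fun w => (join Z Y) (false :: w)) ∈ Lex (M.eval x.length + 1)
        (fun i => (join Z Y) (true :: adr (List.replicate e true) (adr x i)))} := by
    intro x
    set m := mu.real {Z | x ∈ B (join Z Y)} with hm
    have hG : ∀ Z Z' : Oracle, (∀ w : List Bool, w.length ≤ M.eval x.length → Z w = Z' w) →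
        (Z ∈ {Z | x ∈ B (join Z Y)} ↔ Z' ∈ {Z | x ∈ B (join Z Y)}) := by
      intro Z Z' h
      exact hloc _ _ x (fun w hw => join_local Y h w hw)
    obtain ⟨N, hN⟩ := den hG
    have h2 : mu.real (Lex (M.eval x.length + 1) (fun i => dig m (bval i))) = m := by
      refine mu_lex _ measureReal_nonneg measureReal_le_one hN ?_
      have : 0 < 2 ^ (M.eval x.length + 1) := by positivity
      omega
    have h3 : {Z | (fun w => (join Z Y) (false :: w)) ∈ Lex (M.eval x.length + 1)
        (fun i => (join Z Y) (true :: adr (List.replicate e true) (adr x i)))} =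
        Lex (M.eval x.length + 1) (fun i => dig m (bval i)) := by
      ext Z
      have e2 : ∀ i : List Bool, i.length = M.eval x.length + 1 →
          (join Z Y) (true :: adr (List.replicate e true) (adr x i)) = dig m (bval i) :=
        fun i hi => hdig x i (by omega)
      exact Set.ext_iff.1 (Lex_congr e2) Z
    rw [h3, h2]
  ext s
  constructor
  · rintro ⟨x, k, n, rfl, hk, h⟩
    exact ⟨x, k, n, rfl, hk, by rw [key x] at h; exact h⟩
  · rintro ⟨x, k, n, rfl, hk, h⟩
    refine ⟨x, k, n, rfl, hk, ?_⟩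
    rw [key x]
    exact h

theorem LDelR_sub_LSigR (Y : Oracle) {k : ℕ} (hk : 2 ≤ k) : LDelR Y k ⊆ LSigR Y k := by
  rintro L ⟨B, hB, rfl⟩
  obtain ⟨m, rfl⟩ : ∃ m, k = m + 1 := ⟨k - 1, by omega⟩
  exact ⟨B, delF_sub_sigF (by omega) hB, rfl⟩

theorem exists_collapse' : ∃ Y : Oracle, ∀ k, 2 ≤ k →
    LDelR Y k = LDelR Y 2 ∧ LSigR Y k = LDelR Y 2 := by
  obtain ⟨Y, hY⟩ := exists_collapse
  refine ⟨Y, fun k hk => ⟨?_, ?_⟩⟩
  · exact Set.Subset.antisymm ((LDelR_sub_LSigR Y hk).trans (hY k)) (LDelR_mono Y hk)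
  · exact Set.Subset.antisymm (hY k) ((LDelR_mono Y hk).trans (LDelR_sub_LSigR Y hk))

end Pool.Agent.H82.LM
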