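import Pool.Agent.H82.LM.ClsB
import Pool.Agent.H82.LM.Meas1
import Pool.Agent.H82.LM.Parse
import Pool.Agent.H82.LM.Bval
import Pool.Agent.H9.Clos

/-!
# Row YFix: an oracle that stores the binary digits of all probabilities

PROOFS. `sigF_local_poly`: the proof of `sigF_local` (row ClsB) with the polynomial
`(X + C k * q) + T.comp (X + C k * q)`.
`exists_Y`: the set of families `⋃ k, SigF k` is countable (it is the range of a function of `k`, `q`,
`p`; `Prog` is `Countable`, `Polynomial ℕ` is countable as in `exists_enum`,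
Pool/Agent/H9/Classes.lean) and nonempty; let `g : ℕ → {B : Fam // ∃ k, B ∈ SigF k}` be surjective and
`M e` a polynomial given by `sigF_local_poly` for `g e`. Define an operator on oracles:
`Φ A w = decide ((unadr w).1 = true ∧ (unadr (unadr w).2.2).1 = true ∧ (M e).eval x.length ≤ i.length ∧
dig (mu.real {Z | x ∈ (g e).1 (join Z A)}) (bval i) = true)` with `e = (unadr w).2.1.length`,
`x = (unadr (unadr w).2.2).2.1`, `i = (unadr (unadr w).2.2).2.2`. It is contractive
(`Contr`, Pool/Agent/H9/Clos.lean): `w = adr b (adr x i)` (`adr_of_unadr`) has length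
`> i.length ≥ (M e).eval x.length` (`length_adr`), and for `A`, `A'` agreeing on words shorter than `w`
the oracles `join Z A`, `join Z A'` agree on words of length `≤ (M e).eval x.length`, so the two events
are equal. `Y = fixO Φ`, `fixO_eq`. Evaluate at `w = adr (replicate e true) (adr x i)` with `unadr_adr`.
-/

set_option autoImplicit false

namespace Pool.Agent.H82.LM

open Pool.Agent.H9 Pool.Agent.H83 MeasureTheory

open Classical in
/-- The `j`-th binary digit of a number `m` in `[0, 1]`; all digits of `1` are `1`. -/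
noncomputable def dig (m : ℝ) (j : ℕ) : Bool := decide (m = 1 ∨ ⌊(2 : ℝ) ^ (j + 1) * m⌋₊ % 2 = 1)

theorem sigF_local_poly {k : ℕ} {B : Fam} (hB : B ∈ SigF k) : ∃ M : Polynomial ℕ,
    ∀ (A A' : Oracle) (x : List Bool), (∀ w : List Bool, w.length ≤ M.eval x.length → A w = A' w) →
      (x ∈ B A ↔ x ∈ B A') := by
  obtain ⟨q, T, p, hp, hB⟩ := hB
  refine ⟨(Polynomial.X + Polynomial.C k * q) + T.comp (Polynomial.X + Polynomial.C k * q), ?_⟩
  intro A A' x hA
  have e : Polynomial.eval x.length ((Polynomial.X + Polynomial.C k * q) +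
      T.comp (Polynomial.X + Polynomial.C k * q)) =
      (x.length + k * q.eval x.length) + T.eval (x.length + k * q.eval x.length) := by
    simp [Polynomial.eval_comp]
  rw [e] at hA
  rw [hB, hB, Alt_eq, Alt_eq]
  apply AltL_congr
  intro us hus
  have hlen : us.length = k := by
    have h1 := congrArg List.length hus
    simpa using h1
  have h1 : (x :: us).length = k + 1 := by rw [List.length_cons, hlen]
  have h2 : totalLength (x :: us) = x.length + k * q.eval x.length := by
    simp only [totalLength, List.map_cons, List.sum_cons, hus, List.sum_replicate, smul_eq_mul]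
  rw [accepts_iff_of_halted (hp A _ h1), accepts_iff_of_halted (hp A' _ h1), h2]
  apply DTP.depends (dtp_acceptsIn p (x :: us) _ _ (by rw [h2]))
  intro w hw
  exact hA w hw

theorem YFix_countable : {B : Fam | ∃ k, B ∈ SigF k}.Countable := by
  have hc : Countable (Polynomial ℕ) := by
    rw [← Cardinal.mk_le_aleph0_iff]
    refine (Polynomial.cardinalMk_le_max (R := ℕ)).trans ?_
    simp
  refine (Set.countable_range (fun t : ℕ × Polynomial ℕ × Prog => (fun A : Oracle =>
    {x : List Bool | Alt true t.1 (t.2.1.eval x.length) (fun us => Accepts A t.2.2 (x :: us))}))).mono ?_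
  rintro B ⟨k, q, T, p, _, hB⟩
  refine ⟨(k, q, p), ?_⟩
  funext A
  ext x
  exact (hB A x).symm

open Classical in
/-- The operator of which the oracle is the fixpoint. -/
noncomputable def YFix_op (g : ℕ → Fam) (M : ℕ → Polynomial ℕ) (A : Oracle) (w : List Bool) : Bool :=
  decide ((unadr w).1 = true ∧ (unadr (unadr w).2.2).1 = true ∧
    (M (unadr w).2.1.length).eval (unadr (unadr w).2.2).2.1.length ≤ (unadr (unadr w).2.2).2.2.length ∧
    dig (mu.real {Z | (unadr (unadr w).2.2).2.1 ∈ g (unadr w).2.1.length (join Z A)})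
      (bval (unadr (unadr w).2.2).2.2) = true)

theorem YFix_contr {g : ℕ → Fam} {M : ℕ → Polynomial ℕ}
    (hM : ∀ (e : ℕ) (A A' : Oracle) (x : List Bool), (∀ w : List Bool, w.length ≤ (M e).eval x.length →
      A w = A' w) → (x ∈ g e A ↔ x ∈ g e A')) : Contr (YFix_op g M) := by
  intro A A' w h
  unfold YFix_op
  rw [decide_eq_decide]
  apply and_congr_right
  intro h1
  apply and_congr_right
  intro h2
  apply and_congr_right
  intro h3
  have hw := adr_of_unadr h1
  have hw2 := adr_of_unadr h2
  have hl1 := congrArg List.length hw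
  have hl2 := congrArg List.length hw2
  rw [length_adr] at hl1 hl2
  have h4 : {Z | (unadr (unadr w).2.2).2.1 ∈ g (unadr w).2.1.length (join Z A)} =
      {Z | (unadr (unadr w).2.2).2.1 ∈ g (unadr w).2.1.length (join Z A')} := by
    ext Z
    apply hM
    intro v hv
    match v, hv with
    | [], _ => rfl
    | false :: v, _ => rfl
    | true :: v, hv =>
      show A v = A' v
      apply h
      rw [List.length_cons] at hv
      omega
  rw [h4]

theorem exists_Y : ∃ Y : Oracle, ∀ (k : ℕ), ∀ B ∈ SigF k, ∃ (e : ℕ) (M : Polynomial ℕ),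
    (∀ (A A' : Oracle) (x : List Bool), (∀ w : List Bool, w.length ≤ M.eval x.length → A w = A' w) →
      (x ∈ B A ↔ x ∈ B A')) ∧
    ∀ x i : List Bool, M.eval x.length ≤ i.length →
      Y (adr (List.replicate e true) (adr x i)) = dig (mu.real {Z | x ∈ B (join Z Y)}) (bval i) := by
  by_cases hne : {B : Fam | ∃ k, B ∈ SigF k}.Nonempty
  · obtain ⟨g, hg⟩ := YFix_countable.exists_eq_range hne
    have hM0 : ∀ e, ∃ M : Polynomial ℕ, ∀ (A A' : Oracle) (x : List Bool),
        (∀ w : List Bool, w.length ≤ M.eval x.length → A w = A' w) → (x ∈ g e A ↔ x ∈ g e A') := by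
      intro e
      have h1 : g e ∈ {B : Fam | ∃ k, B ∈ SigF k} := by
        rw [hg]
        exact ⟨e, rfl⟩
      obtain ⟨k, hk⟩ := h1
      exact sigF_local_poly hk
    choose M hM using hM0
    refine ⟨fixO (YFix_op g M), ?_⟩
    intro k B hB
    have h1 : B ∈ Set.range g := by
      rw [← hg]
      exact ⟨k, hB⟩
    obtain ⟨e, rfl⟩ := h1
    refine ⟨e, M e, hM e, ?_⟩
    intro x i hxi
    have h2 := congrFun (fixO_eq (YFix_contr hM)) (adr (List.replicate e true) (adr x i))
    rw [← h2]
    unfold YFix_op
    simp only [unadr_adr, List.length_replicate]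
    simp [hxi]
  · refine ⟨fun _ => false, ?_⟩
    intro k B hB
    exact absurd ⟨B, k, hB⟩ hne

end Pool.Agent.H82.LM
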