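import Pool.Agent.H82.LM.YFix
import Pool.Agent.H82.LM.Meas2

/-!
# Row YLex: the lexicographic event has the prescribed probability

PROOFS. Let `n = 2 ^ M`, and for `t < n` let `e t` be the word of length `M` with `bval (e t) = t`
(`bval_surj`, `bval_inj`, `bval_lt`), `δ t = dig m t`. The event `Lex M δ'` with `δ' i = dig m (bval i)`
is the disjoint union of the events `E_t = {Z | (∀ s < t, Z (e s) = δ s) ∧ Z (e t) = !(δ t)}` for the
`t < n` with `δ t = true`, and of `E = {Z | ∀ s < n, Z (e s) = δ s}` if `δ (n - 1) = true` (the word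
`replicate M true` has value `n - 1`). By `mu_fix` (with `R = ∅`, `G = univ`, constant `F`) the
probabilities are `(1/2)^(t+1)` and `(1/2)^n`.
`sum_digits`: for `0 ≤ m ≤ 1`, `m = N / 2^D`, `D < n`:
`∑ t in range n, (if dig m t then (1/2)^(t+1) else 0) + (if dig m (n-1) then (1/2)^n else 0) = m`. If
`m = 1` all digits are `true` (geometric sum). If `m < 1`: by induction on `l`,
`∑ t in range l, (if dig m t then (1/2)^(t+1) else 0) = ⌊2^l m⌋₊ / 2^l` (for `l = 0` it is
`⌊m⌋₊ = 0`; step: `⌊2^(l+1) m⌋₊ = 2 ⌊2^l m⌋₊ + (its value mod 2)`, as `⌊2 y⌋₊ / 2 = ⌊y⌋₊`); for `l = n`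
the number `2^n m = N * 2^(n-D)` is an even natural number, so the sum is `m` and the last digit is
`false`.
`den`: `Dep` on the finset `R` of the `2^(M+1) - 1` words of length at most `M`: the event is the
disjoint union of the cylinders given by its patterns on `R`, each of measure `(1/2)^|R|` (`mu_fix` with
`R = ∅`, `S` the finset, constant `F`); the patterns are finitely many (e.g. index them by the
subsets `X` of `R`: the oracle `w ↦ decide (w ∈ X)`).
-/

set_option autoImplicit false

namespace Pool.Agent.H82.LM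

open Pool.Agent.H9 Pool.Agent.H83 MeasureTheory

/-- The event that the random number with the binary digits `Z i` (`|i| = M`, in lexicographic
order) is less than the number with the digits `d i`, or equal to it, if its last digit is `1`. -/
def Lex (M : ℕ) (d : List Bool → Bool) : Set Oracle :=
  {Z | (∃ i : List Bool, i.length = M ∧ (∀ j : List Bool, j.length = M → bval j < bval i →
      Z j = d j) ∧ Z i ≠ d i ∧ d i = true) ∨
    ((∀ i : List Bool, i.length = M → Z i = d i) ∧ d (List.replicate M true) = true)}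

private theorem YLex_geom (n : ℕ) :
    ∑ t ∈ Finset.range n, (1 / 2 : ℝ) ^ (t + 1) + (1 / 2 : ℝ) ^ n = 1 := by
  induction n with
  | zero => simp
  | succ n ih =>
    rw [Finset.sum_range_succ]
    have h1 : (1 / 2 : ℝ) ^ (n + 1) + (1 / 2 : ℝ) ^ (n + 1) = (1 / 2) ^ n := by
      rw [pow_succ]
      ring
    linarith

theorem sum_digits {m : ℝ} (h0 : 0 ≤ m) (h1 : m ≤ 1) {N D n : ℕ} (hm : m = N / 2 ^ D)
    (hD : D < n) : ∑ t ∈ Finset.range n, (if dig m t = true then (1 / 2 : ℝ) ^ (t + 1) else 0) +
      (if dig m (n - 1) = true then (1 / 2 : ℝ) ^ n else 0) = m := by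
  by_cases hm1 : m = 1
  · have hd : ∀ t, dig m t = true := by
      intro t
      unfold dig
      rw [decide_eq_true_eq]
      exact Or.inl hm1
    simp only [hd, if_true]
    rw [YLex_geom, hm1]
  · have hlt : m < 1 := lt_of_le_of_ne h1 hm1
    have hd : ∀ t, dig m t = true ↔ ⌊(2 : ℝ) ^ (t + 1) * m⌋₊ % 2 = 1 := by
      intro t
      unfold dig
      rw [decide_eq_true_eq]
      exact ⟨fun h => h.resolve_left hm1, fun h => Or.inr h⟩
    have key : ∀ l : ℕ, ∑ t ∈ Finset.range l, (if dig m t = true then (1 / 2 : ℝ) ^ (t + 1) else 0) =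
        (⌊(2 : ℝ) ^ l * m⌋₊ : ℝ) / 2 ^ l := by
      intro l
      induction l with
      | zero =>
        rw [Finset.sum_range_zero, pow_zero, one_mul, Nat.floor_eq_zero.2 hlt]
        simp
      | succ l ih =>
        rw [Finset.sum_range_succ, ih]
        have h2 : ⌊(2 : ℝ) ^ l * m⌋₊ = ⌊(2 : ℝ) ^ (l + 1) * m⌋₊ / 2 := by
          rw [← Nat.floor_div_natCast]
          congr 1
          rw [pow_succ]
          push_cast
          ring
        have h3 : (⌊(2 : ℝ) ^ (l + 1) * m⌋₊ : ℝ) = 2 * (⌊(2 : ℝ) ^ l * m⌋₊ : ℝ) +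
            ((⌊(2 : ℝ) ^ (l + 1) * m⌋₊ % 2 : ℕ) : ℝ) := by
          have h4 : ⌊(2 : ℝ) ^ (l + 1) * m⌋₊ = 2 * ⌊(2 : ℝ) ^ l * m⌋₊ +
              ⌊(2 : ℝ) ^ (l + 1) * m⌋₊ % 2 := by
            rw [h2]
            omega
          exact_mod_cast h4
        rw [h3]
        by_cases h5 : ⌊(2 : ℝ) ^ (l + 1) * m⌋₊ % 2 = 1
        · rw [if_pos ((hd l).2 h5), h5, pow_succ, one_div, inv_pow, pow_succ]
          field_simp
          push_cast
          ring
        · have h6 : ⌊(2 : ℝ) ^ (l + 1) * m⌋₊ % 2 = 0 := by omega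
          rw [if_neg (fun h => h5 ((hd l).1 h)), h6, pow_succ]
          push_cast
          field_simp
          ring
    have hfl : ⌊(2 : ℝ) ^ n * m⌋₊ = N * 2 ^ (n - D) := by
      have h7 : (2 : ℝ) ^ n * m = ((N * 2 ^ (n - D) : ℕ) : ℝ) := by
        rw [hm]
        have h8 : (2 : ℝ) ^ n = 2 ^ D * 2 ^ (n - D) := by
          rw [← pow_add]
          congr 1
          omega
        rw [h8]
        push_cast
        field_simp
      rw [h7, Nat.floor_natCast]
    have hlast : dig m (n - 1) ≠ true := by
      intro h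
      rw [hd, show n - 1 + 1 = n by omega, hfl, show n - D = (n - D - 1) + 1 by omega, pow_succ,
        ← mul_assoc, Nat.mul_mod_left] at h
      exact absurd h (by norm_num)
    rw [if_neg hlast, key n, add_zero, hfl, hm]
    have h8 : (2 : ℝ) ^ n = 2 ^ D * 2 ^ (n - D) := by
      rw [← pow_add]
      congr 1
      omega
    rw [h8]
    push_cast
    field_simp

private theorem YLex_dep (R : Set (List Bool)) (b : Bool) : Dep R {_Z : Oracle | b = true} :=
  fun _ _ _ => Iff.rfl

private theorem YLex_rep (M : ℕ) : bval (List.replicate M true) = 2 ^ M - 1 := by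
  induction M with
  | zero => rfl
  | succ M ih =>
    rw [List.replicate_succ, bval, ih, List.length_replicate, pow_succ]
    have h1 : 1 ≤ 2 ^ M := Nat.one_le_two_pow
    have h2 : Bool.toNat true = 1 := rfl
    rw [h2]
    omega

private theorem YLex_cyl {n : ℕ} {e : ℕ → List Bool} (he : ∀ t < n, bval (e t) = t) (f : ℕ → Bool)
    {l : ℕ} (hl : l ≤ n) :
    MeasurableSet {Z : Oracle | ∀ s < l, Z (e s) = f s} ∧
      mu.real {Z : Oracle | ∀ s < l, Z (e s) = f s} = (1 / 2) ^ l := by
  classical
  have hS : ∀ Z : Oracle, (∀ s < l, Z (e s) = f s) ↔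
      ∀ w ∈ (Finset.range l).image e, Z w = f (bval w) := by
    intro Z
    constructor
    · intro h w hw
      obtain ⟨s, hs, rfl⟩ := Finset.mem_image.1 hw
      rw [Finset.mem_range] at hs
      rw [h s hs, he s (by omega)]
    · intro h s hs
      rw [h (e s) (Finset.mem_image_of_mem e (Finset.mem_range.2 hs)), he s (by omega)]
  have hdep : Dep (((Finset.range l).image e : Finset (List Bool)) : Set (List Bool))
      {Z : Oracle | ∀ s < l, Z (e s) = f s} := by
    intro Z Z' h
    simp only [Set.mem_ofPred_eq]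
    rw [hS, hS]
    apply forall₂_congr
    intro w hw
    rw [h w (Finset.mem_coe.2 hw)]
  refine ⟨hdep.measurableSet, ?_⟩
  have h1 := mu_fix (R := ∅) (S := (Finset.range l).image e) (Finset.disjoint_empty_left _)
    (F := fun _ w => f (bval w)) (G := Set.univ) (fun w _ => YLex_dep _ _) (fun _ _ _ => Iff.rfl)
  have h2 : {Z : Oracle | (∀ w ∈ (Finset.range l).image e, Z w = f (bval w)) ∧
      Z ∈ (Set.univ : Set Oracle)} = {Z : Oracle | ∀ s < l, Z (e s) = f s} := by
    ext Z
    simp only [Set.mem_ofPred_eq, Set.mem_univ, and_true]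
    exact (hS Z).symm
  rw [h2, probReal_univ, mul_one, Finset.card_image_of_injOn, Finset.card_range] at h1
  · exact h1
  · intro a ha b hb hab
    rw [Finset.mem_coe, Finset.mem_range] at ha hb
    have h3 := congrArg bval hab
    rwa [he a (by omega), he b (by omega)] at h3

theorem mu_lex (M : ℕ) {m : ℝ} (h0 : 0 ≤ m) (h1 : m ≤ 1) {N D : ℕ} (hm : m = N / 2 ^ D)
    (hD : D < 2 ^ M) : mu.real (Lex M (fun i => dig m (bval i))) = m := by
  classical
  obtain ⟨n, hn⟩ : ∃ n, n = 2 ^ M := ⟨_, rfl⟩
  have hn1 : 1 ≤ n := by rw [hn]; exact Nat.one_le_two_pow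
  have hex : ∀ t : ℕ, ∃ l : List Bool, t < n → l.length = M ∧ bval l = t := by
    intro t
    by_cases ht : t < n
    · obtain ⟨l, hl⟩ := bval_surj (m := M) (N := t) (by omega)
      exact ⟨l, fun _ => hl⟩
    · exact ⟨[], fun h => absurd h ht⟩
  choose e he using hex
  have heb : ∀ t < n, bval (e t) = t := fun t ht => (he t ht).2
  have hel : ∀ i : List Bool, i.length = M → bval i < n ∧ e (bval i) = i := by
    intro i hi
    have h2 : bval i < n := by
      have := bval_lt i
      rw [hi] at this
      omega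
    refine ⟨h2, ?_⟩
    apply bval_inj
    · rw [(he _ h2).1, hi]
    · exact (he _ h2).2
  obtain ⟨A, hA⟩ : ∃ A : ℕ → Set Oracle, A = fun t => if dig m t = true then
      {Z : Oracle | ∀ s < t + 1, Z (e s) = if s = t then !(dig m t) else dig m s} else ∅ :=
    ⟨_, rfl⟩
  obtain ⟨B, hB⟩ : ∃ B : Set Oracle, B = if dig m (n - 1) = true then
      {Z : Oracle | ∀ s < n, Z (e s) = dig m s} else ∅ := ⟨_, rfl⟩
  have hAmem : ∀ (t : ℕ) (Z : Oracle), Z ∈ A t ↔ dig m t = true ∧
      (∀ s < t, Z (e s) = dig m s) ∧ Z (e t) = false := by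
    intro t Z
    rw [hA]
    by_cases ht : dig m t = true
    · simp only [ht, if_true, Set.mem_ofPred_eq, true_and]
      constructor
      · intro h
        refine ⟨fun s hs => ?_, ?_⟩
        · have := h s (by omega)
          rwa [if_neg (by omega)] at this
        · have := h t (by omega)
          rwa [if_pos rfl] at this
      · rintro ⟨h, h'⟩ s hs
        by_cases hst : s = t
        · rw [if_pos hst, hst, h']
          rfl
        · rw [if_neg hst]
          exact h s (by omega)
    · simp [ht]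
  have hBmem : ∀ Z : Oracle, Z ∈ B ↔ dig m (n - 1) = true ∧ ∀ s < n, Z (e s) = dig m s := by
    intro Z
    rw [hB]
    by_cases ht : dig m (n - 1) = true
    · simp [ht]
    · simp [ht]
  have hLex : Lex M (fun i => dig m (bval i)) = (⋃ t ∈ Finset.range n, A t) ∪ B := by
    ext Z
    rw [Set.mem_union, Set.mem_iUnion₂, hBmem]
    simp only [Lex, Set.mem_ofPred_eq, Finset.mem_range]
    constructor
    · rintro (⟨i, hi, hlt, hne, ht⟩ | ⟨h, ht⟩)
      · left
        obtain ⟨h2, h3⟩ := hel i hi
        refine ⟨bval i, h2, (hAmem _ _).2 ⟨ht, fun s hs => ?_, ?_⟩⟩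
        · have := hlt (e s) (he s (by omega)).1 (by rw [heb s (by omega)]; exact hs)
          rwa [heb s (by omega)] at this
        · rw [h3]
          rw [ht] at hne
          simpa using hne
      · right
        rw [YLex_rep, ← hn] at ht
        refine ⟨ht, fun s hs => ?_⟩
        have := h (e s) (he s hs).1
        rwa [heb s hs] at this
    · rintro (⟨t, ht, hZ⟩ | ⟨ht, h⟩)
      · left
        obtain ⟨h2, h3, h4⟩ := (hAmem _ _).1 hZ
        refine ⟨e t, (he t ht).1, fun j hj hlt => ?_, ?_, ?_⟩
        · obtain ⟨h5, h6⟩ := hel j hj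
          rw [heb t ht] at hlt
          have := h3 (bval j) hlt
          rwa [h6] at this
        · rw [h4, heb t ht, h2]
          simp
        · rw [heb t ht]
          exact h2
      · right
        rw [YLex_rep, ← hn]
        refine ⟨fun i hi => ?_, ht⟩
        obtain ⟨h5, h6⟩ := hel i hi
        have := h (bval i) h5
        rwa [h6] at this
  have hAmeas : ∀ t < n, MeasurableSet (A t) ∧
      mu.real (A t) = if dig m t = true then (1 / 2 : ℝ) ^ (t + 1) else 0 := by
    intro t ht
    rw [hA]
    by_cases hd : dig m t = true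
    · obtain ⟨h2, h3⟩ := YLex_cyl heb (fun s => if s = t then !(dig m t) else dig m s)
        (l := t + 1) (by omega)
      simp only [hd, if_true] at h2 h3 ⊢
      exact ⟨h2, h3⟩
    · simp only [hd]
      exact ⟨MeasurableSet.empty, measureReal_empty⟩
  have hBmeas : MeasurableSet B ∧
      mu.real B = if dig m (n - 1) = true then (1 / 2 : ℝ) ^ n else 0 := by
    rw [hB]
    by_cases hd : dig m (n - 1) = true
    · obtain ⟨h2, h3⟩ := YLex_cyl heb (fun s => dig m s) (l := n) le_rfl
      simp only [hd, if_true]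
      exact ⟨h2, h3⟩
    · simp only [hd]
      exact ⟨MeasurableSet.empty, measureReal_empty⟩
  have hdisjA : Set.PairwiseDisjoint (↑(Finset.range n)) A := by
    have key : ∀ s t : ℕ, s < t → Disjoint (A s) (A t) := by
      intro s t hst
      rw [Set.disjoint_left]
      intro Z h2 h3
      obtain ⟨a1, -, a3⟩ := (hAmem _ _).1 h2
      obtain ⟨-, b2, -⟩ := (hAmem _ _).1 h3
      have := b2 s hst
      rw [a3, a1] at this
      exact absurd this (by simp)
    intro s _ t _ hst
    rcases lt_or_gt_of_ne hst with h | h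
    · exact key s t h
    · exact (key t s h).symm
  have hdisjB : Disjoint (⋃ t ∈ Finset.range n, A t) B := by
    rw [Set.disjoint_left]
    intro Z h2 h3
    rw [Set.mem_iUnion₂] at h2
    obtain ⟨t, ht, h2⟩ := h2
    rw [Finset.mem_range] at ht
    obtain ⟨a1, -, a3⟩ := (hAmem _ _).1 h2
    have := ((hBmem Z).1 h3).2 t ht
    rw [a3, a1] at this
    exact absurd this (by simp)
  rw [hLex, measureReal_union hdisjB hBmeas.1 (measure_ne_top _ _) (measure_ne_top _ _),
    measureReal_biUnion_finset hdisjA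
    (fun t ht => (hAmeas t (Finset.mem_range.1 ht)).1), hBmeas.2,
    Finset.sum_congr rfl (fun t ht => (hAmeas t (Finset.mem_range.1 ht)).2)]
  exact sum_digits h0 h1 hm (by omega)

theorem den {G : Set Oracle} {M : ℕ}
    (h : ∀ Z Z' : Oracle, (∀ w : List Bool, w.length ≤ M → Z w = Z' w) → (Z ∈ G ↔ Z' ∈ G)) :
    ∃ N : ℕ, mu.real G = N / 2 ^ (2 ^ (M + 1) - 1) := by
  classical
  obtain ⟨R, hR⟩ : ∃ R : Finset (List Bool), R = (Finset.range (M + 1)).biUnion strings := ⟨_, rfl⟩
  have hRmem : ∀ w, w ∈ R ↔ w.length ≤ M := by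
    intro w
    rw [hR, Finset.mem_biUnion]
    constructor
    · rintro ⟨a, ha, hw⟩
      rw [mem_strings] at hw
      rw [Finset.mem_range] at ha
      omega
    · intro hw
      exact ⟨w.length, Finset.mem_range.2 (by omega), mem_strings.2 rfl⟩
  have hcard : R.card = 2 ^ (M + 1) - 1 := by
    rw [hR, Finset.card_biUnion]
    · simp only [card_strings]
      have hgeo : ∀ n : ℕ, ∑ i ∈ Finset.range n, 2 ^ i = 2 ^ n - 1 := by
        intro n
        induction n with
        | zero => simp
        | succ n ih =>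
          rw [Finset.sum_range_succ, ih, pow_succ]
          have : 1 ≤ 2 ^ n := Nat.one_le_two_pow
          omega
      exact hgeo _
    · intro a _ b _ hab
      rw [Function.onFun, Finset.disjoint_left]
      intro w hw hw'
      rw [mem_strings] at hw hw'
      exact hab (hw.symm.trans hw')
  obtain ⟨P, hP⟩ : ∃ P : Finset (Finset (List Bool)),
      P = R.powerset.filter (fun X => (fun w => decide (w ∈ X)) ∈ G) := ⟨_, rfl⟩
  obtain ⟨C, hC⟩ : ∃ C : Finset (List Bool) → Set Oracle,
      C = fun X => {Z : Oracle | ∀ w ∈ R, Z w = decide (w ∈ X)} := ⟨_, rfl⟩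
  have hGC : G = ⋃ X ∈ P, C X := by
    ext Z
    rw [Set.mem_iUnion₂]
    constructor
    · intro hZ
      refine ⟨R.filter (fun w => Z w = true), ?_, ?_⟩
      · rw [hP, Finset.mem_filter, Finset.mem_powerset]
        refine ⟨Finset.filter_subset _ _, ?_⟩
        refine (h Z _ ?_).1 hZ
        intro w hw
        have h1 : w ∈ R := (hRmem w).2 hw
        simp [Finset.mem_filter, h1]
      · rw [hC]
        intro w hw
        simp [Finset.mem_filter, hw]
    · rintro ⟨X, hX, hZ⟩
      rw [hP, Finset.mem_filter] at hX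
      rw [hC] at hZ
      refine (h Z _ ?_).2 hX.2
      intro w hw
      exact hZ w ((hRmem w).2 hw)
  have hdepC : ∀ X, Dep (R : Set (List Bool)) (C X) := by
    intro X Z Z' hZ
    rw [hC]
    simp only [Set.mem_ofPred_eq]
    apply forall₂_congr
    intro w hw
    rw [hZ w (Finset.mem_coe.2 hw)]
  have hmuC : ∀ X, mu.real (C X) = (1 / 2) ^ (2 ^ (M + 1) - 1) := by
    intro X
    have h1 := mu_fix (R := ∅) (S := R) (Finset.disjoint_empty_left _)
      (F := fun _ w => decide (w ∈ X)) (G := Set.univ) (fun w _ => YLex_dep _ _)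
      (fun _ _ _ => Iff.rfl)
    have h2 : {Z : Oracle | (∀ w ∈ R, Z w = decide (w ∈ X)) ∧ Z ∈ (Set.univ : Set Oracle)} = C X := by
      rw [hC]
      ext Z
      simp only [Set.mem_ofPred_eq, Set.mem_univ, and_true]
    rw [h2, probReal_univ, mul_one, hcard] at h1
    exact h1
  have hdisj : Set.PairwiseDisjoint (↑P) C := by
    intro X hX Y hY hXY
    rw [Finset.mem_coe, hP, Finset.mem_filter, Finset.mem_powerset] at hX hY
    rw [Function.onFun, Set.disjoint_left]
    intro Z h1 h2
    rw [hC] at h1 h2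
    apply hXY
    ext w
    constructor
    · intro hw
      have h3 := h1 w (hX.1 hw)
      have h4 := h2 w (hX.1 hw)
      rw [h3] at h4
      simpa [hw] using h4
    · intro hw
      have h3 := h1 w (hY.1 hw)
      have h4 := h2 w (hY.1 hw)
      rw [h3] at h4
      simpa [hw] using h4
  refine ⟨P.card, ?_⟩
  rw [hGC, measureReal_biUnion_finset hdisj (fun X _ => (hdepC X).measurableSet),
    Finset.sum_congr rfl (fun X _ => hmuC X), Finset.sum_const, nsmul_eq_mul, one_div, inv_pow,
    div_eq_mul_inv]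

end Pool.Agent.H82.LM
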